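import Pool.Agent.Lib.D1W.F2

/-! For `2 ≤ Q ^ 2` the tiling is almost surely locally finite and connected at every level, and
two-sided exponential growth passes from one tile to all tiles. -/

open Set Filter MeasureTheory ProbabilityTheory Real
open scoped ENNReal Topology

namespace Pool.Agent.Lib.MP_d1f1b2_pr

variable {Ω : Type*} {mΩ : MeasurableSpace Ω} {P : Measure Ω} {h : Sq → Ω → ℝ} {Q : ℝ}

theorem high_prob (hh : CG h P gffCov) (hQ : 0 < Q) (hQ2 : 2 ≤ Q ^ 2) (l : ℝ) (U : Sq) :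
    ∃ B : ℝ, ∀ m : ℕ, 0 < (U.n + m) * log 2 - log 2 → ∀ a b, In m a b →
      P {ω | l + Q * ((U.n + m) * log 2) ≤ h (sub U m a b) ω} ≤
        ee (B - m * log 2 - log ((U.n + m) * log 2 - log 2) / 2) := by
  refine ⟨Q ^ 2 * (2 * log (max (‖U.center‖ + 2 * U.side) 1) + log 2) / 2 - Q * l - log Q -
    Q ^ 2 * (U.n * log 2) / 2, fun m hm a b hin => ?_⟩
  have hn : ((sub U m a b).n : ℝ) = U.n + m := by simp [sub]
  have h0 : (U.n + m) * log 2 - log 2 ≤ gffCov (sub U m a b) (sub U m a b) := by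
    have h1 := (abs_le.1 (kk_anc (sub U m a b) 0)).1
    rw [anc_zero, hn] at h1
    rw [gffCov_eq]
    linarith [cc_nonneg (sub U m a b)]
  refine (hh.mills _ hm h0 hQ _).trans (ee_mono ?_)
  have h1 := norm_center_anc (sub U m a b) m
  have h2 := side_le_anc (sub U m a b) m
  rw [anc_sub_self _ hin] at h1 h2
  have h3 := var_le (S := sub U m a b) (y := max (‖U.center‖ + 2 * U.side) 1)
    (le_max_right _ _) (le_max_of_le_left (by
      have := norm_le_norm_add_norm_sub' (sub U m a b).center U.center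
      have := side_pos (sub U m a b)
      unfold rad; linarith))
  have h4 := mul_le_mul_of_nonneg_left h3 (sq_nonneg Q)
  have h5 := mul_le_mul_of_nonneg_right hQ2 (nat_log_nonneg m)
  rw [hn] at h4
  nlinarith

theorem ae_LF (hh : CG h P gffCov) (hQ : 0 < Q) (hQ2 : 2 ≤ Q ^ 2) (l : ℝ) :
    ∀ᵐ ω ∂P, LF (DD Q (fun S => h S ω) l) := by
  refine ae_all_iff.2 fun U => ae_all_iff.2 fun σ => ?_
  obtain ⟨B, hB⟩ := high_prob hh hQ hQ2 l U
  have t1 : Tendsto (fun m : ℕ => ((U.n : ℝ) + m) * log 2 - log 2) atTop atTop :=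
    tendsto_atTop_add_const_right _ _ ((tendsto_atTop_add_const_left _ _
      tendsto_natCast_atTop_atTop).atTop_mul_const log2pos)
  have t2 := tendsto_ee_bot.comp (tendsto_atBot_add_const_left _ B (tendsto_neg_atTop_atBot.comp
    ((tendsto_log_atTop.comp t1).atTop_div_const two_pos)))
  rw [ae_iff]
  refine le_antisymm (ge_of_tendsto t2 ?_) zero_le
  filter_upwards [t1.eventually_gt_atTop 0] with m hm
  set f : ℤ → ℤ × ℤ := fun r => if σ.1 then (cor σ.2 m, r) else (r, cor σ.2 m) with hf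
  calc _ ≤ P (⋃ r ∈ Finset.Ico (0 : ℤ) (2 ^ m),
        {ω | l + Q * ((U.n + m) * log 2) ≤ h (sub U m (f r).1 (f r).2) ω}) :=
        measure_mono fun ω hω => by
          simp only [mem_ofPred_eq, not_exists, not_forall, not_not] at hω
          obtain ⟨a, b, ⟨a1, a2, a3, a4⟩, h1, h2⟩ := hω m
          have h3 := h2 0
          have hn : ((sub U m a b).n : ℝ) = U.n + m := by simp [sub]
          simp only [anc_zero, DD, lm, not_le, hn] at h3
          unfold onSide at h1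
          split_ifs at h1 with hσ
          · exact mem_iUnion₂.2 ⟨b, by simp [a3, a4], by
              simp only [hf, hσ, if_true, ← h1, mem_ofPred_eq]; linarith⟩
          · exact mem_iUnion₂.2 ⟨a, by simp [a1, a2], by
              simp only [hf, if_neg hσ, ← h1, mem_ofPred_eq]; linarith⟩
    _ ≤ ∑ r ∈ Finset.Ico (0 : ℤ) (2 ^ m),
        ee (B - m * log 2 - log ((U.n + m) * log 2 - log 2) / 2) := by
        refine (measure_biUnion_finset_le _ _).trans (Finset.sum_le_sum fun r hr => hB m hm _ _ ?_)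
        have h1 := Finset.mem_Ico.1 hr
        simp only [hf]
        split_ifs
        exacts [⟨cor_nonneg _ _, cor_lt _ _, h1.1, h1.2⟩, ⟨h1.1, h1.2, cor_nonneg _ _, cor_lt _ _⟩]
    _ ≤ _ := by
        rw [Finset.sum_const, nsmul_eq_mul, card_Ico2, ← ee_add]
        refine ee_mono (le_of_eq ?_)
        simp only [Function.comp]
        ring

theorem conn_as (hh : CG h P gffCov) (hQ : 0 < Q) (hQ2 : 2 ≤ Q ^ 2) (l : ℝ) :
    ∀ᵐ ω ∂P, ∃ N, tile (DD Q (fun S => h S ω) l) ⟨N, 0, 0⟩ ∧ ∀ S,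
      tile (DD Q (fun S => h S ω) l) S → ∃ t, Rk (DD Q (fun S => h S ω) l) t ⟨N, 0, 0⟩ S := by
  filter_upwards [ae_LF hh hQ hQ2 l, ae_Gd hh hQ] with ω h1 h2
  obtain ⟨N, hN⟩ := root_exists (h2.top' l) (h2.down l)
  exact ⟨N, hN, fun S hS => conn (h2.top' l) h1 hN hS⟩

variable {D : Sq → Prop}

theorem NB_le {S T : Sq} {t : ℕ} (h : Rk D t S T) (k : ℕ) : NB D k T ≤ NB D (t + k) S :=
  ENat.toENNReal_le.2 (encard_le_encard fun _ hU => h.trans hU)

theorem low_move {S T : Sq} {t r : ℕ} {c : ℝ} (hc : 0 < c) (h : Rk D t S T) (hT : LB c r D T) :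
    ∀ᶠ k : ℕ in atTop, ee (c / 2 * k) ≤ NB D k S := by
  filter_upwards [eventually_ge_atTop (2 * t + r)] with k hk
  obtain ⟨d, rfl⟩ := Nat.exists_eq_add_of_le (show t ≤ k by omega)
  refine le_trans (ee_mono ?_) ((hT d (by omega)).trans (NB_le h d))
  have : (t : ℝ) ≤ d := by exact_mod_cast (show t ≤ d by omega)
  push_cast
  nlinarith

theorem up_move {S T : Sq} {t : ℕ} {C : ℝ} (h : Rk D t S T)
    (hS : ∀ᶠ k : ℕ in atTop, NB D k S ≤ ee (C * k)) :
    ∀ᶠ k : ℕ in atTop, NB D k T ≤ ee (2 * |C| * k) := by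
  obtain ⟨r, hr⟩ := eventually_atTop.1 hS
  filter_upwards [eventually_ge_atTop (t + r)] with k hk
  refine (NB_le h k).trans ((hr _ (by omega)).trans (ee_mono ?_))
  have : (t : ℝ) ≤ k := by exact_mod_cast (show t ≤ k by omega)
  push_cast
  nlinarith [le_abs_self C, abs_nonneg C, t.cast_nonneg (α := ℝ)]

theorem ball_eq {G : SimpleGraph Sq} (hG : ∀ S T, G.Adj S T ↔ adj D S T) (S : Sq) (k : ℕ) :
    {T | G.edist S T ≤ k} = {T | Rk D k S T} := by
  ext T
  refine ⟨fun hT => ?_, fun hT => ?_⟩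
  · have h1 : G.Reachable S T := SimpleGraph.reachable_of_edist_ne_top
      (ne_top_of_le_ne_top (ENat.natCast_ne_top k) hT)
    refine (rk_of_reach hG h1).mono ?_
    have h2 : G.edist S T ≤ k := hT
    rw [← h1.coe_dist_eq_edist] at h2
    exact_mod_cast h2
  · have h1 := Rk.dist_le hG hT
    show G.edist S T ≤ k
    rw [← h1.1.coe_dist_eq_edist]
    exact_mod_cast h1.2

theorem ncard_bounds {s : Set Sq} {x y : ℝ} (h1 : ee x ≤ (s.encard : ℝ≥0∞))
    (h2 : (s.encard : ℝ≥0∞) ≤ ee y) : exp x ≤ s.ncard ∧ (s.ncard : ℝ) ≤ exp y := by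
  have hf : s.Finite := by
    by_contra hi
    rw [Set.Infinite.encard_eq hi] at h2
    exact ee_ne_top y (top_le_iff.1 h2)
  rw [← hf.cast_ncard_eq, ENat.toENNReal_coe, ← ENNReal.ofReal_natCast, ee] at h1 h2
  exact ⟨(ENNReal.ofReal_le_ofReal_iff (Nat.cast_nonneg _)).1 h1,
    (ENNReal.ofReal_le_ofReal_iff (exp_pos _).le).1 h2⟩

/-- two-sided growth about every tile from the two halves -/
theorem growth_of (hQ : 0 < Q) (hQ2 : 2 ≤ Q ^ 2) {c C : ℝ} {r : ℕ} (hc : 0 < c)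
    (hL : ∀ h : Sq → Ω → ℝ, CG h P gffCov → ∀ l, ∀ᵐ ω ∂P, ∃ T,
      tile (DD Q (fun S => h S ω) l) T ∧ LB c r (DD Q (fun S => h S ω) l) T)
    (hU : ∀ h : Sq → Ω → ℝ, CG h P gffCov → ∀ l, ∀ᵐ ω ∂P, ∀ N,
      tile (DD Q (fun S => h S ω) l) ⟨N, 0, 0⟩ → ∀ᶠ k : ℕ in atTop,
        NB (DD Q (fun S => h S ω) l) k ⟨N, 0, 0⟩ ≤ ee (C * k))
    (hG : IsGaussianProcess h P) (hmean : ∀ S, ∫ ω, h S ω ∂P = 0)
    (hcov : ∀ S T, cov[h S, h T; P] = gffCov S T) {ε : ℝ} (hε : 0 < ε) :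
    ∀ᵐ ω ∂P, (∃ S, IsTile Q ε (fun S => h S ω) S ∧ 0 ∈ S.carrier) ∧
      ∀ S, IsTile Q ε (fun S => h S ω) S → ∀ᶠ k : ℕ in atTop,
        exp (c / 2 * k) ≤ {T | (tiling Q ε fun S => h S ω).edist S T ≤ k}.ncard ∧
        ({T | (tiling Q ε fun S => h S ω).edist S T ≤ k}.ncard : ℝ) ≤ exp (2 * |C| * k) := by
  obtain ⟨h', hh, he⟩ := exists_CG_mk hG hmean hcov
  filter_upwards [he, hL h' hh (log ε), hU h' hh (log ε), conn_as hh hQ hQ2 (log ε)]
    with ω e ⟨T, t1, t2⟩ u ⟨N, n1, n2⟩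
  rw [e]
  refine ⟨⟨⟨N, 0, 0⟩, (isTile_iff hε _ _).2 n1, ?_⟩, fun S hS => ?_⟩
  · have := (side_pos ⟨N, 0, 0⟩).le
    simpa [Sq.carrier] using this
  rw [isTile_iff hε] at hS
  obtain ⟨a, ha⟩ := n2 S hS
  obtain ⟨b, hb⟩ := n2 T t1
  filter_upwards [low_move hc (ha.symm.trans hb) t2, up_move ha (u N n1)] with k k1 k2
  rw [ball_eq (tiling_adj hε _)]
  exact ncard_bounds k1 k2

end Pool.Agent.Lib.MP_d1f1b2_pr
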