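import Pool.Agent.Lib.D1W.Low

/-! Almost surely, at every level, some ball of the tiling grows exponentially. -/

open Set Filter MeasureTheory ProbabilityTheory Real
open scoped ENNReal Topology

namespace Pool.Agent.Lib.MP_d1f1b2_pr

namespace AT

/-- A binary tree of squares with a property. -/
def TA (J : ℕ) (A : Sq → Prop) : ℕ → Sq → Prop
  | 0, B => A B
  | n + 1, B => A B ∧ ∃ a b a' b', In J a b ∧ In J a' b' ∧ b ≠ b' ∧
      TA J A n (sub B J a b) ∧ TA J A n (sub B J a' b')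

theorem meas_TA (J n : ℕ) (B : Sq) : Measurable fun A => TA J A n B := by
  induction n generalizing B with
  | zero => exact meas_apply B
  | succ n ih =>
    exact (meas_apply B).and (Measurable.exists fun _ => Measurable.exists fun _ =>
      Measurable.exists fun _ => Measurable.exists fun _ => measurable_const.and
        (measurable_const.and (measurable_const.and ((ih _).and (ih _)))))

theorem TA.tr {J e n : ℕ} {A D : Sq → Prop} (hA : ∀ B, A B → alive D B ∧ Cor J e D B) {B : Sq}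
    (h : TA J A n B) : Tr J e D n B := by
  induction n generalizing B with
  | zero => exact hA B h
  | succ n ih =>
    obtain ⟨h0, a, b, a', b', h1, h2, h3, h4, h5⟩ := h
    exact ⟨hA B h0, a, b, a', b', h1, h2, h3, ih h4, ih h5⟩

theorem tr_LB' {D : Sq → Prop} {J e : ℕ} {B : Sq} (hT : Top D) (h : ∀ n, Tr J e D n B) :
    ∃ T, tile D T ∧ LB (log 2 / (2 * 2 ^ (J + e + 1))) (2 ^ (J + e + 1)) D T := by
  obtain ⟨k, hk⟩ := exists_tile hT ((h 0).2 0 0 (in_zero _) (Or.inl rfl))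
  refine ⟨_, hk, fun ρ hρ => ?_⟩
  set L := 2 ^ (J + e + 1) with hL
  have hL0 : 0 < L := by positivity
  obtain ⟨F, f1, f2⟩ := tr_grow hT (h (ρ / L)) hk
  have h1 : ρ ≤ 2 * L * (ρ / L) := by
    have := Nat.lt_mul_div_succ ρ hL0
    have := Nat.div_pos hρ hL0
    nlinarith
  calc ee (log 2 / (2 * 2 ^ (J + e + 1)) * ρ) ≤ ee ((ρ / L : ℕ) * log 2) := by
        refine ee_mono ?_
        have h2 : (ρ : ℝ) ≤ 2 * 2 ^ (J + e + 1) * (ρ / L : ℕ) := by exact_mod_cast h1
        rw [div_mul_eq_mul_div, div_le_iff₀ (by positivity)]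
        nlinarith [log2pos]
    _ ≤ (F.card : ℝ≥0∞) := by rw [ee_nat_mul, ee_log2]; exact_mod_cast f1
    _ ≤ NB D ρ _ := by
        rw [NB, ← ENat.toENNReal_coe, ← encard_coe_eq_coe_finsetCard]
        exact ENat.toENNReal_le.2 (encard_le_encard fun T hT =>
          (f2 T hT).1.mono (Nat.mul_div_le _ _))

variable {Q δ ε η η' u : ℝ} {C : Bool → ℝ} {i e : ℕ} {x : Sq → ℝ} {B : Sq} {y : Ix → ℝ}

theorem child (h : ∀ n, En Q δ ε C i e n y) (c : Bool × Bool) :
    Fc (slo Q δ c.1) (slo Q δ c.1 + δ + δ) (C c.1) i (fun z => ∀ n, En Q δ ε C i e n z)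
      fun k => y (ch (2, cor c.1 2, cor c.2 2) k) := by
  by_contra hn
  simp only [Fc, not_exists, not_and, not_forall] at hn
  have h1 : ∀ᶠ n in atTop, ∀ r ∈ box i, (xl (i + 2) fun k => y (ch (2, cor c.1 2, cor c.2 2) k)) ∈
      Cone (slo Q δ c.1) (slo Q δ c.1 + δ + δ) (C c.1) (i + 2) (r.1 * 2 ^ 2) (r.2 * 2 ^ 2) →
      ¬ En Q δ ε C i e n fun k =>
        y (ch (2, cor c.1 2, cor c.2 2) (ch (i + 2, r.1 * 2 ^ 2, r.2 * 2 ^ 2) k)) := by
    refine (Finset.eventually_all _).2 fun r hr => eventually_imp_distrib_left.2 fun hc => ?_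
    obtain ⟨n, hn⟩ := hn _ _ (mem_box.1 hr) hc
    exact eventually_atTop.2 ⟨n, fun k hk => Nat.le_induction hn (fun _ _ h1 h2 => h1 h2.pred) k hk⟩
  obtain ⟨n, hn⟩ := h1.exists
  obtain ⟨a, b, h1, h2, h3⟩ := (h (n + 1)).2 c
  exact hn (a, b) (mem_box.2 h1) h2 h3

theorem osc_down {J : ℕ} {a b : ℤ} (hin : In J a b) (h : Osc 0 η fun p => x (cl B p) - y (p, 0))
    (h' : Osc J ε fun p => y (p, 0) - y (p, J)) (hη : η * (3 / 4) ^ J + ε ≤ η') :
    Osc 0 η' fun p => x (cl (sub B J a b) p) - y (ch (J, a, b) (p, 0)) := fun d a' b' hin' => by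
  rw [zero_add] at hin' ⊢
  have hc := hin.cat hin'
  have h1 := h.at' (n := J + d) (zero_add _).symm hc
  have h2 := h'.at' (n := J + d) rfl hc
  have e1 : ∀ r r' : ℤ, (r * 2 ^ (d + 1) + r') / 2 = r * 2 ^ d + r' / 2 := fun r r' => by
    rw [pow_succ, ← mul_assoc]; omega
  have h3 := mul_le_mul_of_nonneg_right hη (show (0 : ℝ) ≤ (3 / 4) ^ d by positivity)
  simp only [← cl_ch hin B (_, 0), hin'.ch, hin'.par.ch, add_zero]
  simp only [e1, add_assoc J, pow_add (3 / 4 : ℝ)] at h1 h2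
  rw [abs_le] at *
  constructor <;> linarith [h1.1, h1.2, h2.1, h2.2]

/-- The state of the coarse field at a square of the tree. -/
structure Inw (Q δ ε : ℝ) (C : Bool → ℝ) (i e : ℕ) (η u : ℝ) (x : Sq → ℝ) (B : Sq) (y : Ix → ℝ) :
    Prop where
  up : ∀ k, u + ε ≤ lm Q x (anc B (k + 1))
  osc : Osc 0 η fun p => x (cl B p) - y (p, 0)
  en : ∀ n, En Q δ ε C i e n y

/-- The height of the coarse field above the level. -/
noncomputable def Lv (Q u : ℝ) (x : Sq → ℝ) (B : Sq) (y : Ix → ℝ) : ℝ :=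
  lm Q x B - y ((0, 0, 0), 0) - u

theorem Inw.lm (h : Inw Q δ ε C i e η u x B y) (hη : 0 ≤ η) {m : ℕ} {a b : ℤ} (hin : In m a b) :
    |lm Q x (sub B m a b) - u - Lv Q u x B y - (y ((m, a, b), 0) - Q * (m * log 2))| ≤ 4 * η := by
  have h1 := h.osc.tot hin
  have h2 : 0 ≤ 4 * η * (3 / 4) ^ m := by positivity
  simp only [hin.cl, (in_zero 0).cl, sub_zero'] at h1
  rw [lm_sub, Lv]
  rw [abs_le] at *
  constructor <;> linarith [h1.1, h1.2]

theorem Inw.top (h : Inw Q δ ε C i e η u x B y) (hη : 0 ≤ η) (hQ : 0 < Q)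
    (hQε : Q * (2 * log 2) ≤ ε) (hl : 4 * η + 4 * ε ≤ Lv Q u x B y) {m : ℕ} (hm : m ≤ 2) {a b : ℤ}
    (hin : In m a b) (k : ℕ) : u + ε ≤ MP_d1f1b2_pr.lm Q x (anc (sub B m a b) k) := by
  rcases le_or_gt k m with hk | hk
  · have h1 := abs_le.1 (h.lm hη (hin.div hk))
    obtain ⟨h2, h3⟩ := (h.en 0).1 (m - k) (by omega) _ _ (hin.div hk)
    rw [max_eq_right (by omega), abs_le] at h3
    rw [abs_le] at h2
    have h4 : ((m - k : ℕ) : ℝ) ≤ 2 := by exact_mod_cast (Nat.sub_le _ _).trans hm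
    have h5 := mul_le_mul_of_nonneg_left h4 (mul_pos hQ log2pos).le
    rw [anc_sub _ hk]
    linarith [h1.1, h2.1, h3.1]
  · obtain ⟨d, rfl⟩ := Nat.exists_eq_add_of_lt hk
    rw [add_assoc, ← anc_anc, anc_sub_self _ hin]
    exact h.up d

/-- The conditions on the constants. -/
structure Cst (Q δ ε : ℝ) (C : Bool → ℝ) (i : ℕ) : Prop where
  hQ : 0 < Q
  hε : 1 < ε
  hQε : Q * (2 * log 2) ≤ ε
  hδ : 0 < δ
  hm : δ * ((i + 2 : ℕ) * log 2) = 2 * ε
  hC : ∀ α, C α ≤ ε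

theorem Inw.step (h : Inw Q δ ε C i e η u x B y) (hc : Cst Q δ ε C i) (hη : 0 ≤ η)
    (hη' : η * (27 / 64) + ε / 2 ≤ η') (α β : Bool)
    (hα : 4 * η + (if α then 17 else 5) * ε ≤ Lv Q u x B y) :
    ∃ a b z, In (2 + (i + 2)) a b ∧ b / 2 ^ (i + 2) = cor β 2 ∧
      Inw Q δ ε C i e η' u x (sub B (2 + (i + 2)) a b) z ∧
      Lv Q u x B y - 4 * η + (if α then -15 else 5) * ε ≤ Lv Q u x (sub B (2 + (i + 2)) a b) z ∧
      Lv Q u x (sub B (2 + (i + 2)) a b) z ≤ Lv Q u x B y + 4 * η + (if α then -6 else 14) * ε := by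
  obtain ⟨hQ, hε, hQε, hδ, hm, hC⟩ := hc
  obtain ⟨a, b, hin, hG, hE⟩ := child h.en (α, β)
  replace hin := hin.four
  have hs := in_cor α β 2
  have hw := (h.en 0).ww
  have hc := hC α
  generalize a * 2 ^ 2 = a at *
  generalize b * 2 ^ 2 = b at *
  have hm1 : 1 ≤ i + 2 := by omega
  have hL := log2pos
  have hQ0 : 0 < Q * (2 * log 2) := by positivity
  simp only [ch_ch hin] at hE
  refine ⟨_, _, fun k => y (ch (2 + (i + 2), cor α 2 * 2 ^ (i + 2) + a, cor β 2 * 2 ^ (i + 2) + b) k),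
    hs.cat hin, ?_, ?_⟩
  · rw [div_eq_iff, add_mul]
    constructor <;> linarith [hin.2.2.1, hin.2.2.2]
  have top := h.top hη hQ hQε (by split_ifs at hα <;> linarith) le_rfl hs
  have osc := osc_down (η' := η') (hs.cat hin) h.osc hw.2.1 (by
    have : (3 / 4 : ℝ) ^ (2 + (i + 2)) ≤ (3 / 4) ^ 3 :=
      pow_le_pow_of_le_one (by norm_num) (by norm_num) (by omega)
    nlinarith)
  have key := fun k (hk : k ≤ i + 2) => And.intro (hG k hk) (And.intro
    (hw.1 (2 + (i + 2 - k)) (by omega) _ _ (hs.cat (hin.div hk))) (h.lm hη (hs.cat (hin.div hk))))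
  refine ⟨⟨fun k => ?_, osc, hE⟩, ?_⟩
  · clear hE osc hw hG h
    generalize i + 2 = m at *
    rw [← sub_sub']
    rcases le_or_gt (k + 1) m with hk | hk
    · have := key _ hk
      simp only [xl, (hin.div hk).ch, min_eq_left (Nat.sub_le m _), add_zero, abs_le,
        max_eq_left (Nat.le_add_right 2 _), Nat.cast_add, Nat.cast_ofNat] at this
      obtain ⟨⟨j1, -⟩, ⟨⟨j3, -⟩, j4, -⟩, j5, -⟩ := this
      rw [anc_sub _ hk, sub_sub']
      have h4 : ((m - (k + 1) : ℕ) : ℝ) ≤ m := by exact_mod_cast Nat.sub_le _ _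
      have h5 := mul_le_mul_of_nonneg_left h4 (mul_pos hδ hL).le
      have h6 := mul_nonneg hδ.le (nat_log_nonneg (m - (k + 1)))
      cases α <;> simp only [slo, Bool.false_eq_true, if_true, if_false] at hα j1 <;> linarith
    · obtain ⟨d, hd⟩ := Nat.exists_eq_add_of_le hk.le
      rw [hd, ← anc_anc, anc_sub_self _ hin]
      exact top d
  · clear hE osc hw hG h
    generalize i + 2 = m at *
    have k0 := key 0 (Nat.zero_le _)
    simp only [xl, hin.ch, Nat.sub_zero, pow_zero, Int.ediv_one, min_self, add_zero, abs_le,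
      Nat.cast_add, Nat.cast_ofNat] at k0
    obtain ⟨⟨k1, k2⟩, ⟨⟨k3, k4⟩, -⟩, k5, k6⟩ := k0
    rw [Lv.eq_1 Q u x (sub _ _ _ _), (in_zero 0).ch]
    simp only [add_zero, pow_zero, mul_one]
    cases α <;> simp only [slo, Bool.false_eq_true, if_true, if_false] at k1 k2 ⊢ <;>
      constructor <;> linarith

/-- Alive above the level `u + 1`, with corridors dead below the level `u`. -/
def AA (Q : ℝ) (J e : ℕ) (x : Sq → ℝ) (u : ℝ) (B : Sq) : Prop :=
  alive (DD Q x (u + 1)) B ∧ Cor J e (DD Q x u) B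

theorem Inw.tr (hc : Cst Q δ ε C i) (n : ℕ) (h : Inw Q δ ε C i e ε u x B y)
    (h1 : 9 * ε ≤ Lv Q u x B y) (h2 : Lv Q u x B y ≤ 46 * ε) :
    TA (2 + (i + 2)) (AA Q (2 + (i + 2)) e x u) n B := by
  have hε := hc.hε
  have base : ∀ {B y}, Inw Q δ ε C i e ε u x B y → 9 * ε ≤ Lv Q u x B y → Lv Q u x B y ≤ 46 * ε →
      AA Q (2 + (i + 2)) e x u B := fun {B y} h h1 h2 => by
    refine ⟨fun k => not_le.2 ?_, fun a b hin hab hal => hal 0 ?_⟩
    · have := h.top (by linarith) hc.hQ hc.hQε (by linarith) (Nat.zero_le _) (in_zero 0) k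
      rw [sub_zero'] at this
      linarith
    · have h3 := (h.en 0).2.2 a b hin hab
      have h4 := (abs_le.1 (h.lm (by linarith) hin)).2
      rw [anc_zero, DD]
      linarith
  induction n generalizing B y with
  | zero => exact base h h1 h2
  | succ n ih =>
    have key : ∀ β, ∃ a b, In (2 + (i + 2)) a b ∧ b / 2 ^ (i + 2) = cor β 2 ∧
        TA (2 + (i + 2)) (AA Q (2 + (i + 2)) e x u) n (sub B (2 + (i + 2)) a b) := fun β => by
      rcases le_total (28 * ε) (Lv Q u x B y) with h3 | h3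
      · obtain ⟨a, b, z, g1, g2, g3, g4, g5⟩ := h.step (η' := ε) hc (by linarith) (by linarith)
          true β (by simp only [if_true]; linarith)
        simp only [if_true] at g4 g5
        exact ⟨a, b, g1, g2, ih g3 (by linarith) (by linarith)⟩
      · obtain ⟨a, b, z, g1, g2, g3, g4, g5⟩ := h.step (η' := ε) hc (by linarith) (by linarith)
          false β (by simp only [Bool.false_eq_true, if_false]; linarith)
        simp only [Bool.false_eq_true, if_false] at g4 g5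
        exact ⟨a, b, g1, g2, ih g3 (by linarith) (by linarith)⟩
    obtain ⟨a, b, g1, g2, g3⟩ := key false
    obtain ⟨a', b', g1', g2', g3'⟩ := key true
    refine ⟨base h h1 h2, a, b, a', b', g1, g1', fun hb => ?_, g3, g3'⟩
    rw [hb, g2'] at g2
    revert g2
    decide

theorem Inw.down (hc : Cst Q δ ε C i) (N : ℕ) (h : Inw Q δ ε C i e ε u x B y)
    (h1 : 9 * ε ≤ Lv Q u x B y) (h2 : Lv Q u x B y ≤ (46 + N) * ε) :
    ∃ B, ∀ n, TA (2 + (i + 2)) (AA Q (2 + (i + 2)) e x u) n B := by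
  have hε := hc.hε
  induction N generalizing B y with
  | zero => exact ⟨B, fun n => h.tr hc n h1 (by simpa using h2)⟩
  | succ N ih =>
    rcases le_total (Lv Q u x B y) (46 * ε) with h3 | h3
    · exact ⟨B, fun n => h.tr hc n h1 h3⟩
    · obtain ⟨a, b, z, -, -, g3, g4, g5⟩ := h.step (η' := ε) hc (by linarith) (by linarith)
        true true (by simp only [if_true]; linarith)
      simp only [if_true] at g4 g5
      push_cast at h2
      exact ih g3 (by linarith) (by linarith)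

theorem Inw.all (hc : Cst Q δ ε C i) (N : ℕ) (h : Inw Q δ ε C i e ((1 + N / 8) * ε) u x B y)
    (h1 : (9 + N ^ 2) * ε ≤ Lv Q u x B y) :
    ∃ B, ∀ n, TA (2 + (i + 2)) (AA Q (2 + (i + 2)) e x u) n B := by
  have hε := hc.hε
  induction N generalizing B y with
  | zero =>
    obtain ⟨N, hN⟩ := exists_nat_ge (Lv Q u x B y / ε)
    rw [div_le_iff₀ (by linarith)] at hN
    exact Inw.down hc N (by simpa using h) (by simpa using h1) (by linarith)
  | succ N ih =>
    have h2 : 0 ≤ N * ε := by positivity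
    have h3 : 0 ≤ N ^ 2 * ε := by positivity
    obtain ⟨a, b, z, -, -, g3, g4, -⟩ := h.step (η' := (1 + N / 8) * ε) hc (by positivity)
      (by push_cast; linarith) false true
      (by simp only [Bool.false_eq_true, if_false]; push_cast at h1 ⊢; linarith)
    simp only [Bool.false_eq_true, if_false] at g4
    push_cast at h1 g4
    exact ih g3 (by linarith)

theorem start (hc : Cst Q δ ε C i) (hE : ∀ n, En Q δ ε C i e n y)
    (ho : Osc 0 η fun p => x (cl B p) - y (p, 0)) {c : ℝ} (hu : ∀ k, c ≤ lm Q x (anc B k)) :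
    ∃ t : ℕ, ∀ q : ℤ, q ≤ -(t : ℝ) → ∃ B, ∀ n, TA (2 + (i + 2)) (AA Q (2 + (i + 2)) e x q) n B := by
  have hε := hc.hε
  obtain ⟨N, hN⟩ := exists_nat_ge (8 * η)
  obtain ⟨t, ht⟩ := exists_nat_ge (max (ε - c) ((9 + N ^ 2) * ε - Lv Q 0 x B y))
  rw [max_le_iff] at ht
  refine ⟨t, fun q hq => Inw.all (B := B) (y := y) hc N ⟨fun k => by linarith [hu (k + 1), ht.1],
    fun d a b hin => (ho d a b hin).trans ?_, hE⟩ ?_⟩
  · gcongr
    nlinarith [N.cast_nonneg (α := ℝ)]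
  · simp only [Lv] at ht ⊢
    linarith [ht.2]

variable {Ω : Type*} {mΩ : MeasurableSpace Ω} {P : Measure Ω}

theorem ae_of_small {p : ℕ → Ω → Prop} {f : ℕ → ℝ≥0∞} (hf : Tendsto f atTop (𝓝 0))
    (h : ∀ᶠ j in atTop, P {ω | ¬ p j ω} ≤ f j) : ∀ᵐ ω ∂P, ∃ j, p j ω :=
  ae_iff.2 (le_zero_iff.1 (ge_of_tendsto hf (h.mono fun j hj =>
    le_trans (measure_mono fun _ hω hp => hω ⟨j, hp⟩) hj)))

theorem ae_osc {V : ℕ × ℤ × ℤ → Ω → ℝ} {c : ℕ × ℤ × ℤ → ℕ × ℤ × ℤ → ℝ} (h : CG V P c) (J : ℕ)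
    (hc : ∀ d a b, In (J + d + 1) a b → c (J + d + 1, a, b) (J + d + 1, a, b) -
      c (J + d + 1, a, b) (J + d, a / 2, b / 2) - c (J + d, a / 2, b / 2) (J + d + 1, a, b) +
      c (J + d, a / 2, b / 2) (J + d, a / 2, b / 2) ≤ 8 * (1 / 2) ^ d) :
    ∀ᵐ ω ∂P, ∃ j : ℕ, Osc J j fun p => V p ω := by
  have t := ENNReal.Tendsto.const_mul (a := 2 * ∑' d : ℕ, ee (-1 * d))
    (tendsto_ee one_pos (2 * J + 2)) (Or.inr (ENNReal.mul_ne_top (by simp) (tsum_ee one_pos)))
  rw [mul_zero] at t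
  refine ae_of_small t ((eventually_ge_atTop 20).mono fun j hj => ?_)
  have h1 : (20 : ℝ) ≤ j := by exact_mod_cast hj
  exact (osc_prob h J hc h1).trans (mul_le_mul_right (ee_mono (by nlinarith)) _)

theorem ae_box {Z : Ix → Ω → ℝ} (h : CG Z P cZ) {E : (Ix → ℝ) → Prop} (hE : Measurable E)
    {p0 : ℝ≥0∞} (hp : p0 ≠ 0) (h0 : ∀ Z : Ix → Ω → ℝ, CG Z P cZ → p0 ≤ P {ω | E fun k => Z k ω}) :
    ∀ᵐ ω ∂P, ∃ (m : ℕ) (a : ℤ), In (m + 2) a 0 ∧ E fun k => Z (ch (m + 2, a, 0) k) ω := by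
  have := h.prob
  refine ae_of_small (ENNReal.tendsto_pow_atTop_nhds_zero_of_lt_one
    (ENNReal.sub_lt_self (a := 1) (by simp) one_ne_zero hp)) (Eventually.of_forall fun m => ?_)
  have hin : ∀ j : Fin m, In (m + 2) (j * 2 ^ 2) 0 := fun j => by
    simpa using In.four (i := m) (a := j) (b := 0) ⟨by positivity,
      by exact_mod_cast j.2.trans Nat.lt_two_pow_self, le_rfl, p2pos _⟩
  have hi := h.iIndep (fun j : Fin m => ch (m + 2, j * 2 ^ 2, 0)) fun j j' hj =>
    cZ_sep (hin j) (hin j') (Or.inl (by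
      have := Fin.val_ne_of_ne hj
      rw [le_abs]
      omega))
  have hm := hi.meas_iInter
    (s := fun j : Fin m => {ω | E fun k => Z (ch (m + 2, j * 2 ^ 2, 0) k) ω}ᶜ)
    fun j => ⟨_, (measurableSet_setOfPred.2 hE).compl, rfl⟩
  refine le_trans (measure_mono fun ω hω => ?_)
    (hm.trans_le ((Finset.prod_le_pow_card _ _ (1 - p0) fun j _ => ?_).trans_eq (by simp)))
  · exact mem_iInter.2 fun j hj => hω ⟨_, hin j, hj⟩
  have hc := CG_ch h (hin j)
  exact (prob_compl_eq_one_sub (measurableSet_setOfPred.2 (hE.comp hc.measPi))).trans_le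
    (tsub_le_tsub_left (h0 _ hc) _)

/-- Trees at all integer levels below `-t`. -/
def All (Q : ℝ) (J e t : ℕ) (x : Sq → ℝ) : Prop :=
  ∀ q : ℤ, q ≤ -(t : ℝ) → ∃ B, ∀ n, TA J (AA Q J e x q) n B

theorem meas_All (Q : ℝ) (J e t : ℕ) : Measurable (All Q J e t) := by
  have hD : ∀ u, Measurable fun x => DD Q x u := fun u =>
    (meas_DD Q).comp (measurable_id.prodMk measurable_const)
  exact Measurable.forall fun q => measurable_const.imp (Measurable.exists fun B =>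
    Measurable.forall fun n => (meas_TA J n B).comp (measurable_pi_lambda _ fun B =>
      ((meas_alive B).comp (hD _)).and (Measurable.forall fun _ => Measurable.forall fun _ =>
        measurable_const.imp (measurable_const.imp ((meas_alive _).comp (hD _)).not))))

theorem white (hQ : 0 < Q) (hQ' : Q < 2) (hQ2 : 2 ≤ Q ^ 2) {X : (Sq × ℕ) ⊕ Sq → Ω → ℝ}
    (hX : CG X P cW) : ∃ J e, ∀ᵐ ω ∂P, ∃ t,
      All Q J e t fun S => X (.inr S) ω + X (.inl (S, 0)) ω - X (.inl (O, 0)) ω := by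
  have hL := log2pos
  obtain ⟨δ, hδ, C, p0, hp0, -, hev⟩ := rec_prob (P := P) hQ hQ' hQ2
  have hκ : 0 < δ * log 2 / 2 := by positivity
  obtain ⟨i, ⟨e, he⟩, h3⟩ := (hev.and ((tendsto_add_atTop_nat 2).eventually
      ((tendsto_natCast_atTop_atTop.const_mul_atTop hκ).eventually_ge_atTop
        (max 2 (max (Q * (2 * log 2)) (max (C true) (C false))))))).exists
  simp only [max_le_iff] at h3
  obtain ⟨a1, a2, a3, a4⟩ := h3
  have hc : Cst Q δ (δ * log 2 / 2 * (i + 2 : ℕ)) C i :=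
    ⟨hQ, by linarith, a2, hδ, by ring, by rintro (_ | _) <;> assumption⟩
  have t1 := ENNReal.Tendsto.const_mul (a := ∑' k : ℕ, ee (-(Q ^ 2 * log 2 / 2) * k))
    (tendsto_ee hQ (2 * Q ^ 2 * log 2)) (Or.inr (tsum_ee (by positivity)))
  rw [mul_zero] at t1
  refine ⟨2 + (i + 2), e, ?_⟩
  filter_upwards [ae_box (CG_Z hX) (Measurable.forall fun n => meas_En n) hp0 he,
    ae_of_small t1 (Eventually.of_forall fun j => up_prob (CG_sum hX) hQ j),
    ae_osc (hX.comp fun p => .inr (cl O p)) 0 fun d a b hin => by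
      rw [zero_add] at hin ⊢
      simpa only [hin.cl, hin.par.cl] using var_oscY hin,
    ae_all_iff.2 fun m => ae_osc (CG_lay (CG_Z hX) fun _ => m) m fun _ _ _ => var_osc m]
    with ω ⟨m, a, hin, hE⟩ ⟨c, h1⟩ ⟨j, h2⟩ h3
  obtain ⟨j', h3⟩ := h3 (m + 2)
  set x := fun S => X (.inr S) ω + X (.inl (S, 0)) ω - X (.inl (O, 0)) ω with hx
  obtain ⟨c', hc'⟩ := (finite_range fun k : Fin (m + 2) =>
    lm Q x (anc (sub O (m + 2) a 0) k)).bddBelow
  refine start (c := min c' (-c)) hc hE (osc_down (x := x) (B := O) (η := j)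
    (y := fun k => X (.inl (cl O k.1, k.2)) ω) hin (fun d a b hin => ?_) h3 le_rfl) fun k => ?_
  · refine le_of_eq_of_le ?_ (h2 d a b hin)
    simp only [hx]
    congr 1; ring
  · rcases lt_or_ge k (m + 2) with hk | hk
    · exact (min_le_left _ _).trans (hc' ⟨⟨k, hk⟩, rfl⟩)
    · obtain ⟨d, rfl⟩ := Nat.exists_eq_add_of_le hk
      rw [← anc_anc, anc_sub_self _ hin]
      exact (min_le_right _ _).trans (h1 d).le

theorem AA.at {J : ℕ} {D : Sq → Prop} (h : AA Q J e x u B) {v : ℝ} (h1 : u ≤ v) (h2 : v ≤ u + 1)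
    (hD : ∀ S, D S ↔ lm Q x S ≤ v) : alive D B ∧ Cor J e D B :=
  ⟨fun k hk => h.1 k (((hD _).1 hk).trans h2), fun a b hin hab hal => h.2 a b hin hab
    fun k hk => hal k ((hD _).2 (le_trans hk h1))⟩

end AT

open AT in
/-- Almost surely some tile has exponentially growing balls. -/
theorem tree_as {Q : ℝ} (hQ : 0 < Q) (hQ' : Q < 2) (hQ2 : 2 ≤ Q ^ 2) : ∃ c > 0, ∃ r,
    ∀ {Ω : Type*} {_ : MeasurableSpace Ω} {P : Measure Ω} {h : Sq → Ω → ℝ}, CG h P gffCov →
    ∀ l : ℝ, ∀ᵐ ω ∂P, ∃ T, tile (DD Q (fun S => h S ω) l) T ∧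
      LB c r (DD Q (fun S => h S ω) l) T := by
  obtain ⟨X, hX⟩ := exists_W
  obtain ⟨J, e, hW⟩ := white hQ hQ' hQ2 hX
  have := hX.prob
  have hH := CG_sum hX
  have ht := tendsto_measure_iInter_atTop (μ := PW)
    (s := fun t => {ω | ¬ All Q J e t fun S => X (.inr S) ω + X (.inl (S, 0)) ω - X (.inl (O, 0)) ω})
    (fun t => (measurableSet_setOfPred.2 ((meas_All Q J e t).not.comp hH.measPi)).nullMeasurableSet)
    (antitone_nat_of_succ_le fun t ω hω h => hω fun q hq => h q (by push_cast at hq; linarith))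
    ⟨0, measure_ne_top _ _⟩
  replace ht := ht.trans_eq (congrArg 𝓝 (measure_mono_null (fun ω hω => by
    rintro ⟨t, h⟩
    exact mem_iInter.1 hω t h) (ae_iff.1 hW)))
  refine ⟨log 2 / (2 * 2 ^ (J + e + 1)), by have := log2pos; positivity, 2 ^ (J + e + 1),
    fun {Ω _ P h} hh l => ae_iff.2 (le_zero_iff.1 (ge_of_tendsto' ht fun t => ?_))⟩
  set s : ℕ → Set Ω := fun K => {ω | ¬ All Q J e t fun S => h (sc (-K) S) ω - h (sc (-K) O) ω}
  refine (measure_mono_ae (t := ⋃ N, ⋂ K ≥ N, s K) ?_).trans ?_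
  · filter_upwards [ae_Gd hh hQ] with ω hG hω
    obtain ⟨N, hN⟩ := eventually_atTop.1 (hG.top O (l + t))
    refine mem_iUnion.2 ⟨N, mem_iInter₂.2 fun K hK hA => hω ?_⟩
    have h1 := hN K hK
    have e0 : anc O K = sc (-K) O := by simp [anc, sc, O]
    rw [e0] at h1
    set v := l - lm Q (fun S => h S ω) (sc (-K) O) with hv
    obtain ⟨B, hB⟩ := hA ⌊v⌋ (by linarith [Int.floor_le v])
    obtain ⟨T, h2, h3⟩ := tr_LB' (D := DD Q (fun S => h S ω) l ∘ sc (-K))
      (fun S => by simpa only [Function.comp, anc_sc] using hG.top' l (sc (-K) S))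
      fun n => (hB n).tr fun B hB => hB.at (Int.floor_le v) (Int.lt_floor_add_one v).le fun S => by
        simp only [Function.comp, DD, lm, hv, sc, O]
        push_cast
        constructor <;> intro <;> linarith
    exact ⟨_, tile_sc.1 h2, LB_sc.1 h3⟩
  · rw [Monotone.measure_iUnion fun N N' hN => biInter_subset_biInter_left fun K hK => hN.trans hK]
    exact iSup_le fun N => (measure_mono (biInter_subset_of_mem le_rfl)).trans_eq
      ((CG_sc hh _).prob_eq' hH (meas_All Q J e t).not)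

end Pool.Agent.Lib.MP_d1f1b2_pr
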