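import Pool.Agent.Lib.D1W.Crit

/-! The almost sure upper growth bound at every level. -/

open Set Filter MeasureTheory ProbabilityTheory Real
open scoped ENNReal Topology

namespace Pool.Agent.Lib.MP_d1f1b2_pr

namespace AU

variable {Ω Ω' : Type*} {mΩ : MeasurableSpace Ω} {mΩ' : MeasurableSpace Ω'} {P : Measure Ω}
  {P' : Measure Ω'} {h : Sq → Ω → ℝ} {Q : ℝ}

/-- the field relative to the level `l`, seen at scale `m` -/
noncomputable def rel (Q : ℝ) (m : ℤ) (x : Sq → ℝ) (l : ℝ) (S : Sq) : ℝ := lm Q x (sc m S) - l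

theorem meas_rel (Q : ℝ) (m : ℤ) : Measurable fun p : (Sq → ℝ) × ℝ => rel Q m p.1 p.2 :=
  measurable_pi_lambda _ fun S => by unfold rel lm; fun_prop

/-- the chain is dead one level up, the ancestors of its last square are alive one level down -/
def CE2 (k : ℕ) (U : ℕ → Sq) (y : Sq → ℝ) : Prop :=
  (∀ i ≤ k, y (U i) ≤ 1) ∧ ∀ m, -1 ≤ y (anc (U k) (m + 1))

theorem meas_CE2 (k : ℕ) (U : ℕ → Sq) : Measurable (CE2 k U) :=
  (Measurable.forall fun _ => measurable_const.imp (measurableSet_setOfPred.1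
    (measurableSet_le (measurable_pi_apply _) measurable_const))).and
    (Measurable.forall fun _ => measurableSet_setOfPred.1
      (measurableSet_le measurable_const (measurable_pi_apply _)))

/-- events of the field relative to the level -/
def EW (Q : ℝ) (m : ℤ) (h : Sq → Ω → ℝ) (B : (Sq → ℝ) → Prop) : Set (Ω × ℝ) :=
  {p | B (rel Q m (fun S => h S p.1) p.2)}

theorem meas_EW (hh : CG h P gffCov) (m : ℤ) {B : (Sq → ℝ) → Prop} (hB : Measurable B) :
    MeasurableSet (EW Q m h B) :=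
  measurableSet_setOfPred.2 (hB.comp ((meas_rel Q m).comp
    ((hh.measPi.comp measurable_fst).prodMk measurable_snd)))

theorem vol_rel (B : (Sq → ℝ) → Prop) {m : ℤ} (x x' : Sq → ℝ) (y : ℝ)
    (e : ∀ S, x' S = x (sc m S) - y) :
    volume {u | B (rel Q m x u)} = volume {u | B (rel Q 0 x' u)} := by
  rw [← measure_preimage_add_right volume (-(y - Q * (m * log 2))) {u | B (rel Q 0 x' u)}]
  congr 1
  ext u
  simp only [mem_preimage, mem_ofPred_eq]
  refine iff_of_eq (congrArg B (funext fun S => ?_))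
  have hn : (sc m S).n = S.n + m := rfl
  simp only [rel, lm, e, sc_zero, hn]
  push_cast
  ring

theorem EW_hat (hh : CG h P gffCov) {X : (Sq × ℕ) ⊕ Sq → Ω' → ℝ} (hX : CG X P' cW) (T : Sq)
    (m : ℤ) {B : (Sq → ℝ) → Prop} (hB : Measurable B) :
    P.prod volume (EW Q m h B) = ∫⁻ l, P' {ω | B (rel Q 0 (hat T fun t => X t ω) l)} := by
  have := hX.prob
  have hΦ : Measurable fun y : Sq → ℝ => volume {u | B (rel Q 0 y u)} :=
    measurable_measure_prodMk_left (s := {p : (Sq → ℝ) × ℝ | B (rel Q 0 p.1 p.2)})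
      (measurableSet_setOfPred.2 (hB.comp (meas_rel Q 0)))
  have hm : MeasurableSet {p : Ω' × ℝ | B (rel Q 0 (hat T fun t => X t p.1) p.2)} :=
    measurableSet_setOfPred.2 (hB.comp ((meas_rel Q 0).comp
      ((((meas_hat T).comp hX.measPi).comp measurable_fst).prodMk measurable_snd)))
  calc _ = ∫⁻ ω, volume {u | B (rel Q 0 (fun S => h (sc m S) ω - h (sc m O) ω) u)} ∂P := by
        rw [Measure.prod_apply (meas_EW hh m hB)]
        exact lintegral_congr fun ω => vol_rel (Q := Q) B (fun S => h S ω) _ _ fun _ => rfl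
    _ = ∫⁻ ω, volume {u | B (rel Q 0 (hat T fun t => X t ω) u)} ∂P' := by
        rw [(CG_sc hh m).lint_eq' (CG_sum hX) hΦ]
        exact lintegral_congr fun ω => vol_rel B _ _ (X (.inr T) ω - X (.inl (O, 0)) ω)
          fun S => by simp only [hat, sc_zero]; ring
    _ = _ := (Measure.prod_apply hm).symm.trans (Measure.prod_apply_symm hm)

theorem pc0 {X : (Sq × ℕ) ⊕ Sq → Ω → ℝ} (hX : CG X P cW) {Kf : ℝ} (hf : FlatSt Kf X P)
    (hQ : 0 < Q) (hQ' : Q < 2) (hQ2 : 2 ≤ Q ^ 2) : ∃ K, 0 ≤ K ∧ ∀ (k : ℕ) (U : ℕ → Sq) (n : ℕ → ℕ)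
    (r : ℕ → ℝ), n 0 = 0 → (∀ i ≤ k, (U i).n = n i) → (∀ i < k, n i < n (i + 1)) → (∀ i, 0 ≤ r i) →
    (∀ i ≤ k, ‖(U i).center - (U k).center‖ ≤ r i * (U i).side) →
    ∫⁻ l, P {ω | CE2 k U (rel Q 0 (hat (U k) fun t => X t ω) l)} ≤
      ee (K * ∑ i ∈ Finset.range (k + 1), (1 + r i) - n k * log 2 -
        65 / 64 * ∑ i ∈ Finset.range k, log ((n (i + 1) - n i : ℕ) : ℝ)) := by
  obtain ⟨Kb, hb⟩ := ballot
  obtain ⟨K, hK0, hK⟩ := core Kb (Kf * 2048 ^ 2)
  refine ⟨5 * K + 4, by positivity, fun k U n r hn0 hU hn hr hd => ?_⟩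
  have hL := log2pos
  have hL1 : log 2 ≤ 1 := by linarith [Real.log_two_lt_d9]
  have mono : ∀ {i j}, i ≤ j → j ≤ k → n i ≤ n j := fun {i j} hij hj => by
    induction hij with
    | refl => exact le_rfl
    | step _ ih => exact (ih (by omega)).trans (hn _ hj).le
  set T := U k with hT
  set N := n k with hN
  set d : ℕ → ℕ := fun i => Nat.casesOn i 1 fun i => n (i + 1) - n i with hdd
  set W : ℕ → Ω → ℝ := fun j ω => X (.inl (T, 0)) ω - X (.inl (T, j)) ω with hW
  set J : ℕ → ℕ → ℕ := fun i w => n i + 1 - max w 1 with hJ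
  set S : ℕ → ℕ → Sq := fun i w => if w = 0 then U i else anc T (N - J i w + 1) with hS
  set Y : ℕ → ℕ → Ω → ℝ := fun i w ω =>
    (if w = 0 then -1 else 1) * (hat T (fun t => X t ω) (S i w) - W (J i w) ω) with hY
  have hTn : T.n = N := hU k le_rfl
  have hJ1 : ∀ i ≤ k, ∀ w, J i w ≤ N := fun i hi w => by
    have := mono hi le_rfl
    simp only [hJ]; omega
  have hA : ∀ j ≤ N, (anc T (N - j + 1)).n = j - 1 := fun j hj => by
    rw [anc_n, hTn]; omega
  have hAs : ∀ j ≤ N, (anc T (N - j + 1)).side = 2 * (1 / 2) ^ j := fun j hj => by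
    rw [side_of_n (S := ⟨j, 0, 0⟩) (k := 1) (hA j hj), side_nat (S := ⟨j, 0, 0⟩) rfl, pow_one]
  have hUd : ∀ i ≤ k, ∀ θ θ', ‖(cv (U i)).p θ - (cv T).p θ'‖ ≤ (r i + 4) * (1 / 2) ^ n i :=
    fun i hi θ θ' => by
    have h1 := norm_sub_center (cv_mem (U i) θ)
    have h2 := norm_sub_center (cv_mem T θ')
    have h3 : T.side ≤ (U i).side := side_le_of_n (by
      rw [hTn, hU i hi]; exact_mod_cast mono hi le_rfl)
    have h4 := norm_sub_le_norm_sub_add_norm_sub ((cv (U i)).p θ) (U i).center ((cv T).p θ')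
    have h5 := norm_sub_le_norm_sub_add_norm_sub (U i).center T.center ((cv T).p θ')
    rw [norm_sub_rev] at h2
    rw [← side_nat (hU i hi)]
    linarith [hd i hi, side_pos (U i)]
  have hTT : ∀ j ≤ N, j * log 2 - 4 ≤ ik T T (j * log 2) := fun j hj => by
    have := ik_low (S := T) (T := T) (R := 2) (le_refl j) fun θ θ' =>
      (dist_in (cv_mem T θ) (cv_mem T θ')).trans (by
        rw [side_nat hTn]
        exact mul_le_mul_of_nonneg_left (pow_le_pow_of_le_one (by norm_num) (by norm_num) hj)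
          zero_le_two)
    linarith
  have main := hK (P := P) k n d (fun i => r i + 5) W Y Q hQ.le hQ'.le
    (fun i => by linarith [hr i]) hn rfl (fun _ => rfl) (fun ω => by simp [hW, hn0])
    (fun a x ha => hb (v := fun j => ik T T (j * log 2)) (CG_walk hX T) (fun j => by
      have h1 := kap_anti T T (show (j : ℝ) * log 2 ≤ (j + 1 : ℕ) * log 2 by push_cast; linarith)
      have h2 := kap_step T T (show (j : ℝ) * log 2 ≤ (j + 1 : ℕ) * log 2 by push_cast; linarith)
      simp only [ik]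
      push_cast at *
      constructor <;> linarith) k n a x hn ha fun i hi => by
      have h1 := hTT _ (mono (show i + 1 ≤ k from hi) le_rfl)
      have h2 := ik_le T T (nlog (n i))
      have h3 : ((n (i + 1) - n i : ℕ) : ℝ) = n (i + 1) - n i := Nat.cast_sub (hn i hi).le
      have h4 := mul_le_mul_of_nonneg_left Real.log_two_gt_d9.le
        (Nat.cast_nonneg (α := ℝ) (n (i + 1) - n i))
      have h5 := Nat.cast_nonneg (α := ℝ) (n (i + 1) - n i)
      rw [h3] at *
      linarith)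
    fun w c t hw hc => by
      have := hf T k (fun i => S i (w i)) (fun i => J i (w i)) (fun i => r i + 5)
        (fun i => c i * if w i = 0 then -1 else 1) t 2048 (by norm_num) (fun i hi => by
          have h1 := hn i hi
          have h2 : w (i + 1) ≤ n (i + 1) - n i := hw (i + 1)
          simp only [hJ]; omega) (fun i hi => by
          simp only [hS]
          split_ifs with h0
          · simp [hJ, h0, hU i hi]
          · rw [hA _ (hJ1 i hi _)]; omega) (fun i => by linarith [hr i])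
        (fun i => by split_ifs <;> simpa using hc i) (fun i hi θ θ' => by
          simp only [hS]
          split_ifs with h0
          · simpa [hJ, h0] using (hUd i hi θ θ').trans (by gcongr; norm_num :
              _ ≤ (r i + 5) * (1 / 2) ^ n i)
          · refine (anc_dist _ _ θ θ').trans ?_
            rw [hAs _ (hJ1 i hi _)]
            nlinarith [hr i, pow_pos (show (0 : ℝ) < 1 / 2 by norm_num) (J i (w i))])
        fun i hi θ θ' => by
          refine (dist_in (cv_mem _ θ) (cv_mem _ θ')).trans ?_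
          simp only [hS]
          split_ifs with h0
          · rw [side_nat (hU i hi), show J i (w i) = n i by simp [hJ, h0]]
            nlinarith [hr i, pow_pos (show (0 : ℝ) < 1 / 2 by norm_num) (n i)]
          · rw [hAs _ (hJ1 i hi _)]
            nlinarith [hr i, pow_pos (show (0 : ℝ) < 1 / 2 by norm_num) (J i (w i))]
      simpa only [hY, hat, hW, mul_assoc] using this
  have step : ∀ l, P {ω | CE2 k U (rel Q 0 (hat T fun t => X t ω) l)} ≤ ee (4 - N * log 2) *
      ∫⁻ ω, {ω | ∀ i ≤ k, -l + W (n i) ω ≤ Y i 0 ω + 4 * (r i + 5) ∧ ∀ w, 1 ≤ w → w ≤ d i →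
        -Y i w ω - 4 * (r i + 5) ≤ -l + W (n i + 1 - w) ω}.indicator
        (fun ω => ee (-Q * W N ω)) ω ∂P := fun l => by
    have hm : MeasurableSet {x | CE2 k U (rel Q 0 (hat T x) l)} := measurableSet_setOfPred.2
      ((meas_CE2 k U).comp ((meas_rel Q 0).comp ((meas_hat T).prodMk measurable_const)))
    have h1 := hX.tilt2 (.inl (T, 0)) (.inl (T, N)) Q (F := indicator _ 1)
      (measurable_one.indicator hm)
    rw [← lintegral_const_mul' _ _ (ee_ne_top _)]
    refine le_trans (le_of_eq ((lintegral_indicator_one (hX.measPi hm)).symm.trans h1))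
      (lintegral_mono fun ω => ?_)
    by_cases hω : (fun t => X t ω + Q * (cW t (.inl (T, 0)) - cW t (.inl (T, N)))) ∈
      {x | CE2 k U (rel Q 0 (hat T x) l)}
    swap
    · rw [indicator_of_notMem hω, zero_mul]; exact zero_le
    have e : ∀ V, hat T (fun t => X t ω + Q * (cW t (.inl (T, 0)) - cW t (.inl (T, N)))) V =
        hat T (fun t => X t ω) V + Q * ik V T (N * log 2) := fun V => by
      simp only [hat, cW, ik, max_self, Nat.zero_max, Nat.cast_zero, zero_mul]; ring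
    rw [indicator_of_mem hω, indicator_of_mem, Pi.one_apply, one_mul, ← ee_add]
    · have h2 := hTT N le_rfl
      have h3 : 0 ≤ ik T T (N * log 2) := sub_nonneg.2 (kap_anti T T (nlog N))
      have h4 := mul_le_mul_of_nonneg_right hQ2 h3
      refine ee_mono ?_
      simp only [cW, ik, max_self, Nat.zero_max, Nat.max_zero, Nat.cast_zero, zero_mul, hW] at *
      linarith
    · intro i hi
      refine ⟨?_, fun w h1 h2 => ?_⟩
      · have h2 := hω.1 i hi
        have h3 := mul_le_mul_of_nonneg_left (ik_low (mono hi le_rfl) (hUd i hi)) hQ.le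
        simp only [rel, sc_zero, lm, e, hU i hi, Int.cast_natCast] at h2
        have h4 : Y i 0 ω = -(hat T (fun t => X t ω) (U i) - W (n i) ω) := by simp [hY, hS, hJ]
        rw [h4]
        nlinarith [hr i]
      · have h3 := hω.2 (N - J i w)
        have h4 := hA _ (hJ1 i hi w)
        have h5 := mul_le_mul_of_nonneg_left (ik_up h4 (N * log 2)) hQ.le
        have h6 : J i w = n i + 1 - w := by simp only [hJ]; omega
        have h7 : Y i w ω = hat T (fun t => X t ω) (anc T (N - J i w + 1)) - W (J i w) ω := by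
          simp [hY, hS, show w ≠ 0 by omega]
        simp only [rel, sc_zero, lm, e, ← hT, h4] at h3
        rw [h7, ← h6]
        push_cast at h3
        nlinarith [hr i]
  refine (lintegral_mono step).trans ?_
  rw [lintegral_const_mul' _ _ (ee_ne_top _)]
  refine (mul_le_mul_right main _).trans ?_
  rw [← ee_add]
  refine ee_mono ?_
  have f1 : ∑ i ∈ Finset.range (k + 1), (r i + 5) ≤ 5 * ∑ i ∈ Finset.range (k + 1), (1 + r i) := by
    rw [Finset.mul_sum]
    exact Finset.sum_le_sum fun i _ => by linarith [hr i]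
  have f2 : 1 + r 0 ≤ ∑ i ∈ Finset.range (k + 1), (1 + r i) :=
    Finset.single_le_sum (f := fun i => 1 + r i) (fun i _ => by linarith [hr i]) (by simp)
  nlinarith [mul_le_mul_of_nonneg_left f1 hK0, hr 0]

theorem pc2 (hQ : 0 < Q) (hQ' : Q < 2) (hQ2 : 2 ≤ Q ^ 2) : ∃ K, 0 ≤ K ∧ ∀ {Ω : Type*}
    {_ : MeasurableSpace Ω} {P : Measure Ω} {h : Sq → Ω → ℝ}, CG h P gffCov → ∀ (N : ℤ) (k : ℕ)
    (U : ℕ → Sq) (r : ℕ → ℝ), (∀ i < k, (U i).n < (U (i + 1)).n) → (∀ i, 0 ≤ r i) →
    (∀ i ≤ k, ‖(U i).center - (U k).center‖ ≤ r i * (U i).side) →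
    P.prod volume (EW Q N h (CE2 k U)) ≤ ee (K * ∑ i ∈ Finset.range (k + 1), (1 + r i)) *
      ∏ i ∈ Finset.range k, phi ((U (i + 1)).n - (U i).n) := by
  obtain ⟨X, hX⟩ := exists_W
  obtain ⟨Kf, hf⟩ := flat
  obtain ⟨K, hK0, hK⟩ := pc0 hX (Kf := Kf) (hf hX) hQ hQ' hQ2
  refine ⟨K, hK0, fun {Ω _ P h} hh N k U r hn hr hd => ?_⟩
  have mono : ∀ i ≤ k, (U 0).n ≤ (U i).n := fun i hi => by
    induction i with
    | zero => exact le_rfl
    | succ i ih => exact (ih (by omega)).trans (hn i hi).le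
  set m := (U 0).n with hm
  set n : ℕ → ℕ := fun i => ((U i).n - m).toNat with hnn
  have e1 : ∀ i ≤ k, (n i : ℤ) = (U i).n - m := fun i hi => by
    have := mono i hi
    simp only [hnn]; omega
  have e2 : EW Q N h (CE2 k U) = EW Q (m + N) h (CE2 k fun i => sc (-m) (U i)) := by
    simp only [EW, CE2, rel, anc_sc, sc_sc, neg_add_cancel_left]
  rw [e2, EW_hat hh hX (sc (-m) (U k)) _ (meas_CE2 _ _)]
  refine (hK k (fun i => sc (-m) (U i)) n r (by simp [hnn, hm]) (fun i hi => by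
    rw [e1 i hi]; rfl) (fun i hi => by
      have h1 := e1 i hi.le
      have h2 := e1 (i + 1) hi
      have h3 := hn i hi
      omega) hr fun i hi => ?_).trans (le_of_eq ?_)
  · rw [(center_sc _ _).1, (center_sc _ _).1, (center_sc _ _).2, ← mul_sub, norm_mul,
      Complex.norm_real, Real.norm_eq_abs, abs_of_pos (by positivity), mul_left_comm]
    exact mul_le_mul_of_nonneg_left (hd i hi) (by positivity)
  · simp only [phi]
    rw [ee_sum, ← ee_add, Finset.sum_sub_distrib, ← Finset.mul_sum, ← Finset.mul_sum]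
    have e3 : ∑ i ∈ Finset.range k, ((((U (i + 1)).n - (U i).n : ℤ)) : ℝ) = n k := by
      have := Finset.sum_range_sub (fun i => ((U i).n : ℝ)) k
      have h2 : (n k : ℝ) = (U k).n - m := by exact_mod_cast e1 k le_rfl
      push_cast
      rw [this, h2]
    have e4 : ∑ i ∈ Finset.range k, log ((n (i + 1) - n i : ℕ) : ℝ) =
        ∑ i ∈ Finset.range k, log ((((U (i + 1)).n - (U i).n : ℤ)) : ℝ) :=
      Finset.sum_congr rfl fun i hi => by
        have h0 := Finset.mem_range.1 hi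
        have h1 := e1 i h0.le
        have h2 := e1 (i + 1) h0
        have h3 := hn i h0
        rw [← Int.cast_natCast, show ((n (i + 1) - n i : ℕ) : ℤ) = (U (i + 1)).n - (U i).n by omega]
    rw [e3, e4]
    congr 1; ring

theorem InB_sc (N : ℤ) {k : ℝ} {V : Sq} (h : InB 0 (k * V.side) V) :
    InB 0 (k * (sc N V).side) (sc N V) := by
  obtain ⟨a1, a2, a3, a4⟩ := h
  have h1 := side_pos V
  have h2 := side_pos (sc N V)
  simp only [InB, Complex.zero_re, Complex.zero_im, zero_sub, zero_add, ← neg_mul,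
    mul_le_mul_iff_left₀ h1, mul_le_mul_iff_left₀ h2] at *
  exact ⟨a1, a2, a3, a4⟩

end AU

open AU Cnt in
/-- almost surely, at every level, the graph balls grow at most exponentially -/
theorem upper_as {Q : ℝ} (hQ : 0 < Q) (hQ' : Q < 2) (hQ2 : 2 ≤ Q ^ 2) : ∃ C : ℝ, ∀ {Ω : Type*}
    {_ : MeasurableSpace Ω} {P : Measure Ω} {h : Sq → Ω → ℝ}, CG h P gffCov → ∀ l : ℝ,
    ∀ᵐ ω ∂P, ∀ N : ℤ, tile (DD Q (fun S => h S ω) l) ⟨N, 0, 0⟩ → ∀ᶠ ρ : ℕ in atTop,
      NB (DD Q (fun S => h S ω) l) ρ ⟨N, 0, 0⟩ ≤ ee (C * ρ) := by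
  obtain ⟨K, hK0, hK⟩ := pc2 hQ hQ' hQ2
  obtain ⟨C, hC⟩ := sum_cand
  refine ⟨2 * |5 * K + C + 1|, fun {Ω _ P h} hh l => ?_⟩
  have := hh.prob
  set s : ℕ → Set CL := fun ρ => {c | IsCh (fun V => -(ρ : ℤ) ≤ V.n ∧ V.n ≤ 0) c ∧ tot c = ρ + 1}
  set A : ℤ → CL → Set (Ω × ℝ) := fun N c => EW Q N h (CE2 (c.length - 1) (fn c)) with hA
  have h1 : ∀ N, ∀ᵐ p ∂P.prod volume, ∀ᶠ ρ : ℕ in atTop, ¬ ee ((5 * K + C + 1) * ρ) ≤
      ∑' c : s ρ, (A N c).indicator 1 p := fun N => summ (P := P.prod volume)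
      (s := fun ρ : ℕ => {p | ee ((5 * K + C + 1) * ρ) ≤
      ∑' c : s ρ, (A N c).indicator 1 p}) (η := 1) (B := 6 * K + C) one_pos fun ρ => by
    refine (markov (s := s ρ) (A := A N) (fun c => meas_EW hh N (meas_CE2 _ _))
      (B := K * (5 * (ρ + 1) + 1) + C * (ρ + 1))
      ?_ ((5 * K + C + 1) * ρ)).trans (ee_mono ?_)
    swap
    · linarith
    rw [ee_add (K * (5 * (ρ + 1) + 1))]
    refine le_trans ?_ (mul_le_mul_right (hC ρ) (ee (K * (5 * (ρ + 1) + 1))))
    rw [← ENNReal.tsum_mul_left]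
    refine ENNReal.tsum_le_tsum ?_
    rintro ⟨_ | ⟨x, c⟩, h2, h3⟩
    · exact h2.elim
    obtain ⟨g1, g2, -, g4⟩ := geom h2
    refine (hK hh N c.length (fn (x :: c)) (fun i => ‖(fn (x :: c) i).center - x.2.center‖ /
      (fn (x :: c) i).side) g1 (fun i => div_nonneg (norm_nonneg _) (side_pos _).le) fun i _ => by
        rw [fn_last, div_mul_cancel₀ _ (side_pos _).ne']).trans ?_
    rw [g2]
    refine mul_le_mul_left (ee_mono (mul_le_mul_of_nonneg_left (g4.trans ?_) hK0)) _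
    rw [h3]; push_cast; rfl
  have h2 := Measure.ae_ae_of_ae_prod
    ((Measure.measurePreserving_swap (μ := volume) (ν := P)).quasiMeasurePreserving.ae
      (ae_all_iff.2 h1))
  obtain ⟨u, hu, h3⟩ := Measure.exists_mem_of_measure_ne_zero_of_ae
    (μ := volume) (s := Ioo (l - 1) (l + 1)) (by simp) (ae_restrict_of_ae h2)
  filter_upwards [h3, top_ok hh hQ l] with ω h3 h4 N hE
  rw [← sc_O, ← tile_sc] at hE
  filter_upwards [(tendsto_add_atTop_nat N.natAbs).eventually (h3 N), h4,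
    eventually_ge_atTop N.natAbs] with ρ h3 h4 h6
  rw [← sc_O, ← NB_sc]
  refine le_trans ?_ ((not_le.1 h3).le.trans (ee_mono ?_))
  swap
  · have h7 : (N.natAbs : ℝ) ≤ ρ := by exact_mod_cast h6
    have h8 := mul_le_mul_of_nonneg_right (le_abs_self (5 * K + C + 1))
      (Nat.cast_nonneg (α := ℝ) (ρ + N.natAbs))
    have h9 := mul_le_mul_of_nonneg_left h7 (abs_nonneg (5 * K + C + 1))
    rw [Nat.cast_add] at *
    linarith
  have h5 : {T | Rk (DD Q (fun S => h S ω) l ∘ sc N) ρ O T} ⊆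
      top '' {c | c ∈ s (ρ + N.natAbs) ∧ (ω, u) ∈ A N c} := by
    intro T hT
    obtain ⟨g, c, e1, e2, e3⟩ := of_rk hT
    have hT' := Rk.tile hT hE
    have e4 : ∀ g, ∀ y ∈ (g, T) :: c, (DD Q (fun S => h S ω) l ∘ sc N) y.2 := fun _ =>
      List.forall_mem_cons.2 ⟨hT'.1, e3⟩
    refine ⟨(g + N.natAbs, T) :: c, ⟨⟨pad (imp (k := ρ + 1) e1 (e4 g)
      (by rw [tot_cons]; exact e2.le) fun V a1 a2 a3 => ⟨not_lt.1 fun hn =>
        h4 (sc N V) (by simp only [sc]; omega) (InB_sc N a3) a1, a2⟩) _,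
      (tot_cons _ _).trans (by simp only; omega)⟩, fun i _ => ?_, fun m => ?_⟩, rfl⟩
    · obtain ⟨y, a1, a2⟩ := fn_mem (g + N.natAbs, T) c i
      have : lm Q (fun S => h S ω) (sc N y.2) ≤ l := e4 _ y a1
      rw [a2, rel]
      linarith [hu.1]
    · have : ¬ lm Q (fun S => h S ω) (sc N (anc T (m + 1))) ≤ l := hT'.2 m
      rw [List.length_cons, Nat.add_sub_cancel, fn_last, rel]
      linarith [hu.2]
  refine (ENat.toENNReal_le.2 ((encard_le_encard h5).trans (encard_image_le _ _))).trans ?_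
  rw [← ENNReal.tsum_set_one, tsum_subtype (s (ρ + N.natAbs)) fun c =>
    (A N c).indicator (1 : Ω × ℝ → ℝ≥0∞) (Prod.swap (u, ω)), tsum_subtype _ fun _ => (1 : ℝ≥0∞)]
  refine le_of_eq (tsum_congr fun c => ?_)
  by_cases a1 : c ∈ s (ρ + N.natAbs) <;> by_cases a2 : (ω, u) ∈ A N c <;> simp [a1, a2]

end Pool.Agent.Lib.MP_d1f1b2_pr
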