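import Pool.Agent.Lib.D1W.Bd

/-! The part of a circle inside a small disc is short. -/

open Set Filter MeasureTheory Real Metric

namespace Pool.Agent.Lib.MP_d1f1b2_pr

theorem chord (c : ℂ) {R : ℝ} (hR : 0 < R) (a b : ℝ) :
    ‖circleMap c R a - circleMap c R b‖ = 2 * R * |sin ((a - b) / 2)| := by
  have e : circleMap c R a - circleMap c R b =
      R * Complex.exp (b * Complex.I) * (Complex.exp (Complex.I * (a - b : ℝ)) - 1) := by
    rw [circleMap, circleMap, mul_sub, mul_assoc, ← Complex.exp_add]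
    push_cast
    ring_nf
  rw [e, norm_mul, norm_mul, Complex.norm_exp_I_mul_ofReal_sub_one, Complex.norm_exp_ofReal_mul_I,
    Complex.norm_real, Real.norm_of_nonneg hR.le, norm_mul, Real.norm_eq_abs, Real.norm_eq_abs,
    abs_two]
  ring

theorem arc_le (c w : ℂ) {R δ : ℝ} (hR : 0 < R) (hδ : 0 ≤ δ) :
    Th.real {θ | ‖w - circleMap c R θ‖ < δ} ≤ 3 * δ / R := by
  have hm : MeasurableSet {θ | ‖w - circleMap c R θ‖ < δ} :=
    (isOpen_lt (by fun_prop) continuous_const).measurableSet
  have hp := pi_pos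
  rw [Th, measureReal_ennreal_smul_apply, measureReal_restrict_apply hm,
    ENNReal.toReal_ofReal (by positivity), inv_mul_le_iff₀ (by positivity)]
  rcases ({θ | ‖w - circleMap c R θ‖ < δ} ∩ Ioc 0 (2 * π)).eq_empty_or_nonempty with h | ⟨b, hb⟩
  · rw [h, measureReal_empty]
    positivity
  set ρ := π * δ / R with hρ
  have hρ0 : 0 ≤ ρ := by positivity
  have key : ∀ x : ℝ, |x| ≤ π → R * |sin (x / 2)| < δ → |x| < ρ := fun x h1 h2 => by
    have h3 := mul_abs_le_abs_sin (x := x / 2) (by rw [abs_div, abs_two]; linarith)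
    rw [abs_div, abs_two, div_mul_div_comm, mul_comm π, mul_div_mul_left _ _ two_ne_zero,
      div_le_iff₀ hp] at h3
    rw [hρ, lt_div_iff₀ hR]
    nlinarith [mul_le_mul_of_nonneg_left h3 hR.le, mul_lt_mul_of_pos_left h2 hp]
  have hsub : {θ | ‖w - circleMap c R θ‖ < δ} ∩ Ioc 0 (2 * π) ⊆
      ball b ρ ∪ (ball (b + 2 * π) ρ ∪ ball (b - 2 * π) ρ) := fun a ha => by
    have h1 : R * |sin ((a - b) / 2)| < δ := by
      have h2 := norm_sub_le_norm_sub_add_norm_sub (circleMap c R a) w (circleMap c R b)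
      rw [chord c hR, norm_sub_rev _ w] at h2
      have h3 : ‖w - circleMap c R a‖ < δ := ha.1
      have h4 : ‖w - circleMap c R b‖ < δ := hb.1
      linarith
    simp only [mem_union, mem_ball, Real.dist_eq]
    rcases le_total |a - b| π with h | h
    · exact .inl (key _ h h1)
    rcases le_abs'.1 h with h | h
    · refine .inr (.inr (key _ (abs_le.2 ⟨by linarith [ha.2.1, hb.2.2], by linarith⟩) ?_))
      rwa [show (a - (b - 2 * π)) / 2 = (a - b) / 2 + π by ring, sin_add_pi, abs_neg]
    · refine .inr (.inl (key _ (abs_le.2 ⟨by linarith, by linarith [ha.2.2, hb.2.1]⟩) ?_))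
      rwa [show (a - (b + 2 * π)) / 2 = (a - b) / 2 - π by ring, sin_sub_pi, abs_neg]
  have hv : ∀ x : ℝ, volume.real (ball x ρ) = 2 * ρ := fun x => by
    rw [measureReal_def, Real.volume_ball, ENNReal.toReal_ofReal (by positivity)]
  refine (measureReal_mono hsub (by finiteness)).trans ((measureReal_union_le _ _).trans
    ((add_le_add le_rfl (measureReal_union_le _ _)).trans (le_of_eq ?_)))
  rw [hv, hv, hv, hρ]
  ring

theorem kS_le (S T : Sq) (s : ℝ) : kS S T s ≤ 12 / T.side * exp (-s) := by
  have h1 : ∀ z : ℂ, ∫ θ, ov (‖z - (cv T).p θ‖ * exp s) ∂Th ≤ 12 / T.side * exp (-s) := fun z => by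
    have hm : MeasurableSet {θ | ‖z - circleMap T.center (rad T) θ‖ < 2 * exp (-s)} :=
      (isOpen_lt (by fun_prop) continuous_const).measurableSet
    have h2 := arc_le T.center z (rad_pos T) (δ := 2 * exp (-s)) (by positivity)
    rw [← integral_indicator_one hm] at h2
    refine (integral_mono_of_nonneg (.of_forall fun _ => ov_nonneg _)
      ((integrable_const 1).indicator hm) (.of_forall fun θ => ?_)).trans (h2.trans (le_of_eq ?_))
    · by_cases h : θ ∈ {θ | ‖z - circleMap T.center (rad T) θ‖ < 2 * exp (-s)}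
      · rw [indicator_of_mem h]
        exact ov_le_one _
      · rw [indicator_of_notMem h]
        refine (ov_zero ?_).le
        have h3 : 2 * exp (-s) ≤ ‖z - (cv T).p θ‖ := not_lt.1 h
        rwa [exp_neg, ← div_eq_mul_inv, div_le_iff₀ (exp_pos s)] at h3
    · rw [rad]
      have := side_pos T
      field_simp
      ring
  simpa [kS, Cv.k] using integral_mono_of_nonneg (μ := Th)
    (.of_forall fun θ => integral_nonneg fun _ => ov_nonneg _) (integrable_const _)
    (.of_forall fun θ => h1 ((cv S).p θ))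

theorem kap_arc (S T : Sq) (m : ℝ) : kap S T m ≤ 12 / T.side * exp (-m) := by
  rw [← integral_exp_neg_Ioi, ← integral_const_mul]
  exact integral_mono ((cv_En S T).intOn m) ((integrableOn_exp_neg_Ioi m).const_mul _)
    fun s => kS_le S T s

/-- The covariance above level `j'` of squares of level at most `j`. -/
theorem kap_arc' (S T : Sq) {j j' : ℕ} (h : T.n ≤ j) :
    kap S T (j' * log 2) ≤ 12 * 2 ^ j * (1 / 2) ^ j' := by
  refine (kap_arc S T _).trans (mul_le_mul ?_ (le_of_eq ?_) (exp_pos _).le (by positivity))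
  · have h1 := side_exp T
    have h2 : exp (T.n * log 2) ≤ 2 ^ j := by
      rw [← exp_log (x := 2 ^ j) (by positivity), log_pow]
      exact exp_le_exp.2 (mul_le_mul_of_nonneg_right (by exact_mod_cast h)
        (log_nonneg one_le_two))
    rw [div_le_iff₀ (side_pos T)]
    nlinarith [mul_le_mul_of_nonneg_left h2 (side_pos T).le]
  · rw [exp_neg, exp_nat_mul, exp_log two_pos, one_div, inv_pow]

end Pool.Agent.Lib.MP_d1f1b2_pr
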