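import Pool.Agent.Lib.D1W.Iso

/-! A ballot estimate for a Gaussian walk, by odd reflection. -/

open Set Filter MeasureTheory ProbabilityTheory
open scoped ENNReal NNReal

namespace Pool.Agent.Lib.MP_d1f1b2_pr

namespace Bal

/-- The Gaussian measure of an interval. -/
noncomputable def G (b : ℝ) (t : ℝ≥0) (y : ℝ) : ℝ≥0∞ := gaussianReal y t (Icc 0 b)

@[fun_prop] theorem meas_G (b : ℝ) (t : ℝ≥0) : Measurable (G b t) :=
  (Measure.measurable_coe measurableSet_Icc).comp
    (measurable_gaussianReal.comp (measurable_id.prodMk measurable_const))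

theorem G_le (b : ℝ) (t : ℝ≥0) (y : ℝ) : G b t y ≤ 1 := prob_le_one

theorem G_semi (b : ℝ) (s t : ℝ≥0) (y : ℝ) :
    ∫⁻ ξ, G b t (y + ξ) ∂gaussianReal 0 s = G b (s + t) y := by
  have h := gaussianReal_conv_gaussianReal (m₁ := 0) (m₂ := y) (v₁ := s) (v₂ := t)
  rw [zero_add] at h
  rw [G, ← h, ← lintegral_indicator_one measurableSet_Icc,
    Measure.lintegral_conv (measurable_one.indicator measurableSet_Icc)]
  refine lintegral_congr fun ξ => ?_
  rw [G, ← gaussianReal_map_const_add, ← lintegral_indicator_one measurableSet_Icc,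
    lintegral_map (measurable_one.indicator measurableSet_Icc) (measurable_const_add ξ)]

theorem G_semi' (b : ℝ) (s t : ℝ≥0) (y : ℝ) :
    ∫⁻ ξ, G b t (y - ξ) ∂gaussianReal 0 s = G b (s + t) y := by
  have h := gaussianReal_map_neg (μ := 0) (v := s)
  rw [neg_zero] at h
  rw [← G_semi, ← h, lintegral_map (by fun_prop) measurable_neg, h]
  simp only [sub_neg_eq_add]

theorem G_zero (b y : ℝ) : G b 0 y = (Icc 0 b).indicator 1 y := by
  rw [G, gaussianReal_zero_var, Measure.dirac_apply]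

theorem refl_le {b L y : ℝ} (hL : 0 < L) (hy : -L ≤ y) (t : ℝ≥0) :
    G b t (-y - 2 * L) ≤ G b t y := by
  rcases eq_or_ne t 0 with rfl | ht
  · rw [G_zero, indicator_of_notMem fun h => by linarith [h.1]]
    exact zero_le
  rw [G, G, gaussianReal_apply _ ht, gaussianReal_apply _ ht]
  refine setLIntegral_mono' measurableSet_Icc fun u hu => ENNReal.ofReal_le_ofReal
    (mul_le_mul_of_nonneg_left (Real.exp_le_exp.2 (div_le_div_of_nonneg_right ?_ (by positivity)))
      (by positivity))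
  nlinarith [mul_nonneg (show 0 ≤ u + L by linarith [hu.1]) (show 0 ≤ y + L by linarith)]

theorem le_refl_add {b L y : ℝ} (hL : 0 < L) (hy : y ∈ Icc 0 b) {t : ℝ≥0} (ht : 0 < t) :
    G b t y ≤ G b t (-y - 2 * L) +
      ENNReal.ofReal ((√(2 * Real.pi * t))⁻¹ * (2 * (b + L) ^ 2 / t) * b) := by
  have ht' : (0 : ℝ) < t := ht
  have hb := hy.1.trans hy.2
  rw [G, G, gaussianReal_apply _ ht.ne', gaussianReal_apply _ ht.ne',
    ENNReal.ofReal_mul (by positivity), ← sub_zero b, ← Real.volume_Icc, sub_zero,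
    ← setLIntegral_const, ← lintegral_add_right _ measurable_const]
  refine setLIntegral_mono' measurableSet_Icc fun u hu => ?_
  rw [gaussianPDF, gaussianPDF, ← ENNReal.ofReal_add (gaussianPDFReal_nonneg _ _ _)
    (by positivity), gaussianPDFReal, gaussianPDFReal, ← mul_add]
  refine ENNReal.ofReal_le_ofReal (mul_le_mul_of_nonneg_left ?_ (by positivity))
  have h1 : -(u - (-y - 2 * L)) ^ 2 / (2 * t) =
      -(u - y) ^ 2 / (2 * t) + -(2 * ((u + L) * (y + L)) / t) := by field_simp; ring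
  have h2 : Real.exp (-(u - y) ^ 2 / (2 * t)) ≤ 1 := Real.exp_le_one_iff.2
    (div_nonpos_of_nonpos_of_nonneg (neg_nonpos.2 (sq_nonneg _)) (by positivity))
  have h3 : 2 * ((u + L) * (y + L)) / t ≤ 2 * (b + L) ^ 2 / t := by
    rw [sq]
    have := hu.1
    have := hy.1
    gcongr
    exacts [hu.2, hy.2]
  have h4 : 0 ≤ 2 * ((u + L) * (y + L)) / t := by
    have := hu.1
    have := hy.1
    positivity
  have h5 := Real.add_one_le_exp (-(2 * ((u + L) * (y + L)) / t))
  rw [h1, Real.exp_add]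
  nlinarith [Real.exp_pos (-(u - y) ^ 2 / (2 * t))]

theorem numeric {A t d : ℝ} (hA : 0 ≤ A) (hd : 1 ≤ d) (ht : d / 4 ≤ t) :
    (√(2 * Real.pi * t))⁻¹ * (2 * (2 * A + (1 + 3 * Real.log d)) ^ 2 / t) * (2 * A) +
      d * Real.exp (1 / 2 - (1 + 3 * Real.log d)) ≤
      Real.exp (3000000 + A - 11 / 8 * Real.log d) := by
  have hd0 : 0 < d := one_pos.trans_le hd
  have ht0 : 0 < t := lt_of_lt_of_le (by positivity) ht
  obtain ⟨u, rfl⟩ : ∃ u, d = Real.exp u := ⟨_, (Real.exp_log hd0).symm⟩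
  have hu : 0 ≤ u := Real.one_le_exp_iff.1 hd
  rw [Real.log_exp]
  have h1 : (√(2 * Real.pi * t))⁻¹ ≤ Real.exp (-(u / 2)) := by
    rw [Real.exp_neg]
    refine inv_anti₀ (Real.exp_pos _) (Real.le_sqrt_of_sq_le ?_)
    rw [sq, ← Real.exp_add, add_halves]
    nlinarith [Real.pi_gt_three]
  have h2 : t⁻¹ ≤ 4 * Real.exp (-u) := by
    rw [Real.exp_neg, inv_le_iff_one_le_mul₀' ht0, mul_left_comm, ← div_eq_mul_inv,
      ← div_le_iff₀' four_pos, le_div_iff₀ hd0]
    linarith
  have h3 : 1 + A ≤ 3 * Real.exp (A / 3) := by linarith [Real.add_one_le_exp (A / 3)]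
  have h4 := Real.add_one_le_exp (u / 16)
  have h5 : 2 * A + (1 + 3 * u) ≤ 48 * Real.exp (u / 16) * (3 * Real.exp (A / 3)) :=
    le_trans (by nlinarith) (mul_le_mul_of_nonneg_left h3 (by positivity))
  have h6 : 2 * A ≤ 2 * (3 * Real.exp (A / 3)) := by linarith
  have h7 : (√(2 * Real.pi * t))⁻¹ * (2 * (2 * A + (1 + 3 * u)) ^ 2 / t) * (2 * A) ≤
      Real.exp (-(u / 2)) * (2 * (48 * Real.exp (u / 16) * (3 * Real.exp (A / 3))) ^ 2 *
        (4 * Real.exp (-u))) * (2 * (3 * Real.exp (A / 3))) := by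
    rw [div_eq_mul_inv]
    gcongr
  have h8 : Real.exp (A - 11 / 8 * u) = Real.exp (-(u / 2)) * Real.exp (u / 16) ^ 2 *
      Real.exp (-u) * Real.exp (A / 3) ^ 3 := by
    simp only [← Real.exp_nat_mul, ← Real.exp_add]
    congr 1
    push_cast
    ring
  have h9 : Real.exp u * Real.exp (1 / 2 - (1 + 3 * u)) ≤ Real.exp (A - 11 / 8 * u) := by
    rw [← Real.exp_add, Real.exp_le_exp]
    linarith
  have h10 := mul_le_mul_of_nonneg_right (Real.add_one_le_exp 3000000)
    (Real.exp_pos (A - 11 / 8 * u)).le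
  rw [add_sub_assoc, Real.exp_add]
  nlinarith [Real.exp_pos (A - 11 / 8 * u)]

variable {Ω : Type*} {mΩ : MeasurableSpace Ω} {P : Measure Ω} {W : ℕ → Ω → ℝ} {v : ℕ → ℝ}

/-- The past of the walk. -/
abbrev past (W : ℕ → Ω → ℝ) (n : ℕ) : MeasurableSpace Ω :=
  MeasurableSpace.comap (fun ω i => W (min i n) ω) MeasurableSpace.pi

theorem past_meas {j n : ℕ} (h : j ≤ n) : Measurable[past W n] (W j) := by
  have := (measurable_pi_apply j).comp (comap_measurable fun ω i => W (min i n) ω)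
  simpa only [Function.comp_def, min_eq_left h] using this

theorem past_mono {j n : ℕ} (h : j ≤ n) : past W j ≤ past W n :=
  Measurable.comap_le (@measurable_pi_lambda _ _ _ (past W n) _ _ fun _ =>
    past_meas ((min_le_right _ _).trans h))

theorem past_le (h : CG W P fun i j => v (min i j)) (n : ℕ) : past W n ≤ mΩ :=
  Measurable.comap_le (measurable_pi_lambda _ fun _ => h.meas _)

theorem freeze (h : CG W P fun i j => v (min i j)) (n : ℕ) {E : Set Ω}
    (hE : MeasurableSet[past W n] E) {φ : ℝ × ℝ → ℝ≥0∞} (hφ : Measurable φ) :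
    ∫⁻ ω in E, φ (W n ω, W (n + 1) ω - W n ω) ∂P =
      ∫⁻ ω in E, ∫⁻ ξ, φ (W n ω, ξ) ∂gaussianReal 0 (v (n + 1) - v n).toNNReal ∂P := by
  have := h.prob
  have h1 := h.comb (ι := ℕ ⊕ Unit) (Sum.elim (fun i => min i n) fun _ => n + 1)
    (Sum.elim (fun _ => 0) fun _ => 1) fun _ => n
  have h2 := (h1.indep Sum.inl Sum.inr fun i _ => by simp).comp measurable_id
    (measurable_pi_apply ())
  simp only [Function.comp_def, Sum.elim_inl, Sum.elim_inr, zero_mul, sub_zero, one_mul, id] at h2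
  have hY : Measurable fun ω i => W (min i n) ω := measurable_pi_lambda _ fun _ => h.meas _
  have hξ : Measurable fun ω => W (n + 1) ω - W n ω := (h.meas _).sub (h.meas _)
  have h3 : P.map (fun ω => W (n + 1) ω - W n ω) = gaussianReal 0 (v (n + 1) - v n).toNNReal := by
    have h4 := (h1.gauss.hasGaussianLaw_eval (.inr ())).map_eq_gaussianReal
    rw [h1.mean, ← covariance_self (h1.meas _).aemeasurable, h1.cov] at h4
    simpa using h4
  have hE' := past_le h n E hE
  obtain ⟨B, hB, rfl⟩ := hE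
  have hΨ : Measurable fun p : (ℕ → ℝ) × ℝ => (Prod.fst ⁻¹' B).indicator
      (fun p : (ℕ → ℝ) × ℝ => φ (p.1 n, p.2)) p :=
    (hφ.comp (by fun_prop)).indicator (measurable_fst hB)
  have h5 := lintegral_map (μ := P) hΨ (hY.prodMk hξ)
  rw [h2.map_prod_eq_prod_map_map hY.aemeasurable hξ.aemeasurable, h3,
    lintegral_prod _ hΨ.aemeasurable, lintegral_map hΨ.lintegral_prod_right' hY] at h5
  rw [← lintegral_indicator hE', ← lintegral_indicator hE']
  refine Eq.trans (lintegral_congr fun ω => ?_) (h5.symm.trans (lintegral_congr fun ω => ?_))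
  all_goals by_cases hω : (fun i => W (min i n) ω) ∈ B <;> simp [indicator, hω]

theorem tail_one {s : ℝ≥0} (hs : s ≤ 1) (L : ℝ) :
    gaussianReal 0 s (Iic (-L)) ≤ ee (1 / 2 - L) := by
  have h1 := lint_gauss (P := gaussianReal 0 s) (Y := fun x => -x)
    ⟨by rw [gaussianReal_map_neg]; infer_instance⟩ (by rw [integral_neg]; simp)
  rw [variance_fun_neg, variance_fun_id_gaussianReal] at h1
  have hs' : (s : ℝ) ≤ 1 := hs
  calc _ = ∫⁻ x, (Iic (-L)).indicator 1 x ∂gaussianReal 0 s :=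
        (lintegral_indicator_one measurableSet_Iic).symm
    _ ≤ ∫⁻ x, ee (-x) * ee (-L) ∂gaussianReal 0 s := lintegral_mono fun x => by
        by_cases hx : x ∈ Iic (-L)
        · rw [indicator_of_mem hx, ← ee_add]
          exact one_le_ee (by linarith [mem_Iic.1 hx])
        · rw [indicator_of_notMem hx]
          exact zero_le
    _ ≤ _ := by
        rw [lintegral_mul_const _ (by fun_prop), h1, ← ee_add]
        exact ee_mono (by linarith)

theorem block (h : CG W P fun i j => v (min i j))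
    (hv : ∀ j, v j ≤ v (j + 1) ∧ v (j + 1) ≤ v j + 1) {b L x : ℝ} (hL : 0 < L) (m : ℕ) :
    ∀ (n : ℕ) (E : Set Ω), MeasurableSet[past W n] E → (∀ ω ∈ E, 0 ≤ x + W n ω) →
      P (E ∩ {ω | (∀ j, n < j → j ≤ n + m → 0 ≤ x + W j ω) ∧ x + W (n + m) ω ≤ b}) +
        ∫⁻ ω in E, G b (v (n + m) - v n).toNNReal (-(x + W n ω) - 2 * L) ∂P ≤
      ∫⁻ ω in E, G b (v (n + m) - v n).toNNReal (x + W n ω) ∂P + m * (ee (1 / 2 - L) * P E) := by
  have hm := h.meas
  induction m with
  | zero =>
    intro n E hE h0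
    have hE' := past_le h n E hE
    have h1 : MeasurableSet {ω | x + W n ω ≤ b} := measurableSet_le (by fun_prop) measurable_const
    simp only [add_zero, sub_self, Real.toNNReal_zero, G_zero, Nat.cast_zero, zero_mul]
    rw [setLIntegral_congr_fun hE' (g := fun _ => 0) fun ω hω =>
      indicator_of_notMem (fun h => by linarith [h.1, h0 ω hω]) _, lintegral_zero, add_zero]
    refine (measure_mono (t := {ω | x + W n ω ≤ b} ∩ E) fun ω hω => ⟨hω.2.2, hω.1⟩).trans ?_
    rw [← Measure.restrict_apply h1, ← lintegral_indicator_one h1]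
    refine setLIntegral_mono' hE' fun ω hω => ?_
    by_cases h2 : x + W n ω ≤ b
    · rw [indicator_of_mem (s := Icc 0 b) ⟨h0 ω hω, h2⟩, indicator_of_mem (by exact h2)]
      rfl
    · rw [indicator_of_notMem (by exact h2)]
      exact zero_le
  | succ m ih =>
    intro n E hE h0
    have hE' := past_le h n E hE
    set C : Set Ω := {ω | 0 ≤ x + W (n + 1) ω} with hC
    have hC1 : MeasurableSet[past W (n + 1)] C :=
      measurableSet_le measurable_const ((past_meas le_rfl).const_add x)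
    have hC2 := past_le h _ C hC1
    have h1 := ih (n + 1) (E ∩ C) ((past_mono (Nat.le_succ n) E hE).inter hC1) fun ω hω => hω.2
    set t := (v (n + 1 + m) - v (n + 1)).toNNReal
    set s := (v (n + 1) - v n).toNNReal with hs
    have h2 : (v (n + (m + 1)) - v n).toNNReal = s + t := by
      rw [← Real.toNNReal_add (sub_nonneg.2 (hv n).1) (sub_nonneg.2
        (monotone_nat_of_le_succ (fun j => (hv j).1) (Nat.le_add_right _ _))), add_right_comm n 1,
        ← add_assoc]
      congr 1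
      ring
    have h3 := freeze h n hE (φ := fun p => G b t (x + p.1 + p.2)) (by fun_prop)
    have h4 := freeze h n hE (φ := fun p => G b t (-(x + p.1) - 2 * L - p.2)) (by fun_prop)
    have h5 := freeze h n hE (φ := fun p => (Iic (-L)).indicator 1 p.2)
      ((measurable_one.indicator measurableSet_Iic).comp measurable_snd)
    simp only [G_semi, G_semi', ← hs,
      lintegral_indicator_one measurableSet_Iic, setLIntegral_const] at h3 h4 h5
    simp only [add_assoc, add_sub_cancel] at h3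
    have h6 : ∀ ω, -(x + W n ω) - 2 * L - (W (n + 1) ω - W n ω) = -(x + W (n + 1) ω) - 2 * L :=
      fun ω => by ring
    simp only [h6] at h4
    have h7 : ∫⁻ ω in E \ C, G b t (-(x + W (n + 1) ω) - 2 * L) ∂P ≤
        ∫⁻ ω in E \ C, G b t (x + W (n + 1) ω) ∂P + ee (1 / 2 - L) * P E := by
      refine le_trans ?_ (add_le_add le_rfl ((lintegral_mono_set (sdiff_subset (t := C))).trans (h5.le.trans
        (mul_le_mul_left (tail_one (Real.toNNReal_le_one.2 (by linarith [(hv n).2])) L) _))))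
      rw [← lintegral_add_left (by fun_prop)]
      refine setLIntegral_mono' (hE'.diff hC2) fun ω hω => ?_
      by_cases h8 : -L ≤ x + W (n + 1) ω
      · exact (refl_le hL h8 t).trans le_self_add
      · rw [indicator_of_mem (mem_Iic.2 (by linarith [h0 ω hω.1, not_le.1 h8]))]
        exact (G_le _ _ _).trans le_add_self
    have h8 : E ∩ {ω | (∀ j, n < j → j ≤ n + (m + 1) → 0 ≤ x + W j ω) ∧
        x + W (n + (m + 1)) ω ≤ b} ⊆ E ∩ C ∩ {ω | (∀ j, n + 1 < j → j ≤ n + 1 + m →
          0 ≤ x + W j ω) ∧ x + W (n + 1 + m) ω ≤ b} := fun ω hω =>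
      ⟨⟨hω.1, hω.2.1 _ (Nat.lt_succ_self n) (by omega)⟩,
        fun j h1 h2 => hω.2.1 j (by omega) (by omega), by rw [add_right_comm]; exact hω.2.2⟩
    rw [h2, ← h3, ← h4, ← lintegral_inter_add_sdiff _ E hC2, ← lintegral_inter_add_sdiff _ E hC2,
      ← add_assoc]
    refine (add_le_add ((add_le_add (measure_mono h8) le_rfl).trans (h1.trans (add_le_add le_rfl
      (mul_le_mul_right (mul_le_mul_right (measure_mono inter_subset_left) _) _)))) h7).trans
      (le_of_eq ?_)
    push_cast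
    ring

theorem block' (h : CG W P fun i j => v (min i j))
    (hv : ∀ j, v j ≤ v (j + 1) ∧ v (j + 1) ≤ v j + 1) {A x : ℝ} (hA : 0 ≤ A) {n d : ℕ}
    (hd : 0 < d) (ht : (d : ℝ) / 2 - 8 ≤ v (n + d) - v n) {E : Set Ω}
    (hE : MeasurableSet[past W n] E) (h0 : ∀ ω ∈ E, x + W n ω ∈ Icc 0 (2 * A)) :
    P (E ∩ {ω | (∀ j, n < j → j ≤ n + d → 0 ≤ x + W j ω) ∧ x + W (n + d) ω ≤ 2 * A}) ≤
      P E * ee (3000000 + A - 11 / 8 * Real.log d) := by
  have := h.prob
  have hm := h.meas
  have hd1 : (1 : ℝ) ≤ d := by exact_mod_cast hd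
  rcases le_total (d : ℝ) 32 with h1 | h1
  · refine (measure_mono inter_subset_left).trans (le_mul_of_one_le_right' (one_le_ee ?_))
    linarith [Real.log_le_sub_one_of_pos (one_pos.trans_le hd1)]
  have hL : 0 < 1 + 3 * Real.log d := by linarith [Real.log_nonneg hd1]
  have h2 := block h hv (b := 2 * A) (x := x) hL d n E hE fun ω hω => (h0 ω hω).1
  set t := (v (n + d) - v n).toNNReal
  have h3 : (d : ℝ) / 4 ≤ t := le_trans (by linarith) (Real.le_coe_toNNReal _)
  have h4 : 0 < t := by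
    have : (0 : ℝ) < t := lt_of_lt_of_le (by positivity) h3
    exact this
  have h5 := setLIntegral_mono' (μ := P) (past_le h n E hE) fun ω hω =>
    le_refl_add hL (h0 ω hω) h4
  rw [lintegral_add_right _ measurable_const, setLIntegral_const] at h5
  have h6 := h2.trans (add_le_add h5 le_rfl)
  rw [add_assoc, add_comm, ENNReal.add_le_add_iff_left (ne_top_of_le_ne_top (measure_ne_top P E)
    ((lintegral_mono fun ω => G_le _ _ _).trans_eq (setLIntegral_one E))),
    ← mul_assoc (d : ℝ≥0∞), ← add_mul, mul_comm _ (P E)] at h6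
  refine h6.trans (mul_le_mul_right ?_ _)
  rw [ee, ← ENNReal.ofReal_natCast, ← ENNReal.ofReal_mul (by positivity),
    ← ENNReal.ofReal_add (by positivity) (by positivity)]
  exact ENNReal.ofReal_le_ofReal (numeric hA hd1 h3)

end Bal

open Bal in
theorem ballot : ∃ K : ℝ, ∀ {Ω : Type*} {_ : MeasurableSpace Ω} {P : Measure Ω} {W : ℕ → Ω → ℝ}
    {v : ℕ → ℝ}, CG W P (fun i j => v (min i j)) →
    (∀ j, v j ≤ v (j + 1) ∧ v (j + 1) ≤ v j + 1) →
    ∀ (k : ℕ) (n : ℕ → ℕ) (a : ℕ → ℝ) (x : ℝ), (∀ i < k, n i < n (i + 1)) → (∀ i, 0 ≤ a i) →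
    (∀ i < k, ((n (i + 1) - n i : ℕ) : ℝ) / 2 - 8 ≤ v (n (i + 1)) - v (n i)) →
    P {ω | |x + W (n 0) ω| ≤ a 0 ∧ ∀ i < k, x + W (n (i + 1)) ω ≤ a (i + 1) ∧
      ∀ j, n i < j → j ≤ n (i + 1) → -a (i + 1) ≤ x + W j ω} ≤
    ∏ i ∈ Finset.range k,
      ee (K + a i + a (i + 1) - 11 / 8 * Real.log ((n (i + 1) - n i : ℕ) : ℝ)) := by
  refine ⟨3000000, fun {Ω _ P W v} h hv k n a x hn ha ht => ?_⟩
  have := h.prob
  set E : ℕ → Set Ω := fun k => {ω | |x + W (n 0) ω| ≤ a 0 ∧ ∀ i < k,
    x + W (n (i + 1)) ω ≤ a (i + 1) ∧ ∀ j, n i < j → j ≤ n (i + 1) → -a (i + 1) ≤ x + W j ω}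
    with hE
  suffices key : ∀ m ≤ k, MeasurableSet[past W (n m)] (E m) ∧
      (∀ ω ∈ E m, |x + W (n m) ω| ≤ a m) ∧ P (E m) ≤ ∏ i ∈ Finset.range m,
        ee (3000000 + a i + a (i + 1) - 11 / 8 * Real.log ((n (i + 1) - n i : ℕ) : ℝ)) from
    (key k le_rfl).2.2
  intro m hm
  induction m with
  | zero =>
    refine ⟨?_, fun ω hω => hω.1, by simpa using prob_le_one⟩
    simp only [hE, Nat.not_lt_zero, false_imp_iff, implies_true, and_true]
    exact measurableSet_le (continuous_abs.measurable.comp ((past_meas le_rfl).const_add x))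
      measurable_const
  | succ m ih =>
    obtain ⟨h1, h2, h3⟩ := ih (by omega)
    have h4 := hn m (by omega)
    have h5 : E (m + 1) = E m ∩ ({ω | x + W (n (m + 1)) ω ≤ a (m + 1)} ∩
        ⋂ j ∈ Ioc (n m) (n (m + 1)), {ω | -a (m + 1) ≤ x + W j ω}) := by
      ext ω
      simp only [hE, mem_ofPred_eq, Nat.forall_lt_succ_right, mem_inter_iff, mem_iInter, mem_Ioc,
        and_imp, and_assoc]
    refine ⟨?_, fun ω hω => abs_le.2 ⟨(hω.2 m m.lt_succ_self).2 _ h4 le_rfl,
      (hω.2 m m.lt_succ_self).1⟩, ?_⟩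
    · rw [h5]
      exact (past_mono h4.le _ h1).inter
        ((measurableSet_le ((past_meas le_rfl).const_add x) measurable_const).inter
          (MeasurableSet.biInter (to_countable _) fun j hj =>
            measurableSet_le measurable_const ((past_meas hj.2).const_add x)))
    have h6 := ha m
    have h7 := ha (m + 1)
    have h8 := block' h hv (x := x + (a m + a (m + 1))) (add_nonneg h6 h7) (Nat.sub_pos_of_lt h4)
      (by rw [Nat.add_sub_of_le h4.le]; exact ht m (by omega)) h1 fun ω hω => by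
        have := abs_le.1 (h2 ω hω)
        constructor <;> linarith
    rw [Nat.add_sub_of_le h4.le, ← add_assoc 3000000] at h8
    rw [Finset.prod_range_succ]
    refine le_trans (measure_mono fun ω hω => ?_) (h8.trans (mul_le_mul_left h3 _))
    have h9 := hω.2 m m.lt_succ_self
    exact ⟨(h5 ▸ hω).1, fun j h1 h2 => by linarith [h9.2 j h1 h2], by linarith [h9.1]⟩

end Pool.Agent.Lib.MP_d1f1b2_pr
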