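import Pool.Agent.Lib.D1W.WN

/-! Bounds on the covariances of the scales. -/

open Set Filter MeasureTheory ProbabilityTheory Real Metric

namespace Pool.Agent.Lib.MP_d1f1b2_pr

theorem kS_symm (S T : Sq) (s : ℝ) : kS S T s = kS T S s := Cv.k_symm _ _ _

theorem kap_symm (S T : Sq) (m : ℝ) : kap S T m = kap T S m := by
  simp only [kap, kS_symm S T]

theorem tau_symm (S T : Sq) : tau S T = tau T S := by
  simp only [tau, kS_symm S T]

theorem kS_ii (S T : Sq) (m m' : ℝ) : IntervalIntegrable (kS S T) volume m m' :=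
  intervalIntegrable_iff.2 (((cv_En S T).intOn (min m m')).mono_set fun _ h => h.1)

/-- The covariance carried by the scales between zero and `M`. -/
noncomputable def ik (S T : Sq) (M : ℝ) : ℝ := kap S T 0 - kap S T M

theorem ik_eq (S T : Sq) (M : ℝ) : ik S T M = ∫ s in (0 : ℝ)..M, kS S T s :=
  intervalIntegral.integral_Ioi_sub_Ioi' ((cv_En S T).intOn 0) ((cv_En S T).intOn M)

theorem ik_le (S T : Sq) {M : ℝ} (hM : 0 ≤ M) : ik S T M ≤ M := by
  rw [ik_eq]
  simpa using intervalIntegral.integral_mono_on hM (kS_ii S T 0 M)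
    (intervalIntegrable_const (c := (1 : ℝ))) fun s _ => Cv.k_le_one _ _ s

theorem kap_nonneg (S T : Sq) (m : ℝ) : 0 ≤ kap S T m :=
  integral_nonneg fun _ => Cv.k_nonneg _ _ _

theorem kap_zero {S T : Sq} {d m : ℝ} (h : ∀ θ θ', d ≤ ‖(cv S).p θ - (cv T).p θ'‖)
    (hm : 2 ≤ d * exp m) : kap S T m = 0 := by
  refine setIntegral_eq_zero_of_forall_eq_zero fun s hs => Cv.k_zero _ _ fun θ θ' => hm.trans ?_
  have hd : 0 ≤ d := by
    by_contra h0
    nlinarith [exp_pos m]
  exact mul_le_mul (h θ θ') (exp_le_exp.2 (le_of_lt hs)) (exp_pos _).le (norm_nonneg _)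

theorem ik_le_of_sep {S T : Sq} {d m : ℝ} (h : ∀ θ θ', d ≤ ‖(cv S).p θ - (cv T).p θ'‖)
    (hm : 2 ≤ d * exp m) (h0 : 0 ≤ m) (M : ℝ) : ik S T M ≤ m := by
  have h1 := ik_le S T h0
  have h2 := kap_nonneg S T M
  rw [ik, kap_zero h hm] at h1
  rw [ik]; linarith

theorem le_ik {S T : Sq} {D M : ℝ} (h : ∀ θ θ', ‖(cv S).p θ - (cv T).p θ'‖ ≤ D) (hM : 0 ≤ M) :
    M - 2 * D * exp M ≤ ik S T M := by
  have hD : 0 ≤ D := (norm_nonneg _).trans (h 0 0)
  have hc : Continuous fun s => 2 * D * exp s := by fun_prop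
  have h1 := intervalIntegral.integral_mono_on (f := fun s => 1 - 2 * D * exp s) hM
    ((continuous_const.sub hc).intervalIntegrable _ _) (kS_ii S T 0 M) fun s _ => by
      have := Cv.one_sub_k _ _ h s
      unfold kS; linarith
  rw [intervalIntegral.integral_sub intervalIntegrable_const (hc.intervalIntegrable _ _),
    intervalIntegral.integral_const_mul, integral_exp, ← ik_eq] at h1
  simp only [intervalIntegral.integral_const, sub_zero, smul_eq_mul, mul_one, exp_zero] at h1
  linarith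

theorem tau_nonneg (S T : Sq) : 0 ≤ tau S T :=
  integral_nonneg fun _ => sub_nonneg.2 (Cv.k_le_one _ _ _)

theorem tau_le {S T : Sq} {D : ℝ} (h : ∀ θ θ', ‖(cv S).p θ - (cv T).p θ'‖ ≤ D) :
    tau S T ≤ 2 * D := by
  have := integral_mono ((cv S).intOn_one_sub (cv T) 0)
    ((integrableOn_exp_Iic 0).const_mul (2 * D)) fun s => Cv.one_sub_k _ _ h s
  rw [integral_const_mul, integral_exp_Iic_zero, mul_one] at this
  exact this

theorem cv_mem (S : Sq) (θ : ℝ) : (cv S).p θ ∈ S.carrier := by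
  have h := cv_dist S θ
  have h1 := abs_le.1 ((Complex.abs_re_le_norm _).trans h.le)
  have h2 := abs_le.1 ((Complex.abs_im_le_norm _).trans h.le)
  simp only [Sq.center, Complex.sub_re, Complex.sub_im, rad] at h1 h2
  refine ⟨?_, ?_, ?_, ?_⟩ <;> linarith [h1.1, h1.2, h2.1, h2.2]

theorem dist_in {T : Sq} {z w : ℂ} (hz : z ∈ T.carrier) (hw : w ∈ T.carrier) :
    ‖z - w‖ ≤ 2 * T.side := by
  have h1 := norm_sub_center hz
  have h2 := norm_sub_center hw
  rw [norm_sub_rev] at h2
  linarith [norm_sub_le_norm_sub_add_norm_sub z T.center w]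

theorem sep_dist {S T : Sq} (hn : S.n = T.n) {z w : ℂ} (hz : z ∈ S.carrier) (hw : w ∈ T.carrier)
    {d : ℤ} (hd : d + 1 ≤ |S.i - T.i| ∨ d + 1 ≤ |S.j - T.j|) : d * S.side ≤ ‖z - w‖ := by
  obtain ⟨a1, a2, a3, a4⟩ := hz
  obtain ⟨b1, b2, b3, b4⟩ := hw
  have e : T.side = S.side := by rw [Sq.side, Sq.side, hn]
  have hs := (side_pos S).le
  rw [e] at b1 b2 b3 b4
  have h1 := abs_le.1 (Complex.abs_re_le_norm (z - w))
  have h2 := abs_le.1 (Complex.abs_im_le_norm (z - w))
  simp only [Complex.sub_re, Complex.sub_im] at h1 h2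
  rcases hd with hd | hd <;> rcases le_abs.1 hd with hd | hd
  · have : (d : ℝ) + 1 ≤ S.i - T.i := by exact_mod_cast hd
    nlinarith [mul_le_mul_of_nonneg_right this hs]
  · have : (d : ℝ) + 1 ≤ -(S.i - T.i) := by exact_mod_cast hd
    nlinarith [mul_le_mul_of_nonneg_right this hs]
  · have : (d : ℝ) + 1 ≤ S.j - T.j := by exact_mod_cast hd
    nlinarith [mul_le_mul_of_nonneg_right this hs]
  · have : (d : ℝ) + 1 ≤ -(S.j - T.j) := by exact_mod_cast hd
    nlinarith [mul_le_mul_of_nonneg_right this hs]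

theorem side_exp (S : Sq) : S.side * exp (S.n * log 2) = 1 := by
  rw [← exp_log (side_pos S), log_side, ← exp_add]; simp

theorem kap_le (S T : Sq) {D : ℝ} (h : ∀ θ θ', ‖(cv S).p θ - (cv T).p θ'‖ ≤ D) (m : ℝ) :
    kap S T m ≤ log (max (2 * exp (-m)) D) + kk S T := by
  have := (cv_En S T).int_le h m
  rwa [energy_eq, sub_neg_eq_add] at this

theorem kap_self_le (S : Sq) {m t : ℝ} (ht : 0 ≤ t) (hm : S.n * log 2 ≤ m + t) :
    kap S S m ≤ t + 2 * log 2 := by
  have hs := side_pos S
  have h1 := kap_le S S (fun θ θ' => dist_in (cv_mem S θ) (cv_mem S θ')) m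
  have h2 := kk_le (S := S) (T := S) (rad_pos S) (Or.inl le_rfl)
  have h3 : log (max (2 * exp (-m)) (2 * S.side)) ≤ log (2 * S.side * exp t) := by
    refine log_le_log (by positivity) (max_le ?_ ?_)
    · rw [← exp_log hs, log_side, mul_assoc, ← exp_add]
      gcongr; linarith
    · exact le_mul_of_one_le_right (by positivity) (one_le_exp ht)
  rw [log_mul (by positivity) (exp_pos _).ne', log_exp, log_two_mul_side] at h3
  rw [log_rad] at h2
  linarith

theorem center_sub (W : Sq) (m : ℕ) (a b : ℤ) : (sub W m a b).center =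
    (⟨W.i * W.side, W.j * W.side⟩ : ℂ) + W.side * (sub O m a b).center := by
  have h2 := side_sub O m a b
  rw [side_O] at h2
  apply Complex.ext
  · rw [Complex.add_re, Complex.re_ofReal_mul]
    simp only [Sq.center, side_sub' W]
    generalize (sub O m a b).side = s at *
    simp only [sub, O]
    push_cast
    linear_combination (-W.i * W.side) * h2
  · rw [Complex.add_im, Complex.im_ofReal_mul]
    simp only [Sq.center, side_sub' W]
    generalize (sub O m a b).side = s at *
    simp only [sub, O]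
    push_cast
    linear_combination (-W.j * W.side) * h2

theorem cv_sub (W : Sq) (m : ℕ) (a b : ℤ) (θ : ℝ) : (cv (sub W m a b)).p θ =
    (⟨W.i * W.side, W.j * W.side⟩ : ℂ) + W.side * (cv (sub O m a b)).p θ := by
  simp only [cv, circleMap, center_sub W, rad, side_sub' W]
  push_cast; ring

theorem kap_sub (W : Sq) (m m' : ℕ) (a b a' b' : ℤ) (t : ℝ) :
    kap (sub W m a b) (sub W m' a' b') (t + W.n * log 2) = kap (sub O m a b) (sub O m' a' b') t := by
  have mp := measurePreserving_add_right (volume : Measure ℝ) (W.n * log 2)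
  have me := measurableEmbedding_addRight (W.n * log 2)
  rw [kap, ← mp.setIntegral_preimage_emb me _ (Ioi _), preimage_add_const_Ioi, add_sub_cancel_right,
    kap]
  refine integral_congr_ae (Eventually.of_forall fun s => ?_)
  simp only [kS, Cv.k, cv_sub W, add_sub_add_left_eq_sub, ← mul_sub, norm_mul, Complex.norm_real,
    Real.norm_eq_abs, abs_of_pos (side_pos W), exp_add]
  congr 1; ext θ; congr 1; ext θ'; congr 1
  linear_combination (‖(cv (sub O m a b)).p θ - (cv (sub O m' a' b')).p θ'‖ * exp s) * side_exp W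

end Pool.Agent.Lib.MP_d1f1b2_pr
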