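import Pool.Agent.Lib.D1W.U2

/-! The first moment bound for a chain of dead squares above a square with living ancestors. -/

open Set Filter MeasureTheory ProbabilityTheory Real
open scoped ENNReal Topology

namespace Pool.Agent.Lib.MP_d1f1b2_pr

variable {Ω : Type*} {mΩ : MeasurableSpace Ω}

/-- weight of a descent by `d` levels -/
noncomputable def phi (d : ℤ) : ℝ≥0∞ := ee (-log 2 * d - 65 / 64 * log d)

/-- all squares of the chain are dead and all ancestors of its last square are alive -/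
def CE (k : ℕ) (U : ℕ → Sq) (D : Sq → Prop) : Prop :=
  (∀ i ≤ k, D (U i)) ∧ ∀ m, ¬ D (anc (U k) (m + 1))

/-- the bound for one chain -/
def PC (Q : ℝ) (h : Sq → Ω → ℝ) (P : Measure Ω) (K : ℝ) : Prop :=
  ∀ (k : ℕ) (U : ℕ → Sq) (r : ℕ → ℝ), (∀ i < k, (U i).n < (U (i + 1)).n) → (∀ i, 0 ≤ r i) →
    (∀ i ≤ k, ‖(U i).center - (U k).center‖ ≤ r i * (U i).side) →
    P.prod volume (EV Q h (CE k U)) ≤ ee (K * ∑ i ∈ Finset.range (k + 1), (1 + r i)) *
      ∏ i ∈ Finset.range k, phi ((U (i + 1)).n - (U i).n)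

theorem meas_CE (k : ℕ) (U : ℕ → Sq) : Measurable (CE k U) :=
  (Measurable.forall fun _ => measurable_const.imp (meas_apply _)).and
    (Measurable.forall fun _ => (meas_apply _).not)

end Pool.Agent.Lib.MP_d1f1b2_pr
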