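import Pool.Agent.Lib.D1W.CDefs

/-! Summation over chains: from the bound for one chain to the upper growth bound. -/

open Set Filter MeasureTheory ProbabilityTheory Real
open scoped ENNReal Topology

namespace Pool.Agent.Lib.MP_d1f1b2_pr

namespace Cnt

abbrev CL := List (ℕ × Sq)

def top : CL → Sq
  | [] => O
  | x :: _ => x.2

def fn : CL → ℕ → Sq
  | [], _ => O
  | x :: c, i => if i < c.length then fn c i else x.2

def tot (c : CL) : ℕ := (c.map Prod.fst).sum

noncomputable def wt : CL → ℝ≥0∞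
  | x :: y :: c => phi (x.2.n - y.2.n) * wt (y :: c)
  | _ => 1

def IsCh (b : Sq → Prop) : CL → Prop
  | [] => False
  | [x] => b x.2 ∧ InB 0 (x.1 * x.2.side) x.2
  | x :: y :: c => NearB x.1 y.2 x.2 ∧ IsCh b (y :: c)

theorem tot_cons (x : ℕ × Sq) (c : CL) : tot (x :: c) = x.1 + tot c := by simp [tot]

theorem fn_lt (x : ℕ × Sq) {c : CL} {i : ℕ} (h : i < c.length) : fn (x :: c) i = fn c i := if_pos h

theorem fn_last (x : ℕ × Sq) (c : CL) : fn (x :: c) c.length = x.2 := if_neg (lt_irrefl _)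

theorem fn_mem (x : ℕ × Sq) (c : CL) (i : ℕ) : ∃ y ∈ x :: c, fn (x :: c) i = y.2 := by
  induction c generalizing x with
  | nil => exact ⟨x, by simp, by simp [fn]⟩
  | cons y c ih =>
    by_cases h : i < (y :: c).length
    · obtain ⟨z, h1, h2⟩ := ih y
      exact ⟨z, List.mem_cons_of_mem _ h1, (fn_lt x h).trans h2⟩
    · exact ⟨x, by simp, if_neg h⟩

variable {b b' D : Sq → Prop}

theorem pad {g : ℕ} {T : Sq} {c : CL} (h : IsCh b ((g, T) :: c)) (a : ℕ) :
    IsCh b ((g + a, T) :: c) := by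
  have hs := side_pos T
  cases c with
  | nil => exact ⟨h.1, h.2.mono (by push_cast; nlinarith [a.cast_nonneg (α := ℝ)])⟩
  | cons y c =>
    obtain ⟨⟨h3, p, h4, h5⟩, h6⟩ := h
    exact ⟨⟨h3, p, h4, h5.mono (by push_cast; nlinarith [a.cast_nonneg (α := ℝ)])⟩, h6⟩

theorem pop {x : ℕ × Sq} {c : CL} {T' : Sq} (h : IsCh (fun V => V.n ≤ 0) (x :: c))
    (hD : ∀ y ∈ c, D y.2) (a : ℕ) (hn : T'.n ≤ x.2.n) {z : ℂ} (hz : z ∈ x.2.carrier)
    (h' : InB z (a * T'.side) T') : ∃ g c', IsCh (fun V => V.n ≤ 0) ((g, T') :: c') ∧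
      g + tot c' = x.1 + tot c + a ∧ ∀ y ∈ c', D y.2 := by
  induction c generalizing x a z with
  | nil =>
    refine ⟨x.1 + a, [], ⟨hn.trans h.1, (h.2.trans hz h').mono ?_⟩, by simp [tot], by simp⟩
    have := side_le_of_n hn
    push_cast
    nlinarith [x.1.cast_nonneg (α := ℝ)]
  | cons y c ih =>
    obtain ⟨⟨h3, p, h4, h5⟩, h1⟩ := h
    have h6 : InB p ((x.1 + a : ℕ) * T'.side) T' := by
      refine (h5.trans hz h').mono ?_
      have := side_le_of_n hn
      push_cast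
      nlinarith [x.1.cast_nonneg (α := ℝ)]
    rcases lt_or_ge y.2.n T'.n with h7 | h7
    · exact ⟨x.1 + a, y :: c, ⟨⟨h7, p, h4, h6⟩, h1⟩, by omega, hD⟩
    · obtain ⟨g, c', e1, e2, e3⟩ := ih h1 (fun w hw => hD w (List.mem_cons_of_mem _ hw))
        (x.1 + a) h7 h4.1 h6
      exact ⟨g, c', e1, by rw [tot_cons]; omega, e3⟩

theorem of_rk {k : ℕ} {T : Sq} (h : Rk D k O T) :
    ∃ g c, IsCh (fun V => V.n ≤ 0) ((g, T) :: c) ∧ g + tot c = k + 1 ∧ ∀ y ∈ c, D y.2 := by
  induction k generalizing T with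
  | zero =>
    cases h
    exact ⟨1, [], ⟨le_rfl, by simp [InB, O, Sq.side]⟩, rfl, by simp⟩
  | succ k ih =>
    rcases h with h | ⟨U, h1, h2⟩
    · obtain ⟨g, c, e1, e2, e3⟩ := ih h
      exact ⟨g + 1, c, pad e1 1, by omega, e3⟩
    · obtain ⟨g, c, e1, e2, e3⟩ := ih h1
      rcases lt_or_ge U.n T.n with h3 | h3
      · exact ⟨1, (g, U) :: c, ⟨near_of_adj h2 h3, e1⟩, by rw [tot_cons]; omega,
          List.forall_mem_cons.2 ⟨h2.2.1.1, e3⟩⟩
      · obtain ⟨z, hz1, hz2⟩ := h2.2.2.2.nonempty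
        obtain ⟨g', c', f1, f2, f3⟩ := pop e1 e3 1 h3 hz1 (by simpa using inB_self hz2)
        exact ⟨g', c', f1, by simp only at f2; omega, f3⟩

theorem imp {c : CL} {k : ℕ} (h : IsCh b c) (hD : ∀ y ∈ c, D y.2) (hk : tot c ≤ k)
    (hb : ∀ V, D V → b V → InB 0 (k * V.side) V → b' V) : IsCh b' c := by
  induction c with
  | nil => exact h
  | cons x c ih =>
    rw [tot_cons] at hk
    cases c with
    | nil =>
      refine ⟨hb _ (hD x (by simp)) h.1 (h.2.mono ?_), h.2⟩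
      have := side_pos x.2
      gcongr
      omega
    | cons y c => exact ⟨h.1, ih h.2 (fun w hw => hD w (List.mem_cons_of_mem _ hw)) (by omega)⟩

theorem near_dist {g : ℕ} {U T : Sq} (h : NearB g U T) :
    2 * T.side ≤ U.side ∧ ‖U.center - T.center‖ ≤ (1 + g) * U.side := by
  obtain ⟨hn, p, hp, a1, a2, a3, a4⟩ := h
  have h1 : 2 * T.side ≤ U.side := by
    have := side_le_of_n (S := anc T 1) (T := U) (by rw [anc_n]; omega)
    rwa [side_anc, pow_one] at this
  obtain ⟨b1, b2, b3, b4⟩ := center_mem T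
  have c1 := Complex.norm_le_abs_re_add_abs_im (p - T.center)
  have c2 : |(p - T.center).re| ≤ g * T.side := by
    rw [Complex.sub_re]; exact abs_le.2 ⟨by linarith, by linarith⟩
  have c3 : |(p - T.center).im| ≤ g * T.side := by
    rw [Complex.sub_im]; exact abs_le.2 ⟨by linarith, by linarith⟩
  have c4 := norm_sub_center hp.1
  have c5 := norm_sub_le_norm_sub_add_norm_sub U.center p T.center
  rw [norm_sub_rev] at c4
  exact ⟨h1, by nlinarith [g.cast_nonneg (α := ℝ)]⟩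

theorem geom {x : ℕ × Sq} {c : CL} (h : IsCh b (x :: c)) :
    (∀ i < c.length, (fn (x :: c) i).n < (fn (x :: c) (i + 1)).n) ∧
    (∏ i ∈ Finset.range c.length, phi ((fn (x :: c) (i + 1)).n - (fn (x :: c) i).n) = wt (x :: c)) ∧
    (∑ i ∈ Finset.range (c.length + 1), x.2.side / (fn (x :: c) i).side ≤ 2) ∧
    ∑ i ∈ Finset.range (c.length + 1),
      (1 + ‖(fn (x :: c) i).center - x.2.center‖ / (fn (x :: c) i).side) ≤ 5 * tot (x :: c) + 1 := by
  induction c generalizing x with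
  | nil => simp [fn, wt, (side_pos x.2).ne']
  | cons y c ih =>
    obtain ⟨i1, i2, i3, i4⟩ := ih h.2
    obtain ⟨d1, d2⟩ := near_dist h.1
    have hg : (1 : ℝ) ≤ x.1 := by exact_mod_cast h.1.pos
    have e : ∀ i < c.length + 1, fn (x :: y :: c) i = fn (y :: c) i := fun i hi => fn_lt x hi
    have e' : fn (x :: y :: c) (c.length + 1) = x.2 := fn_last x (y :: c)
    have hx := side_pos x.2
    simp only [List.length_cons]
    refine ⟨fun i hi => ?_, ?_, ?_, ?_⟩
    · rcases lt_or_eq_of_le (Nat.le_of_lt_succ hi) with h1 | rfl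
      · rw [e i hi, e _ (by omega)]; exact i1 i h1
      · rw [e _ hi, e', fn_last]; exact h.1.1
    · rw [Finset.prod_range_succ, e', e _ (by omega), fn_last, wt, ← i2, mul_comm]
      congr 1
      refine Finset.prod_congr rfl fun i hi => ?_
      have := Finset.mem_range.1 hi
      rw [e _ (by omega), e _ (by omega)]
    · rw [Finset.sum_range_succ, e', div_self hx.ne']
      have : ∑ i ∈ Finset.range (c.length + 1), x.2.side / (fn (x :: y :: c) i).side ≤
          ∑ i ∈ Finset.range (c.length + 1), 1 / 2 * (y.2.side / (fn (y :: c) i).side) :=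
        Finset.sum_le_sum fun i hi => by
          rw [e i (Finset.mem_range.1 hi), ← mul_div_assoc]
          have := side_pos (fn (y :: c) i)
          gcongr
          linarith
      rw [← Finset.mul_sum] at this
      linarith
    · rw [Finset.sum_range_succ, e', tot_cons]
      have : ∑ i ∈ Finset.range (c.length + 1), (1 + ‖(fn (x :: y :: c) i).center - x.2.center‖ /
          (fn (x :: y :: c) i).side) ≤ ∑ i ∈ Finset.range (c.length + 1),
          ((1 + ‖(fn (y :: c) i).center - y.2.center‖ / (fn (y :: c) i).side) +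
            (1 + x.1) * (y.2.side / (fn (y :: c) i).side)) :=
        Finset.sum_le_sum fun i hi => by
          rw [e i (Finset.mem_range.1 hi), ← mul_div_assoc, add_assoc, ← _root_.add_div]
          have := side_pos (fn (y :: c) i)
          gcongr
          linarith [norm_sub_le_norm_sub_add_norm_sub (fn (y :: c) i).center y.2.center x.2.center]
      replace this := this.trans_eq Finset.sum_add_distrib
      rw [← Finset.mul_sum] at this
      simp only [sub_self, norm_zero, zero_div]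
      push_cast
      nlinarith

theorem tsum_image_le {α β : Type*} (w : β → ℝ≥0∞) (f : α → β) (s : Set α) :
    ∑' y : f '' s, w y ≤ ∑' x : s, w (f x) :=
  ENNReal.tsum_le_tsum_comp_of_surjective (imageFactorization_surjective (f := f) (s := s))
    fun y => w y

theorem sum_near : ∃ c : ℝ≥0∞, c ≠ ∞ ∧ ∀ (g : ℕ) (U : Sq),
    ∑' T : {T | NearB g U T}, phi (T.1.n - U.n) ≤ c * 4 ^ g := by
  refine ⟨24 * ∑' d : ℕ, ee (-(65 / 64) * log d), ENNReal.mul_ne_top (by simp) ?_, fun g U => ?_⟩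
  · refine (Summable.tsum_ofReal_lt_top ?_).ne
    rw [← summable_nat_add_iff 1]
    refine ((summable_nat_add_iff 1).2 (summable_nat_rpow.2
      (show -(65 / 64 : ℝ) < -1 by norm_num))).congr fun d => ?_
    rw [rpow_def_of_pos (by positivity), mul_comm]
  have h1 : {T | NearB g U T} ⊆ ⋃ d : ℕ, {T | T.n = U.n + d ∧ NearB g U T} := fun T hT => by
    obtain ⟨d, hd⟩ := Int.le.dest hT.1.le
    exact mem_iUnion.2 ⟨d, hd.symm, hT⟩
  refine (ENNReal.tsum_mono_subtype (fun T : Sq => phi (T.n - U.n)) h1).trans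
    ((ENNReal.tsum_iUnion_le_tsum (fun T : Sq => phi (T.n - U.n)) _).trans ?_)
  rw [mul_right_comm (24 : ℝ≥0∞), ← ENNReal.tsum_mul_left]
  refine ENNReal.tsum_le_tsum fun d => ?_
  have h2 := wm_near_d 0 g d U
  simp only [wm, neg_zero, zero_mul, ee_zero, mul_one] at h2
  have hg : g ≤ 2 ^ g := Nat.lt_two_pow_self.le
  have hd : 1 ≤ 2 ^ d := Nat.one_le_two_pow
  have hg1 : 1 ≤ 2 ^ g := Nat.one_le_two_pow
  have h3 : 8 * g * (2 ^ d + 2 * g) ≤ 24 * 4 ^ g * 2 ^ d := by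
    have : 2 ^ d + 2 * g ≤ 3 * 2 ^ g * 2 ^ d := by nlinarith
    calc _ ≤ 8 * 2 ^ g * (3 * 2 ^ g * 2 ^ d) := by gcongr
      _ = _ := by rw [show (4 : ℕ) = 2 * 2 by rfl, mul_pow]; ring
  have e : ee (-(65 / 64) * log d) = 2 ^ d * phi d := by
    rw [← ee_log2, ← ee_nat_mul, phi, ← ee_add]; congr 1; push_cast; ring
  calc _ = (∑' T : {T | T.n = U.n + d ∧ NearB g U T}, 1) * phi d := by
        rw [← ENNReal.tsum_mul_right]
        exact tsum_congr fun T => by rw [T.2.1, add_sub_cancel_left, one_mul]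
    _ ≤ ((24 * 4 ^ g * 2 ^ d : ℕ) : ℝ≥0∞) * phi d := by
        gcongr
        exact h2.trans (by exact_mod_cast h3)
    _ = _ := by rw [e]; push_cast; ring

theorem sum_ch {κ β : ℝ≥0∞} {K : ℕ}
    (hc : ∀ (g : ℕ) (U : Sq), ∑' T : {T | NearB g U T}, phi (T.1.n - U.n) ≤ κ * 4 ^ g)
    (hβ : ∀ k ≤ K, wm 0 {T | b T ∧ InB 0 (k * T.side) T} ≤ β) (k : ℕ) (hk : k ≤ K) :
    ∑' c : {c | IsCh b c ∧ tot c = k}, wt c ≤ β * (4 ^ k * (1 + κ) ^ k) := by
  induction k using Nat.strong_induction_on with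
  | _ k ih =>
  have h1 : {c | IsCh b c ∧ tot c = k} ⊆ (fun T => [(k, T)]) '' {T | b T ∧ InB 0 (k * T.side) T} ∪
      ⋃ j ∈ Finset.range k, ⋃ c : {c | IsCh b c ∧ tot c = j},
        (fun T => (k - j, T) :: c.1) '' {T | NearB (k - j) (top c) T} := by
    rintro (_ | ⟨x, _ | ⟨y, c⟩⟩) ⟨h1, rfl⟩
    · exact h1.elim
    · exact .inl ⟨x.2, by simpa [tot, IsCh] using h1, by simp [tot]⟩
    · have := h1.1.pos
      refine .inr (mem_iUnion₂.2 ⟨tot (y :: c), by simp only [Finset.mem_range, tot_cons x]; omega,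
        mem_iUnion.2 ⟨⟨y :: c, h1.2, rfl⟩, x.2, ?_, ?_⟩⟩)
      · simp only [tot_cons x, Nat.add_sub_cancel]; exact h1.1
      · simp only [tot_cons x, Nat.add_sub_cancel]
  refine (ENNReal.tsum_mono_subtype wt h1).trans ((ENNReal.tsum_union_le wt _ _).trans
    ((add_le_add ((tsum_image_le wt _ _).trans (le_trans (le_of_eq ?_) (hβ k hk)))
    ((ENNReal.tsum_biUnion_le wt _ _).trans (Finset.sum_le_sum
      (g := fun j => β * 4 ^ k * κ * (1 + κ) ^ j) fun j hj => ?_))).trans ?_))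
  · simp [wm, wt]
  · have hj' := Finset.mem_range.1 hj
    refine (ENNReal.tsum_iUnion_le_tsum wt _).trans ((ENNReal.tsum_le_tsum
      (g := fun c : {c | IsCh b c ∧ tot c = j} => κ * 4 ^ (k - j) * wt c) ?_).trans ?_)
    · rintro ⟨_ | ⟨y, c⟩, h2⟩
      · exact h2.1.elim
      refine (tsum_image_le wt _ _).trans ?_
      simp only [wt, ENNReal.tsum_mul_right]
      exact mul_le_mul_left (hc _ _) _
    rw [ENNReal.tsum_mul_left]
    calc _ ≤ κ * 4 ^ (k - j) * (β * (4 ^ j * (1 + κ) ^ j)) := by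
          gcongr
          exact ih j hj' (by omega)
      _ = β * (4 ^ (k - j) * 4 ^ j) * κ * (1 + κ) ^ j := by ring
      _ = _ := by rw [← pow_add, Nat.sub_add_cancel hj'.le]
  · rw [← Finset.mul_sum, ← gron κ k]
    have : β ≤ β * 4 ^ k := le_mul_of_one_le_right zero_le (one_le_pow₀ (by norm_num))
    calc _ ≤ β * 4 ^ k + β * 4 ^ k * κ * ∑ j ∈ Finset.range k, (1 + κ) ^ j := by gcongr
      _ = _ := by ring

theorem sum_cand : ∃ C : ℝ, ∀ ρ : ℕ, ∑' c : {c | IsCh (fun V => -(ρ : ℤ) ≤ V.n ∧ V.n ≤ 0) c ∧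
    tot c = ρ + 1}, wt c ≤ ee (C * (ρ + 1)) := by
  obtain ⟨c, hc0, hc⟩ := sum_near
  obtain ⟨x, hx⟩ := exists_ee (show 1 + c ≠ ∞ by simp [hc0])
  obtain ⟨C, hC⟩ := wm_cand (η := 1) (by linarith [log_two_lt_d9])
  refine ⟨C + 2 * log 2 + x, fun ρ => ?_⟩
  refine (sum_ch (β := ee (C * (ρ + 1))) hc (fun k hk => le_trans ?_ (hC ρ)) _ le_rfl).trans ?_
  · refine le_trans (ENNReal.tsum_le_tsum fun T => ee_mono ?_) (wm_mono 1 fun T hT =>
      (Ch.base hT.1 hT.2).mono hk)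
    have : (T.1.n : ℝ) ≤ 0 := by exact_mod_cast T.2.1.2
    linarith
  have e2 : (4 : ℝ≥0∞) = ee (2 * log 2) := by
    rw [show (2 : ℝ) * log 2 = (2 : ℕ) * log 2 by simp, ee_nat_mul, ee_log2]; norm_num
  calc _ ≤ ee (C * (ρ + 1)) * (ee (2 * log 2) ^ (ρ + 1) * ee x ^ (ρ + 1)) := by rw [← e2]; gcongr
    _ = _ := by simp only [← ee_nat_mul, ← ee_add]; congr 1; push_cast; ring

theorem markov {α Ω : Type*} [Countable α] {_ : MeasurableSpace Ω} {μ : Measure Ω} {s : Set α}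
    {A : α → Set Ω} (hA : ∀ c, MeasurableSet (A c)) {B : ℝ} (hB : ∑' c : s, μ (A c) ≤ ee B) (y : ℝ) :
    μ {ω | ee y ≤ ∑' c : s, (A c).indicator 1 ω} ≤ ee (B - y) := by
  have hm : Measurable fun ω => ∑' c : s, (A c).indicator (1 : Ω → ℝ≥0∞) ω :=
    Measurable.tsum fun c => measurable_one.indicator (hA c)
  have h1 := mul_meas_ge_le_lintegral₀ (μ := μ) hm.aemeasurable (ee y)
  rw [lintegral_tsum fun c => (measurable_one.indicator (hA _)).aemeasurable] at h1
  simp only [lintegral_indicator_one (hA _)] at h1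
  calc _ = ee (-y) * (ee y * μ {ω | ee y ≤ ∑' c : s, (A c).indicator 1 ω}) := by
        rw [← mul_assoc, ← ee_add]; simp
    _ ≤ ee (-y) * ee B := mul_le_mul_right (h1.trans hB) _
    _ = _ := by rw [← ee_add]; congr 1; ring

end Cnt

open Cnt

variable {Ω : Type*} {mΩ : MeasurableSpace Ω} {P : Measure Ω} {h : Sq → Ω → ℝ} {Q : ℝ}

theorem EV_upper2 (hh : CG h P gffCov) (hQ : 0 < Q) {K : ℝ} (hK0 : 0 ≤ K) (hK : PC Q h P K) :
    ∃ C : ℝ, P.prod volume (EV Q h fun D => tile D O ∧ ¬ ∃ r, UB C r D O) = 0 := by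
  have := hh.prob
  obtain ⟨C, hC⟩ := sum_cand
  set s : ℕ → Set CL := fun ρ => {c | IsCh (fun V => -(ρ : ℤ) ≤ V.n ∧ V.n ≤ 0) c ∧ tot c = ρ + 1}
  set A : CL → Set (Ω × ℝ) := fun c => EV Q h (CE (c.length - 1) (fn c)) with hA
  have h1 := summ (P := P.prod volume) (s := fun ρ : ℕ => {p | ee ((5 * K + C + 1) * ρ) ≤
      ∑' c : s ρ, (A c).indicator 1 p}) (η := 1) (B := 6 * K + C) one_pos fun ρ => by
    refine (markov (s := s ρ) (A := A) (fun c => meas_EV hh (meas_CE _ _))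
      (B := K * (5 * (ρ + 1) + 1) + C * (ρ + 1))
      ?_ ((5 * K + C + 1) * ρ)).trans (ee_mono ?_)
    swap
    · linarith
    rw [ee_add (K * (5 * (ρ + 1) + 1))]
    refine le_trans ?_ (mul_le_mul_right (hC ρ) (ee (K * (5 * (ρ + 1) + 1))))
    rw [← ENNReal.tsum_mul_left]
    refine ENNReal.tsum_le_tsum ?_
    rintro ⟨_ | ⟨x, c⟩, h2, h3⟩
    · exact h2.elim
    obtain ⟨g1, g2, -, g4⟩ := geom h2
    refine (hK c.length (fn (x :: c)) (fun i => ‖(fn (x :: c) i).center - x.2.center‖ /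
      (fn (x :: c) i).side) g1 (fun i => div_nonneg (norm_nonneg _) (side_pos _).le) fun i _ => by
        rw [fn_last, div_mul_cancel₀ _ (side_pos _).ne']).trans ?_
    rw [g2]
    refine mul_le_mul_left (ee_mono (mul_le_mul_of_nonneg_left (g4.trans ?_) hK0)) _
    rw [h3]; push_cast; rfl
  have hm := meas_EV (Q := Q) hh (B := fun D => ¬ ∃ r : ℕ, ∀ ρ : ℕ, r ≤ ρ → ∀ V : Sq, V.n < -(ρ : ℤ) →
      InB 0 ((ρ + 1 : ℕ) * V.side) V → ¬ D V) (Measurable.exists fun r => Measurable.forall fun ρ =>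
    measurable_const.imp (Measurable.forall fun V => measurable_const.imp
      (measurable_const.imp (meas_apply V).not))).not
  have h2 := (Measure.prod_apply_symm (μ := P) (ν := volume) hm).trans
    ((lintegral_eq_zero_iff (measurable_measure_prodMk_right hm)).2
      (.of_forall fun l => measure_eq_zero_iff_ae_notMem.2 (by
        filter_upwards [top_ok hh hQ l] with ω hω hE
        exact hE (eventually_atTop.1 hω))))
  refine ⟨5 * K + C + 1, measure_eq_zero_iff_ae_notMem.2 ?_⟩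
  filter_upwards [h1, measure_eq_zero_iff_ae_notMem.1 h2] with p h3 h4 hE
  obtain ⟨r, hr⟩ := eventually_atTop.1 (h3.and (eventually_atTop.2 (not_not.1 h4)))
  refine hE.2 ⟨r, fun ρ hρ => le_trans ?_ (not_le.1 (hr ρ hρ).1).le⟩
  have h5 : {T | Rk (DD Q (fun S => h S p.1) p.2) ρ O T} ⊆ top '' {c | c ∈ s ρ ∧ p ∈ A c} := by
    intro T hT
    obtain ⟨g, c, e1, e2, e3⟩ := of_rk hT
    have hT' := Rk.tile hT hE.1
    have e4 : ∀ y ∈ (g, T) :: c, DD Q (fun S => h S p.1) p.2 y.2 :=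
      List.forall_mem_cons.2 ⟨hT'.1, e3⟩
    refine ⟨(g, T) :: c, ⟨⟨imp (k := ρ + 1) e1 e4 (by rw [tot_cons]; exact e2.le) fun V a1 a2 a3 =>
      ⟨not_lt.1 fun hn => (hr ρ hρ).2 V hn a3 a1, a2⟩, (tot_cons _ _).trans e2⟩, fun i _ => ?_,
      fun m => ?_⟩, rfl⟩
    · obtain ⟨y, a1, a2⟩ := fn_mem (g, T) c i
      rw [a2]; exact e4 y a1
    · rw [List.length_cons, Nat.add_sub_cancel, fn_last]; exact hT'.2 m
  refine (ENat.toENNReal_le.2 ((encard_le_encard h5).trans (encard_image_le _ _))).trans ?_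
  rw [← ENNReal.tsum_set_one, tsum_subtype (s ρ) fun c => (A c).indicator (1 : Ω × ℝ → ℝ≥0∞) p,
    tsum_subtype _ fun _ => (1 : ℝ≥0∞)]
  refine le_of_eq (tsum_congr fun c => ?_)
  by_cases a1 : c ∈ s ρ <;> by_cases a2 : p ∈ A c <;> simp [a1, a2]

end Pool.Agent.Lib.MP_d1f1b2_pr
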