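import Pool.Agent.Lib.D1W.F2

/-! Limits in the local Gromov-Prokhorov topology. -/

open Set Filter MeasureTheory Metric ProbabilityTheory
open scoped ENNReal Topology BoundedContinuousFunction

namespace Pool.Agent.Lib.MP_d1f1b2_pr

theorem CloseP.symm {η : ℝ} {A B : PMM} (h : CloseP η A B) : CloseP η B A := by
  obtain ⟨Z, _, f, g, hf, hg, h1, h4, h5⟩ := h
  exact ⟨Z, inferInstance, g, f, hg, hf, by rwa [dist_comm], h5, h4⟩

/-- properties that are stable under closeness -/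
def Stab (R : ℝ) (p : ℝ → PMM → Prop) : Prop :=
  ∀ η t A B, 0 < η → R ≤ η⁻¹ → 0 ≤ t → CloseP η A B → p t A → p (t - 4 * η) B

noncomputable def TG (p : ℝ → PMM → Prop) (A : PMM) : ℝ := sSup {t | t = 0 ∨ (0 ≤ t ∧ t ≤ 1 ∧ p t A)}

variable {p : ℝ → PMM → Prop} {R : ℝ}

theorem TG_bdd (A : PMM) : BddAbove {t | t = 0 ∨ (0 ≤ t ∧ t ≤ 1 ∧ p t A)} :=
  ⟨1, by rintro t (rfl | h); exacts [zero_le_one, h.2.1]⟩

theorem TG_nonneg (A : PMM) : 0 ≤ TG p A := le_csSup (TG_bdd A) (Or.inl rfl)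

theorem TG_le {A : PMM} {c : ℝ} (h0 : 0 ≤ c) (h : ∀ t, 0 < t → t ≤ 1 → p t A → t ≤ c) :
    TG p A ≤ c := by
  refine csSup_le ⟨0, Or.inl rfl⟩ ?_
  rintro t (rfl | ht)
  · exact h0
  · rcases ht.1.eq_or_lt with h' | h'
    · rw [← h']; exact h0
    · exact h t h' ht.2.1 ht.2.2

theorem TG_le_one (A : PMM) : TG p A ≤ 1 := TG_le zero_le_one fun _ _ h _ => h

theorem le_TG {A : PMM} {t : ℝ} (h1 : t ≤ 1) (h : p t A) : t ≤ TG p A := by
  rcases le_total t 0 with h0 | h0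
  · exact h0.trans (TG_nonneg A)
  · exact le_csSup (TG_bdd A) (Or.inr ⟨h0, h1, h⟩)

theorem TG_close (hp : Stab R p) {A B : PMM} {η : ℝ} (hc : CloseP η A B) (h0 : 0 < η)
    (hR : R ≤ η⁻¹) : TG p A ≤ TG p B + 4 * η :=
  TG_le (by linarith [TG_nonneg (p := p) B]) fun t ht h1 h => by
    linarith [le_TG (by linarith) (hp η t A B h0 hR ht.le hc h)]

theorem exists_eta (R : ℝ) {e : ℝ} (he : 0 < e) : ∃ η, 0 < η ∧ η ≤ e ∧ R ≤ η⁻¹ := by
  have hp : 0 < min e (|R| + 1)⁻¹ := lt_min he (by positivity)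
  exact ⟨_, hp, min_le_left _ _, le_trans (by linarith [le_abs_self R] : R ≤ |R| + 1)
    ((le_inv_comm₀ (by positivity) hp).2 (min_le_right _ _))⟩

noncomputable def TGb (hp : Stab R p) : BFMM →ᵇ ℝ :=
  BoundedContinuousFunction.mkOfBound ⟨fun A => TG p A.toPMM, continuous_def.2 fun V hV A hA => by
    obtain ⟨e, he, hb⟩ := Metric.isOpen_iff.1 hV _ hA
    obtain ⟨η, h0, h1, h2⟩ := exists_eta R (show 0 < e / 5 by linarith)
    refine ⟨η, h0, fun B hB => hb ?_⟩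
    have := TG_close hp hB h0 h2
    have := TG_close hp hB.symm h0 h2
    rw [mem_ball, Real.dist_eq, abs_lt]
    constructor <;> linarith⟩ 1 fun A B => by
    have := TG_nonneg (p := p) A.toPMM
    have := TG_nonneg (p := p) B.toPMM
    have := TG_le_one (p := p) A.toPMM
    have := TG_le_one (p := p) B.toPMM
    simp only [ContinuousMap.coe_mk, Real.dist_eq, abs_le]
    constructor <;> linarith

instance : BorelSpace BFMM := ⟨rfl⟩

theorem near_of_mem {X Y Z : Type*} [MetricSpace Z] {f : X → Z} {g : Y → Z} {η : ℝ} (h0 : 0 < η)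
    {s : Set X} {y : Y} (hy : y ∈ g ⁻¹' cthickening η (f '' s)) :
    ∃ x ∈ s, dist (g y) (f x) < 2 * η := by
  obtain ⟨_, ⟨x, hx, rfl⟩, hz⟩ := mem_thickening_iff.1
    (cthickening_subset_thickening' (δ₂ := 2 * η) (by linarith) (by linarith) _ hy)
  exact ⟨x, hx, hz⟩

theorem ofReal_step {x η : ℝ} {u v : ℝ≥0∞} (h0 : 0 < η) (h1 : ENNReal.ofReal x ≤ u)
    (h2 : u ≤ v + ENNReal.ofReal η) : ENNReal.ofReal (x - 4 * η) ≤ v :=
  (ENNReal.ofReal_le_ofReal (by linarith)).trans ((ENNReal.ofReal_sub x h0.le).le.trans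
    (tsub_le_iff_right.2 (h1.trans h2)))

theorem thick_sub {A B : PMM} {Z : Type} [MetricSpace Z] {f : A.X → Z} {g : B.X → Z} {η r : ℝ}
    (hf : Isometry f) (hg : Isometry g) (h0 : 0 < η) (h1 : dist (f A.root) (g B.root) ≤ η)
    {s : Set A.X} (hs : s ⊆ closedBall A.root r) :
    g ⁻¹' cthickening η (f '' s) ⊆ closedBall B.root (r + 4 * η) := fun y hy => by
  obtain ⟨x, hx, hz⟩ := near_of_mem h0 hy
  have := dist_triangle4 (g y) (f x) (f A.root) (g B.root)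
  rw [hg.dist_eq, hf.dist_eq] at this
  rw [mem_closedBall]
  linarith [mem_closedBall.1 (hs hx)]

def pM (R m t : ℝ) (A : PMM) : Prop := ENNReal.ofReal (m + t) ≤ A.ballMass (R - t)

theorem stab_pM (R m : ℝ) : Stab R (pM R m) := by
  rintro η t A B h0 hR ht ⟨Z, _, f, g, hf, hg, h1, h4, -⟩ h
  have := ofReal_step h0 h (h4 _ (closedBall_subset_closedBall (by linarith)) isClosed_closedBall)
  rw [pM, show m + (t - 4 * η) = m + t - 4 * η by ring, show R - (t - 4 * η) = R - t + 4 * η by ring]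
  exact this.trans (measure_mono (thick_sub hf hg h0 h1 subset_rfl))

def pD (R δ t : ℝ) (A : PMM) : Prop := ∃ s s' : Set A.X, IsClosed s ∧ IsClosed s' ∧
  s ⊆ closedBall A.root (R - t) ∧ s' ⊆ closedBall A.root (R - t) ∧ ENNReal.ofReal t ≤ A.μ s ∧
  ENNReal.ofReal t ≤ A.μ s' ∧ ∀ x ∈ s, ∀ y ∈ s', t ≤ dist x y ∧ dist x y ≤ δ - t

theorem stab_pD (R δ : ℝ) : Stab R (pD R δ) := by
  rintro η t A B h0 hR ht ⟨Z, _, f, g, hf, hg, h1, h4, -⟩ ⟨s, s', c1, c2, c3, c4, c5, c6, c7⟩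
  have hb : closedBall A.root (R - t) ⊆ closedBall A.root η⁻¹ :=
    closedBall_subset_closedBall (by linarith)
  have e : R - (t - 4 * η) = R - t + 4 * η := by ring
  refine ⟨g ⁻¹' cthickening η (f '' s), g ⁻¹' cthickening η (f '' s'),
    isClosed_cthickening.preimage hg.continuous, isClosed_cthickening.preimage hg.continuous,
    e ▸ thick_sub hf hg h0 h1 c3, e ▸ thick_sub hf hg h0 h1 c4,
    ofReal_step h0 c5 (h4 _ (c3.trans hb) c1), ofReal_step h0 c6 (h4 _ (c4.trans hb) c2),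
    fun x hx y hy => ?_⟩
  obtain ⟨u, hu, d1⟩ := near_of_mem h0 hx
  obtain ⟨v, hv, d2⟩ := near_of_mem h0 hy
  have a1 := dist_triangle4 (g x) (f u) (f v) (g y)
  have a2 := dist_triangle4 (f u) (g x) (g y) (f v)
  rw [hg.dist_eq, hf.dist_eq, dist_comm (f v)] at a1
  rw [hg.dist_eq, hf.dist_eq, dist_comm (f u)] at a2
  obtain ⟨b1, b2⟩ := c7 u hu v hv
  constructor <;> linarith

section Transfer
variable {Ω : Type*} {mΩ : MeasurableSpace Ω} {P : Measure Ω} [IsProbabilityMeasure P]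
  {X : ℝ → Ω → PMM} {Y : ℝ → Ω → BFMM} {ν : Measure BFMM} [IsProbabilityMeasure ν] {L : Filter ℝ}

omit [IsProbabilityMeasure P] in
theorem hreal (hclose : ∀ η > 0, Tendsto (fun ε => P {ω | ¬ CloseP η (X ε ω) (Y ε ω).toPMM}) L (𝓝 0))
    {η c : ℝ} (hη : 0 < η) (hc : 0 < c) :
    ∀ᶠ ε in L, P.real {ω | ¬ CloseP η (X ε ω) (Y ε ω).toPMM} < c :=
  ((ENNReal.tendsto_toReal ENNReal.zero_ne_top).comp (hclose η hη)).eventually (gt_mem_nhds hc)

theorem hint (hY : ∀ ε, Measurable (Y ε)) (F : BFMM →ᵇ ℝ) (ε : ℝ) :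
    Integrable (fun ω => F (Y ε ω)) P :=
  Integrable.of_bound (F.continuous.measurable.comp (hY ε)).aestronglyMeasurable ‖F‖
    (ae_of_all _ fun _ => F.norm_coe_le_norm _)

theorem TG_zero (hp : Stab R p) (hY : ∀ ε, Measurable (Y ε))
    (hclose : ∀ η > 0, Tendsto (fun ε => P {ω | ¬ CloseP η (X ε ω) (Y ε ω).toPMM}) L (𝓝 0))
    (hconv : ∀ F : BFMM →ᵇ ℝ, Tendsto (fun ε => ∫ ω, F (Y ε ω) ∂P) L (𝓝 (∫ A, F A ∂ν)))
    (hX : ∀ c > 0, ∃ᶠ ε in L, P.real {ω | c < TG p (X ε ω)} ≤ c) :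
    ∀ᵐ A ∂ν, TG p A.toPMM = 0 := by
  have : ∫ A, TGb hp A ∂ν ≤ 0 := by
    refine le_of_forall_pos_le_add fun c hc => ?_
    obtain ⟨η, h0, h1, h2⟩ := exists_eta R (show 0 < c / 7 by linarith)
    refine le_of_tendsto_of_frequently (hconv _) (((hX η h0).and_eventually
      (hreal hclose h0 h0)).mono fun ε ⟨e1, e2⟩ => ?_)
    have hm : MeasurableSet {ω | 5 * η < TGb hp (Y ε ω)} :=
      measurableSet_lt measurable_const ((TGb hp).continuous.measurable.comp (hY ε))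
    have b1 : ∫ ω, TGb hp (Y ε ω) ∂P ≤
        ∫ ω, (5 * η + indicator {ω | 5 * η < TGb hp (Y ε ω)} 1 ω) ∂P := by
      refine integral_mono (hint hY _ ε) ((integrable_const _).add
        ((integrable_const 1).indicator hm)) fun ω => ?_
      by_cases hω : 5 * η < TGb hp (Y ε ω)
      · simp only [indicator_of_mem (show ω ∈ {ω | 5 * η < TGb hp (Y ε ω)} from hω), Pi.one_apply]
        linarith [show TGb hp (Y ε ω) ≤ 1 from TG_le_one _]
      · simp only [indicator_of_notMem (show ω ∉ {ω | 5 * η < TGb hp (Y ε ω)} from hω)]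
        linarith
    rw [integral_add (integrable_const _) ((integrable_const 1).indicator hm),
      integral_indicator_one hm] at b1
    simp only [integral_const, probReal_univ, smul_eq_mul, one_mul] at b1
    have b2 : P.real {ω | 5 * η < TGb hp (Y ε ω)} ≤ P.real ({ω | η < TG p (X ε ω)} ∪
        {ω | ¬ CloseP η (X ε ω) (Y ε ω).toPMM}) := by
      refine measureReal_mono fun ω hω => ?_
      by_cases hcl : CloseP η (X ε ω) (Y ε ω).toPMM
      · have c1 := TG_close hp hcl.symm h0 h2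
        have : 5 * η < TG p (Y ε ω).toPMM := hω
        exact .inl (show η < _ by linarith)
      · exact .inr hcl
    linarith [b2.trans (measureReal_union_le _ _)]
  exact (integral_eq_zero_iff_of_nonneg (fun A => TG_nonneg _)
    ((TGb hp).integrable ν)).1 (le_antisymm this (integral_nonneg fun A => TG_nonneg _))

theorem tight_of_conv (hY : ∀ ε, Measurable (Y ε))
    (hclose : ∀ η > 0, Tendsto (fun ε => P {ω | ¬ CloseP η (X ε ω) (Y ε ω).toPMM}) L (𝓝 0))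
    (hconv : ∀ F : BFMM →ᵇ ℝ, Tendsto (fun ε => ∫ ω, F (Y ε ω) ∂P) L (𝓝 (∫ A, F A ∂ν)))
    (R : ℝ) (c : ℝ≥0∞) (hc : 0 < c) : ∃ K < ∞, ∀ᶠ ε in L, P {ω | K < (X ε ω).ballMass R} ≤ c := by
  rcases eq_or_ne c ∞ with rfl | hct
  · exact ⟨0, by simp, .of_forall fun _ => le_top⟩
  have hc' := ENNReal.toReal_pos hc.ne' hct
  have h1 := tendsto_integral_of_dominated_convergence (μ := ν)
    (F := fun (m : ℕ) A => TGb (stab_pM (R + 1) m) A) (f := fun _ => 0) (fun _ => 1)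
    (fun m => (TGb _).continuous.measurable.aestronglyMeasurable) (integrable_const _)
    (fun m => ae_of_all _ fun A => (Real.norm_of_nonneg (TG_nonneg _)).trans_le (TG_le_one _))
    (ae_of_all _ fun A => by
      obtain ⟨n, hn⟩ := ENNReal.exists_nat_gt (A.fin (R + 1))
      refine tendsto_const_nhds.congr' ?_
      filter_upwards [eventually_ge_atTop n] with m hm
      refine le_antisymm (TG_nonneg _) (TG_le le_rfl fun t ht _ h => absurd hn (not_lt.2 ?_))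
      refine le_trans ?_ (le_trans h (measure_mono (closedBall_subset_closedBall (by linarith))))
      rw [← ENNReal.ofReal_natCast]
      exact ENNReal.ofReal_le_ofReal (by linarith [show (n : ℝ) ≤ m by exact_mod_cast hm]))
  rw [integral_zero] at h1
  obtain ⟨m, hm⟩ := (h1.eventually (gt_mem_nhds (show 0 < c.toReal / 4 by linarith))).exists
  obtain ⟨η, h0, h2, h3⟩ := exists_eta (R + 1) (show (0 : ℝ) < 1 / 8 by norm_num)
  refine ⟨ENNReal.ofReal (m + 1), ENNReal.ofReal_lt_top, ?_⟩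
  filter_upwards [(hconv _).eventually (gt_mem_nhds hm),
    hreal hclose h0 (show 0 < c.toReal / 2 by linarith)] with ε e1 e2
  have b3 := mul_meas_ge_le_integral_of_nonneg (μ := P)
    (f := fun ω => TGb (stab_pM (R + 1) m) (Y ε ω)) (ae_of_all _ fun ω => TG_nonneg _)
    (hint hY _ ε) 2⁻¹
  have b2 : P.real {ω | ENNReal.ofReal (m + 1) < (X ε ω).ballMass R} ≤ P.real
      ({ω | 2⁻¹ ≤ TGb (stab_pM (R + 1) m) (Y ε ω)} ∪ {ω | ¬ CloseP η (X ε ω) (Y ε ω).toPMM}) := by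
    refine measureReal_mono fun ω hω => ?_
    by_cases hcl : CloseP η (X ε ω) (Y ε ω).toPMM
    · have c1 := TG_close (stab_pM (R + 1) m) hcl h0 h3
      have c2 := le_TG (p := pM (R + 1) m) (A := X ε ω) le_rfl (by
        rw [pM, add_sub_cancel_right]; exact le_of_lt hω)
      exact .inl (show 2⁻¹ ≤ TG _ _ by linarith)
    · exact .inr hcl
  rw [← ENNReal.toReal_le_toReal (measure_ne_top _ _) hct]
  linarith [b2.trans (measureReal_union_le _ _), show P.real {ω | ENNReal.ofReal (m + 1) <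
    (X ε ω).ballMass R} = (P {ω | ENNReal.ofReal (m + 1) < (X ε ω).ballMass R}).toReal from rfl]

theorem zero_of_conv (hY : ∀ ε, Measurable (Y ε))
    (hclose : ∀ η > 0, Tendsto (fun ε => P {ω | ¬ CloseP η (X ε ω) (Y ε ω).toPMM}) L (𝓝 0))
    (hconv : ∀ F : BFMM →ᵇ ℝ, Tendsto (fun ε => ∫ ω, F (Y ε ω) ∂P) L (𝓝 (∫ A, F A ∂ν)))
    (hX : ∀ (r : ℝ) (m η : ℝ≥0∞), 0 < m → 0 < η → ∃ᶠ ε in L, P {ω | m ≤ (X ε ω).ballMass r} ≤ η) :
    ∀ᵐ A ∂ν, A.μ = 0 := by
  have h1 : ∀ R : ℕ, ∀ᵐ A ∂ν, TG (pM R 0) A.toPMM = 0 := fun R =>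
    TG_zero (stab_pM R 0) hY hclose hconv fun c hc => by
      refine (hX R _ _ (ENNReal.ofReal_pos.2 hc) (ENNReal.ofReal_pos.2 hc)).mono fun ε hε => ?_
      refine ENNReal.toReal_le_of_le_ofReal hc.le (le_trans (measure_mono fun ω hω => ?_) hε)
      by_contra hn
      refine not_le.2 hω (TG_le hc.le fun t ht _ h => ?_)
      by_contra hct
      exact hn ((ENNReal.ofReal_le_ofReal (by linarith)).trans (le_trans h
        (measure_mono (closedBall_subset_closedBall (by linarith)))))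
  filter_upwards [ae_all_iff.2 h1] with A hA
  rw [← Measure.measure_univ_eq_zero, ← iUnion_closedBall_nat A.root]
  refine measure_iUnion_null fun n => ?_
  by_contra hn
  obtain ⟨t, h0, ht⟩ := ENNReal.lt_iff_exists_real_btwn.1 (pos_iff_ne_zero.2 hn)
  have ht0 := ENNReal.ofReal_pos.1 ht.1
  have := le_TG (p := pM (n + 1 : ℕ) 0) (A := A.toPMM) (min_le_left 1 t)
    ((ENNReal.ofReal_le_ofReal (by simp)).trans (ht.2.le.trans (measure_mono
      (closedBall_subset_closedBall (by push_cast; linarith [min_le_left 1 t])))))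
  linarith [hA (n + 1), lt_min one_pos ht0]

theorem disc_of_conv {δ : ℝ} (hY : ∀ ε, Measurable (Y ε))
    (hclose : ∀ η > 0, Tendsto (fun ε => P {ω | ¬ CloseP η (X ε ω) (Y ε ω).toPMM}) L (𝓝 0))
    (hconv : ∀ F : BFMM →ᵇ ℝ, Tendsto (fun ε => ∫ ω, F (Y ε ω) ∂P) L (𝓝 (∫ A, F A ∂ν)))
    (hX : ∃ᶠ ε in L, ∀ ω, ∀ x y : (X ε ω).X, x ≠ y → δ ≤ dist x y) :
    ∀ᵐ A ∂ν, ∀ x ∈ A.μ.support, ∀ y ∈ A.μ.support, x ≠ y → δ ≤ dist x y := by
  have h1 : ∀ R : ℕ, ∀ᵐ A ∂ν, TG (pD R δ) A.toPMM = 0 := fun R =>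
    TG_zero (stab_pD R δ) hY hclose hconv fun c hc => hX.mono fun ε hε => by
      rw [show {ω | c < TG (pD R δ) (X ε ω)} = ∅ from eq_empty_of_forall_notMem fun ω hω => ?_]
      · simpa using hc.le
      refine not_le.2 hω (TG_le hc.le fun t ht _ ⟨s, s', _, _, _, _, c5, c6, c7⟩ => ?_)
      obtain ⟨x, hx⟩ := nonempty_of_measure_ne_zero ((ENNReal.ofReal_pos.2 ht).trans_le c5).ne'
      obtain ⟨y, hy⟩ := nonempty_of_measure_ne_zero ((ENNReal.ofReal_pos.2 ht).trans_le c6).ne'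
      obtain ⟨b1, b2⟩ := c7 x hx y hy
      linarith [hε ω x y (dist_pos.1 (ht.trans_le b1))]
  filter_upwards [ae_all_iff.2 h1] with A hA x hx y hy hxy
  by_contra hc
  have hd := dist_pos.2 hxy
  obtain ⟨u, u0, u1, u2, u3⟩ : ∃ u : ℝ, 0 < u ∧ u ≤ 1 ∧ 3 * u ≤ dist x y ∧ 3 * u ≤ δ - dist x y :=
    ⟨min 1 (min (dist x y / 3) ((δ - dist x y) / 3)),
      lt_min one_pos (lt_min (by linarith) (by linarith)), min_le_left _ _,
      by linarith [(min_le_right 1 _).trans (min_le_left (dist x y / 3) ((δ - dist x y) / 3))],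
      by linarith [(min_le_right 1 _).trans (min_le_right (dist x y / 3) ((δ - dist x y) / 3))]⟩
  obtain ⟨t, h0, ht⟩ := ENNReal.lt_iff_exists_real_btwn.1 (lt_min
    ((Measure.mem_support_iff_forall x).1 hx _ (closedBall_mem_nhds x u0))
    ((Measure.mem_support_iff_forall y).1 hy _ (closedBall_mem_nhds y u0)))
  have ht0 := ENNReal.ofReal_pos.1 ht.1
  obtain ⟨R, hR⟩ := exists_nat_ge (max (dist x A.root) (dist y A.root) + 2)
  have m1 := min_le_left u t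
  have m2 := ENNReal.ofReal_le_ofReal (min_le_right u t)
  have := le_TG (p := pD R δ) (A := A.toPMM) (m1.trans u1) ⟨closedBall x u, closedBall y u,
    isClosed_closedBall, isClosed_closedBall,
    closedBall_subset_closedBall' (by linarith [le_max_left (dist x A.root) (dist y A.root)]),
    closedBall_subset_closedBall' (by linarith [le_max_right (dist x A.root) (dist y A.root)]),
    m2.trans (ht.2.le.trans (min_le_left _ _)), m2.trans (ht.2.le.trans (min_le_right _ _)),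
    fun v hv w hw => by
      have a1 := dist_triangle4 x v w y
      have a2 := dist_triangle4 v x y w
      rw [mem_closedBall] at hv hw
      rw [dist_comm x v] at a1
      rw [dist_comm y w] at a2
      constructor <;> linarith⟩
  linarith [hA R, lt_min u0 ht0]

end Transfer

theorem rescaled_disc {G : SimpleGraph Sq} {ρ : Sq} {a b δ : ℝ} (ha : 0 < a) (h : δ ≤ a)
    (x y : (rescaled G ρ a b ha).X) (hxy : x ≠ y) : δ ≤ dist x y := by
  have h1 := dist_pos.2 hxy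
  change 0 < a * G.dist x.1 y.1 at h1
  change δ ≤ a * G.dist x.1 y.1
  have h2 : 0 < G.dist x.1 y.1 := by exact_mod_cast pos_of_mul_pos_right h1 ha.le
  have : (1 : ℝ) ≤ G.dist x.1 y.1 := by exact_mod_cast h2
  nlinarith

theorem final_gp {Ω : Type*} {mΩ : MeasurableSpace Ω} {P : Measure Ω} {h : Sq → Ω → ℝ} {Q : ℝ}
    [IsProbabilityMeasure P] (hQ : 0 < Q) (hQ2 : Q < 2)
    (hG : IsGaussianProcess h P) (hmean : ∀ S, ∫ ω, h S ω ∂P = 0)
    (hcov : ∀ S T, cov[h S, h T; P] = gffCov S T) (ρ : ℝ → Ω → Sq)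
    (hρ : ∀ ε > 0, ∀ᵐ ω ∂P, IsTile Q ε (fun S => h S ω) (ρ ε ω) ∧ 0 ∈ (ρ ε ω).carrier)
    (a b : ℝ → ℝ) (ha : ∀ ε, 0 < a ε) (hb : ∀ ε, 0 < b ε)
    (Y : ℝ → Ω → BFMM) (hY : ∀ ε, Measurable (Y ε))
    (hclose : ∀ η > 0, Tendsto (fun ε => P {ω | ¬ CloseP η
      (rescaled (tiling Q ε fun S => h S ω) (ρ ε ω) (a ε) (b ε) (ha ε)) (Y ε ω).toPMM})
      (𝓝[>] 0) (𝓝 0))
    (ν : Measure BFMM) [IsProbabilityMeasure ν]
    (hconv : ∀ F : BFMM →ᵇ ℝ, Tendsto (fun ε => ∫ ω, F (Y ε ω) ∂P) (𝓝[>] 0) (𝓝 (∫ A, F A ∂ν))) :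
    ((2 ≤ Q ^ 2 → HypG P Q) → Tendsto a (𝓝[>] 0) (𝓝 0) → ∀ᵐ A ∂ν, A.μ = 0) ∧
    (¬ Tendsto a (𝓝[>] 0) (𝓝 0) →
      ∃ δ > 0, ∀ᵐ A ∂ν, ∀ x ∈ A.μ.support, ∀ y ∈ A.μ.support, x ≠ y → δ ≤ dist x y) ∧
    (Q ^ 2 < 2 → ∀ᵐ A ∂ν, A.μ.support.Subsingleton) := by
  have ht := tight_of_conv hY hclose hconv
  have hd : ∀ δ, (∃ᶠ ε in 𝓝[>] 0, δ ≤ a ε) →
      ∀ᵐ A ∂ν, ∀ x ∈ A.μ.support, ∀ y ∈ A.μ.support, x ≠ y → δ ≤ dist x y := fun δ hδ =>
    disc_of_conv hY hclose hconv (hδ.mono fun ε hε ω => rescaled_disc (ha ε) hε)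
  refine ⟨fun hL ha0 => zero_of_conv hY hclose hconv (mass_zero hQ hQ2 hL hG hmean hcov ρ hρ
    a b ha hb ha0 ht), fun hn => ?_, fun hQ3 => ?_⟩
  · by_contra hc
    refine hn (tendsto_order.2 ⟨fun c hc => .of_forall fun ε => hc.trans (ha ε), fun c hc0 => ?_⟩)
    by_contra h1
    exact hc ⟨c, hc0, hd c ((not_eventually.1 h1).mono fun _ => not_lt.1)⟩
  · have hall : ∀ n : ℕ, ∃ᶠ ε in 𝓝[>] 0, (n : ℝ) ≤ a ε := fun n => by
      by_contra hc
      exact not_tight hQ hQ3 hG hmean hcov ρ hρ a b ha hb (x := n)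
        ((not_frequently.1 hc).mono fun _ h => (not_le.1 h).le) (ht _)
    filter_upwards [ae_all_iff.2 fun n : ℕ => hd n (hall n)] with A hA x hx y hy
    by_contra hxy
    obtain ⟨n, hn⟩ := exists_nat_gt (dist x y)
    exact hn.not_ge (hA n x hx y hy hxy)

end Pool.Agent.Lib.MP_d1f1b2_pr
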