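import Pool.Agent.Lib.D1W.Iso

/-! Change of measure, density bounds and a covariance inequality for Gaussian processes. -/

open Set Filter MeasureTheory ProbabilityTheory Real
open scoped ENNReal NNReal

namespace Pool.Agent.Lib.MP_d1f1b2_pr

variable {Ω : Type*} {mΩ : MeasurableSpace Ω} {P : Measure Ω} {T : Type*} {X : T → Ω → ℝ}
  {c : T → T → ℝ}

theorem CG.map_eq (h : CG X P c) (t : T) : P.map (X t) = gaussianReal 0 (c t t).toNNReal := by
  rw [(h.gauss.hasGaussianLaw_eval t).map_eq_gaussianReal,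
    ← covariance_self (h.meas _).aemeasurable, h.cov, h.mean]

theorem CG.var_nonneg (h : CG X P c) (t : T) : 0 ≤ c t t := by
  rw [← h.cov, covariance_self (h.meas _).aemeasurable]
  exact variance_nonneg _ _

theorem CG.abs_cov_le (h : CG X P c) (s t : T) {a : ℝ} (ha : 0 < a) :
    |c s t| ≤ (a * c s s + c t t / a) / 2 := by
  have key : ∀ e : ℝ, 0 ≤ a * a * c s s - e * (a * c s t) - e * (a * c s t) + e * e * c t t :=
    fun e => by
      have := (h.lin (ι := Unit) (fun _ => ![s, t]) fun _ => ![a, -e]).var_nonneg ()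
      simp only [Fin.sum_univ_two, Matrix.cons_val_zero, Matrix.cons_val_one, h.symm t s] at this
      linarith
  have e : c t t = a * (c t t / a) := by field_simp
  have h1 := key 1
  have h2 := key (-1)
  rw [abs_le]
  constructor <;> refine le_of_mul_le_mul_left ?_ ha <;> linarith

theorem lint_indep {α β : Type*} [MeasurableSpace α] [MeasurableSpace β] [IsProbabilityMeasure P]
    {f : Ω → α} {g : Ω → β} (hf : Measurable f) (hg : Measurable g) (hi : IndepFun f g P)
    {F : α × β → ℝ≥0∞} (hF : Measurable F) :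
    ∫⁻ ω, F (f ω, g ω) ∂P = ∫⁻ ω, ∫⁻ x, F (f ω, x) ∂(P.map g) ∂P := by
  rw [← lintegral_map hF (hf.prodMk hg), hi.map_prod_eq_prod_map_map hf.aemeasurable
    hg.aemeasurable, lintegral_prod _ hF.aemeasurable, lintegral_map hF.lintegral_prod_right' hf]

theorem gauss_tilt {v : ℝ} (hv : 0 < v) (θ : ℝ) {G : ℝ → ℝ≥0∞} (hG : Measurable G) :
    ∫⁻ x, ee (θ * x - θ ^ 2 * v / 2) * G x ∂(gaussianReal 0 v.toNNReal) =
      ∫⁻ x, G (x + θ * v) ∂(gaussianReal 0 v.toNNReal) := by
  have h0 : v.toNNReal ≠ 0 := by simpa using hv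
  rw [gaussianReal_of_var_ne_zero _ h0, lintegral_withDensity_eq_lintegral_mul _
    (measurable_gaussianPDF _ _) (by fun_prop), lintegral_withDensity_eq_lintegral_mul _
    (measurable_gaussianPDF _ _) (by fun_prop), ← lintegral_add_right_eq_self _ (θ * v)]
  refine lintegral_congr fun x => ?_
  simp only [Pi.mul_apply, ← mul_assoc]
  congr 1
  rw [gaussianPDF, gaussianPDF, ee, ← ENNReal.ofReal_mul (gaussianPDFReal_nonneg _ _ _),
    gaussianPDFReal, gaussianPDFReal, mul_assoc, ← exp_add, coe_toNNReal _ hv.le]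
  congr 3
  field_simp; ring

theorem CG.girsanov (h : CG X P c) (t0 : T) (hv : 0 < c t0 t0) (θ : ℝ) {F : (T → ℝ) → ℝ≥0∞}
    (hF : Measurable F) : ∫⁻ ω, ee (θ * X t0 ω - θ ^ 2 * c t0 t0 / 2) * F (fun t => X t ω) ∂P =
      ∫⁻ ω, F (fun t => X t ω + θ * c t t0) ∂P := by
  have := h.prob
  have hm := h.meas
  have h1 := (h.comb (ι := T ⊕ Unit) (Sum.elim id fun _ => t0)
    (Sum.elim (fun t => c t t0 / c t0 t0) fun _ => 0) (fun _ => t0)).indep Sum.inl Sum.inr
    fun s t => by
      simp only [Sum.elim_inl, Sum.elim_inr, id, zero_mul, sub_zero, mul_zero, add_zero]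
      field_simp; ring
  have h2 : IndepFun (fun ω t => X t ω - c t t0 / c t0 t0 * X t0 ω) (X t0) P := by
    simpa [Function.comp_def] using h1.comp measurable_id (measurable_pi_apply ())
  have a1 := lint_indep (by fun_prop) (hm t0) h2 (F := fun p => ee (θ * p.2 - θ ^ 2 * c t0 t0 / 2) *
    F fun t => p.1 t + c t t0 / c t0 t0 * p.2) (by fun_prop)
  have a2 := lint_indep (by fun_prop) (hm t0) h2
    (F := fun p => F fun t => p.1 t + c t t0 / c t0 t0 * (p.2 + θ * c t0 t0)) (by fun_prop)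
  have e : ∀ t, c t t0 / c t0 t0 * (θ * c t0 t0) = θ * c t t0 := fun t => by field_simp
  simp only [sub_add_cancel] at a1
  simp only [mul_add, ← add_assoc, sub_add_cancel, e] at a2
  rw [a1, a2, h.map_eq]
  refine lintegral_congr fun ω => (gauss_tilt hv θ (G := fun x => F fun t =>
    X t ω - c t t0 / c t0 t0 * X t0 ω + c t t0 / c t0 t0 * x) (by fun_prop)).trans ?_
  simp only [mul_add, ← add_assoc, e]

theorem CG.tilt_le (h : CG X P c) (t0 : T) (hv : 0 < c t0 t0) {θ : ℝ} (hθ : 0 ≤ θ) (x : ℝ)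
    {B : (T → ℝ) → Prop} (hB : Measurable B) : P {ω | x ≤ X t0 ω ∧ B fun t => X t ω} ≤
      ee (θ ^ 2 * c t0 t0 / 2 - θ * x) * P {ω | B fun t => X t ω + θ * c t t0} := by
  have hm := h.meas
  have hB' : MeasurableSet {y | B y} := measurableSet_setOfPred.2 hB
  have hI : Measurable ({y | B y}.indicator (1 : (T → ℝ) → ℝ≥0∞)) := measurable_one.indicator hB'
  have m1 : MeasurableSet {ω | B fun t => X t ω + θ * c t t0} :=
    (by fun_prop : Measurable fun ω t => X t ω + θ * c t t0) hB'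
  have m2 : MeasurableSet {ω | x ≤ X t0 ω ∧ B fun t => X t ω} :=
    (measurableSet_le measurable_const (hm t0)).inter (h.measPi hB')
  have e := h.girsanov t0 hv θ hI
  rw [← lintegral_indicator_one m1, ← lintegral_indicator_one m2]
  refine le_trans ?_ (mul_le_mul_right e.le _)
  rw [← lintegral_const_mul' _ _ (ee_ne_top _)]
  refine lintegral_mono fun ω => ?_
  by_cases hω : ω ∈ {ω | x ≤ X t0 ω ∧ B fun t => X t ω}
  · rw [indicator_of_mem hω, indicator_of_mem (show (fun t => X t ω) ∈ {y | B y} from hω.2),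
      Pi.one_apply, Pi.one_apply, mul_one, ← ee_add]
    exact one_le_ee (by nlinarith [hω.1])
  · rw [indicator_of_notMem hω]; exact zero_le

theorem CG.dens (h : CG X P c) (t : T) {v : ℝ} (hv : 0 < v) (hc : v ≤ c t t) (θ : ℝ) (s : Set ℝ) :
    P.map (X t) s ≤ ∫⁻ x in s, ENNReal.ofReal ((√v)⁻¹ * exp (θ ^ 2 * c t t / 2) * exp (-θ * x)) := by
  have h1 := hv.trans_le hc
  rw [h.map_eq, gaussianReal_apply _ (by simpa using h1)]
  refine lintegral_mono fun x => ENNReal.ofReal_le_ofReal ?_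
  rw [gaussianPDFReal, coe_toNNReal _ h1.le, mul_assoc (√v)⁻¹, ← exp_add]
  gcongr
  · nlinarith [pi_gt_three]
  · rw [div_le_iff₀ (by positivity)]
    nlinarith [sq_nonneg (x - θ * c t t)]

theorem CG.small_ball (h : CG X P c) (t : T) {v : ℝ} (hv : 0 < v) (hc : v ≤ c t t) (a r : ℝ) :
    P.map (X t) (Icc a (a + r)) ≤ ENNReal.ofReal (r / √v) := by
  refine (h.dens t hv hc 0 _).trans (le_of_eq ?_)
  simp only [neg_zero, zero_mul, exp_zero, mul_one, ne_eq, OfNat.ofNat_ne_zero, not_false_eq_true,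
    zero_pow, zero_div]
  rw [setLIntegral_const, Real.volume_Icc, add_sub_cancel_left, ← ENNReal.ofReal_mul (by positivity),
    div_eq_inv_mul]

theorem CG.mills (h : CG X P c) (t : T) {v : ℝ} (hv : 0 < v) (hc : v ≤ c t t) {θ : ℝ} (hθ : 0 < θ)
    (x : ℝ) : P {ω | x ≤ X t ω} ≤ ee (θ ^ 2 * c t t / 2 - θ * x - log θ - log v / 2) := by
  have e : P {ω | x ≤ X t ω} = P.map (X t) (Ici x) := by
    rw [Measure.map_apply (h.meas _) measurableSet_Ici]; rfl
  rw [e]
  refine (h.dens t hv hc θ _).trans (le_of_eq ?_)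
  rw [setLIntegral_congr Ioi_ae_eq_Ici.symm, ← ofReal_integral_eq_lintegral_ofReal
    ((exp_neg_integrableOn_Ioi x hθ).const_mul _) (ae_of_all _ fun _ => by positivity),
    integral_const_mul, integral_exp_mul_Ioi (by linarith), ee, ← log_sqrt hv.le, exp_sub, exp_sub,
    exp_sub, exp_log hθ, exp_log (by positivity), neg_mul, exp_neg]
  congr 1
  field_simp

end Pool.Agent.Lib.MP_d1f1b2_pr
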