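import Pool.Agent.Lib.D1W.Arc
import Pool.Agent.Lib.D1W.Gir

/-! A joint tail bound for the local parts of the field along a chain of squares. -/

open Set Filter MeasureTheory ProbabilityTheory Real
open scoped ENNReal

namespace Pool.Agent.Lib.MP_d1f1b2_pr

/-- The field at `S` seen from the walk of `T` at level `j`. -/
def Vf {Ω : Type*} (X : (Sq × ℕ) ⊕ Sq → Ω → ℝ) (T S : Sq) (j : ℕ) (ω : Ω) : ℝ :=
  X (.inr S) ω - X (.inr T) ω + X (.inl (S, 0)) ω - (X (.inl (T, 0)) ω - X (.inl (T, j)) ω)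

namespace F66

theorem geo_inj {s : Finset ℕ} {g : ℕ → ℕ} (hg : InjOn g s) :
    ∑ l ∈ s, (3 / 4 : ℝ) ^ g l ≤ 4 := by
  rw [← Finset.sum_image (f := fun n => (3 / 4 : ℝ) ^ n) hg]
  refine ((summable_geometric_of_lt_one (by norm_num) (by norm_num)).sum_le_tsum _
    fun _ _ => by positivity).trans ?_
  rw [tsum_geometric_of_lt_one (by norm_num) (by norm_num)]
  norm_num

theorem geo (s : Finset ℕ) (i : ℕ) : ∑ l ∈ s, (3 / 4 : ℝ) ^ (i - l + (l - i)) ≤ 8 := by
  rw [← Finset.sum_filter_add_sum_filter_not s (· ≤ i)]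
  have h1 := geo_inj (s := s.filter (· ≤ i)) (g := fun l => i - l + (l - i)) fun a ha b hb h => by
    have := (Finset.mem_filter.1 ha).2
    have := (Finset.mem_filter.1 hb).2
    beta_reduce at h
    omega
  have h2 := geo_inj (s := s.filter (¬ · ≤ i)) (g := fun l => i - l + (l - i))
    fun a ha b hb h => by
      have := (Finset.mem_filter.1 ha).2
      have := (Finset.mem_filter.1 hb).2
      beta_reduce at h
      omega
  linarith

variable {Ω : Type*} {mΩ : MeasurableSpace Ω} {P : Measure Ω}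

theorem tail_sum {Y : ℕ → Ω → ℝ} {c : ℕ → ℕ → ℝ} (h : CG Y P c) {k : ℕ} {r e : ℕ → ℝ}
    (hr : ∀ i, 0 ≤ r i) (he : ∀ i, |e i| ≤ 1)
    (hc : ∀ i l, i ≤ l → l ≤ k → |c i l| ≤ 6 * (r i + r l) * (3 / 4) ^ (l - i)) {s : ℝ}
    (hs : 0 ≤ s) (t : ℝ) : P {ω | t / 2 ≤ ∑ i ∈ Finset.range (k + 1), e i * Y i ω} ≤
      ee (192 * s ^ 2 * ∑ i ∈ Finset.range (k + 1), r i - s * t) := by
  refine ((h.linF (ι := Unit) (fun _ => Finset.range (k + 1)) fun _ => e).tail_ge ()
    (θ := 2 * s) (by positivity) _).trans (ee_mono ?_)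
  have h1 : ∀ i ∈ Finset.range (k + 1), ∀ l ∈ Finset.range (k + 1), e i * e l * c i l ≤
      6 * r i * (3 / 4) ^ (i - l + (l - i)) + 6 * r l * (3 / 4) ^ (l - i + (i - l)) :=
    fun i hi l hl => by
      have h2 : |c i l| ≤ 6 * (r i + r l) * (3 / 4) ^ (i - l + (l - i)) := by
        rcases le_total i l with h3 | h3
        · rw [Nat.sub_eq_zero_of_le h3, zero_add]
          exact hc i l h3 (Nat.lt_succ_iff.1 (Finset.mem_range.1 hl))
        · rw [Nat.sub_eq_zero_of_le h3, add_zero, h.symm, add_comm (r i)]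
          exact hc l i h3 (Nat.lt_succ_iff.1 (Finset.mem_range.1 hi))
      refine (le_abs_self _).trans ?_
      rw [abs_mul, abs_mul, add_comm (l - i)]
      have h3 := mul_le_of_le_one_left (abs_nonneg (c i l))
        (mul_le_one₀ (he i) (abs_nonneg _) (he l))
      linarith
  have h2 : ∑ i ∈ Finset.range (k + 1), ∑ l ∈ Finset.range (k + 1),
      6 * r i * (3 / 4 : ℝ) ^ (i - l + (l - i)) ≤ 48 * ∑ i ∈ Finset.range (k + 1), r i := by
    rw [Finset.mul_sum]
    refine Finset.sum_le_sum fun i _ => ?_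
    rw [← Finset.mul_sum]
    nlinarith [geo (Finset.range (k + 1)) i, hr i]
  have h3 := Finset.sum_le_sum fun i hi => Finset.sum_le_sum (h1 i hi)
  simp only [Finset.sum_add_distrib] at h3
  rw [Finset.sum_comm (f := fun i l => 6 * r l * (3 / 4 : ℝ) ^ (l - i + (i - l)))] at h3
  nlinarith [mul_le_mul_of_nonneg_left (h3.trans (add_le_add h2 h2)) (sq_nonneg s)]

variable {X : (Sq × ℕ) ⊕ Sq → Ω → ℝ}

theorem CG_dd (h : CG X P cW) (T : Sq) :
    CG (fun (p : Sq × ℕ) ω => Vf X T p.1 p.2 ω - X (.inl p) ω) P fun p q =>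
      -tau p.1 q.1 + tau p.1 T + tau T q.1 - tau T T + (ik p.1 q.1 ((min p.2 q.2 : ℕ) * log 2) -
        ik p.1 T ((min p.2 q.2 : ℕ) * log 2) - ik T q.1 ((min p.2 q.2 : ℕ) * log 2) +
        ik T T ((min p.2 q.2 : ℕ) * log 2)) := by
  have h1 := h.lin (fun p : Sq × ℕ => ![.inr p.1, .inr T, .inl (p.1, 0), .inl (T, 0),
    .inl (T, p.2), .inl p]) fun _ => ![1, -1, 1, -1, 1, -1]
  refine CG.congr (by
    convert h1 using 3
    simp [Fin.sum_univ_six, Vf]
    ring) fun p q => ?_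
  rcases le_total p.2 q.2 with h2 | h2 <;> simp [Fin.sum_univ_six, cW, ik, h2] <;> ring

theorem var_dd {S T : Sq} {D : ℝ} (h : ∀ θ θ', ‖(cv S).p θ - (cv T).p θ'‖ ≤ D) (m : ℕ) :
    -tau S S + tau S T + tau T S - tau T T + (ik S S (m * log 2) - ik S T (m * log 2) -
      ik T S (m * log 2) + ik T T (m * log 2)) ≤ 8 * D * 2 ^ m := by
  have hM : 0 ≤ m * log 2 := by positivity
  have hD : 0 ≤ D := (norm_nonneg _).trans (h 0 0)
  have h1 := le_ik h hM
  have h2 : ik T S (m * log 2) = ik S T (m * log 2) := by simp only [ik, kap_symm T S]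
  rw [exp_nat_mul, exp_log two_pos] at h1
  have h3 := mul_le_mul_of_nonneg_left (one_le_pow₀ (one_le_two (α := ℝ)) (n := m)) hD
  rw [h2, tau_symm T S]
  linarith [tau_nonneg S S, tau_nonneg T T, tau_le h, ik_le S S hM, ik_le T T hM]

end F66

open F66 in
theorem flat : ∃ K : ℝ, ∀ {Ω : Type*} {_ : MeasurableSpace Ω} {P : Measure Ω}
    {X : (Sq × ℕ) ⊕ Sq → Ω → ℝ}, CG X P cW →
    ∀ (T : Sq) (k : ℕ) (S : ℕ → Sq) (j : ℕ → ℕ) (r e t : ℕ → ℝ) (s : ℝ), 0 ≤ s →
    (∀ i < k, j i < j (i + 1)) → (∀ i ≤ k, (S i).n ≤ j i) → (∀ i, 1 ≤ r i) → (∀ i, |e i| ≤ 1) →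
    (∀ i ≤ k, ∀ θ θ', ‖(cv (S i)).p θ - (cv T).p θ'‖ ≤ r i * (1 / 2) ^ (j i)) →
    (∀ i ≤ k, ∀ θ θ', ‖(cv (S i)).p θ - (cv (S i)).p θ'‖ ≤ r i * (1 / 2) ^ (j i)) →
    P {ω | ∀ i ≤ k, t i ≤ e i * Vf X T (S i) (j i) ω} ≤
      2 * ee (K * s ^ 2 * ∑ i ∈ Finset.range (k + 1), r i -
        s * ∑ i ∈ Finset.range (k + 1), t i) := by
  refine ⟨192, fun {Ω _ P X} h T k S j r e t s hs hj hn hr he hD _ => ?_⟩
  have hr0 : ∀ i, 0 ≤ r i := fun i => zero_le_one.trans (hr i)
  have hd : ∀ i l, i ≤ l → l ≤ k → ∃ d, l - i ≤ d ∧ j l = j i + d := fun i l h1 h2 => by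
    have : j i + (l - i) ≤ j l := by
      induction l, h1 using Nat.le_induction with
      | base => omega
      | succ l h1 ih =>
        have := ih (by omega)
        have := hj l (by omega)
        omega
    exact ⟨j l - j i, by omega, by omega⟩
  have hq : ∀ {d m : ℕ}, m ≤ d → (3 / 4 : ℝ) ^ d ≤ (3 / 4) ^ m := fun h =>
    pow_le_pow_of_le_one (by norm_num) (by norm_num) h
  have h1 := tail_sum ((CG_dd h T).comp fun i => (S i, j i)) hr0 he (k := k) (fun i l h1 h2 => by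
    obtain ⟨d, h3, h4⟩ := hd i l h1 h2
    have h5 := (CG_dd h T).abs_cov_le (S i, j i) (S l, j i) (a := (3 / 4) ^ d) (by positivity)
    have h6 := var_dd (hD i (h1.trans h2)) (j i)
    have h7 := var_dd (hD l h2) (j i)
    simp only [min_self] at h5
    simp only [min_eq_left (show j i ≤ j l by omega)]
    rw [mul_assoc, mul_assoc, ← mul_pow, one_div, inv_mul_cancel₀ two_ne_zero, one_pow,
      mul_one] at h6
    rw [h4, pow_add, mul_assoc, mul_assoc, mul_right_comm ((1 / 2 : ℝ) ^ j i), ← mul_pow, one_div,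
      inv_mul_cancel₀ two_ne_zero, one_pow, one_mul] at h7
    have h8 : (2⁻¹ : ℝ) ^ d ≤ (3 / 4) ^ d * (3 / 4) ^ d := by
      rw [← mul_pow]
      exact pow_le_pow_left₀ (by norm_num) (by norm_num) d
    have h9 : (0 : ℝ) < (3 / 4) ^ d := by positivity
    have h10 := div_le_div_of_nonneg_right (h7.trans (mul_le_mul_of_nonneg_left
      (mul_le_mul_of_nonneg_left h8 (hr0 l)) (by norm_num))) h9.le
    rw [← mul_assoc, ← mul_assoc, mul_div_cancel_right₀ _ h9.ne'] at h10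
    have h11 := mul_le_mul_of_nonneg_left h6 h9.le
    have h12 := mul_le_mul_of_nonneg_left (hq h3) (add_nonneg (hr0 i) (hr0 l))
    have h13 := mul_nonneg (add_nonneg (hr0 i) (hr0 l)) h9.le
    refine h5.trans ?_
    linarith) hs
    (∑ i ∈ Finset.range (k + 1), t i)
  have h2 := tail_sum (h.comp fun i => .inl (S i, j i)) hr0 he (k := k) (fun i l h1 h2 => by
    obtain ⟨d, h3, h4⟩ := hd i l h1 h2
    simp only [cW, max_eq_right (show j i ≤ j l by omega)]
    rw [abs_of_nonneg (kap_nonneg _ _ _), kap_symm]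
    refine (kap_arc' _ _ (hn i (h1.trans h2))).trans ?_
    rw [h4, pow_add, mul_assoc, ← mul_assoc (2 ^ j i : ℝ), ← mul_pow, mul_one_div_cancel two_ne_zero,
      one_pow, one_mul]
    exact mul_le_mul (by linarith [hr i, hr l])
      ((pow_le_pow_left₀ (by norm_num) (by norm_num) d).trans (hq h3)) (by positivity)
      (by linarith [hr i, hr l])) hs (∑ i ∈ Finset.range (k + 1), t i)
  rw [two_mul]
  refine le_trans (measure_mono fun ω hω => ?_) ((measure_union_le _ _).trans (add_le_add h1 h2))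
  have h3 := Finset.sum_le_sum fun i (hi : i ∈ Finset.range (k + 1)) =>
    hω i (Nat.lt_succ_iff.1 (Finset.mem_range.1 hi))
  by_contra h4
  simp only [mem_union, mem_ofPred_eq, not_or, not_le, mul_sub, Finset.sum_sub_distrib] at h4
  linarith [h4.1, h4.2]

end Pool.Agent.Lib.MP_d1f1b2_pr
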