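import Pool.Agent.Lib.D1W.PC2
import Pool.Agent.Lib.D1W.Flat
import Pool.Agent.Lib.D1W.Cnt
import Pool.Agent.Lib.D1W.F3

/-! Two-sided exponential growth including the critical value of `Q`. -/

open Set Filter MeasureTheory ProbabilityTheory Real
open scoped ENNReal Topology

namespace Pool.Agent.Lib.MP_d1f1b2_pr

variable {Ω : Type*} {mΩ : MeasurableSpace Ω} {P : Measure Ω} {h : Sq → Ω → ℝ} {Q : ℝ}

theorem pc (hh : CG h P gffCov) (hQ : 0 < Q) (hQ' : Q < 2) (hQ2 : 2 ≤ Q ^ 2) :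
    ∃ K, 0 ≤ K ∧ PC Q h P K :=
  pc_of_flat hh hQ hQ' hQ2 fun _ hX => flat.imp fun _ hK => hK hX

theorem hypG2 (hQ : 0 < Q) (hQ' : Q < 2) (hQ2 : 2 ≤ Q ^ 2) : HypG P Q := fun _ hh =>
  let ⟨_, k0, hK⟩ := pc hh hQ hQ' hQ2
  ⟨lower_growth hh hQ hQ' hQ2, EV_upper2 hh hQ k0 hK⟩

end Pool.Agent.Lib.MP_d1f1b2_pr
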