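import Pool.Agent.Lib.MP_d1f1b2_pr.Defs

open Set MeasureTheory Metric
open scoped ENNReal

namespace Pool.Agent.Lib.MP_d1f1b2_pr

/-- Local Gromov-Prokhorov `η`-closeness: after isometric embeddings in a common metric space, the
roots are `η`-close and on the balls of radius `1/η` around the roots the measures are `η`-close
in the Prokhorov sense. Nothing is asked of the spaces themselves. -/
def CloseP (η : ℝ) (A B : PMM) : Prop :=
  ∃ (Z : Type) (_ : MetricSpace Z) (f : A.X → Z) (g : B.X → Z), Isometry f ∧ Isometry g ∧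
    dist (f A.root) (g B.root) ≤ η ∧
    (∀ s ⊆ closedBall A.root η⁻¹, IsClosed s →
      A.μ s ≤ B.μ (g ⁻¹' cthickening η (f '' s)) + ENNReal.ofReal η) ∧
    (∀ s ⊆ closedBall B.root η⁻¹, IsClosed s →
      B.μ s ≤ A.μ (f ⁻¹' cthickening η (g '' s)) + ENNReal.ofReal η)

theorem CloseP.mono {η η' : ℝ} {A B : PMM} (h : CloseP η A B) (h0 : 0 < η) (hle : η ≤ η') :
    CloseP η' A B := by
  obtain ⟨Z, _, f, g, hf, hg, h1, h4, h5⟩ := h
  have hi : η'⁻¹ ≤ η⁻¹ := inv_anti₀ h0 hle
  refine ⟨Z, inferInstance, f, g, hf, hg, h1.trans hle, fun s hs hc => ?_, fun s hs hc => ?_⟩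
  · exact (h4 s (hs.trans (closedBall_subset_closedBall hi)) hc).trans (add_le_add
      (measure_mono (preimage_mono (cthickening_mono hle _))) (ENNReal.ofReal_le_ofReal hle))
  · exact (h5 s (hs.trans (closedBall_subset_closedBall hi)) hc).trans (add_le_add
      (measure_mono (preimage_mono (cthickening_mono hle _))) (ENNReal.ofReal_le_ofReal hle))

/-- Pointed metric spaces (not necessarily proper) with a Borel measure finite on bounded sets. -/
structure BFMM : Type 1 extends PMM where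
  fin : ∀ R : ℝ, μ (closedBall root R) ≠ ∞

/-- The local Gromov-Prokhorov (Gromov-vague) topology. -/
instance : TopologicalSpace BFMM where
  IsOpen U := ∀ A ∈ U, ∃ η > 0, ∀ B : BFMM, CloseP η A.toPMM B.toPMM → B ∈ U
  isOpen_univ := fun _ _ => ⟨1, one_pos, fun _ _ => trivial⟩
  isOpen_inter := fun _ _ hU hV A hA => by
    obtain ⟨η, h0, h⟩ := hU A hA.1
    obtain ⟨η', h0', h'⟩ := hV A hA.2
    exact ⟨min η η', lt_min h0 h0', fun B hB =>
      ⟨h B (hB.mono (lt_min h0 h0') (min_le_left _ _)),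
        h' B (hB.mono (lt_min h0 h0') (min_le_right _ _))⟩⟩
  isOpen_sUnion := fun _ hS A ⟨U, hU, hA⟩ => by
    obtain ⟨η, h0, h⟩ := hS U hU A hA
    exact ⟨η, h0, fun B hB => ⟨U, hU, h B hB⟩⟩

/-- Its Borel sigma-algebra. -/
instance : MeasurableSpace BFMM := borel BFMM

/-- Mass of the closed ball of radius `R` about the root. -/
noncomputable def PMM.ballMass (A : PMM) (R : ℝ) : ℝ≥0∞ := A.μ (closedBall A.root R)

end Pool.Agent.Lib.MP_d1f1b2_pr
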