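import Pool.Agent.Lib.D1W.U2

/-! Two-sided averaging over the level. -/

open Set Filter MeasureTheory ProbabilityTheory Real
open scoped ENNReal Topology

namespace Pool.Agent.Lib.MP_d1f1b2_pr

variable {Ω : Type*} {mΩ : MeasurableSpace Ω} {P : Measure Ω} {h : Sq → Ω → ℝ} {Q : ℝ}

theorem avg_low (hh : CG h P gffCov) (hQ : 0 < Q) (hQ2 : Q < 2) {B : (Sq → Prop) → Sq → Prop}
    (hBm : ∀ ρ, Measurable fun D => B D ρ) (hBs : ∀ m D ρ, B (D ∘ sc m) ρ ↔ B D (sc m ρ))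
    (hBt : ∀ D ρ, B D ρ → tile D ρ) {g : ℝ≥0∞} (hg0 : 0 < g)
    (hLg : g < P.prod volume (EV Q h fun D => B D O)) (T : ℕ) :
    ∀ᶠ n1 : ℕ in atTop, (n1 : ℝ≥0∞) * (g / 2) ≤ ∫⁻ l in Icc (-(6 * n1 : ℝ)) (-T),
      P {ω | ∃ N, B (DD Q (fun S => h S ω) l) ⟨N, 0, 0⟩} := by
  have := hh.prob
  have hL := log2pos
  have hgt : g ≠ ∞ := ne_top_of_lt hLg
  have hg4 : 0 < g / 4 := ENNReal.div_pos hg0.ne' (by simp)
  filter_upwards [(tendsto_ee (η := Q ^ 2 * log 2 / 2) (by positivity)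
    (Q ^ 2 * (3 * log 2) / 2 + Q * T - log Q)).eventually (ge_mem_nhds hg4),
    (tendsto_ee one_pos 2).eventually (ge_mem_nhds hg4)] with n1 e1 e2
  set Wd : Set (Ω × ℝ) := univ ×ˢ Icc (-(6 * n1 : ℝ)) (-T) with hWd
  have hWm : MeasurableSet Wd := MeasurableSet.univ.prod measurableSet_Icc
  have a1 : ∀ n ∈ Finset.Ico n1 (2 * n1), g / 2 ≤
      P.prod volume ((EV Q h fun D => B D ⟨(n + 1 : ℕ), 0, 0⟩) ∩ Wd) := fun n hn => by
    rw [Finset.mem_Ico] at hn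
    have b1 := window hh hQ hQ2 hBt T hn.1 hn.2
    have b2 := EV_sc (Q := Q) hh (hBm O) (n + 1 : ℕ)
    simp only [hBs, sc_O] at b2
    rw [b2] at b1
    have b3 : g / 2 + g / 2 ≤ P.prod volume
        ((EV Q h fun D => B D ⟨(n + 1 : ℕ), 0, 0⟩) ∩ Wd) + g / 2 := by
      rw [ENNReal.add_halves]
      refine hLg.le.trans (b1.trans (add_le_add le_rfl ((add_le_add e1 e2).trans (le_of_eq ?_))))
      rw [← two_mul, show (4 : ℝ≥0∞) = 2 * 2 by norm_num, ← mul_div_assoc,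
        ENNReal.mul_div_mul_left _ _ (by simp) (by simp)]
    exact ENNReal.le_of_add_le_add_right (ENNReal.div_ne_top hgt two_ne_zero) b3
  have a2 := Finset.sum_le_sum a1
  rw [← measure_biUnion_finset (fun n _ n' _ hne => Set.disjoint_left.2 fun p hp hp' =>
      hne (by have := tile_corner (hBt _ _ hp.1) (hBt _ _ hp'.1); omega))
    (fun n _ => (meas_EV hh (hBm _)).inter hWm), Finset.sum_const, Nat.card_Ico,
    show 2 * n1 - n1 = n1 by omega, nsmul_eq_mul] at a2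
  have hm := (meas_EV (Q := Q) hh
    (Measurable.exists fun N : ℤ => hBm ⟨N, 0, 0⟩)).inter hWm
  refine a2.trans ((measure_mono (t := (EV Q h fun D => ∃ N, B D ⟨N, 0, 0⟩) ∩ Wd)
    (iUnion₂_subset fun n _ p hp => ⟨⟨_, hp.1⟩, hp.2⟩)).trans ?_)
  rw [Measure.prod_apply_symm hm, ← lintegral_indicator measurableSet_Icc]
  refine lintegral_mono fun l => ?_
  by_cases hl : l ∈ Icc (-(6 * n1 : ℝ)) (-T)
  · rw [indicator_of_mem hl]
    exact measure_mono fun ω hω => hω.1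
  · rw [indicator_of_notMem hl]
    exact le_of_eq (measure_mono_null (fun ω hω => (hl hω.2.2).elim) measure_empty)

theorem avg_up (hh : CG h P gffCov) {B : (Sq → Prop) → Sq → Prop}
    (hBm : ∀ ρ, Measurable fun D => B D ρ) (hBs : ∀ m D ρ, B (D ∘ sc m) ρ ↔ B D (sc m ρ)) (M : ℕ) :
    ∫⁻ l, P {ω | ∃ N : ℕ, N < M ∧ B (DD Q (fun S => h S ω) l) ⟨N, 0, 0⟩} ≤
      M * P.prod volume (EV Q h fun D => B D O) := by
  have := hh.prob
  have hm := meas_EV (Q := Q) hh (B := fun D => ∃ N : ℕ, N < M ∧ B D ⟨N, 0, 0⟩)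
    (Measurable.exists fun N : ℕ => measurable_const.and (hBm ⟨N, 0, 0⟩))
  refine (Measure.prod_apply_symm hm).ge.trans ((measure_mono
    (t := ⋃ N ∈ Finset.range M, EV Q h fun D => B D ⟨(N : ℕ), 0, 0⟩) fun p hp =>
      Exists.elim hp fun N h1 => mem_iUnion₂.2 ⟨N, Finset.mem_range.2 h1.1, h1.2⟩).trans
    ((measure_biUnion_finset_le _ _).trans (le_of_eq ?_)))
  rw [Finset.sum_congr rfl (g := fun _ => P.prod volume (EV Q h fun D => B D O)) fun N _ => by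
    rw [← EV_sc (Q := Q) hh (hBm O) N]; simp only [hBs, sc_O]]
  simp

theorem tail_neg (hh : CG h P gffCov) (hQ : 0 < Q) : ∃ c : ℝ, ∀ l,
    P {ω | ∃ k : ℕ, DD Q (fun S => h S ω) l ⟨-k, 0, 0⟩} ≤ ee (Q * l + c) := by
  have hL := log2pos
  obtain ⟨x, hx⟩ := exists_ee (tsum_ee (η := Q ^ 2 * log 2 / 2) (by positivity))
  refine ⟨Q ^ 2 * (3 * log 2) / 2 + x, fun l => ?_⟩
  rw [ofPred_exists, ← add_assoc, ee_add]
  refine (measure_iUnion_le _).trans (le_trans ?_ (mul_le_mul_right hx _))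
  rw [← ENNReal.tsum_mul_left]
  refine ENNReal.tsum_le_tsum fun k => ?_
  have hv := var_up (U := ⟨-k, 0, 0⟩) (n0 := 0) (k := k) (I := 0) (by simp) (by simp)
  rw [show ((0 : ℝ) + 2) * 2 ^ (-(0 : ℤ)) = 2 by simp, max_eq_left one_le_two] at hv
  refine (measure_mono (t := {ω | h ⟨-k, 0, 0⟩ ω ≤ l + Q * (-k * log 2)}) fun ω hω => ?_).trans
    ((hh.tail_le _ hQ.le _).trans ?_)
  · simp only [DD, lm, mem_ofPred_eq] at hω ⊢
    push_cast at hω
    linarith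
  · rw [← ee_add]
    refine ee_mono ?_
    have := mul_le_mul_of_nonneg_left hv (sq_nonneg Q)
    push_cast at this
    nlinarith

theorem tail_pos (hh : CG h P gffCov) (hQ : 0 < Q) (l : ℝ) (M : ℕ) :
    P {ω | ¬ DD Q (fun S => h S ω) l ⟨M, 0, 0⟩} ≤
      ee (-(Q ^ 2 * log 2 / 2) * M + Q ^ 2 * (3 * log 2) / 2 - Q * l) := by
  refine (measure_mono (t := {ω | l + Q * (M * log 2) ≤ h ⟨M, 0, 0⟩ ω}) fun ω hω => ?_).trans
    ((hh.tail_ge _ hQ.le _).trans (ee_mono ?_))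
  · simp only [DD, lm, mem_ofPred_eq, not_le] at hω ⊢
    push_cast at hω
    linarith
  · have := mul_le_mul_of_nonneg_left (var_corner M) (sq_nonneg Q)
    nlinarith

theorem tile_fin (hh : CG h P gffCov) : P.prod volume (EV Q h fun D => tile D O) ≠ ∞ := by
  have := hh.prob
  rw [Measure.prod_apply (meas_EV hh (meas_tile O))]
  refine ne_top_of_le_ne_top (b := ∫⁻ ω, (ee (1 * h (anc O 1) ω + Q * log 2) +
    ee (-1 * h O ω + 0)) ∂P) ?_ (lintegral_mono fun ω => ?_)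
  · have := hh.meas
    rw [lintegral_add_left (by fun_prop), hh.mgf1', hh.mgf1']
    exact ENNReal.add_ne_top.2 ⟨ee_ne_top _, ee_ne_top _⟩
  · refine (measure_mono (t := Ico (h O ω) (h (anc O 1) ω + Q * log 2)) fun l hl => ?_).trans ?_
    · have h1 := hl.1
      have h2 := hl.2 0
      simp only [DD, lm, not_le, anc_n, O, zero_add] at h1 h2
      push_cast at h1 h2
      exact ⟨by simp only [O]; linarith, by simp only [O]; linarith⟩
    · rw [Real.volume_Ico, sub_eq_add_neg]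
      refine ENNReal.ofReal_add_le.trans (add_le_add ((ofReal_le_ee one_pos).trans ?_)
        ((ofReal_le_ee one_pos).trans ?_)) <;> simp

theorem avg_two (hh : CG h P gffCov) (hQ : 0 < Q) (hQ2 : Q < 2) {B : (Sq → Prop) → Sq → Prop}
    (hBm : ∀ ρ, Measurable fun D => B D ρ) (hBs : ∀ m D ρ, B (D ∘ sc m) ρ ↔ B D (sc m ρ))
    (hBt : ∀ D ρ, B D ρ → tile D ρ) (hB : P.prod volume (EV Q h fun D => B D O) ≠ 0) {C : ℝ}
    (hC : P.prod volume (EV Q h fun D => tile D O ∧ ¬ ∃ r, UB C r D O) = 0) :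
    ∃ κ : ℝ≥0∞, κ ≠ 0 ∧ ∀ η : ℝ≥0∞, η ≠ 0 → ∃ r, ∀ T : ℕ, ∃ l ≤ -(T : ℝ),
      κ ≤ P {ω | ∃ N, B (DD Q (fun S => h S ω) l) ⟨N, 0, 0⟩} ∧
      P {ω | ∃ N, tile (DD Q (fun S => h S ω) l) ⟨N, 0, 0⟩ ∧
        ¬ UB C r (DD Q (fun S => h S ω) l) ⟨N, 0, 0⟩} ≤ η := by
  have := hh.prob
  have hL := log2pos
  obtain ⟨g, hg0, hg⟩ := exists_between (pos_iff_ne_zero.2 hB)
  have hgt : g ≠ ∞ := ne_top_of_lt hg
  refine ⟨g / 24, (ENNReal.div_pos hg0.ne' (by simp)).ne', fun η hη => ?_⟩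
  rcases eq_or_ne η ∞ with rfl | hηt
  · exact ⟨0, fun T => (avg_gen hh hQ hQ2 hBm hBs hBt hg0 hg T).imp fun l hl => ⟨hl.1, hl.2, le_top⟩⟩
  obtain ⟨K, hK⟩ := exists_nat_ge ((6 * Q + 1) / (Q ^ 2 * log 2 / 2))
  rw [div_le_iff₀ (by positivity)] at hK
  have hm : ∀ r S, Measurable fun D => tile D S ∧ ¬ UB C r D S := fun r S =>
    (meas_tile S).and (meas_UB C r S).not
  have h3 : 0 < η / 3 := ENNReal.div_pos hη (by simp)
  have ht := tendsto_measure_iInter_atTop (μ := P.prod volume)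
    (s := fun r => EV Q h fun D => tile D O ∧ ¬ UB C r D O)
    (fun r => (meas_EV hh (hm r O)).nullMeasurableSet)
    (fun r r' hr p hp => ⟨hp.1, fun hu => hp.2 fun ρ hρ => hu ρ (hr.trans hρ)⟩)
    ⟨0, ne_top_of_le_ne_top (tile_fin (Q := Q) hh) (measure_mono fun p hp => hp.1)⟩
  rw [measure_mono_null (t := EV Q h fun D => tile D O ∧ ¬ ∃ r, UB C r D O) (fun p hp =>
    ⟨(mem_iInter.1 hp 0).1, fun ⟨r, hr⟩ => (mem_iInter.1 hp r).2 hr⟩) hC] at ht
  obtain ⟨r, hr⟩ := (ht.eventually (ge_mem_nhds (show 0 < η / 3 * g / (8 * (K + 1)) from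
    ENNReal.div_pos (mul_ne_zero h3.ne' hg0.ne') (by finiteness)))).exists
  obtain ⟨c, hc⟩ := tail_neg hh hQ
  obtain ⟨T0, hT0⟩ := ((tendsto_ee hQ c).eventually (ge_mem_nhds h3)).exists
  refine ⟨r, fun T => ?_⟩
  obtain ⟨n1, e1, e2, e3⟩ := ((avg_low hh hQ hQ2 hBm hBs hBt hg0 hg (T + T0)).and
    (((tendsto_ee one_pos (Q ^ 2 * (3 * log 2) / 2)).eventually (ge_mem_nhds h3)).and
      (eventually_ge_atTop 1))).exists
  by_contra hcon
  simp only [not_exists, not_and, not_le] at hcon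
  set f : ℝ → ℝ≥0∞ := fun l => P {ω | ∃ N : ℕ, N < K * n1 + 1 ∧
    tile (DD Q (fun S => h S ω) l) ⟨N, 0, 0⟩ ∧ ¬ UB C r (DD Q (fun S => h S ω) l) ⟨N, 0, 0⟩} with hf
  have a1 : ∀ l ∈ Icc (-(6 * n1 : ℝ)) (-(T + T0 : ℕ)),
      P {ω | ∃ N, B (DD Q (fun S => h S ω) l) ⟨N, 0, 0⟩} ≤ g / 24 + (η / 3)⁻¹ * f l := by
    rintro l ⟨hl1, hl2⟩
    push_cast at hl2
    have hT : (0 : ℝ) ≤ T := T.cast_nonneg
    have hT0' : (0 : ℝ) ≤ T0 := T0.cast_nonneg
    rcases lt_or_ge (P {ω | ∃ N, B (DD Q (fun S => h S ω) l) ⟨N, 0, 0⟩}) (g / 24) with b | b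
    · exact le_add_right b.le
    have b1 := hcon l (by linarith) b
    have b2 : P {ω | ∃ N, tile (DD Q (fun S => h S ω) l) ⟨N, 0, 0⟩ ∧
        ¬ UB C r (DD Q (fun S => h S ω) l) ⟨N, 0, 0⟩} ≤ f l + (η / 3 + η / 3) := by
      refine le_trans (measure_mono ?_) ((measure_union_le _ _).trans (add_le_add le_rfl
        ((measure_union_le _ _).trans (add_le_add ((hc l).trans (le_trans (ee_mono ?_) hT0))
          ((tail_pos hh hQ l (K * n1)).trans (le_trans (ee_mono ?_) e2))))))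
      · rintro ω ⟨N, h1, h2⟩
        rcases le_or_gt N 0 with c1 | c1
        · refine .inr (.inl ⟨(-N).toNat, ?_⟩)
          rw [show -((-N).toNat : ℤ) = N by omega]
          exact h1.1
        lift N to ℕ using c1.le
        rcases lt_or_ge N (K * n1 + 1) with c2 | c2
        · exact .inl ⟨N, c2, h1, h2⟩
        · refine .inr (.inr ?_)
          have := h1.2 (N - (K * n1 + 1))
          rwa [show anc ⟨N, 0, 0⟩ (N - (K * n1 + 1) + 1) = ⟨(K * n1 : ℕ), 0, 0⟩ by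
            apply Sq.ext' <;> simp only [anc, Int.zero_ediv]; omega] at this
      · nlinarith
      · have : (0 : ℝ) ≤ n1 := n1.cast_nonneg
        push_cast
        nlinarith
    have b3 : η / 3 ≤ f l := by
      refine ENNReal.le_of_add_le_add_right (a := η / 3 + η / 3) (by finiteness)
        (le_trans (le_of_eq ?_) (b1.le.trans b2))
      rw [← add_assoc, ENNReal.add_thirds]
    refine prob_le_one.trans (le_add_left ?_)
    rw [← ENNReal.inv_mul_cancel h3.ne' (by finiteness)]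
    gcongr
  have a2 := e1.trans (setLIntegral_mono' measurableSet_Icc a1)
  rw [lintegral_add_left measurable_const, setLIntegral_const, Real.volume_Icc,
    lintegral_const_mul' _ _ (ENNReal.inv_ne_top.2 h3.ne')] at a2
  have a3 : (n1 : ℝ≥0∞) * (g / 2) ≤ g / 24 * (6 * n1) +
      (η / 3)⁻¹ * ((K * n1 + 1 : ℕ) * (η / 3 * g / (8 * (K + 1)))) := by
    refine a2.trans (add_le_add ?_ ?_)
    · gcongr
      refine ENNReal.ofReal_le_of_le_toReal ?_
      simp only [ENNReal.toReal_mul, ENNReal.toReal_ofNat, ENNReal.toReal_natCast]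
      linarith [(T + T0).cast_nonneg (α := ℝ)]
    · gcongr
      refine (setLIntegral_le_lintegral _ _).trans ((avg_up hh (hm r) (fun m D ρ =>
        and_congr tile_sc (UB_sc C r m D ρ).not) _).trans ?_)
      exact mul_le_mul_right hr _
  lift g to NNReal using hgt
  lift η to NNReal using hηt
  have hη' : (0 : ℝ) < η := by exact_mod_cast pos_iff_ne_zero.2 hη
  have a5 := ENNReal.toReal_mono (by
    have := ENNReal.inv_ne_top.2 h3.ne'
    have : (8 : ℝ≥0∞) * (K + 1) ≠ 0 := by positivity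
    finiteness) a3
  rw [ENNReal.toReal_add (by finiteness) (by
    have := ENNReal.inv_ne_top.2 h3.ne'
    have : (8 : ℝ≥0∞) * (K + 1) ≠ 0 := by positivity
    finiteness)] at a5
  simp only [ENNReal.toReal_mul, ENNReal.toReal_div, ENNReal.toReal_natCast, ENNReal.coe_toReal,
    ENNReal.toReal_ofNat, ENNReal.toReal_inv,
    ENNReal.toReal_add (ENNReal.natCast_ne_top K) ENNReal.one_ne_top, ENNReal.toReal_one] at a5
  have : (0 : ℝ) < g := by exact_mod_cast hg0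
  have h1 : (1 : ℝ) ≤ n1 := by exact_mod_cast e3
  have h2 : ((η : ℝ) / 3)⁻¹ * ((K * n1 + 1 : ℕ) * (η / 3 * g / (8 * (K + 1)))) ≤ n1 * g / 8 := by
    have hK0 : (0 : ℝ) ≤ K := K.cast_nonneg
    push_cast
    field_simp
    nlinarith
  nlinarith

end Pool.Agent.Lib.MP_d1f1b2_pr
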