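import Pool.Agent.Lib.D1W.Rec

/-! Exponential growth of balls with positive measure. -/

open Set Filter MeasureTheory ProbabilityTheory Real
open scoped ENNReal Topology

namespace Pool.Agent.Lib.MP_d1f1b2_pr

variable {Ω : Type*} {mΩ : MeasurableSpace Ω} {P : Measure Ω} {h : Sq → Ω → ℝ} {Q : ℝ}

theorem up_prob {H : Sq → Ω → ℝ} (hH : CG H P fun S T => kk S T - kk S O - kk O T + kk O O)
    (hQ : 0 < Q) (ε : ℝ) : P {ω | ¬ ∀ k, -ε < lm Q (fun S => H S ω) (anc O k)} ≤
      (∑' k : ℕ, ee (-(Q ^ 2 * log 2 / 2) * k)) * ee (-Q * ε + 2 * Q ^ 2 * log 2) := by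
  simp only [not_forall, ofPred_exists]
  rw [← ENNReal.tsum_mul_right]
  refine (measure_iUnion_le _).trans (ENNReal.tsum_le_tsum fun k => ?_)
  have hn : ((anc O k).n : ℝ) = -k := by simp [anc, O]
  refine le_trans (measure_mono fun ω hω => ?_)
    ((hH.tail_le (anc O k) hQ.le (-ε - Q * (k * log 2))).trans ?_)
  · simp only [mem_ofPred_eq, lm, not_lt, hn] at hω ⊢
    linarith
  · rw [← ee_add]
    have h1 := abs_le.1 (kk_anc (anc O k) 0)
    have h2 := abs_le.1 (kk_anc O k)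
    have h3 := abs_le.1 (kk_anc' O k)
    have h4 := abs_le.1 (kk_anc O 0)
    have h0 : (O.n : ℝ) = 0 := by simp [O]
    simp only [anc_zero, hn, h0] at h1 h2 h3 h4
    have := mul_le_mul_of_nonneg_left (show kk (anc O k) (anc O k) - kk (anc O k) O -
      kk O (anc O k) + kk O O ≤ k * log 2 + 4 * log 2 by linarith [h1.2, h2.1, h3.1, h4.2])
      (sq_nonneg Q)
    exact ee_mono (by linarith)

theorem EV_eq (hh : CG h P gffCov) {B : (Sq → Prop) → Prop} (hB : Measurable B) :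
    P.prod volume (EV Q h B) = ∫⁻ ω, volume {u | B (DD Q (fun S => h S ω - h O ω) u)} ∂P := by
  rw [Measure.prod_apply (meas_EV hh hB)]
  refine lintegral_congr fun ω => ?_
  rw [← measure_preimage_add_right volume (-h O ω) {u | B (DD Q (fun S => h S ω - h O ω) u)}]
  congr 1
  ext u
  simp only [EV, mem_preimage, mem_ofPred_eq]
  refine iff_of_eq (congrArg B (funext fun S => propext ?_))
  simp only [DD, lm]
  constructor <;> intro <;> linarith

theorem tree_pos (hh : CG h P gffCov) (hQ : 0 < Q) (hQ' : Q < 2) (hQ2 : 2 ≤ Q ^ 2) :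
    ∃ J e, P.prod volume (EV Q h fun D => ∀ n, Tr J e D n O) ≠ 0 := by
  have hL := log2pos
  obtain ⟨X, hX⟩ := exists_W
  obtain ⟨δ, hδ, C, p0, hp0, hp1, hev⟩ := rec_prob (P := PW) hQ hQ' hQ2
  have hp3 : p0 / 3 ≠ 0 := (ENNReal.div_pos hp0 (by simp)).ne'
  have hκ : 0 < δ * log 2 / 2 := by positivity
  have t1 := ENNReal.Tendsto.const_mul (a := ∑' k : ℕ, ee (-(Q ^ 2 * log 2 / 2) * k))
    (tendsto_ee (mul_pos hQ hκ) (2 * Q ^ 2 * log 2)) (Or.inr (tsum_ee (by positivity)))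
  rw [mul_zero] at t1
  obtain ⟨i, ⟨e, he⟩, ⟨h1, h2⟩, h3⟩ := (hev.and ((tendsto_add_atTop_nat 2).eventually
    (((t1.eventually (ge_mem_nhds (pos_iff_ne_zero.2 hp3))).and
      (ev_small (κ := (δ * log 2 / 2) ^ 2 / 16) (by positivity) 0 2
        (G := 2 * ∑' d : ℕ, ee (-1 * d)) (ENNReal.mul_ne_top (by simp) (tsum_ee one_pos)) hp3)).and
      ((tendsto_natCast_atTop_atTop.const_mul_atTop hκ).eventually_ge_atTop
        (max 20 (max (Q * (2 * log 2)) (max (C true) (C false)))))))).exists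
  simp only [max_le_iff] at h3
  obtain ⟨a1, a2, a3, a4⟩ := h3
  set ε := δ * log 2 / 2 * (i + 2 : ℕ) with hε
  refine ⟨2 + (i + 2), e, fun h0 => ?_⟩
  have hB : Measurable fun D => ∀ n, Tr (2 + (i + 2)) e D n O :=
    Measurable.forall fun n => meas_Tr _ _ _ _
  have hH := ((CG_sum hX).incr id O).congr
    (c' := fun S T => kk S T - kk S O - kk O T + kk O O) fun S T => by simp
  have hΦ : Measurable fun y : Sq → ℝ => volume {u | ∀ n, Tr (2 + (i + 2)) e (DD Q y u) n O} :=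
    measurable_measure_prodMk_left
      (s := {p : (Sq → ℝ) × ℝ | ∀ n, Tr (2 + (i + 2)) e (DD Q p.1 p.2) n O})
      (measurableSet_setOfPred.2 (hB.comp (meas_DD Q)))
  have hc := CG_sc hh 0
  simp only [sc_zero] at hc
  rw [EV_eq hh hB, hc.lint_eq' hH hΦ] at h0
  replace h0 := (lintegral_eq_zero_iff (hΦ.comp hH.measPi)).1 h0
  have b1 := (up_prob hH hQ ε).trans (le_of_eq_of_le (by rw [hε]; congr 2; ring) h1)
  have b2 := (osc_prob (hX.comp fun p => .inr (cl O p)) 0 (fun d a b hin => by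
    rw [zero_add] at hin ⊢
    simpa only [hin.cl, hin.par.cl] using var_oscY hin) a1).trans
    (le_of_eq_of_le (by rw [hε]; congr 2; push_cast; ring) h2)
  have b3 : p0 ≤ p0 / 3 + p0 / 3 := by
    refine (he _ (CG_Z hX)).trans ((measure_mono_ae ?_).trans
      ((measure_union_le _ _).trans (add_le_add b1 b2)))
    filter_upwards [h0] with ω hω hE
    by_contra hn
    replace hn := And.intro (not_not.1 (not_or.1 hn).1) (not_not.1 (not_or.1 hn).2)
    have : volume (Icc (-20 * ε) (-11 * ε)) = 0 := by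
      refine measure_mono_null (fun u hu => ?_) hω
      intro n
      refine Inv.tr (by linarith) hQ a2 hδ (by rw [hε]; ring) (by rintro (_ | _) <;> assumption)
        ?_ (hE n)
      have w := (hE 0).1 0 (Nat.zero_le _) 0 0 (in_zero 0)
      have e0 : cl O (0, 0, 0) = O := by rw [(in_zero 0).cl, sub_zero']
      have h0 : (O.n : ℝ) = 0 := by simp [O]
      simp only [abs_le, e0, Nat.zero_max] at w
      obtain ⟨u1, u2⟩ := hu
      refine ⟨fun k => lt_trans (by linarith) (hn.1 _), ?_, ?_, fun d a b hin => ?_⟩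
      · simp only [lm, e0, h0, id]; linarith [w.1.2, w.2.2]
      · simp only [lm, e0, h0, id]; linarith [w.1.1, w.2.1]
      · refine le_of_eq_of_le ?_ (hn.2 d a b hin)
        simp only [id]
        congr 1; ring
    rw [Real.volume_Icc, ENNReal.ofReal_eq_zero] at this
    linarith
  have hf : p0 / 3 ≠ ∞ := ENNReal.div_ne_top hp1 (by simp)
  exact (ENNReal.lt_add_right (ENNReal.add_ne_top.2 ⟨hf, hf⟩) hp3).not_ge
    ((ENNReal.add_thirds p0).trans_le b3)

theorem meas_LB (c : ℝ) (r : ℕ) (S : Sq) : Measurable fun D => LB c r D S :=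
  Measurable.forall fun ρ => measurable_const.imp
    (measurableSet_setOfPred.1 (measurableSet_le measurable_const (meas_NB ρ S)))

theorem LB_sc {c : ℝ} {r : ℕ} {D : Sq → Prop} {m : ℤ} {S : Sq} :
    LB c r (D ∘ sc m) S ↔ LB c r D (sc m S) := by simp only [LB, NB_sc]

theorem lower_growth (hh : CG h P gffCov) (hQ : 0 < Q) (hQ' : Q < 2) (hQ2 : 2 ≤ Q ^ 2) :
    ∃ c > 0, ∃ r, P.prod volume (EV Q h fun D => tile D O ∧ LB c r D O) ≠ 0 := by
  have := hh.prob
  obtain ⟨J, e, hp⟩ := tree_pos hh hQ hQ' hQ2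
  refine ⟨log 2 / (2 * 2 ^ (J + e + 1)), by have := log2pos; positivity, 2 ^ (J + e + 1),
    fun h0 => hp (measure_mono_null_ae (t := ⋃ N : ℤ, EV Q h fun D => tile D ⟨N, 0, 0⟩ ∧
      LB (log 2 / (2 * 2 ^ (J + e + 1))) (2 ^ (J + e + 1)) D ⟨N, 0, 0⟩) ?_
      (measure_iUnion_null fun N => ?_))⟩
  · filter_upwards [Measure.quasiMeasurePreserving_fst.ae (ae_Gd hh hQ)] with p hG hT
    exact mem_iUnion.2 (tr_LB (hG.top' p.2) hT)
  · rw [← EV_sc hh ((meas_tile O).and (meas_LB _ _ O)) N] at h0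
    simpa only [tile_sc, LB_sc, sc_O] using h0

end Pool.Agent.Lib.MP_d1f1b2_pr
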