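import Pool.Agent.Lib.D1W.F1
import Pool.Agent.Lib.D1W.Low
import Pool.Agent.Lib.D1W.Defs2
import Pool.Agent.Lib.MP_d1f1b2_pr.Final

/-! Tight ball masses vanish. -/

open Set Filter MeasureTheory Metric ProbabilityTheory Real
open scoped ENNReal Topology

namespace Pool.Agent.Lib.MP_d1f1b2_pr

variable {Ω : Type*} {mΩ : MeasurableSpace Ω} {P : Measure Ω} {h : Sq → Ω → ℝ} {Q : ℝ}

section Graph
variable {G : SimpleGraph Sq} {D : Sq → Prop} {ρ : Sq} {a b R : ℝ}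

theorem mass_eq (ha : 0 < a) : (rescaled G ρ a b ha).ballMass R =
    ENNReal.ofReal b * ({T | G.Reachable ρ T ∧ a * G.dist T ρ ≤ R}.encard : ℝ≥0∞) := by
  have e : (rescaled G ρ a b ha).μ =
      ENNReal.ofReal b • (Measure.count : Measure (rescaled G ρ a b ha).X) := rfl
  rw [PMM.ballMass, e, Measure.smul_apply, Measure.count_apply measurableSet_closedBall,
    smul_eq_mul]
  congr 2
  refine ((Subtype.val_injective (p := fun S => G.Reachable ρ S)).encard_image _).symm.trans ?_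
  congr 1
  ext T
  exact ⟨fun ⟨U, h1, h2⟩ => h2 ▸ ⟨U.2, h1⟩, fun h1 => ⟨⟨T, h1.1⟩, h1.2, rfl⟩⟩

theorem mass_le (hG : ∀ S T, G.Adj S T ↔ adj D S T) (ha : 0 < a) {ρ' : Sq} (h2 : Rk D 2 ρ ρ')
    {k : ℕ} (hk : R ≤ a * k) :
    (rescaled G ρ a b ha).ballMass R ≤ ENNReal.ofReal b * NB D (2 + k) ρ' := by
  rw [mass_eq]
  refine mul_le_mul_right (ENat.toENNReal_le.2 (encard_le_encard fun T hT => ?_)) _
  refine h2.symm.trans ((rk_of_reach hG hT.1).mono ?_)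
  rw [SimpleGraph.dist_comm]
  exact_mod_cast le_of_mul_le_mul_left (hT.2.trans hk) ha

theorem le_mass (hG : ∀ S T, G.Adj S T ↔ adj D S T) (ha : 0 < a) {ρ' : Sq} (h2 : Rk D 2 ρ ρ')
    {k : ℕ} (hk : a * (2 + k) ≤ R) :
    ENNReal.ofReal b * NB D k ρ' ≤ (rescaled G ρ a b ha).ballMass R := by
  rw [mass_eq]
  refine mul_le_mul_right (ENat.toENNReal_le.2 (encard_le_encard fun T hT => ?_)) _
  have := (h2.trans hT).dist_le hG
  refine ⟨this.1, le_trans ?_ hk⟩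
  rw [SimpleGraph.dist_comm]
  gcongr
  exact_mod_cast this.2

theorem NB_inf (h : InfDeg D ρ) : NB D 1 ρ = ∞ := by
  have : {T | Rk D 1 ρ T}.Infinite := fun hf => by
    obtain ⟨T, h1, h2⟩ := h hf.toFinset
    exact h1 ((Finite.mem_toFinset _).2 h2.rk)
  simp [NB, this.encard_eq]

end Graph

/-- two-sided exponential growth -/
def HypG (P : Measure Ω) (Q : ℝ) : Prop := ∀ h : Sq → Ω → ℝ, CG h P gffCov →
  (∃ c > 0, ∃ r, P.prod volume (EV Q h fun D => tile D O ∧ LB c r D O) ≠ 0) ∧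
  ∃ C : ℝ, P.prod volume (EV Q h fun D => tile D O ∧ ¬ ∃ r, UB C r D O) = 0

theorem hypG (hQ : 0 < Q) (hQ2 : Q < 2) (hQ3 : 2 < Q ^ 2) : HypG P Q := fun _ hh =>
  ⟨lower_growth hh hQ hQ2 hQ3.le, EV_upper hh hQ hQ3⟩

theorem exists_CG_mk (hG : IsGaussianProcess h P) (hmean : ∀ S, ∫ ω, h S ω ∂P = 0)
    (hcov : ∀ S T, cov[h S, h T; P] = gffCov S T) :
    ∃ h' : Sq → Ω → ℝ, CG h' P gffCov ∧ ∀ᵐ ω ∂P, (fun S => h S ω) = fun S => h' S ω := by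
  have hae : ∀ S, h S =ᵐ[P] (hG.aemeasurable S).mk _ := fun S => (hG.aemeasurable S).ae_eq_mk
  refine ⟨fun S => (hG.aemeasurable S).mk _, ⟨hG.congr hae, fun S => (hG.aemeasurable S).measurable_mk,
      fun S => (integral_congr_ae (hae S)).symm.trans (hmean S), fun S T => ?_⟩, ?_⟩
  · rw [← hcov]
    unfold covariance
    rw [integral_congr_ae (hae S), integral_congr_ae (hae T)]
    refine integral_congr_ae ?_
    filter_upwards [hae S, hae T] with ω h1 h2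
    rw [h1, h2]
  · filter_upwards [ae_all_iff.2 hae] with ω hω
    exact funext hω

theorem root_ae (hQ : 0 < Q) (hQ2 : Q < 2) (hG : IsGaussianProcess h P)
    (hmean : ∀ S, ∫ ω, h S ω ∂P = 0) (hcov : ∀ S T, cov[h S, h T; P] = gffCov S T) {l : ℝ}
    {ρ : Ω → Sq} (hρ : ∀ᵐ ω ∂P, IsTile Q (exp l) (fun S => h S ω) (ρ ω) ∧ 0 ∈ (ρ ω).carrier) :
    ∀ᵐ ω ∂P, (∃ N, tile (DD Q (fun S => h S ω) l) ⟨N, 0, 0⟩) ∧ ∀ N,
      tile (DD Q (fun S => h S ω) l) ⟨N, 0, 0⟩ → Rk (DD Q (fun S => h S ω) l) 2 (ρ ω) ⟨N, 0, 0⟩ := by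
  filter_upwards [(main_prob' hG hmean hcov hQ hQ2).1, hρ] with ω hg hr
  rw [isTile_iff (exp_pos l), log_exp] at hr
  exact ⟨root_exists (hg.top' l) (hg.down l), fun N hN =>
    root_near (hg.top' l) (hg.down l) hN hr.1 hr.2⟩

theorem adj_exp (l : ℝ) (x : Sq → ℝ) (S T : Sq) :
    (tiling Q (exp l) x).Adj S T ↔ adj (DD Q x l) S T := by
  rw [tiling_adj (exp_pos l), log_exp]

theorem not_tight [IsProbabilityMeasure P] (hQ : 0 < Q) (hQ3 : Q ^ 2 < 2)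
    (hG : IsGaussianProcess h P) (hmean : ∀ S, ∫ ω, h S ω ∂P = 0)
    (hcov : ∀ S T, cov[h S, h T; P] = gffCov S T) (ρ : ℝ → Ω → Sq)
    (hρ : ∀ ε > 0, ∀ᵐ ω ∂P, IsTile Q ε (fun S => h S ω) (ρ ε ω) ∧ 0 ∈ (ρ ε ω).carrier)
    (a b : ℝ → ℝ) (ha : ∀ ε, 0 < a ε) (hb : ∀ ε, 0 < b ε) {x : ℝ} (hx : ∀ᶠ ε in 𝓝[>] 0, a ε ≤ x)
    (ht : ∀ η : ℝ≥0∞, 0 < η → ∃ K < ∞, ∀ᶠ ε in 𝓝[>] 0, P {ω | K < (rescaled
      (tiling Q ε fun S => h S ω) (ρ ε ω) (a ε) (b ε) (ha ε)).ballMass (3 * x)} ≤ η) : False := by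
  have hQ2 : Q < 2 := by nlinarith
  obtain ⟨κ, hκ0, hκ⟩ := (main_prob' hG hmean hcov hQ hQ2).2.2 hQ3
  obtain ⟨η, h0, hη⟩ := exists_between (pos_iff_ne_zero.2 hκ0)
  obtain ⟨K, hK, hK'⟩ := ht η h0
  obtain ⟨T, hT⟩ := exists_T (hK'.and hx)
  obtain ⟨l, hl, hl'⟩ := hκ T
  obtain ⟨e1, e2⟩ := hT l hl
  refine hη.not_ge (hl'.trans ((measure_mono_ae ?_).trans e1))
  filter_upwards [root_ae hQ hQ2 hG hmean hcov (hρ _ (exp_pos l))] with ω hr ⟨N, hN, hB⟩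
  refine hK.trans_le (le_trans ?_ (le_mass (adj_exp l _) (ha _) (hr.2 N hN) (k := 1)
    (by push_cast; linarith)))
  rw [NB_inf hB, ENNReal.mul_top (by simpa using hb _)]

theorem mass_zero [IsProbabilityMeasure P] (hQ : 0 < Q) (hQ2 : Q < 2) (hL : 2 ≤ Q ^ 2 → HypG P Q)
    (hG : IsGaussianProcess h P) (hmean : ∀ S, ∫ ω, h S ω ∂P = 0)
    (hcov : ∀ S T, cov[h S, h T; P] = gffCov S T) (ρ : ℝ → Ω → Sq)
    (hρ : ∀ ε > 0, ∀ᵐ ω ∂P, IsTile Q ε (fun S => h S ω) (ρ ε ω) ∧ 0 ∈ (ρ ε ω).carrier)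
    (a b : ℝ → ℝ) (ha : ∀ ε, 0 < a ε) (hb : ∀ ε, 0 < b ε) (ha0 : Tendsto a (𝓝[>] 0) (𝓝 0))
    (ht : ∀ R : ℝ, ∀ η : ℝ≥0∞, 0 < η → ∃ K < ∞, ∀ᶠ ε in 𝓝[>] 0, P {ω | K < (rescaled
      (tiling Q ε fun S => h S ω) (ρ ε ω) (a ε) (b ε) (ha ε)).ballMass R} ≤ η)
    (r : ℝ) (m η : ℝ≥0∞) (hm : 0 < m) (hη : 0 < η) :
    ∃ᶠ ε in 𝓝[>] 0, P {ω | m ≤ (rescaled
      (tiling Q ε fun S => h S ω) (ρ ε ω) (a ε) (b ε) (ha ε)).ballMass r} ≤ η := by
  rcases lt_or_ge (Q ^ 2) 2 with hQ3 | hQ3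
  · exact (not_tight hQ hQ3 hG hmean hcov ρ hρ a b ha hb (x := 1)
      (ha0.eventually (ge_mem_nhds one_pos)) (ht _)).elim
  wlog hr : 0 < r generalizing r
  · refine (this 1 one_pos).mono fun ε hε => le_trans (measure_mono fun ω hω => ?_) hε
    exact le_trans hω (measure_mono (closedBall_subset_closedBall (by linarith [not_lt.1 hr])))
  obtain ⟨h', hh, hae⟩ := exists_CG_mk hG hmean hcov
  obtain ⟨⟨c, hc, r1, hc1⟩, C, hC⟩ := hL hQ3 h' hh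
  obtain ⟨κ, hκ0, hκ⟩ := avg_two hh hQ hQ2 (B := fun D S => tile D S ∧ LB c r1 D S)
    (fun S => (meas_tile S).and (meas_LB c r1 S)) (fun m D ρ => and_congr tile_sc LB_sc)
    (fun _ _ h => h.1) hc1 hC
  obtain ⟨r2, hr2⟩ := hκ η hη.ne'
  obtain ⟨η', h0, hη'⟩ := exists_between (pos_iff_ne_zero.2 hκ0)
  obtain ⟨J, hJ⟩ := exists_nat_ge (max ((C + 1) / c) 1)
  have hJ1 : 1 ≤ J := by exact_mod_cast (le_max_right _ _).trans hJ
  have hJ2 : C + 1 ≤ J * c := (div_le_iff₀ hc).1 ((le_max_left _ _).trans hJ)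
  obtain ⟨K, hK, hK'⟩ := ht (J * r + 1) η' h0
  have t1 : Tendsto (fun ε => ⌈r / a ε⌉₊) (𝓝[>] 0) atTop := by
    refine tendsto_nat_ceil_atTop.comp ?_
    exact (tendsto_inv_nhdsGT_zero.comp (tendsto_nhdsWithin_iff.2
      ⟨ha0, .of_forall ha⟩)).const_mul_atTop hr
  have t2 : Tendsto (fun k : ℕ => K * ee (-1 * k + 0)) atTop (𝓝 0) := by
    simpa using ENNReal.Tendsto.const_mul (tendsto_ee one_pos 0) (Or.inr hK.ne)
  by_contra hcon
  rw [not_frequently] at hcon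
  obtain ⟨T, hT⟩ := exists_T (hK'.and (hcon.and ((t1.eventually ((t2.eventually
    (gt_mem_nhds hm)).and (eventually_ge_atTop (max r1 r2)))).and
      (ha0.eventually (ge_mem_nhds (show 0 < (3 * J + 2 : ℝ)⁻¹ by positivity))))))
  obtain ⟨l, hl, l1, l2⟩ := hr2 T
  obtain ⟨e1, e2, ⟨e3, e4⟩, e5⟩ := hT l hl
  set k := ⌈r / a (exp l)⌉₊ with hk
  have a0 := ha (exp l)
  have k1 : r ≤ a (exp l) * k := by rw [mul_comm, ← div_le_iff₀ a0]; exact Nat.le_ceil _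
  have k2 : a (exp l) * (2 + (J * (2 + k) : ℕ)) ≤ J * r + 1 := by
    have b1 : (k : ℝ) < r / a (exp l) + 1 := Nat.ceil_lt_add_one (by positivity)
    have b2 : a (exp l) * k ≤ r + a (exp l) := by
      have := mul_le_mul_of_nonneg_left b1.le a0.le
      rwa [mul_add, mul_div_cancel₀ _ a0.ne', mul_one] at this
    have b3 : a (exp l) * (3 * J + 2) ≤ 1 := by rwa [← le_div_iff₀ (by positivity), one_div]
    have b4 := mul_le_mul_of_nonneg_left b2 (J.cast_nonneg (α := ℝ))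
    push_cast
    nlinarith
  have hroot := root_ae hQ hQ2 hG hmean hcov (hρ _ (exp_pos l))
  have hbK : ENNReal.ofReal (b (exp l)) * ee (c * (J * (2 + k) : ℕ)) ≤ K := by
    by_contra hb'
    refine hη'.not_ge (l1.trans ((measure_mono_ae ?_).trans e1))
    filter_upwards [hroot, hae] with ω hr he ⟨N, hN⟩
    rw [← he] at hN
    refine (not_le.1 hb').trans_le (le_trans ?_ (le_mass (adj_exp l _) a0 (hr.2 N hN.1) k2))
    gcongr
    exact hN.2 _ (by have := le_max_left r1 r2; nlinarith)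
  refine e2 ((measure_mono_ae ?_).trans l2)
  filter_upwards [hroot, hae] with ω hr he hω
  obtain ⟨N, hN⟩ := hr.1
  refine ⟨N, he ▸ hN, he ▸ fun hU => ?_⟩
  refine e3.not_ge (le_trans hω ((mass_le (adj_exp l _) a0 (hr.2 N hN) k1).trans ?_))
  calc _ ≤ ENNReal.ofReal (b (exp l)) * ee (C * (2 + k : ℕ)) := by
        gcongr
        exact hU _ (by have := le_max_right r1 r2; omega)
    _ ≤ ENNReal.ofReal (b (exp l)) * (ee (c * (J * (2 + k) : ℕ)) * ee (-1 * k + 0)) := by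
        rw [← ee_add]
        gcongr
        refine ee_mono ?_
        push_cast
        nlinarith [k.cast_nonneg (α := ℝ)]
    _ ≤ _ := by rw [← mul_assoc]; gcongr

end Pool.Agent.Lib.MP_d1f1b2_pr
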