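import Pool.Agent.Lib.MP_d1f1b2_pr.Gauss

/-! Gaussian processes with a Gram covariance; equality of laws across spaces; independence. -/

open Set Filter MeasureTheory ProbabilityTheory
open scoped ENNReal RealInnerProductSpace

namespace Pool.Agent.Lib.MP_d1f1b2_pr

variable {Ω Ω' : Type*} {mΩ : MeasurableSpace Ω} {mΩ' : MeasurableSpace Ω'} {P : Measure Ω}
  {P' : Measure Ω'} {T : Type*} {X : T → Ω → ℝ} {c : T → T → ℝ}

theorem CG.charFun (h : CG X P c) (I : Finset T) (L : StrongDual ℝ (I → ℝ)) [DecidableEq T] :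
    charFunDual (P.map fun ω => I.restrict (X · ω)) L =
      Complex.exp (-((∑ k : I, ∑ l : I, L (Pi.single k 1) * L (Pi.single l 1) * c k l : ℝ) : ℂ) /
        2) := by
  have e : (fun ω => L (I.restrict (X · ω))) = fun ω => ∑ k : I, L (Pi.single k 1) * X k ω := by
    ext ω
    conv_lhs => rw [pi_eq_sum_univ' (I.restrict (X · ω))]
    simp [mul_comm]
  have hl := h.lin (ι := Unit) (fun _ (k : I) => k.1) (fun _ k => L (Pi.single k 1))
  rw [(h.gauss.hasGaussianLaw I).charFunDual_map_eq_fun, e, hl.mean (),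
    ← covariance_self (hl.meas ()).aemeasurable, hl.cov () ()]
  simp [neg_div]

theorem CG.law_eq' {Y : T → Ω' → ℝ} (h : CG X P c) (h' : CG Y P' c) :
    P.map (fun ω t => X t ω) = P'.map (fun ω t => Y t ω) := by
  classical
  have := h.prob
  have := h'.prob
  have h1 := isProjectiveLimit_map (P := P) h.measPi.aemeasurable
  have h2 := isProjectiveLimit_map (P := P') h'.measPi.aemeasurable
  have e : (fun I : Finset T => P.map fun ω => I.restrict (X · ω)) =
      fun I : Finset T => P'.map fun ω => I.restrict (Y · ω) := by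
    funext I
    have := (h.gauss.hasGaussianLaw I).isGaussian_map
    have := (h'.gauss.hasGaussianLaw I).isGaussian_map
    apply Measure.ext_of_charFunDual
    ext L
    rw [h.charFun, h'.charFun]
  rw [← e] at h2
  exact h1.unique h2

theorem CG.prob_eq' {Y : T → Ω' → ℝ} (h : CG X P c) (h' : CG Y P' c) {B : (T → ℝ) → Prop}
    (hB : Measurable B) : P {ω | B fun t => X t ω} = P' {ω | B fun t => Y t ω} := by
  have hB' : MeasurableSet {x | B x} := measurableSet_setOfPred.2 hB
  have h1 := Measure.map_apply (μ := P) h.measPi hB'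
  have h2 := Measure.map_apply (μ := P') h'.measPi hB'
  rw [h.law_eq' h'] at h1
  exact h1.symm.trans h2

theorem CG.lint_eq' {Y : T → Ω' → ℝ} (h : CG X P c) (h' : CG Y P' c) {F : (T → ℝ) → ℝ≥0∞}
    (hF : Measurable F) : ∫⁻ ω, F (fun t => X t ω) ∂P = ∫⁻ ω, F (fun t => Y t ω) ∂P' := by
  rw [← lintegral_map hF h.measPi, ← lintegral_map hF h'.measPi, h.law_eq' h']

theorem CG.comp {ι : Type*} (h : CG X P c) (f : ι → T) :
    CG (fun i => X (f i)) P fun i j => c (f i) (f j) :=
  ⟨h.gauss.comp_right f, fun _ => h.meas _, fun _ => h.mean _, fun _ _ => h.cov _ _⟩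

theorem CG.congr {c' : T → T → ℝ} (h : CG X P c) (e : ∀ s t, c s t = c' s t) : CG X P c' :=
  ⟨h.gauss, h.meas, h.mean, fun s t => (h.cov s t).trans (e s t)⟩

theorem CG.linF {ι : Type*} (h : CG X P c) (s : ι → Finset T) (w : ι → T → ℝ) :
    CG (fun i ω => ∑ k ∈ s i, w i k * X k ω) P
      fun i j => ∑ k ∈ s i, ∑ l ∈ s j, w i k * w j l * c k l := by
  classical
  have := h.prob
  refine ⟨h.gauss.of_isGaussianProcess fun i => ⟨s i,
    ∑ k : s i, w i k • ContinuousLinearMap.proj (R := ℝ) (φ := fun _ : s i => ℝ) k, fun ω => ?_⟩,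
    fun i => Finset.measurable_sum _ fun k _ => (h.meas _).const_mul _, fun i => ?_, fun i j => ?_⟩
  · rw [← Finset.sum_coe_sort]
    simp
  · rw [integral_finsetSum _ fun k _ => ((h.l2 _).integrable one_le_two).const_mul _]
    simp [integral_const_mul, h.mean]
  · simp only [← Finset.sum_coe_sort (s i), ← Finset.sum_coe_sort (s j)]
    rw [covariance_fun_sum_fun_sum (fun k => (h.l2 _).const_mul _) (fun k => (h.l2 _).const_mul _)]
    simp only [covariance_const_mul_left, covariance_const_mul_right, h.cov]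
    exact Finset.sum_congr rfl fun _ _ => Finset.sum_congr rfl fun _ _ => by ring

/-- Two uncorrelated subfamilies are independent. -/
theorem CG.indep {ι κ : Type*} (h : CG X P c) (f : ι → T) (g : κ → T)
    (h0 : ∀ i k, c (f i) (g k) = 0) :
    IndepFun (fun ω i => X (f i) ω) (fun ω k => X (g k) ω) P := by
  have h1 := h.comp (Sum.elim f g)
  have e : (fun i => X (Sum.elim f g i)) = Sum.elim (fun i => X (f i)) fun k => X (g k) := by
    funext i; cases i <;> rfl
  rw [e] at h1
  exact h1.gauss.indepFun_of_covariance_eq_zero (fun _ => (h.meas _).aemeasurable)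
    (fun _ => (h.meas _).aemeasurable) fun i k => (h.cov _ _).trans (h0 i k)

/-- Pairwise uncorrelated subfamilies are independent. -/
theorem CG.iIndep {ι κ : Type*} (h : CG X P c) (f : ι → κ → T)
    (h0 : ∀ i j, i ≠ j → ∀ k l, c (f i k) (f j l) = 0) :
    iIndepFun (fun i ω k => X (f i k) ω) P :=
  IsGaussianProcess.iIndepFun_of_covariance_eq_zero (X := fun i k => X (f i k))
    (h.comp fun p : (_ : ι) × κ => f p.1 p.2).gauss (fun _ _ => (h.meas _).aemeasurable)
    fun i j hij k l => (h.cov _ _).trans (h0 i j hij k l)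

/-- The law of a sequence of independent standard Gaussian variables. -/
noncomputable def PW : Measure (ℕ → ℝ) := Measure.infinitePi fun _ => gaussianReal 0 1

theorem CG_coord : CG (fun (k : ℕ) (ω : ℕ → ℝ) => ω k) PW fun k l => if k = l then 1 else 0 := by
  have hi : iIndepFun (fun (k : ℕ) (ω : ℕ → ℝ) => ω k) PW :=
    iIndepFun_infinitePi (X := fun _ x => x) fun _ => measurable_id
  have := hi.isProbabilityMeasure
  have hm : ∀ k, PW.map (fun ω => ω k) = gaussianReal 0 1 := fun k =>
    Measure.infinitePi_map_eval _ k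
  have hg : ∀ k, HasGaussianLaw (fun ω : ℕ → ℝ => ω k) PW := fun k =>
    ⟨by rw [hm]; infer_instance⟩
  have h0 : ∀ k, ∫ ω, ω k ∂PW = 0 := fun k => by
    have := integral_map (μ := PW) (φ := fun ω : ℕ → ℝ => ω k) (f := fun x : ℝ => x)
      (measurable_pi_apply k).aemeasurable (by fun_prop)
    rw [← this, hm, integral_id_gaussianReal]
  refine ⟨⟨fun I => iIndepFun.hasGaussianLaw (X := fun (k : I) (ω : ℕ → ℝ) => ω k)
    (fun k => hg k) (hi.precomp Subtype.val_injective)⟩, measurable_pi_apply, h0, fun k l => ?_⟩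
  split_ifs with hkl
  · subst hkl
    rw [covariance_self (measurable_pi_apply k).aemeasurable]
    have := variance_map (μ := PW) (X := fun x : ℝ => x) (Y := fun ω : ℕ → ℝ => ω k)
      (by fun_prop) (measurable_pi_apply k).aemeasurable
    rw [hm, variance_fun_id_gaussianReal] at this
    simpa [Function.comp_def] using this.symm
  · exact (hi.indepFun hkl).covariance_eq_zero (hg k).memLp_two (hg l).memLp_two

/-- A Gaussian process with the Gram covariance of a countable family of vectors. -/
theorem exists_CG_gram {H : Type*} [NormedAddCommGroup H] [InnerProductSpace ℝ H] [Countable T]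
    (f : T → H) : ∃ X : T → (ℕ → ℝ) → ℝ, CG X PW fun s t => ⟪f s, f t⟫ := by
  classical
  obtain ⟨e, he⟩ := exists_injective_nat T
  set g : ℕ → H := Function.extend e f 0 with hg
  set b : ℕ → H := InnerProductSpace.gramSchmidtNormed ℝ g with hb
  have ho : ∀ k l, k ≠ l → ⟪b k, b l⟫ = 0 := fun k l hkl => by
    simp [hb, InnerProductSpace.gramSchmidtNormed, inner_smul_left, inner_smul_right,
      InnerProductSpace.gramSchmidt_orthogonal ℝ g hkl]
  have hs : ∀ k, ⟪b k, b k⟫ • b k = b k := fun k => by
    by_cases h0 : b k = 0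
    · simp [h0]
    · rw [real_inner_self_eq_norm_sq, InnerProductSpace.gramSchmidtNormed_unit_length' h0]; simp
  have hx : ∀ n, ∑ k ∈ Finset.Iic n, ⟪b k, g n⟫ • b k = g n := fun n => by
    have hm : g n ∈ Submodule.span ℝ (b '' Iic n) := by
      rw [hb, InnerProductSpace.span_gramSchmidtNormed]
      exact InnerProductSpace.mem_span_gramSchmidt ℝ g le_rfl
    generalize g n = v at hm
    induction hm using Submodule.span_induction with
    | mem v hv =>
      obtain ⟨j, hj, rfl⟩ := hv
      rw [Finset.sum_eq_single j (fun k _ hk => by rw [ho k j hk, zero_smul])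
        (fun h => absurd (Finset.mem_Iic.2 hj) h), hs]
    | zero => simp
    | add u v _ _ hu hv => simp only [inner_add_right, add_smul, Finset.sum_add_distrib, hu, hv]
    | smul a v _ hv =>
      simp only [real_inner_smul_right, mul_smul, ← Finset.smul_sum, hv]
  refine ⟨_, (CG_coord.linF (fun t => Finset.Iic (e t)) fun t k => ⟪b k, g (e t)⟫).congr ?_⟩
  intro s t
  have e1 : ∀ t, f t = g (e t) := fun t => (he.extend_apply f 0 t).symm
  rw [e1 s, e1 t]
  conv_rhs => rw [← hx (e s), ← hx (e t), sum_inner]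
  refine Finset.sum_congr rfl fun k _ => ?_
  rw [inner_sum]
  refine Finset.sum_congr rfl fun l _ => ?_
  split_ifs with hkl
  · subst hkl
    rw [real_inner_smul_left, ← hs k, smul_smul]
    by_cases h0 : b k = 0
    · simp [h0]
    · simp [real_inner_smul_right, InnerProductSpace.gramSchmidtNormed_unit_length' h0, hb]
  · rw [real_inner_smul_left, real_inner_smul_right, ho k l hkl]; simp

end Pool.Agent.Lib.MP_d1f1b2_pr
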