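import Pool.Agent.Lib.D1W.Bd

/-! The self-similar field of small scales and its layers. -/

open Set Filter MeasureTheory ProbabilityTheory Real Metric

namespace Pool.Agent.Lib.MP_d1f1b2_pr

/-- A square below the reference square and a scale. -/
abbrev Ix := (ℕ × ℤ × ℤ) × ℕ

/-- The square below `W` with reduced coordinates. -/
def cl (W : Sq) (p : ℕ × ℤ × ℤ) : Sq := sub W p.1 (p.2.1 % 2 ^ p.1) (p.2.2 % 2 ^ p.1)

/-- Indices relative to the subsquare `c`. -/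
def ch (c : ℕ × ℤ × ℤ) (i : Ix) : Ix :=
  ((c.1 + i.1.1, c.2.1 * 2 ^ i.1.1 + i.1.2.1 % 2 ^ i.1.1, c.2.2 * 2 ^ i.1.1 + i.1.2.2 % 2 ^ i.1.1),
    c.1 + i.2)

/-- The covariance of the field of small scales. -/
noncomputable def cZ (i i' : Ix) : ℝ := kap (cl O i.1) (cl O i'.1) ((max i.2 i'.2 : ℕ) * log 2)

theorem in_mod (m : ℕ) (a b : ℤ) : In m (a % 2 ^ m) (b % 2 ^ m) :=
  ⟨Int.emod_nonneg _ (p2pos m).ne', Int.emod_lt_of_pos _ (p2pos m),
    Int.emod_nonneg _ (p2pos m).ne', Int.emod_lt_of_pos _ (p2pos m)⟩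

theorem In.mod {m : ℕ} {a b : ℤ} (h : In m a b) : a % 2 ^ m = a ∧ b % 2 ^ m = b :=
  ⟨Int.emod_eq_of_lt h.1 h.2.1, Int.emod_eq_of_lt h.2.2.1 h.2.2.2⟩

theorem In.cl {m : ℕ} {a b : ℤ} (h : In m a b) (W : Sq) : cl W (m, a, b) = sub W m a b := by
  simp only [MP_d1f1b2_pr.cl, h.mod.1, h.mod.2]

theorem In.cat {m k : ℕ} {a b a' b' : ℤ} (h : In m a b) (h' : In k a' b') :
    In (m + k) (a * 2 ^ k + a') (b * 2 ^ k + b') := by
  obtain ⟨a1, a2, a3, a4⟩ := h
  obtain ⟨b1, b2, b3, b4⟩ := h'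
  have hp := p2pos k
  have e1 := mul_le_mul_of_nonneg_right (Int.add_one_le_of_lt a2) hp.le
  have e2 := mul_le_mul_of_nonneg_right (Int.add_one_le_of_lt a4) hp.le
  refine ⟨by positivity, ?_, by positivity, ?_⟩ <;> rw [pow_add] <;> linarith

theorem In.ch {m : ℕ} {a b : ℤ} (h : In m a b) (c : ℕ × ℤ × ℤ) (t : ℕ) :
    ch c ((m, a, b), t) = ((c.1 + m, c.2.1 * 2 ^ m + a, c.2.2 * 2 ^ m + b), c.1 + t) := by
  simp only [MP_d1f1b2_pr.ch, h.mod.1, h.mod.2]

theorem cl_ch {m : ℕ} {a b : ℤ} (h : In m a b) (W : Sq) (i : Ix) :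
    cl W (ch (m, a, b) i).1 = cl (sub W m a b) i.1 := by
  rw [ch, (h.cat (in_mod _ _ _)).cl, cl, sub_sub']

theorem ch_ch {m : ℕ} {a b : ℤ} (h : In m a b) (c : ℕ × ℤ × ℤ) (i : Ix) :
    ch c (ch (m, a, b) i) = ch (c.1 + m, c.2.1 * 2 ^ m + a, c.2.2 * 2 ^ m + b) i := by
  rw [ch.eq_1 (m, a, b), (h.cat (in_mod _ _ _)).ch]
  simp only [ch, Prod.mk.injEq, pow_add]
  refine ⟨⟨by ring, by ring, by ring⟩, by ring⟩

theorem cl_subset (W : Sq) (p : ℕ × ℤ × ℤ) : (cl W p).carrier ⊆ W.carrier := by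
  have := carrier_sub_anc (cl W p) p.1
  rwa [cl, anc_sub_self _ (in_mod _ _ _)] at this

theorem cZ_ch {m : ℕ} {a b : ℤ} (h : In m a b) (i i' : Ix) :
    cZ (ch (m, a, b) i) (ch (m, a, b) i') = cZ i i' := by
  rw [cZ, cl_ch h, cl_ch h, cZ]
  simp only [cl]
  rw [← kap_sub (sub O m a b), sub_O_n]
  congr 1
  simp only [ch, Nat.add_max_add_left]
  push_cast; ring

theorem cZ_sep {m : ℕ} {a b a' b' : ℤ} (h : In m a b) (h' : In m a' b')
    (hs : 3 ≤ |a - a'| ∨ 3 ≤ |b - b'|) (i i' : Ix) :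
    cZ (ch (m, a, b) i) (ch (m, a', b') i') = 0 := by
  rw [cZ, cl_ch h, cl_ch h']
  refine kap_zero (fun θ θ' => sep_dist (S := sub O m a b) (T := sub O m a' b') (d := 2) rfl
    (cl_subset _ _ (cv_mem _ θ)) (cl_subset _ _ (cv_mem _ θ')) (by simpa [sub, O] using hs)) ?_
  have h1 := side_exp (sub O m a b)
  have h2 : exp ((sub O m a b).n * log 2) ≤
      exp ((max (ch (m, a, b) i).2 (ch (m, a', b') i').2 : ℕ) * log 2) := by
    rw [sub_O_n, Int.cast_natCast]
    have : m ≤ max (ch (m, a, b) i).2 (ch (m, a', b') i').2 := le_max_of_le_left (Nat.le_add_right _ _)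
    have := (log_pos one_lt_two).le
    gcongr
  have := mul_le_mul_of_nonneg_left h2 (side_pos (sub O m a b)).le
  push_cast at *
  linarith

variable {Ω : Type*} {mΩ : MeasurableSpace Ω} {P : Measure Ω} {Z : Ix → Ω → ℝ}

theorem CG_Z {X : (Sq × ℕ) ⊕ Sq → Ω → ℝ} (h : CG X P cW) :
    CG (fun i : Ix => X (.inl (cl O i.1, i.2))) P cZ := h.comp _

theorem CG_ch (h : CG Z P cZ) {m : ℕ} {a b : ℤ} (hin : In m a b) :
    CG (fun i => Z (ch (m, a, b) i)) P cZ := (h.comp _).congr (cZ_ch hin)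

theorem CG.dif {T ι : Type*} {X : T → Ω → ℝ} {c : T → T → ℝ} (h : CG X P c) (f g : ι → T) :
    CG (fun i ω => X (f i) ω - X (g i) ω) P fun i j =>
      c (f i) (f j) - c (f i) (g j) - c (g i) (f j) + c (g i) (g j) := by
  simpa using h.comb f (fun _ => 1) g

/-- The covariance of a layer. -/
noncomputable def cL (u : ℕ × ℤ × ℤ → ℕ) (p q : ℕ × ℤ × ℤ) : ℝ :=
  ik (cl O p) (cl O q) ((min (u p) (u q) : ℕ) * log 2)

theorem CG_lay (h : CG Z P cZ) (u : ℕ × ℤ × ℤ → ℕ) :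
    CG (fun p ω => Z (p, 0) ω - Z (p, u p) ω) P (cL u) := by
  refine (h.dif (fun p => (p, 0)) fun p => (p, u p)).congr fun p q => ?_
  simp only [cZ, cL, ik, max_self, Nat.zero_max, Nat.max_zero, Nat.cast_zero, zero_mul]
  rcases le_total (u p) (u q) with h | h
  · rw [max_eq_right h, min_eq_left h]; ring
  · rw [max_eq_left h, min_eq_right h]; ring

/-- A layer is independent of the smaller scales. -/
theorem indep_lay (h : CG Z P cZ) (u : ℕ × ℤ × ℤ → ℕ) {κ : Type*} (g : κ → Ix)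
    (hu : ∀ p k, u p ≤ (g k).2) :
    IndepFun (fun ω p => Z (p, 0) ω - Z (p, u p) ω) (fun ω k => Z (g k) ω) P := by
  have h1 := h.comb (ι := (ℕ × ℤ × ℤ) ⊕ κ) (Sum.elim (fun p => (p, 0)) g)
    (Sum.elim (fun _ => 1) fun _ => 0) (Sum.elim (fun p => (p, u p)) g)
  have h2 := h1.indep Sum.inl Sum.inr fun p k => by
    simp [cZ, hu p k]
  simpa using h2

theorem nat_log_nonneg (m : ℕ) : 0 ≤ (m : ℝ) * log 2 :=
  mul_nonneg m.cast_nonneg (log_nonneg one_le_two)

theorem var_lay (u : ℕ × ℤ × ℤ → ℕ) (p : ℕ × ℤ × ℤ) : cL u p p ≤ u p * log 2 := by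
  rw [cL, min_self]; exact ik_le _ _ (nat_log_nonneg _)

theorem var_fine {p : ℕ × ℤ × ℤ} {t : ℕ} (h : p.1 ≤ t) : cZ (p, t) (p, t) ≤ 2 * log 2 := by
  have := kap_self_le (cl O p) (m := t * log 2) le_rfl (by
    rw [cl, sub_O_n, Int.cast_natCast, add_zero]
    have := (log_pos one_lt_two).le
    gcongr)
  simpa [cZ] using this

theorem var_all (p : ℕ × ℤ × ℤ) : cZ (p, 0) (p, 0) ≤ p.1 * log 2 + 2 * log 2 := by
  have := kap_self_le (cl O p) (m := 0) (nat_log_nonneg p.1) (by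
    rw [cl, sub_O_n, Int.cast_natCast, zero_add])
  simpa [cZ] using this

theorem dist_par {d : ℕ} {a b : ℤ} (h : In (d + 1) a b) (θ θ' : ℝ) :
    ‖(cv (sub O (d + 1) a b)).p θ - (cv (sub O d (a / 2) (b / 2))).p θ'‖ ≤ 2 * (1 / 2) ^ d := by
  have h1 := carrier_sub_anc (sub O (d + 1) a b) 1 (cv_mem _ θ)
  rw [anc_sub _ (by omega)] at h1
  have h2 := side_sub O d (a / 2) (b / 2)
  rw [side_O] at h2
  have h3 : (sub O d (a / 2) (b / 2)).side = (1 / 2) ^ d := by
    rw [one_div, inv_pow]; exact eq_inv_of_mul_eq_one_right h2.symm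
  rw [← h3]
  exact dist_in (by simpa using h1) (cv_mem _ θ')

theorem In.par {d : ℕ} {a b : ℤ} (h : In (d + 1) a b) : In d (a / 2) (b / 2) := by
  simpa using h.div (k := 1) (by omega)

theorem var_osc (J : ℕ) {d : ℕ} {a b : ℤ} (h : In (J + d + 1) a b) :
    cL (fun _ => J) (J + d + 1, a, b) (J + d + 1, a, b) -
      cL (fun _ => J) (J + d + 1, a, b) (J + d, a / 2, b / 2) -
      cL (fun _ => J) (J + d, a / 2, b / 2) (J + d + 1, a, b) +
      cL (fun _ => J) (J + d, a / 2, b / 2) (J + d, a / 2, b / 2) ≤ 8 * (1 / 2) ^ d := by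
  have h1 := var_lay (fun _ => J) (J + d + 1, a, b)
  have h2 := var_lay (fun _ => J) (J + d, a / 2, b / 2)
  have h3 := le_ik (dist_par h) (nat_log_nonneg J)
  have h4 := le_ik (fun θ θ' => (norm_sub_rev _ _).trans_le (dist_par h θ' θ)) (nat_log_nonneg J)
  have e : (1 / 2 : ℝ) ^ (J + d) * exp (J * log 2) = (1 / 2) ^ d := by
    rw [exp_nat_mul, exp_log two_pos, pow_add, mul_right_comm, ← mul_pow]; norm_num
  simp only [cL, min_self, h.cl, h.par.cl] at *
  linarith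

theorem var_oscY {d : ℕ} {a b : ℤ} (h : In (d + 1) a b) :
    cW (.inr (sub O (d + 1) a b)) (.inr (sub O (d + 1) a b)) -
      cW (.inr (sub O (d + 1) a b)) (.inr (sub O d (a / 2) (b / 2))) -
      cW (.inr (sub O d (a / 2) (b / 2))) (.inr (sub O (d + 1) a b)) +
      cW (.inr (sub O d (a / 2) (b / 2))) (.inr (sub O d (a / 2) (b / 2))) ≤ 8 * (1 / 2) ^ d := by
  have h1 := tau_le (dist_par h)
  have h2 := tau_nonneg (sub O (d + 1) a b) (sub O (d + 1) a b)
  have h3 := tau_nonneg (sub O d (a / 2) (b / 2)) (sub O d (a / 2) (b / 2))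
  simp only [cW, tau_symm (sub O d (a / 2) (b / 2)) (sub O (d + 1) a b)]
  linarith

theorem side_exp' (m : ℕ) (a b : ℤ) : (sub O m a b).side * exp (m * log 2) = 1 := by
  simpa only [sub_O_n, Int.cast_natCast] using side_exp (sub O m a b)

theorem L2 {m k : ℕ} {a b a' b' : ℤ} (h : In m a b) (h' : In m a' b') (hk : k ≤ m)
    (hs : k = 0 ∨ 2 ^ k ≤ 2 * |a - a'| ∨ 2 ^ k ≤ 2 * |b - b'|) :
    cL (fun p => min p.1 m) (m, a, b) (m, a', b') ≤ (m - k : ℕ) * log 2 + 10 := by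
  have hL := log_pos one_lt_two
  have hL1 := Real.log_two_lt_d9
  simp only [cL, min_self, h.cl, h'.cl]
  rcases le_or_gt k 2 with hk2 | hk2
  · have := ik_le (sub O m a b) (sub O m a' b') (nat_log_nonneg m)
    have h2 : (k : ℝ) ≤ 2 := by exact_mod_cast hk2
    push_cast [Nat.cast_sub hk]
    nlinarith
  · obtain ⟨k, rfl⟩ := Nat.exists_eq_add_of_le' hk2.le
    have hp := p2pos k
    have := ik_le_of_sep (S := sub O m a b) (T := sub O m a' b') (m := (m - (k + 2) + 3 : ℕ) * log 2)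
      (fun θ θ' => sep_dist (S := sub O m a b) (T := sub O m a' b') (d := 2 ^ k) rfl (cv_mem _ θ)
        (cv_mem _ θ') (by
          simp only [sub, O, zero_mul, zero_add]
          rw [pow_add] at hs
          omega)) (by
        have e := side_exp' m a b
        obtain ⟨r, rfl⟩ := Nat.exists_eq_add_of_le hk
        rw [Nat.add_sub_cancel_left]
        rw [exp_nat_mul, exp_log two_pos] at e ⊢
        push_cast
        rw [pow_add, pow_add] at e
        rw [pow_add]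
        linarith) (nat_log_nonneg _) (m * log 2)
    push_cast at this ⊢
    linarith

theorem L3 {m k : ℕ} {a b a' b' : ℤ} (h : In m a b) (h' : In m a' b') (hk : k ≤ m)
    (ha : |a - a'| ≤ 2 ^ k) (hb : |b - b'| ≤ 2 ^ k) :
    (m - k : ℕ) * log 2 - 10 ≤
      cL (fun p => min p.1 m) (m - k, a / 2 ^ k, b / 2 ^ k) (m, a', b') := by
  simp only [cL, min_self, (h.div hk).cl, h'.cl, min_eq_left (Nat.sub_le m k)]
  have hs0 := side_pos (sub O m a b)
  obtain ⟨c1, c2⟩ := center_diff m a b a' b'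
  have e1 := norm_center_anc (sub O m a b) k
  have e2 : ‖(sub O m a b).center - (sub O m a' b').center‖ ≤ 2 * (anc (sub O m a b) k).side := by
    refine (Complex.norm_le_abs_re_add_abs_im _).trans ?_
    rw [c1, c2, abs_mul, abs_mul, abs_of_pos hs0, side_anc]
    have : |(a : ℝ) - a'| ≤ 2 ^ k := by exact_mod_cast ha
    have : |(b : ℝ) - b'| ≤ 2 ^ k := by exact_mod_cast hb
    nlinarith
  have e3 := side_le_anc (sub O m a b) k
  rw [anc_sub _ hk] at e1 e2 e3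
  have h3 := le_ik (S := sub O (m - k) (a / 2 ^ k) (b / 2 ^ k)) (T := sub O m a' b')
    (D := 5 * (sub O (m - k) (a / 2 ^ k) (b / 2 ^ k)).side) (fun θ θ' => by
      have f1 := norm_sub_center (cv_mem (sub O (m - k) (a / 2 ^ k) (b / 2 ^ k)) θ)
      have f2 := norm_sub_center (cv_mem (sub O m a' b') θ')
      have f3 : (sub O m a' b').side = (sub O m a b).side := rfl
      rw [norm_sub_rev] at e1 f2
      have g1 := norm_sub_le_norm_sub_add_norm_sub
        ((cv (sub O (m - k) (a / 2 ^ k) (b / 2 ^ k))).p θ)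
        (sub O (m - k) (a / 2 ^ k) (b / 2 ^ k)).center ((cv (sub O m a' b')).p θ')
      have g2 := norm_sub_le_norm_sub_add_norm_sub (sub O (m - k) (a / 2 ^ k) (b / 2 ^ k)).center
        (sub O m a b).center ((cv (sub O m a' b')).p θ')
      have g3 := norm_sub_le_norm_sub_add_norm_sub (sub O m a b).center
        (sub O m a' b').center ((cv (sub O m a' b')).p θ')
      linarith) (nat_log_nonneg (m - k))
  have e4 := side_exp' (m - k) (a / 2 ^ k) (b / 2 ^ k)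
  linarith

end Pool.Agent.Lib.MP_d1f1b2_pr
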