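import Mathlib

/-! The overlap of two discs and the logarithm as a superposition of overlaps. -/

open Set Filter MeasureTheory Real Metric

namespace Pool.Agent.Lib.MP_d1f1b2_pr

/-- Relative area of the overlap of two unit discs whose centres are at distance `u`. -/
noncomputable def ov (u : ℝ) : ℝ := volume.real (ball (0 : ℂ) 1 ∩ ball (u : ℂ) 1) / π

theorem vol_ball (z : ℂ) {r : ℝ} (hr : 0 ≤ r) : volume.real (ball z r) = r ^ 2 * π := by
  simp [Measure.real, Complex.volume_ball, hr]

theorem ov_nonneg (u : ℝ) : 0 ≤ ov u := div_nonneg measureReal_nonneg pi_pos.le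

theorem ov_le_one (u : ℝ) : ov u ≤ 1 := by
  rw [ov, div_le_one pi_pos]
  have := measureReal_mono (μ := volume) (inter_subset_left (s := ball (0 : ℂ) 1)
    (t := ball (u : ℂ) 1)) measure_ball_lt_top.ne
  rwa [vol_ball _ zero_le_one, one_pow, one_mul] at this

theorem ov_zero {u : ℝ} (h : 2 ≤ u) : ov u = 0 := by
  have : ball (0 : ℂ) 1 ∩ ball (u : ℂ) 1 = ∅ :=
    disjoint_iff_inter_eq_empty.1 (ball_disjoint_ball (by
      rw [dist_zero_left, Complex.norm_real, Real.norm_eq_abs, abs_of_nonneg (by linarith)]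
      linarith))
  simp [ov, this]

theorem one_sub_ov {u : ℝ} (h : 0 ≤ u) : 1 - ov u ≤ 2 * u := by
  rcases le_total 1 u with h1 | h1
  · linarith [ov_nonneg u]
  have hs : ball (0 : ℂ) (1 - u) ⊆ ball (0 : ℂ) 1 ∩ ball (u : ℂ) 1 :=
    subset_inter (ball_subset_ball (by linarith)) (ball_subset_ball' (by
      rw [dist_zero_left, Complex.norm_real, Real.norm_eq_abs, abs_of_nonneg h]; linarith))
  have := measureReal_mono (μ := volume) hs
    ((measure_mono inter_subset_left).trans_lt measure_ball_lt_top).ne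
  rw [vol_ball _ (by linarith)] at this
  have h2 : (1 - u) ^ 2 ≤ ov u := by rwa [ov, le_div_iff₀ pi_pos]
  nlinarith

@[fun_prop] theorem meas_ov : Measurable ov := by
  have h : MeasurableSet {p : ℝ × ℂ | p.2 ∈ ball (0 : ℂ) 1 ∧ dist p.2 (p.1 : ℂ) < 1} :=
    (measurable_snd measurableSet_ball).inter (measurableSet_lt
      (by fun_prop : Continuous fun p : ℝ × ℂ => dist p.2 (p.1 : ℂ)).measurable measurable_const)
  exact (measurable_measure_prodMk_left (ν := volume) h).ennreal_toReal.div_const _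

theorem vol_inter (z w : ℂ) {t : ℝ} (ht : 0 < t) :
    volume.real (ball z t ∩ ball w t) = t ^ 2 * π * ov (‖z - w‖ / t) := by
  obtain ⟨c, hc, hw⟩ : ∃ c : ℂ, ‖c‖ = t ∧ w - z = c * (‖z - w‖ / t : ℝ) := by
    by_cases h : z = w
    · exact ⟨t, by simp [ht.le], by simp [h]⟩
    · have h0 : ‖z - w‖ ≠ 0 := norm_ne_zero_iff.2 (sub_ne_zero.2 h)
      refine ⟨(w - z) * (t / ‖z - w‖ : ℝ), ?_, ?_⟩
      · rw [norm_mul, Complex.norm_real, norm_sub_rev w, Real.norm_eq_abs,
          abs_of_nonneg (by positivity)]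
        field_simp
      · rw [mul_assoc, ← Complex.ofReal_mul, show t / ‖z - w‖ * (‖z - w‖ / t) = 1 by field_simp]
        simp
  have hd : LinearMap.det (LinearMap.mul ℝ ℂ c) = t ^ 2 := by
    rw [← hc, ← Complex.normSq_eq_norm_sq, ← Algebra.norm_complex_apply, Algebra.norm_apply]
    rfl
  have h1 := Measure.addHaar_preimage_linearMap volume (f := LinearMap.mul ℝ ℂ c)
    (by rw [hd]; positivity) ((z + ·) ⁻¹' (ball z t ∩ ball w t))
  have h2 : LinearMap.mul ℝ ℂ c ⁻¹' ((z + ·) ⁻¹' (ball z t ∩ ball w t)) =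
      ball (0 : ℂ) 1 ∩ ball ((‖z - w‖ / t : ℝ) : ℂ) 1 := by
    ext x
    have e : z + c * x - w = c * (x - (‖z - w‖ / t : ℝ)) := by rw [mul_sub, ← hw]; ring
    simp only [mem_preimage, LinearMap.mul_apply', mem_inter_iff, mem_ball, dist_eq_norm,
      add_sub_cancel_left, e, norm_mul, hc, sub_zero, mul_lt_iff_lt_one_right ht]
  rw [h2, measure_preimage_add, hd] at h1
  rw [ov, Measure.real, Measure.real, h1, ENNReal.toReal_mul,
    ENNReal.toReal_ofReal (abs_nonneg _), abs_of_nonneg (by positivity)]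
  field_simp

theorem intOn_ov {r : ℝ} (hr : 0 < r) (m : ℝ) : IntegrableOn (fun s => ov (r * exp s)) (Ioi m) := by
  have h : IntegrableOn (fun s => ov (r * exp s)) (Ioc m (log (2 / r))) :=
    Measure.integrableOn_of_bounded (M := 1) measure_Ioc_lt_top.ne
      (by fun_prop : Measurable _).aestronglyMeasurable (Eventually.of_forall fun s => by
        rw [Real.norm_eq_abs, abs_of_nonneg (ov_nonneg _)]; exact ov_le_one _)
  refine h.of_forall_sdiff_eq_zero measurableSet_Ioi fun s hs => ov_zero ?_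
  have h1 : log (2 / r) < s := by
    by_contra h2
    exact hs.2 ⟨hs.1, not_lt.1 h2⟩
  rw [log_lt_iff_lt_exp (by positivity), div_lt_iff₀ hr] at h1
  linarith

theorem intOn_one_sub {r : ℝ} (hr : 0 ≤ r) (m : ℝ) :
    IntegrableOn (fun s => 1 - ov (r * exp s)) (Iic m) := by
  refine Integrable.mono' ((integrableOn_exp_Iic m).const_mul (2 * r))
    (by fun_prop : Measurable _).aestronglyMeasurable (Eventually.of_forall fun s => ?_)
  rw [Real.norm_eq_abs, abs_of_nonneg (sub_nonneg.2 (ov_le_one _)), mul_assoc]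
  exact one_sub_ov (by positivity)

/-- The additive constant in the superposition formula. -/
noncomputable def c0 : ℝ := (∫ s in Ioi 0, ov (exp s)) - ∫ s in Iic 0, (1 - ov (exp s))

theorem log_eq {r : ℝ} (hr : 0 < r) :
    (∫ s in Ioi 0, ov (r * exp s)) - ∫ s in Iic 0, (1 - ov (r * exp s)) = -log r + c0 := by
  have e : ∀ s, r * exp s = exp (s + log r) := fun s => by rw [exp_add, exp_log hr, mul_comm]
  have i1 : ∀ m, IntegrableOn (fun s => ov (exp s)) (Ioi m) := fun m => by
    simpa using intOn_ov one_pos m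
  have i2 : ∀ m, IntegrableOn (fun s => 1 - ov (exp s)) (Iic m) := fun m => by
    simpa using intOn_one_sub zero_le_one m
  have mp := measurePreserving_add_right (volume : Measure ℝ) (log r)
  have me := measurableEmbedding_addRight (log r)
  have h1 : ∫ s in Ioi 0, ov (r * exp s) = ∫ s in Ioi (log r), ov (exp s) := by
    simp only [e]
    rw [← mp.setIntegral_preimage_emb me _ (Ioi (log r)), preimage_add_const_Ioi, sub_self]
  have h2 : ∫ s in Iic 0, (1 - ov (r * exp s)) = ∫ s in Iic (log r), (1 - ov (exp s)) := by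
    simp only [e]
    rw [← mp.setIntegral_preimage_emb me _ (Iic (log r)), preimage_add_const_Iic, sub_self]
  have h3 := intervalIntegral.integral_Ioi_sub_Ioi' (i1 0) (i1 (log r))
  have h4 := intervalIntegral.integral_Iic_sub_Iic (i2 0) (i2 (log r))
  have i3 : IntervalIntegrable (fun s => ov (exp s)) volume 0 (log r) :=
    (intervalIntegrable_iff.2 ((i1 (min 0 (log r))).mono_set fun _ h => h.1))
  rw [intervalIntegral.integral_sub intervalIntegrable_const i3] at h4
  simp only [intervalIntegral.integral_const, sub_zero, smul_eq_mul, mul_one] at h4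
  rw [h1, h2, c0]
  linarith

theorem int_ov_le {r D : ℝ} (hr : 0 < r) (hD : r ≤ D) (m : ℝ) :
    ∫ s in Ioi m, ov (r * exp s) ≤ log (max (2 * exp (-m)) D) - log r := by
  have hM : 0 < max (2 * exp (-m)) D := lt_max_of_lt_left (by positivity)
  have h0 : 0 ≤ log (max (2 * exp (-m)) D) - log r :=
    sub_nonneg.2 (log_le_log hr (hD.trans (le_max_right _ _)))
  set L := log (max (2 * exp (-m)) D) - log r with hL
  have h1 : ∫ s in Ioi m, ov (r * exp s) = ∫ s in Ioc m (m + L), ov (r * exp s) := by
    refine setIntegral_eq_of_subset_of_forall_sdiff_eq_zero measurableSet_Ioi Ioc_subset_Ioi_self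
      fun s hs => ov_zero ?_
    have h1 : m + L < s := by
      by_contra h2
      exact hs.2 ⟨hs.1, not_lt.1 h2⟩
    have h2 : log (2 * exp (-m)) ≤ log (max (2 * exp (-m)) D) :=
      log_le_log (by positivity) (le_max_left _ _)
    rw [log_mul two_ne_zero (exp_pos _).ne', log_exp] at h2
    have h3 : log 2 ≤ log (r * exp s) := by
      rw [log_mul hr.ne' (exp_pos _).ne', log_exp]; linarith
    exact (log_le_log_iff two_pos (by positivity)).1 h3
  rw [h1]
  have h2 := setIntegral_mono_on (μ := volume) (s := Ioc m (m + L))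
    ((intOn_ov hr m).mono_set Ioc_subset_Ioi_self) (g := fun _ => (1 : ℝ))
    (integrableOn_const measure_Ioc_lt_top.ne) measurableSet_Ioc fun s _ => ov_le_one _
  simpa [h0] using h2

end Pool.Agent.Lib.MP_d1f1b2_pr
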