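import Pool.Agent.Lib.D1W.CDefs

/-! Summation over the patterns of slacks and witnesses. -/

open Set Filter MeasureTheory ProbabilityTheory Real
open scoped ENNReal Topology

namespace Pool.Agent.Lib.MP_d1f1b2_pr

theorem tsum_pi_le {α : Type*} {G : ℝ≥0∞} (k : ℕ) (γ : ℕ → α → ℝ≥0∞)
    (hγ : ∀ i, ∑' a, γ i a ≤ G) : ∑' p : Fin k → α, ∏ i : Fin k, γ i (p i) ≤ G ^ k := by
  induction k generalizing γ with
  | zero => simp
  | succ k ih =>
    rw [← (Fin.consEquiv fun _ : Fin (k + 1) => α).tsum_eq, ENNReal.tsum_prod']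
    simp only [Fin.prod_univ_succ, Fin.consEquiv_apply, Fin.cons_zero, Fin.cons_succ, Fin.val_zero,
      Fin.val_succ, ENNReal.tsum_mul_left, ENNReal.tsum_mul_right]
    rw [pow_succ']
    exact mul_le_mul' (hγ 0) (ih (fun i => γ (i + 1)) fun i => hγ _)

theorem ee_sum (s : Finset ℕ) (f : ℕ → ℝ) : ∏ i ∈ s, ee (f i) = ee (∑ i ∈ s, f i) := by
  induction s using Finset.induction_on with
  | empty => simp
  | insert a s ha ih => rw [Finset.prod_insert ha, Finset.sum_insert ha, ih, ee_add]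

theorem ee_mix {x : ℝ≥0∞} {α β : ℝ} (h1 : x ≤ ee α) (h2 : x ≤ ee β) :
    x ≤ ee (3 / 4 * α + 1 / 4 * β) := by
  rcases le_total α β with h | h
  · exact h1.trans (ee_mono (by linarith))
  · exact h2.trans (ee_mono (by linarith))

theorem pat (y : ℕ → ℝ) (d : ℕ) (lam : ℝ) : ∃ p : ℕ × ℕ, (p.2 ≤ d ∧ (p.1 = 0 → p.2 = 0)) ∧
    (∀ w ≤ d, y w ≤ lam + p.1) ∧ (p.1 ≠ 0 → lam + p.1 - 1 ≤ y p.2) := by
  classical
  have hex : ∃ z : ℕ, ∀ w ≤ d, y w ≤ lam + z := by
    obtain ⟨z, hz⟩ := exists_nat_ge (∑ w ∈ Finset.range (d + 1), |y w| - lam)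
    refine ⟨z, fun w hw => ?_⟩
    have := Finset.single_le_sum (f := fun w => |y w|) (fun _ _ => abs_nonneg _)
      (Finset.mem_range.2 (Nat.lt_succ_of_le hw))
    linarith [le_abs_self (y w)]
  rcases h : Nat.find hex with _ | z
  · exact ⟨(0, 0), ⟨Nat.zero_le _, fun _ => rfl⟩, h ▸ Nat.find_spec hex, fun h0 => absurd rfl h0⟩
  · have h1 := Nat.find_min hex (m := z) (by omega)
    push Not at h1
    obtain ⟨w, hw, h2⟩ := h1
    refine ⟨(z + 1, w), ⟨hw, fun h0 => absurd h0 (by simp)⟩, h ▸ Nat.find_spec hex, fun _ => ?_⟩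
    push_cast; linarith

/-- the slack allowed for free in a block of length `d` -/
noncomputable def lam (d : ℕ) : ℝ := log (d + 1) / 512

/-- the threshold exceeded by the witness -/
noncomputable def thr (d : ℕ) (p : ℕ × ℕ) : ℝ := if p.1 = 0 then 0 else lam d + p.1 - 1

open Classical in
/-- the weight of a pattern in one block -/
noncomputable def gam (d : ℕ) (p : ℕ × ℕ) : ℝ≥0∞ :=
  if p.2 ≤ d ∧ (p.1 = 0 → p.2 = 0) then ee (8 * p.1 - 512 * thr d p) else 0

theorem lam_nonneg (d : ℕ) : 0 ≤ lam d :=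
  div_nonneg (log_nonneg (by linarith [d.cast_nonneg (α := ℝ)])) (by norm_num)

theorem gam_sum : ∃ x, 0 ≤ x ∧ ∀ d, ∑' p, gam d p ≤ ee x := by
  obtain ⟨x, hx⟩ := exists_ee (c := 1 + ee 8 * ∑' z : ℕ, ee (-504 * z))
    (ENNReal.add_ne_top.2 ⟨by simp, ENNReal.mul_ne_top (ee_ne_top _) (tsum_ee (by norm_num))⟩)
  refine ⟨max x 0, le_max_right _ _, fun d => le_trans ?_ (hx.trans (ee_mono (le_max_left _ _)))⟩
  rw [ENNReal.tsum_prod', tsum_eq_zero_add' ENNReal.summable, ← ENNReal.tsum_mul_left]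
  refine add_le_add (le_of_eq ?_) (ENNReal.tsum_le_tsum fun z => ?_)
  · rw [tsum_eq_single 0 fun w hw => by simp [gam, hw]]
    simp [gam, thr]
  · rw [tsum_eq_sum (s := Finset.range (d + 1)) fun w hw => by
      rw [gam, if_neg]; exact fun h => hw (Finset.mem_range.2 (Nat.lt_succ_of_le h.1))]
    refine (Finset.sum_le_card_nsmul _ _ (ee (8 * (z + 1) - 512 * (lam d + z))) fun w _ => ?_).trans
      (le_of_eq ?_)
    · by_cases h : w ≤ d
      · rw [gam, if_pos ⟨h, fun h0 => absurd h0 (by simp)⟩]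
        refine ee_mono (le_of_eq ?_)
        simp [thr]; ring
      · rw [gam, if_neg fun h0 => h h0.1]
        exact zero_le
    · have e : ((d + 1 : ℕ) : ℝ≥0∞) = ee (log (d + 1)) := by
        rw [ee, exp_log (by positivity), ← ENNReal.ofReal_natCast]; push_cast; rfl
      rw [Finset.card_range, nsmul_eq_mul, e, ← ee_add, ← ee_add, lam]
      congr 1; ring

theorem sum_two (a : ℕ → ℝ) (ha : ∀ i, 0 ≤ a i) (k : ℕ) :
    ∑ i ∈ Finset.range k, (a i + a (i + 1)) ≤ 2 * ∑ i ∈ Finset.range (k + 1), a i := by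
  have h1 := Finset.sum_range_succ a k
  have h2 := Finset.sum_range_succ' a k
  rw [Finset.sum_add_distrib]
  linarith [ha 0, ha k]

theorem core (Kb Kf : ℝ) : ∃ K : ℝ, 0 ≤ K ∧ ∀ {Ω : Type*} {_ : MeasurableSpace Ω} {P : Measure Ω}
    (k : ℕ) (n d : ℕ → ℕ) (R : ℕ → ℝ) (W : ℕ → Ω → ℝ) (Y : ℕ → ℕ → Ω → ℝ) (Q : ℝ),
    0 ≤ Q → Q ≤ 2 → (∀ i, 1 ≤ R i) → (∀ i < k, n i < n (i + 1)) → d 0 = 1 →
    (∀ i, d (i + 1) = n (i + 1) - n i) → (∀ ω, W (n 0) ω = 0) →
    (∀ (a : ℕ → ℝ) (x : ℝ), (∀ i, 0 ≤ a i) → P {ω | |x + W (n 0) ω| ≤ a 0 ∧ ∀ i < k,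
      x + W (n (i + 1)) ω ≤ a (i + 1) ∧ ∀ j, n i < j → j ≤ n (i + 1) → -a (i + 1) ≤ x + W j ω} ≤
      ∏ i ∈ Finset.range k, ee (Kb + a i + a (i + 1) - 11 / 8 * log ((n (i + 1) - n i : ℕ) : ℝ))) →
    (∀ (w : ℕ → ℕ) (c t : ℕ → ℝ), (∀ i, w i ≤ d i) → (∀ i, |c i| ≤ 1) →
      P {ω | ∀ i ≤ k, t i ≤ c i * Y i (w i) ω} ≤ 2 * ee (Kf * ∑ i ∈ Finset.range (k + 1), R i -
        2048 * ∑ i ∈ Finset.range (k + 1), t i)) →
    ∫⁻ l, ∫⁻ ω, {ω | ∀ i ≤ k, -l + W (n i) ω ≤ Y i 0 ω + 4 * R i ∧ ∀ w, 1 ≤ w → w ≤ d i →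
      -Y i w ω - 4 * R i ≤ -l + W (n i + 1 - w) ω}.indicator (fun ω => ee (-Q * W (n k) ω)) ω ∂P ≤
      ee (K * ∑ i ∈ Finset.range (k + 1), R i -
        65 / 64 * ∑ i ∈ Finset.range k, log ((n (i + 1) - n i : ℕ) : ℝ)) := by
  obtain ⟨x0, hx0, hx⟩ := gam_sum
  refine ⟨|Kb| + |Kf| + 34 + x0, by positivity,
    fun {Ω _ P} k n d R W Y Q hQ hQ2 hR hn hd0 hd hW0 bal flat => ?_⟩
  have hd1 : ∀ i ≤ k, 1 ≤ d i := by
    rintro (_ | i) hi
    · exact hd0.ge
    · have := hn i hi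
      rw [hd]; omega
  set ex : (Fin (k + 1) → ℕ × ℕ) → ℕ → ℕ × ℕ :=
    fun p i => if h : i < k + 1 then p ⟨i, h⟩ else (0, 0) with hex
  set a : (Fin (k + 1) → ℕ × ℕ) → ℕ → ℝ := fun p i => lam (d i) + (ex p i).1 + 4 * R i with ha
  have ha0 : ∀ p i, 0 ≤ a p i := fun p i => by
    have := lam_nonneg (d i)
    have := hR i
    simp only [ha]; positivity
  set A : (Fin (k + 1) → ℕ × ℕ) → ℝ → Set Ω := fun p l => {ω |
    (∀ i, (ex p i).2 ≤ d i ∧ ((ex p i).1 = 0 → (ex p i).2 = 0)) ∧ |l| ≤ a p 0 ∧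
    -a p k ≤ -l + W (n k) ω ∧ (|-l + W (n 0) ω| ≤ a p 0 ∧ ∀ i < k,
      -l + W (n (i + 1)) ω ≤ a p (i + 1) ∧
        ∀ j, n i < j → j ≤ n (i + 1) → -a p (i + 1) ≤ -l + W j ω) ∧
    ∀ i ≤ k, thr (d i) (ex p i) ≤ (if (ex p i).1 = 0 then 0 else 1) * Y i (ex p i).2 ω} with hA
  set SR := ∑ i ∈ Finset.range (k + 1), R i with hSR
  set SL := ∑ i ∈ Finset.range k, log ((n (i + 1) - n i : ℕ) : ℝ) with hSL
  have hk : (k + 1 : ℝ) ≤ SR := by
    have := Finset.sum_le_sum (s := Finset.range (k + 1)) fun i _ => hR i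
    simpa using this
  set c0 := (|Kb| + |Kf| + 34) * SR - 65 / 64 * SL with hc0
  have cover : ∀ l, {ω | ∀ i ≤ k, -l + W (n i) ω ≤ Y i 0 ω + 4 * R i ∧ ∀ w, 1 ≤ w → w ≤ d i →
      -Y i w ω - 4 * R i ≤ -l + W (n i + 1 - w) ω} ⊆ ⋃ p, A p l := fun l ω hω => by
    choose q hq1 hq2 hq3 using fun i => pat (fun w => Y i w ω) (d i) (lam (d i))
    have e : ∀ i ≤ k, ex (fun i => q i) i = q i := fun i hi => dif_pos (Nat.lt_succ_of_le hi)
    have up : ∀ i ≤ k, -l + W (n i) ω ≤ a (fun i => q i) i := fun i hi => by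
      have h1 := (hω i hi).1
      have h2 := hq2 i 0 (Nat.zero_le _)
      simp only [ha, e i hi]; linarith
    have low : ∀ i ≤ k, ∀ w, 1 ≤ w → w ≤ d i → -a (fun i => q i) i ≤ -l + W (n i + 1 - w) ω :=
      fun i hi w h1 h2 => by
      have h3 := (hω i hi).2 w h1 h2
      have h4 := hq2 i w h2
      simp only [ha, e i hi]; linarith
    have b0 : |-l + W (n 0) ω| ≤ a (fun i => q i) 0 :=
      abs_le.2 ⟨by simpa using low 0 k.zero_le 1 le_rfl (hd1 0 k.zero_le), up 0 k.zero_le⟩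
    refine mem_iUnion.2 ⟨fun i => q i, fun i => ?_, by simpa [hW0] using b0,
      by simpa using low k le_rfl 1 le_rfl (hd1 k le_rfl), ⟨b0, fun i hi => ⟨up _ hi,
        fun j h1 h2 => ?_⟩⟩, fun i hi => ?_⟩
    · by_cases hi : i ≤ k
      · rw [e i hi]; exact hq1 i
      · simp [hex, hi]
    · have := low (i + 1) hi (n (i + 1) + 1 - j) (by omega) (by rw [hd]; omega)
      rwa [show n (i + 1) + 1 - (n (i + 1) + 1 - j) = j by omega] at this
    · rw [e i hi, thr]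
      split_ifs with h0
      · simp
      · simpa using hq3 i h0
  have key : ∀ p l, ∫⁻ ω in A p l, ee (-Q * W (n k) ω) ∂P ≤ (Icc (-a p 0) (a p 0)).indicator
      (fun _ => ee (c0 - 2 * a p 0) * ∏ i : Fin (k + 1), gam (d i) (p i)) l := fun p l => by
    rcases (A p l).eq_empty_or_nonempty with h0 | ⟨ω0, h1, h2, -⟩
    · simp [h0]
    rw [indicator_of_mem (show l ∈ Icc (-a p 0) (a p 0) from abs_le.1 h2)]
    have hl := abs_le.1 h2
    refine (setLIntegral_mono (g := fun _ => ee (2 * a p 0 + 2 * a p k)) measurable_const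
      fun ω hω => ee_mono ?_).trans ?_
    · have h3 := hω.2.2.1
      have := ha0 p 0
      have := ha0 p k
      nlinarith
    rw [setLIntegral_const]
    have e1 : P (A p l) ≤ _ := (measure_mono fun ω hω => hω.2.2.2.1).trans (bal (a p) (-l) (ha0 p))
    have e2 : P (A p l) ≤ _ := (measure_mono fun ω hω => hω.2.2.2.2).trans
      (flat (fun i => (ex p i).2) (fun i => if (ex p i).1 = 0 then 0 else 1)
        (fun i => thr (d i) (ex p i)) (fun i => (h1 i).1) fun i => by split_ifs <;> simp)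
    rw [ee_sum] at e1
    rw [← ee_log2, ← ee_add] at e2
    have e3 : ∏ i : Fin (k + 1), gam (d i) (p i) = ee (∑ i ∈ Finset.range (k + 1),
        (8 * (ex p i).1 - 512 * thr (d i) (ex p i))) := by
      rw [← ee_sum, Finset.prod_range]
      refine Finset.prod_congr rfl fun i _ => ?_
      have e : ex p i = p i := dif_pos i.2
      rw [gam, ← e, if_pos (h1 i)]
    refine (mul_le_mul_right (ee_mix e1 e2) _).trans ?_
    rw [e3, ← ee_add, ← ee_add]
    refine ee_mono ?_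
    have f1 := sum_two (a p) (ha0 p) k
    have f2 : a p 0 ≤ ∑ i ∈ Finset.range (k + 1), a p i :=
      Finset.single_le_sum (fun i _ => ha0 p i) (by simp)
    have f3 : a p k ≤ ∑ i ∈ Finset.range (k + 1), a p i :=
      Finset.single_le_sum (fun i _ => ha0 p i) (by simp)
    have f4 : ∑ i ∈ Finset.range (k + 1), a p i = ∑ i ∈ Finset.range (k + 1), lam (d i) +
        ∑ i ∈ Finset.range (k + 1), ((ex p i).1 : ℝ) + 4 * SR := by
      simp only [ha, Finset.sum_add_distrib, hSR, Finset.mul_sum]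
    have hL : log 2 ≤ 1 := by linarith [Real.log_two_lt_d9]
    have f5 : 512 * ∑ i ∈ Finset.range (k + 1), lam (d i) ≤ SL + (k + 1) := by
      rw [Finset.sum_range_succ', hd0, mul_add, Finset.mul_sum]
      have : ∑ i ∈ Finset.range k, 512 * lam (d (i + 1)) ≤
          ∑ i ∈ Finset.range k, (log ((n (i + 1) - n i : ℕ) : ℝ) + 1) :=
        Finset.sum_le_sum fun i hi => by
          have h3 : (1 : ℝ) ≤ d (i + 1) := by exact_mod_cast hd1 _ (Finset.mem_range.1 hi)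
          have h4 := log_le_log (by positivity) (show (d (i + 1) + 1 : ℝ) ≤ 2 * d (i + 1) by linarith)
          rw [log_mul two_ne_zero (by positivity)] at h4
          rw [lam, ← hd]; linarith
      rw [Finset.sum_add_distrib] at this
      simp only [Finset.sum_const, Finset.card_range, nsmul_eq_mul, mul_one] at this
      have h5 : lam 1 = log 2 / 512 := by rw [lam]; norm_num
      linarith
    have f6 : ∑ i ∈ Finset.range k, (Kb + a p i + a p (i + 1) -
        11 / 8 * log ((n (i + 1) - n i : ℕ) : ℝ)) =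
        k * Kb + ∑ i ∈ Finset.range k, (a p i + a p (i + 1)) - 11 / 8 * SL := by
      simp only [add_assoc, Finset.sum_sub_distrib, hSL, Finset.mul_sum]
      rw [Finset.sum_add_distrib]; simp
    have f7 : k * Kb ≤ |Kb| * SR := by
      have := mul_le_mul_of_nonneg_left (le_abs_self Kb) (k.cast_nonneg (α := ℝ))
      nlinarith [abs_nonneg Kb]
    have f8 : Kf * SR ≤ |Kf| * SR :=
      mul_le_mul_of_nonneg_right (le_abs_self _) (by linarith [k.cast_nonneg (α := ℝ)])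
    have f9 : 0 ≤ |Kb| * SR := mul_nonneg (abs_nonneg _) (by linarith [k.cast_nonneg (α := ℝ)])
    have f10 : 0 ≤ |Kf| * SR := mul_nonneg (abs_nonneg _) (by linarith [k.cast_nonneg (α := ℝ)])
    have f11 : 0 ≤ ∑ i ∈ Finset.range (k + 1), a p i := Finset.sum_nonneg fun i _ => ha0 p i
    rw [f6, Finset.sum_sub_distrib, ← Finset.mul_sum, ← Finset.mul_sum, hc0]
    linarith [k.cast_nonneg (α := ℝ)]
  calc _ ≤ ∫⁻ l, ∑' p, (Icc (-a p 0) (a p 0)).indicator
        (fun _ => ee (c0 - 2 * a p 0) * ∏ i : Fin (k + 1), gam (d i) (p i)) l :=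
        lintegral_mono fun l => (lintegral_indicator_le _ _).trans ((lintegral_mono_set (cover l)).trans
          ((lintegral_iUnion_le _ _).trans (ENNReal.tsum_le_tsum fun p => key p l)))
    _ ≤ ∑' p : Fin (k + 1) → ℕ × ℕ, ee c0 * ∏ i : Fin (k + 1), gam (d i) (p i) := by
        rw [lintegral_tsum fun p => (measurable_const.indicator measurableSet_Icc).aemeasurable]
        refine ENNReal.tsum_le_tsum fun p => ?_
        rw [lintegral_indicator_const measurableSet_Icc, Real.volume_Icc, mul_right_comm]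
        refine mul_le_mul_left ((mul_le_mul_right (ofReal_le_ee one_pos) _).trans ?_) _
        rw [← ee_add]
        exact ee_mono (by simp; linarith)
    _ ≤ ee c0 * ee x0 ^ (k + 1) := by
        rw [ENNReal.tsum_mul_left]
        exact mul_le_mul_right (tsum_pi_le _ (fun i => gam (d i)) fun i => hx _) _
    _ ≤ _ := by
        rw [← ee_nat_mul, ← ee_add]
        refine ee_mono ?_
        have := mul_le_mul_of_nonneg_left hk hx0
        rw [hc0]; push_cast; linarith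

end Pool.Agent.Lib.MP_d1f1b2_pr
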