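import Pool.Agent.Lib.D1W.Gir

/-! The formula of Cameron and Martin for a shift along one covariance function. -/

open Set Filter MeasureTheory ProbabilityTheory
open scoped ENNReal NNReal

namespace Pool.Agent.Lib.MP_d1f1b2_pr

theorem tilt_one (v : ℝ≥0) (θ : ℝ) {φ : ℝ → ℝ≥0∞} (hφ : Measurable φ) :
    ∫⁻ z, φ z ∂gaussianReal 0 v =
      ∫⁻ z, φ (z + θ * v) * ee (-θ * z - θ ^ 2 * v / 2) ∂gaussianReal 0 v := by
  rcases eq_or_ne v 0 with rfl | hv
  · simp [gaussianReal_zero_var]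
  have hv' : (v : ℝ) ≠ 0 := by exact_mod_cast hv
  rw [gaussianReal_of_var_ne_zero _ hv,
    lintegral_withDensity_eq_lintegral_mul _ (measurable_gaussianPDF _ _) hφ,
    lintegral_withDensity_eq_lintegral_mul _ (measurable_gaussianPDF _ _) (by fun_prop),
    ← lintegral_add_right_eq_self _ (θ * v)]
  refine lintegral_congr fun z => ?_
  simp only [Pi.mul_apply]
  rw [mul_comm (φ _) (ee _), ← mul_assoc, gaussianPDF, gaussianPDF, ee,
    ← ENNReal.ofReal_mul (gaussianPDFReal_nonneg _ _ _), gaussianPDFReal, gaussianPDFReal,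
    mul_assoc _ (Real.exp _), ← Real.exp_add]
  congr 4
  field_simp
  ring

variable {Ω : Type*} {mΩ : MeasurableSpace Ω} {P : Measure Ω} {T : Type*} {X : T → Ω → ℝ}
  {c : T → T → ℝ}

theorem CG.div_mul (h : CG X P c) (t t0 : T) : c t t0 / c t0 t0 * c t0 t0 = c t t0 := by
  by_cases hv : c t0 t0 = 0
  · have h1 := (h.comb (ι := Unit) (fun _ => t) (fun _ => (c t t + 1) / c t t0)
      fun _ => t0).var_nonneg ()
    rw [hv, mul_zero]
    by_contra h0
    rw [hv, h.symm t0 t, div_mul_cancel₀ _ (Ne.symm h0)] at h1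
    linarith [h.var_nonneg t]
  · exact div_mul_cancel₀ _ hv

theorem CG.tilt (h : CG X P c) (t0 : T) (θ : ℝ) {F : (T → ℝ) → ℝ≥0∞} (hF : Measurable F) :
    ∫⁻ ω, F (fun t => X t ω) ∂P = ∫⁻ ω, F (fun t => X t ω + θ * c t t0) *
      ee (-θ * X t0 ω - θ ^ 2 * c t0 t0 / 2) ∂P := by
  have := h.prob
  set w : T → ℝ := fun t => c t t0 / c t0 t0 with hw
  have h1 := h.comb (ι := T ⊕ Unit) (Sum.elim id fun _ => t0) (Sum.elim w fun _ => 0) fun _ => t0
  have h2 := (h1.indep Sum.inl Sum.inr fun t _ => by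
    simp [hw, h.div_mul]).comp measurable_id (measurable_pi_apply ())
  simp only [Function.comp_def, Sum.elim_inl, Sum.elim_inr, zero_mul, sub_zero, id] at h2
  have hY : Measurable fun ω t => X t ω - w t * X t0 ω :=
    measurable_pi_lambda _ fun t => (h.meas t).sub ((h.meas t0).const_mul _)
  have key : ∀ {Φ : (T → ℝ) × ℝ → ℝ≥0∞}, Measurable Φ →
      ∫⁻ ω, Φ (fun t => X t ω - w t * X t0 ω, X t0 ω) ∂P =
        ∫⁻ y, ∫⁻ z, Φ (y, z) ∂gaussianReal 0 (c t0 t0).toNNReal
          ∂P.map fun ω t => X t ω - w t * X t0 ω := fun hΦ => by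
    rw [← lintegral_map hΦ (hY.prodMk (h.meas t0)),
      h2.map_prod_eq_prod_map_map hY.aemeasurable (h.meas t0).aemeasurable, h.map_eq,
      lintegral_prod _ hΦ.aemeasurable]
  have h3 := key (Φ := fun p => F fun t => p.1 t + w t * p.2) (hF.comp (by fun_prop))
  have h4 := key (Φ := fun p => F (fun t => p.1 t + w t * (p.2 + θ * c t0 t0)) *
    ee (-θ * p.2 - θ ^ 2 * c t0 t0 / 2)) ((hF.comp (by fun_prop)).mul (by fun_prop))
  have h5 : ∀ ω t, X t ω - w t * X t0 ω + w t * (X t0 ω + θ * c t0 t0) = X t ω + θ * c t t0 :=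
    fun ω t => by
      rw [← h.div_mul t t0]
      ring
  simp only [sub_add_cancel] at h3
  simp only [h5] at h4
  rw [h3, h4]
  refine lintegral_congr fun y => ?_
  rw [tilt_one _ θ (φ := fun z => F fun t => y t + w t * z) (hF.comp (by fun_prop)),
    Real.coe_toNNReal _ (h.var_nonneg t0)]

end Pool.Agent.Lib.MP_d1f1b2_pr
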