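import Pool.Agent.Lib.D1W.PC1
import Pool.Agent.Lib.D1W.Bd
import Pool.Agent.Lib.D1W.Tilt
import Pool.Agent.Lib.D1W.Bal

/-! The first moment bound for one chain. -/

open Set Filter MeasureTheory ProbabilityTheory Real
open scoped ENNReal Topology

namespace Pool.Agent.Lib.MP_d1f1b2_pr

variable {Ω Ω' : Type*} {mΩ : MeasurableSpace Ω} {mΩ' : MeasurableSpace Ω'} {P : Measure Ω}
  {P' : Measure Ω'} {h : Sq → Ω → ℝ} {Q : ℝ}

theorem vol_shift (B : (Sq → Prop) → Prop) (x x' : Sq → ℝ) (y : ℝ) (e : ∀ S, x' S = x S - y) :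
    volume {u | B (DD Q x u)} = volume {u | B (DD Q x' u)} := by
  rw [← measure_preimage_add_right volume (-y) {u | B (DD Q x' u)}]
  congr 1
  ext u
  simp only [mem_preimage, mem_ofPred_eq]
  refine iff_of_eq (congrArg B (funext fun S => propext ?_))
  simp only [DD, lm, e]
  constructor <;> intro <;> linarith

/-- the field seen from the large scales of `T` -/
def hat (T : Sq) (x : (Sq × ℕ) ⊕ Sq → ℝ) (S : Sq) : ℝ := x (.inr S) - x (.inr T) + x (.inl (S, 0))

theorem meas_hat (T : Sq) : Measurable (hat T) :=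
  measurable_pi_lambda _ fun _ => by unfold hat; fun_prop

theorem EV_hat (hh : CG h P gffCov) {X : (Sq × ℕ) ⊕ Sq → Ω' → ℝ} (hX : CG X P' cW) (T : Sq)
    {B : (Sq → Prop) → Prop} (hB : Measurable B) :
    P.prod volume (EV Q h B) = ∫⁻ l, P' {ω | B (DD Q (hat T fun t => X t ω) l)} := by
  have := hX.prob
  have hΦ : Measurable fun y : Sq → ℝ => volume {u | B (DD Q y u)} :=
    measurable_measure_prodMk_left (s := {p : (Sq → ℝ) × ℝ | B (DD Q p.1 p.2)})
      (measurableSet_setOfPred.2 (hB.comp (meas_DD Q)))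
  have hc := CG_sc hh 0
  simp only [sc_zero] at hc
  have hm : MeasurableSet {p : Ω' × ℝ | B (DD Q (hat T fun t => X t p.1) p.2)} :=
    measurableSet_setOfPred.2 (hB.comp ((meas_DD Q).comp
      ((((meas_hat T).comp hX.measPi).comp measurable_fst).prodMk measurable_snd)))
  calc _ = ∫⁻ ω, volume {u | B (DD Q (fun S => h S ω - h O ω) u)} ∂P := by
        rw [Measure.prod_apply (meas_EV hh hB)]
        exact lintegral_congr fun ω => vol_shift (Q := Q) B (fun S => h S ω) _ (h O ω) fun _ => rfl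
    _ = ∫⁻ ω, volume {u | B (DD Q (hat T fun t => X t ω) u)} ∂P' := by
        rw [hc.lint_eq' (CG_sum hX) hΦ]
        exact lintegral_congr fun ω => vol_shift B _ _ (X (.inr T) ω - X (.inl (O, 0)) ω)
          fun S => by simp only [hat]; ring
    _ = _ := (Measure.prod_apply hm).symm.trans (Measure.prod_apply_symm hm)

theorem CG.tilt2 {T : Type*} {X : T → Ω → ℝ} {c : T → T → ℝ} (h : CG X P c) (a b : T) (θ : ℝ)
    {F : (T → ℝ) → ℝ≥0∞} (hF : Measurable F) :
    ∫⁻ ω, F (fun t => X t ω) ∂P = ∫⁻ ω, F (fun t => X t ω + θ * (c t a - c t b)) *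
      ee (-θ * (X a ω - X b ω) - θ ^ 2 * (c a a - c a b - c b a + c b b) / 2) ∂P := by
  have h1 := (h.comb (ι := T ⊕ Unit) (Sum.elim id fun _ => a) (Sum.elim (fun _ => 0) fun _ => 1)
    (Sum.elim id fun _ => b)).tilt (.inr ()) θ (F := fun x => F fun t => x (.inl t))
    (hF.comp (by fun_prop))
  simpa using h1

theorem kap_anti (S T : Sq) {m m' : ℝ} (hm : m ≤ m') : kap S T m' ≤ kap S T m :=
  setIntegral_mono_set ((cv_En S T).intOn m) (.of_forall fun _ => Cv.k_nonneg _ _ _)
    (Ioi_subset_Ioi hm).eventuallyLE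

theorem kap_step (S T : Sq) {m m' : ℝ} (hm : m ≤ m') : kap S T m ≤ kap S T m' + (m' - m) := by
  have h1 : kap S T m - kap S T m' = ∫ s in m..m', kS S T s :=
    intervalIntegral.integral_Ioi_sub_Ioi' ((cv_En S T).intOn m) ((cv_En S T).intOn m')
  have h2 := intervalIntegral.integral_mono_on hm (kS_ii S T m m')
    (intervalIntegrable_const (c := (1 : ℝ))) fun s _ => Cv.k_le_one _ _ s
  simp only [intervalIntegral.integral_const, smul_eq_mul, mul_one] at h2
  have h3 : ∫ s in m..m', kS S T s ≤ m' - m := h2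
  linarith

theorem side_nat {S : Sq} {j : ℕ} (h : S.n = j) : S.side = (1 / 2) ^ j := by
  rw [Sq.side, h, zpow_neg, zpow_natCast, one_div, inv_pow]

theorem half_exp (j : ℕ) : (1 / 2 : ℝ) ^ j * exp (j * log 2) = 1 := by
  rw [exp_nat_mul, exp_log two_pos, ← mul_pow]; norm_num

theorem nlog (m : ℕ) : 0 ≤ (m : ℝ) * log 2 := mul_nonneg m.cast_nonneg log2pos.le

theorem ik_low {S T : Sq} {j N : ℕ} {R : ℝ} (hj : j ≤ N)
    (h : ∀ θ θ', ‖(cv S).p θ - (cv T).p θ'‖ ≤ R * (1 / 2) ^ j) :
    j * log 2 - 2 * R ≤ ik S T (N * log 2) := by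
  have h1 := le_ik h (nlog j)
  have h2 := kap_anti S T (show (j : ℝ) * log 2 ≤ N * log 2 by have := log2pos; gcongr)
  rw [mul_assoc, mul_assoc, half_exp, mul_one] at h1
  unfold ik at *
  linarith

theorem anc_dist (T : Sq) (m : ℕ) (θ θ' : ℝ) :
    ‖(cv (anc T m)).p θ - (cv T).p θ'‖ ≤ 2 * (anc T m).side :=
  dist_in (cv_mem _ θ) (carrier_sub_anc T m (cv_mem T θ'))

theorem ik_up {T : Sq} {m j : ℕ} (hj : (anc T m).n = j - 1) (M : ℝ) :
    ik (anc T m) T M ≤ j * log 2 + 2 * log 2 := by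
  have h1 := kap_le (anc T m) T (anc_dist T m) (j * log 2)
  have h2 := kk_le (S := anc T m) (T := T) (rad_pos _) (Or.inl le_rfl)
  have h3 := kap_step (anc T m) T (nlog j)
  have h4 := kap_nonneg (anc T m) T M
  have h5 : 2 * exp (-(j * log 2)) ≤ 2 * (anc T m).side := by
    rw [← exp_log (side_pos (anc T m)), log_side, hj]
    have := log2pos
    gcongr; push_cast; linarith
  rw [max_eq_right h5, log_two_mul_side] at h1
  rw [log_rad] at h2
  unfold ik
  linarith

/-- the statement of the joint tail bound -/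
def FlatSt (K : ℝ) (X : (Sq × ℕ) ⊕ Sq → Ω → ℝ) (P : Measure Ω) : Prop :=
  ∀ (T : Sq) (k : ℕ) (S : ℕ → Sq) (j : ℕ → ℕ) (r e t : ℕ → ℝ) (s : ℝ), 0 ≤ s →
    (∀ i < k, j i < j (i + 1)) → (∀ i ≤ k, (S i).n ≤ j i) → (∀ i, 1 ≤ r i) → (∀ i, |e i| ≤ 1) →
    (∀ i ≤ k, ∀ θ θ', ‖(cv (S i)).p θ - (cv T).p θ'‖ ≤ r i * (1 / 2) ^ (j i)) →
    (∀ i ≤ k, ∀ θ θ', ‖(cv (S i)).p θ - (cv (S i)).p θ'‖ ≤ r i * (1 / 2) ^ (j i)) →
    P {ω | ∀ i ≤ k, t i ≤ e i * (X (.inr (S i)) ω - X (.inr T) ω + X (.inl (S i, 0)) ω -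
      (X (.inl (T, 0)) ω - X (.inl (T, j i)) ω))} ≤
      2 * ee (K * s ^ 2 * ∑ i ∈ Finset.range (k + 1), r i - s * ∑ i ∈ Finset.range (k + 1), t i)

theorem CG_walk {X : (Sq × ℕ) ⊕ Sq → Ω → ℝ} (hX : CG X P cW) (T : Sq) :
    CG (fun (j : ℕ) ω => X (.inl (T, 0)) ω - X (.inl (T, j)) ω) P
      fun i j => ik T T ((min i j : ℕ) * log 2) := by
  have h1 := hX.comb (fun _ : ℕ => .inl (T, 0)) (fun _ => 1) fun j => .inl (T, j)
  simp only [one_mul] at h1
  refine h1.congr fun i j => ?_
  simp only [cW, ik, max_self, Nat.zero_max, Nat.max_zero, Nat.cast_zero, zero_mul]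
  rcases le_total i j with h | h
  · rw [max_eq_right h, min_eq_left h]; ring
  · rw [max_eq_left h, min_eq_right h]; ring

theorem pc0 {X : (Sq × ℕ) ⊕ Sq → Ω → ℝ} (hX : CG X P cW) {Kf : ℝ} (hf : FlatSt Kf X P)
    (hQ : 0 < Q) (hQ' : Q < 2) (hQ2 : 2 ≤ Q ^ 2) : ∃ K, 0 ≤ K ∧ ∀ (k : ℕ) (U : ℕ → Sq) (n : ℕ → ℕ)
    (r : ℕ → ℝ), n 0 = 0 → (∀ i ≤ k, (U i).n = n i) → (∀ i < k, n i < n (i + 1)) → (∀ i, 0 ≤ r i) →
    (∀ i ≤ k, ‖(U i).center - (U k).center‖ ≤ r i * (U i).side) →
    ∫⁻ l, P {ω | CE k U (DD Q (hat (U k) fun t => X t ω) l)} ≤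
      ee (K * ∑ i ∈ Finset.range (k + 1), (1 + r i) - n k * log 2 -
        65 / 64 * ∑ i ∈ Finset.range k, log ((n (i + 1) - n i : ℕ) : ℝ)) := by
  obtain ⟨Kb, hb⟩ := ballot
  obtain ⟨K, hK0, hK⟩ := core Kb (Kf * 2048 ^ 2)
  refine ⟨4 * K + 4, by positivity, fun k U n r hn0 hU hn hr hd => ?_⟩
  have hL := log2pos
  have hL1 : log 2 ≤ 1 := by linarith [Real.log_two_lt_d9]
  have mono : ∀ {i j}, i ≤ j → j ≤ k → n i ≤ n j := fun {i j} hij hj => by
    induction hij with
    | refl => exact le_rfl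
    | step _ ih => exact (ih (by omega)).trans (hn _ hj).le
  set T := U k with hT
  set N := n k with hN
  set d : ℕ → ℕ := fun i => Nat.casesOn i 1 fun i => n (i + 1) - n i with hdd
  set W : ℕ → Ω → ℝ := fun j ω => X (.inl (T, 0)) ω - X (.inl (T, j)) ω with hW
  set J : ℕ → ℕ → ℕ := fun i w => n i + 1 - max w 1 with hJ
  set S : ℕ → ℕ → Sq := fun i w => if w = 0 then U i else anc T (N - J i w + 1) with hS
  set Y : ℕ → ℕ → Ω → ℝ := fun i w ω =>
    (if w = 0 then -1 else 1) * (hat T (fun t => X t ω) (S i w) - W (J i w) ω) with hY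
  have hTn : T.n = N := hU k le_rfl
  have hJ1 : ∀ i ≤ k, ∀ w, J i w ≤ N := fun i hi w => by
    have := mono hi le_rfl
    simp only [hJ]; omega
  have hA : ∀ j ≤ N, (anc T (N - j + 1)).n = j - 1 := fun j hj => by
    rw [anc_n, hTn]; omega
  have hAs : ∀ j ≤ N, (anc T (N - j + 1)).side = 2 * (1 / 2) ^ j := fun j hj => by
    rw [side_of_n (S := ⟨j, 0, 0⟩) (k := 1) (hA j hj), side_nat (S := ⟨j, 0, 0⟩) rfl, pow_one]
  have hUd : ∀ i ≤ k, ∀ θ θ', ‖(cv (U i)).p θ - (cv T).p θ'‖ ≤ (r i + 4) * (1 / 2) ^ n i :=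
    fun i hi θ θ' => by
    have h1 := norm_sub_center (cv_mem (U i) θ)
    have h2 := norm_sub_center (cv_mem T θ')
    have h3 : T.side ≤ (U i).side := side_le_of_n (by
      rw [hTn, hU i hi]; exact_mod_cast mono hi le_rfl)
    have h4 := norm_sub_le_norm_sub_add_norm_sub ((cv (U i)).p θ) (U i).center ((cv T).p θ')
    have h5 := norm_sub_le_norm_sub_add_norm_sub (U i).center T.center ((cv T).p θ')
    rw [norm_sub_rev] at h2
    rw [← side_nat (hU i hi)]
    linarith [hd i hi, side_pos (U i)]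
  have hTT : ∀ j ≤ N, j * log 2 - 4 ≤ ik T T (j * log 2) := fun j hj => by
    have := ik_low (S := T) (T := T) (R := 2) (le_refl j) fun θ θ' =>
      (dist_in (cv_mem T θ) (cv_mem T θ')).trans (by
        rw [side_nat hTn]
        exact mul_le_mul_of_nonneg_left (pow_le_pow_of_le_one (by norm_num) (by norm_num) hj)
          zero_le_two)
    linarith
  have main := hK (P := P) k n d (fun i => r i + 4) W Y Q hQ.le hQ'.le
    (fun i => by linarith [hr i]) hn rfl (fun _ => rfl) (fun ω => by simp [hW, hn0])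
    (fun a x ha => hb (v := fun j => ik T T (j * log 2)) (CG_walk hX T) (fun j => by
      have h1 := kap_anti T T (show (j : ℝ) * log 2 ≤ (j + 1 : ℕ) * log 2 by push_cast; linarith)
      have h2 := kap_step T T (show (j : ℝ) * log 2 ≤ (j + 1 : ℕ) * log 2 by push_cast; linarith)
      simp only [ik]
      push_cast at *
      constructor <;> linarith) k n a x hn ha fun i hi => by
      have h1 := hTT _ (mono (show i + 1 ≤ k from hi) le_rfl)
      have h2 := ik_le T T (nlog (n i))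
      have h3 : ((n (i + 1) - n i : ℕ) : ℝ) = n (i + 1) - n i := Nat.cast_sub (hn i hi).le
      have h4 := mul_le_mul_of_nonneg_left Real.log_two_gt_d9.le
        (Nat.cast_nonneg (α := ℝ) (n (i + 1) - n i))
      have h5 := Nat.cast_nonneg (α := ℝ) (n (i + 1) - n i)
      rw [h3] at *
      linarith)
    fun w c t hw hc => by
      have := hf T k (fun i => S i (w i)) (fun i => J i (w i)) (fun i => r i + 4)
        (fun i => c i * if w i = 0 then -1 else 1) t 2048 (by norm_num) (fun i hi => by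
          have h1 := hn i hi
          have h2 : w (i + 1) ≤ n (i + 1) - n i := hw (i + 1)
          simp only [hJ]; omega) (fun i hi => by
          simp only [hS]
          split_ifs with h0
          · simp [hJ, h0, hU i hi]
          · rw [hA _ (hJ1 i hi _)]; omega) (fun i => by linarith [hr i])
        (fun i => by split_ifs <;> simpa using hc i) (fun i hi θ θ' => by
          simp only [hS]
          split_ifs with h0
          · simpa [hJ, h0] using hUd i hi θ θ'
          · refine (anc_dist _ _ θ θ').trans ?_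
            rw [hAs _ (hJ1 i hi _)]
            nlinarith [hr i, pow_pos (show (0 : ℝ) < 1 / 2 by norm_num) (J i (w i))])
        fun i hi θ θ' => by
          refine (dist_in (cv_mem _ θ) (cv_mem _ θ')).trans ?_
          simp only [hS]
          split_ifs with h0
          · rw [side_nat (hU i hi), show J i (w i) = n i by simp [hJ, h0]]
            nlinarith [hr i, pow_pos (show (0 : ℝ) < 1 / 2 by norm_num) (n i)]
          · rw [hAs _ (hJ1 i hi _)]
            nlinarith [hr i, pow_pos (show (0 : ℝ) < 1 / 2 by norm_num) (J i (w i))]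
      simpa only [hY, hat, hW, mul_assoc] using this
  have step : ∀ l, P {ω | CE k U (DD Q (hat T fun t => X t ω) l)} ≤ ee (4 - N * log 2) *
      ∫⁻ ω, {ω | ∀ i ≤ k, -l + W (n i) ω ≤ Y i 0 ω + 4 * (r i + 4) ∧ ∀ w, 1 ≤ w → w ≤ d i →
        -Y i w ω - 4 * (r i + 4) ≤ -l + W (n i + 1 - w) ω}.indicator
        (fun ω => ee (-Q * W N ω)) ω ∂P := fun l => by
    have hm : MeasurableSet {x | CE k U (DD Q (hat T x) l)} := measurableSet_setOfPred.2
      ((meas_CE k U).comp ((meas_DD Q).comp ((meas_hat T).prodMk measurable_const)))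
    have h1 := hX.tilt2 (.inl (T, 0)) (.inl (T, N)) Q (F := indicator _ 1)
      (measurable_one.indicator hm)
    rw [← lintegral_const_mul' _ _ (ee_ne_top _)]
    refine le_trans (le_of_eq ((lintegral_indicator_one (hX.measPi hm)).symm.trans h1))
      (lintegral_mono fun ω => ?_)
    by_cases hω : (fun t => X t ω + Q * (cW t (.inl (T, 0)) - cW t (.inl (T, N)))) ∈
      {x | CE k U (DD Q (hat T x) l)}
    swap
    · rw [indicator_of_notMem hω, zero_mul]; exact zero_le
    have e : ∀ V, hat T (fun t => X t ω + Q * (cW t (.inl (T, 0)) - cW t (.inl (T, N)))) V =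
        hat T (fun t => X t ω) V + Q * ik V T (N * log 2) := fun V => by
      simp only [hat, cW, ik, max_self, Nat.zero_max, Nat.cast_zero, zero_mul]; ring
    rw [indicator_of_mem hω, indicator_of_mem, Pi.one_apply, one_mul, ← ee_add]
    · have h2 := hTT N le_rfl
      have h3 : 0 ≤ ik T T (N * log 2) := sub_nonneg.2 (kap_anti T T (nlog N))
      have h4 := mul_le_mul_of_nonneg_right hQ2 h3
      refine ee_mono ?_
      simp only [cW, ik, max_self, Nat.zero_max, Nat.max_zero, Nat.cast_zero, zero_mul, hW] at *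
      linarith
    · intro i hi
      refine ⟨?_, fun w h1 h2 => ?_⟩
      · have h2 := hω.1 i hi
        have h3 := mul_le_mul_of_nonneg_left (ik_low (mono hi le_rfl) (hUd i hi)) hQ.le
        simp only [DD, lm, e, hU i hi, Int.cast_natCast] at h2
        have h4 : Y i 0 ω = -(hat T (fun t => X t ω) (U i) - W (n i) ω) := by simp [hY, hS, hJ]
        rw [h4]
        nlinarith [hr i]
      · have h3 := hω.2 (N - J i w)
        have h4 := hA _ (hJ1 i hi w)
        have h5 := mul_le_mul_of_nonneg_left (ik_up h4 (N * log 2)) hQ.le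
        have h6 : J i w = n i + 1 - w := by simp only [hJ]; omega
        have h7 : Y i w ω = hat T (fun t => X t ω) (anc T (N - J i w + 1)) - W (J i w) ω := by
          simp [hY, hS, show w ≠ 0 by omega]
        simp only [DD, lm, e, ← hT, h4, not_le] at h3
        rw [h7, ← h6]
        push_cast at h3
        nlinarith [hr i]
  refine (lintegral_mono step).trans ?_
  rw [lintegral_const_mul' _ _ (ee_ne_top _)]
  refine (mul_le_mul_right main _).trans ?_
  rw [← ee_add]
  refine ee_mono ?_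
  have f1 : ∑ i ∈ Finset.range (k + 1), (r i + 4) ≤ 4 * ∑ i ∈ Finset.range (k + 1), (1 + r i) := by
    rw [Finset.mul_sum]
    exact Finset.sum_le_sum fun i _ => by linarith [hr i]
  have f2 : 1 + r 0 ≤ ∑ i ∈ Finset.range (k + 1), (1 + r i) :=
    Finset.single_le_sum (f := fun i => 1 + r i) (fun i _ => by linarith [hr i]) (by simp)
  nlinarith [mul_le_mul_of_nonneg_left f1 hK0, hr 0]

theorem center_sc (m : ℤ) (S : Sq) : (sc m S).center = ((2 : ℝ) ^ (-m) : ℝ) * S.center ∧
    (sc m S).side = 2 ^ (-m) * S.side := by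
  have e : (sc m S).side = 2 ^ (-m) * S.side := by
    simp only [Sq.side, sc]
    rw [← zpow_add₀ two_ne_zero]; congr 1; ring
  refine ⟨?_, e⟩
  apply Complex.ext
  · rw [Complex.re_ofReal_mul]; simp only [Sq.center, e]; simp only [sc]; ring
  · rw [Complex.im_ofReal_mul]; simp only [Sq.center, e]; simp only [sc]; ring

theorem pc_of_flat (hh : CG h P gffCov) (hQ : 0 < Q) (hQ' : Q < 2) (hQ2 : 2 ≤ Q ^ 2)
    (hf : ∀ X, CG X PW cW → ∃ K, FlatSt K X PW) : ∃ K, 0 ≤ K ∧ PC Q h P K := by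
  obtain ⟨X, hX⟩ := exists_W
  obtain ⟨Kf, hf⟩ := hf X hX
  obtain ⟨K, hK0, hK⟩ := pc0 hX hf hQ hQ' hQ2
  refine ⟨K, hK0, fun k U r hn hr hd => ?_⟩
  have mono : ∀ i ≤ k, (U 0).n ≤ (U i).n := fun i hi => by
    induction i with
    | zero => exact le_rfl
    | succ i ih => exact (ih (by omega)).trans (hn i hi).le
  set m := (U 0).n with hm
  set n : ℕ → ℕ := fun i => ((U i).n - m).toNat with hnn
  have e1 : ∀ i ≤ k, (n i : ℤ) = (U i).n - m := fun i hi => by
    have := mono i hi
    simp only [hnn]; omega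
  have e2 : (CE k U) = fun D => CE k (fun i => sc (-m) (U i)) (D ∘ sc m) := by
    funext D
    simp only [CE, Function.comp, anc_sc, sc_sc, neg_add_cancel, sc_zero]
  rw [e2, EV_sc hh (meas_CE _ _), EV_hat hh hX (sc (-m) (U k)) (meas_CE _ _)]
  refine (hK k (fun i => sc (-m) (U i)) n r (by simp [hnn, hm]) (fun i hi => by
    rw [e1 i hi]; rfl) (fun i hi => by
      have h1 := e1 i hi.le
      have h2 := e1 (i + 1) hi
      have h3 := hn i hi
      omega) hr fun i hi => ?_).trans (le_of_eq ?_)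
  · rw [(center_sc _ _).1, (center_sc _ _).1, (center_sc _ _).2, ← mul_sub, norm_mul,
      Complex.norm_real, Real.norm_eq_abs, abs_of_pos (by positivity), mul_left_comm]
    exact mul_le_mul_of_nonneg_left (hd i hi) (by positivity)
  · simp only [phi]
    rw [ee_sum, ← ee_add, Finset.sum_sub_distrib, ← Finset.mul_sum, ← Finset.mul_sum]
    have e3 : ∑ i ∈ Finset.range k, ((((U (i + 1)).n - (U i).n : ℤ)) : ℝ) = n k := by
      have := Finset.sum_range_sub (fun i => ((U i).n : ℝ)) k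
      have h2 : (n k : ℝ) = (U k).n - m := by exact_mod_cast e1 k le_rfl
      push_cast
      rw [this, h2]
    have e4 : ∑ i ∈ Finset.range k, log ((n (i + 1) - n i : ℕ) : ℝ) =
        ∑ i ∈ Finset.range k, log ((((U (i + 1)).n - (U i).n : ℤ)) : ℝ) :=
      Finset.sum_congr rfl fun i hi => by
        have h0 := Finset.mem_range.1 hi
        have h1 := e1 i h0.le
        have h2 := e1 (i + 1) h0
        have h3 := hn i h0
        rw [← Int.cast_natCast, show ((n (i + 1) - n i : ℕ) : ℤ) = (U (i + 1)).n - (U i).n by omega]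
    rw [e3, e4]
    congr 1; ring

end Pool.Agent.Lib.MP_d1f1b2_pr
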