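import Pool.Agent.Lib.D1W.U2

/-! A binary tree of unmarked squares joined by marked corridors gives exponential growth. -/

open Set Filter
open scoped ENNReal

namespace Pool.Agent.Lib.MP_d1f1b2_pr

/-- The corridors inside `B` are covered by tiles. -/
def Cor (J e : ℕ) (D : Sq → Prop) (B : Sq) : Prop :=
  ∀ a b, In (J + e) a b → (b = 0 ∨ 2 ^ e ∣ a) → ¬ alive D (sub B (J + e) a b)

/-- A binary tree with `n` generations. -/
def Tr (J e : ℕ) (D : Sq → Prop) : ℕ → Sq → Prop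
  | 0, B => alive D B ∧ Cor J e D B
  | n + 1, B => (alive D B ∧ Cor J e D B) ∧ ∃ a b a' b', In J a b ∧ In J a' b' ∧ b ≠ b' ∧
      Tr J e D n (sub B J a b) ∧ Tr J e D n (sub B J a' b')

theorem meas_Tr (J e n : ℕ) (B : Sq) : Measurable fun D => Tr J e D n B := by
  have h : ∀ B, Measurable fun D => alive D B ∧ Cor J e D B := fun B =>
    (meas_alive B).and (Measurable.forall fun _ => Measurable.forall fun _ =>
      measurable_const.imp (measurable_const.imp (meas_alive _).not))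
  induction n generalizing B with
  | zero => exact h B
  | succ n ih =>
    exact (h B).and (Measurable.exists fun _ => Measurable.exists fun _ =>
      Measurable.exists fun _ => Measurable.exists fun _ => measurable_const.and
        (measurable_const.and (measurable_const.and ((ih _).and (ih _)))))

variable {D : Sq → Prop} {J e : ℕ}

theorem Tr.base {n : ℕ} {B : Sq} (h : Tr J e D n B) : alive D B ∧ Cor J e D B := by
  cases n
  exacts [h, h.1]

theorem chain_rk (hT : Top D) (c : ℤ → Sq) (hc : ∀ x, Sh (c x) (c (x + 1))) (d : ℕ)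
    (hal : ∀ x : ℤ, 0 ≤ x → x ≤ d → ¬ alive D (c x)) {k l : ℕ} (h : tile D (anc (c 0) k))
    (h' : tile D (anc (c d) l)) : Rk D d (anc (c 0) k) (anc (c d) l) := by
  induction d generalizing l with
  | zero =>
    simp only [Nat.cast_zero] at h' ⊢
    rw [tile_unique h h']
    rfl
  | succ d ih =>
    obtain ⟨k', hk'⟩ := exists_tile hT (hal d (by omega) (by push_cast; omega))
    have ht := ih (fun x h1 h2 => hal x h1 (by push_cast; omega)) hk'
    push_cast at h' ⊢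
    exact ht.trans (rk_of_sh (hc _) hk' h')

theorem step_rk (hT : Top D) {B : Sq} (hC : Cor J e D B) {a b : ℤ} (hin : In J a b) {k : ℕ}
    (hk : tile D (anc (sub B (J + e) 0 0) k)) :
    ∃ l, tile D (anc (sub (sub B J a b) (J + e) 0 0) l) ∧
      Rk D (2 ^ (J + e + 1)) (anc (sub B (J + e) 0 0) k) (anc (sub (sub B J a b) (J + e) 0 0) l) := by
  obtain ⟨a1, a2, a3, a4⟩ := hin
  have hp := p2pos e
  have b2 : a * 2 ^ e < 2 ^ (J + e) := by rw [pow_add]; gcongr
  have b4 : b * 2 ^ e < 2 ^ (J + e) := by rw [pow_add]; gcongr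
  obtain ⟨x, hx⟩ := Int.eq_ofNat_of_zero_le (show 0 ≤ a * 2 ^ e by positivity)
  obtain ⟨y, hy⟩ := Int.eq_ofNat_of_zero_le (show 0 ≤ b * 2 ^ e by positivity)
  have h1 : ∀ z : ℤ, 0 ≤ z → z ≤ x → ¬ alive D (sub B (J + e) z 0) := fun z z1 z2 =>
    hC z 0 ⟨z1, by omega, le_rfl, p2pos _⟩ (Or.inl rfl)
  have h2 : ∀ z : ℤ, 0 ≤ z → z ≤ y → ¬ alive D (sub B (J + e) x z) := fun z z1 z2 =>
    hC x z ⟨by omega, by omega, z1, by omega⟩ (Or.inr (hx ▸ dvd_mul_left _ _))
  obtain ⟨k1, hk1⟩ := exists_tile hT (h1 x (by omega) le_rfl)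
  obtain ⟨k2, hk2⟩ := exists_tile hT (h2 y (by omega) le_rfl)
  have r1 := chain_rk hT (fun z => sub B (J + e) z 0)
    (fun z => by simpa only [sub, ← add_assoc] using sh_horiz _ _ _) x h1 hk hk1
  have r2 := chain_rk hT (fun z => sub B (J + e) x z)
    (fun z => by simpa only [sub, ← add_assoc] using sh_vert _ _ _) y h2 hk1 hk2
  have e1 : anc (sub (sub B J a b) (J + e) 0 0) (J + k2) = anc (sub B (J + e) x y) k2 := by
    rw [← anc_anc, anc_sub _ (Nat.le_add_right _ _), Nat.add_sub_cancel_left, sub_sub', ← hx, ← hy]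
    simp
  refine ⟨J + k2, e1 ▸ hk2, e1 ▸ (r1.trans r2).mono ?_⟩
  have : ((2 ^ (J + e) : ℕ) : ℤ) = 2 ^ (J + e) := by push_cast; rfl
  rw [pow_succ]
  omega

theorem tr_grow (hT : Top D) {n : ℕ} {B : Sq} (h : Tr J e D n B) {k : ℕ}
    (hk : tile D (anc (sub B (J + e) 0 0) k)) : ∃ F : Finset Sq, 2 ^ n ≤ F.card ∧ ∀ T ∈ F,
      Rk D (2 ^ (J + e + 1) * n) (anc (sub B (J + e) 0 0) k) T ∧ ∃ i, anc T i = B := by
  have hin : In (J + e) 0 0 := ⟨le_rfl, p2pos _, le_rfl, p2pos _⟩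
  induction n generalizing B k with
  | zero =>
    refine ⟨{anc (sub B (J + e) 0 0) k}, by simp, fun T hT => ?_⟩
    rw [Finset.mem_singleton.1 hT]
    refine ⟨Rk.refl _ _, ?_⟩
    rcases le_total k (J + e) with hl | hl
    · exact ⟨J + e - k, by rw [anc_anc, Nat.add_sub_cancel' hl, anc_sub_self _ hin]⟩
    · obtain ⟨d, rfl⟩ := Nat.exists_eq_add_of_le hl
      rw [← anc_anc, anc_sub_self _ hin] at hk
      exact absurd hk.1 (h.1 d)
  | succ n ih =>
    obtain ⟨⟨-, hC⟩, a, b, a', b', h1, h2, hne, t1, t2⟩ := h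
    obtain ⟨l, hl, r⟩ := step_rk hT hC h1 hk
    obtain ⟨l', hl', r'⟩ := step_rk hT hC h2 hk
    obtain ⟨F, f1, f2⟩ := ih t1 hl
    obtain ⟨F', f1', f2'⟩ := ih t2 hl'
    have hd : Disjoint F F' := Finset.disjoint_left.2 fun T hT hT' => by
      obtain ⟨i, hi⟩ := (f2 T hT).2
      obtain ⟨i', hi'⟩ := (f2' T hT').2
      have g1 := congrArg Sq.n hi
      have g2 := congrArg Sq.n hi'
      simp only [anc, sub] at g1 g2
      have g3 := congrArg Sq.j (hi.symm.trans ((show i = i' by omega) ▸ hi'))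
      simp only [sub] at g3
      omega
    refine ⟨F.disjUnion F' hd, by rw [Finset.card_disjUnion, pow_succ]; omega, fun T hT => ?_⟩
    rw [mul_add, mul_one, add_comm (_ * n)]
    rcases Finset.mem_disjUnion.1 hT with hT | hT
    · obtain ⟨g, i, hi⟩ := f2 T hT
      exact ⟨r.trans g, i + J, by rw [← anc_anc, hi, anc_sub_self _ h1]⟩
    · obtain ⟨g, i, hi⟩ := f2' T hT
      exact ⟨r'.trans g, i + J, by rw [← anc_anc, hi, anc_sub_self _ h2]⟩

/-- Exponential lower bound on the size of balls. -/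
def LB (c : ℝ) (r : ℕ) (D : Sq → Prop) (S : Sq) : Prop := ∀ ρ, r ≤ ρ → ee (c * ρ) ≤ NB D ρ S

theorem tr_LB (hT : Top D) (h : ∀ n, Tr J e D n O) :
    ∃ N, tile D ⟨N, 0, 0⟩ ∧ LB (Real.log 2 / (2 * 2 ^ (J + e + 1))) (2 ^ (J + e + 1)) D ⟨N, 0, 0⟩ := by
  obtain ⟨k, hk⟩ := exists_tile hT ((h 0).2 0 0 ⟨le_rfl, p2pos _, le_rfl, p2pos _⟩ (Or.inl rfl))
  have e1 : anc (sub O (J + e) 0 0) k = ⟨J + e - k, 0, 0⟩ := by simp [anc, sub, O]
  refine ⟨_, e1 ▸ hk, fun ρ hρ => ?_⟩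
  set L := 2 ^ (J + e + 1) with hL
  have hL0 : 0 < L := by positivity
  obtain ⟨F, f1, f2⟩ := tr_grow hT (h (ρ / L)) hk
  have h1 : ρ ≤ 2 * L * (ρ / L) := by
    have := Nat.lt_mul_div_succ ρ hL0
    have := Nat.div_pos hρ hL0
    nlinarith
  calc ee (Real.log 2 / (2 * 2 ^ (J + e + 1)) * ρ) ≤ ee ((ρ / L : ℕ) * Real.log 2) := by
        refine ee_mono ?_
        have h2 : (ρ : ℝ) ≤ 2 * 2 ^ (J + e + 1) * (ρ / L : ℕ) := by exact_mod_cast h1
        rw [div_mul_eq_mul_div, div_le_iff₀ (by positivity)]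
        nlinarith [log2pos]
    _ ≤ (F.card : ℝ≥0∞) := by rw [ee_nat_mul, ee_log2]; exact_mod_cast f1
    _ ≤ NB D ρ _ := by
        rw [NB, ← ENat.toENNReal_coe, ← encard_coe_eq_coe_finsetCard]
        exact ENat.toENNReal_le.2 (encard_le_encard fun T hT =>
          e1 ▸ (f2 T hT).1.mono (Nat.mul_div_le _ _))

end Pool.Agent.Lib.MP_d1f1b2_pr
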