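import Pool.Agent.Lib.D1W.Whp
import Pool.Agent.Lib.D1W.Tree

/-! The branching events, their probability, and the tree they produce. -/

open Set Filter MeasureTheory ProbabilityTheory Real
open scoped ENNReal Topology

namespace Pool.Agent.Lib.MP_d1f1b2_pr

/-- The lower slope of the cone: going down or going up. -/
def slo (Q δ : ℝ) (α : Bool) : ℝ := if α then Q - 6 * δ else Q + 4 * δ

/-- The branching event with `n` generations. -/
def En (Q δ ε : ℝ) (C : Bool → ℝ) (i e : ℕ) : ℕ → (Ix → ℝ) → Prop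
  | 0 => WW Q (2 + (i + 2)) e ε
  | n + 1 => fun y => WW Q (2 + (i + 2)) e ε y ∧ ∀ c : Bool × Bool,
      Fc (slo Q δ c.1) (slo Q δ c.1 + δ + δ) (C c.1) i (En Q δ ε C i e n)
        fun k => y (ch (2, cor c.1 2, cor c.2 2) k)

variable {Q δ ε u : ℝ} {C : Bool → ℝ} {i e : ℕ}

theorem meas_En (n : ℕ) : Measurable (En Q δ ε C i e n) := by
  induction n with
  | zero => exact meas_WW _ _ _ _
  | succ n ih =>
    exact (meas_WW _ _ _ _).and (Measurable.forall fun c => (meas_Fc _ _ _ _ ih).comp (by fun_prop))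

theorem En.pred {n : ℕ} {y : Ix → ℝ} (h : En Q δ ε C i e (n + 1) y) : En Q δ ε C i e n y := by
  induction n generalizing y with
  | zero => exact h.1
  | succ n ih =>
    refine ⟨h.1, fun c => ?_⟩
    obtain ⟨a, b, h1, h2, h3⟩ := h.2 c
    exact ⟨a, b, h1, h2, ih h3⟩

theorem En.ww {n : ℕ} {y : Ix → ℝ} (h : En Q δ ε C i e n y) : WW Q (2 + (i + 2)) e ε y := by
  cases n
  exacts [h, h.1]

theorem rec_prob {Ω : Type*} {mΩ : MeasurableSpace Ω} {P : Measure Ω} (hQ : 0 < Q) (hQ' : Q < 2)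
    (hQ2 : 2 ≤ Q ^ 2) : ∃ δ > 0, ∃ (C : Bool → ℝ) (p0 : ℝ≥0∞), p0 ≠ 0 ∧ p0 ≠ ∞ ∧ ∀ᶠ i in atTop,
      ∃ e, ∀ Z : Ix → Ω → ℝ, CG Z P cZ →
        p0 ≤ P {ω | ∀ n, En Q δ (δ * log 2 / 2 * (i + 2 : ℕ)) C i e n fun k => Z k ω} := by
  have hL := log2pos
  have hQ1 : 1 < Q := by nlinarith
  obtain ⟨δ, hδ, hδ1, hδ2⟩ : ∃ δ > 0, δ ≤ 1 / 10 ∧ 40 * δ ≤ 4 - Q ^ 2 :=
    ⟨(4 - Q ^ 2) / 40, by nlinarith, by nlinarith, by linarith⟩
  have hs : ∀ α, 0 < slo Q δ α ∧ (slo Q δ α + δ) ^ 2 / 2 + (slo Q δ α + δ) * δ < 2 := by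
    rintro (_ | _) <;> simp only [slo, Bool.false_eq_true, if_true, if_false] <;>
      constructor <;> nlinarith
  choose C g hg0 hg using fun α => sm (P := P) (hs α).1 hδ (hs α).2
  set g1 := min 1 (min (g true) (g false)) with hg1
  have a0 : g1 ≠ 0 := (lt_min one_pos (lt_min (pos_iff_ne_zero.2 (hg0 _))
    (pos_iff_ne_zero.2 (hg0 _)))).ne'
  have a1 : g1 ^ 4 ≤ 1 := pow_le_one' (min_le_left _ _) _
  have a2 : ∀ α, g1 ≤ g α := by
    rintro (_ | _)
    exacts [(min_le_right _ _).trans (min_le_right _ _), (min_le_right _ _).trans (min_le_left _ _)]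
  have b0 : g1 ^ 4 / 2 ≠ 0 := (ENNReal.div_pos (pow_ne_zero _ a0) (by simp)).ne'
  have b1 : g1 ^ 4 / 2 ≠ ∞ := ENNReal.div_ne_top (ne_top_of_le_ne_top (by simp) a1) two_ne_zero
  refine ⟨δ, hδ, C, g1 ^ 4 / 2, b0, b1, ?_⟩
  filter_upwards [eventually_all.2 fun α => hg α _ b0, (tendsto_add_atTop_nat 2).eventually
    (WW_prob (P := P) (κ := δ * log 2 / 2) hQ hQ2 (by positivity) (η := g1 ^ 4 / 2 / 3)
    (ENNReal.div_pos b0 (by simp)).ne')] with i h1 h2
  obtain ⟨e, he⟩ := h2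
  rw [ENNReal.add_thirds] at he
  set ε := δ * log 2 / 2 * (i + 2 : ℕ)
  have key : ∀ (Z : Ix → Ω → ℝ) (A : Set Ω), CG Z P cZ → g1 ^ 4 ≤ P A →
      g1 ^ 4 / 2 ≤ P {ω | WW Q (2 + (i + 2)) e ε (fun k => Z k ω) ∧ ω ∈ A} := fun Z A h hA => by
    refine ENNReal.le_of_add_le_add_right b1 ?_
    rw [ENNReal.add_halves]
    refine hA.trans ((measure_mono fun ω hω => ?_).trans ((measure_union_le _ _).trans
      (add_le_add_right (he Z h) _)))
    by_cases hw : WW Q (2 + (i + 2)) e ε fun k => Z k ω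
    exacts [Or.inl ⟨hw, hω⟩, Or.inr hw]
  have main : ∀ n (Z : Ix → Ω → ℝ), CG Z P cZ →
      g1 ^ 4 / 2 ≤ P {ω | En Q δ ε C i e n fun k => Z k ω} := fun n => by
    induction n with
    | zero =>
      intro Z h
      have := h.prob
      exact (key Z univ h (a1.trans_eq measure_univ.symm)).trans (measure_mono fun ω hω => hω.1)
    | succ n ih =>
      intro Z h
      have hi := h.iIndep (fun c : Bool × Bool => ch (2, cor c.1 2, cor c.2 2)) fun c c' hc =>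
        cZ_sep (in_cor _ _ _) (in_cor _ _ _) (by revert c c'; decide)
      have hm := hi.meas_iInter (s := fun c => {ω | Fc (slo Q δ c.1) (slo Q δ c.1 + δ + δ) (C c.1) i
          (En Q δ ε C i e n) fun k => Z (ch (2, cor c.1 2, cor c.2 2) k) ω})
        fun c => ⟨_, measurableSet_setOfPred.2 (meas_Fc _ _ _ _ (meas_En n)), rfl⟩
      refine (key Z _ h (le_of_le_of_eq ?_ hm.symm)).trans
        (measure_mono fun ω hω => ⟨hω.1, mem_iInter.1 hω.2⟩)
      refine Finset.pow_card_le_prod Finset.univ _ g1 fun c _ => (a2 c.1).trans ?_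
      have hc := CG_ch h (in_cor c.1 c.2 2)
      exact h1 c.1 _ hc _ (meas_En n) (ih _ hc)
  refine ⟨e, fun Z h => ?_⟩
  have := h.prob
  have ht := tendsto_measure_iInter_atTop (μ := P)
    (s := fun n => {ω | En Q δ ε C i e n fun k => Z k ω})
    (fun n => (measurableSet_setOfPred.2 ((meas_En n).comp h.measPi)).nullMeasurableSet)
    (antitone_nat_of_succ_le fun n ω hω => En.pred hω) ⟨0, measure_ne_top _ _⟩
  exact (ge_of_tendsto' ht fun n => main n Z h).trans (measure_mono fun ω hω n => (mem_iInter.1 hω n :))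

theorem Osc.at' {J : ℕ} {v : ℕ × ℤ × ℤ → ℝ} (h : Osc J ε v) {d n : ℕ} (hn : n = J + d) {a b : ℤ}
    (hin : In (n + 1) a b) : |v (n + 1, a, b) - v (n, a / 2, b / 2)| ≤ ε * (3 / 4) ^ d := by
  subst hn; exact h d a b hin

theorem Osc.tot {v : ℕ × ℤ × ℤ → ℝ} (h : Osc 0 ε v) {m : ℕ} {a b : ℤ} (hin : In m a b) :
    |v (m, a, b) - v (0, 0, 0)| ≤ 4 * ε - 4 * ε * (3 / 4) ^ m := by
  induction m generalizing a b with
  | zero =>
    obtain ⟨_, _, _, _⟩ := hin
    obtain rfl : a = 0 := by omega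
    obtain rfl : b = 0 := by omega
    simp
  | succ m ih =>
    have h1 := h.at' (zero_add m).symm hin
    have h2 := ih hin.par
    rw [abs_le] at *
    rw [pow_succ]
    constructor <;> linarith [h1.1, h1.2, h2.1, h2.2]

/-- The state of the coarse field when a square of the tree is reached. -/
structure Inv (Q ε u : ℝ) (x : Sq → ℝ) (B : Sq) (y : Ix → ℝ) : Prop where
  up : ∀ k, u < lm Q x (anc B (k + 1))
  lo : 9 * ε ≤ lm Q x B - y ((0, 0, 0), 0) - u
  hi : lm Q x B - y ((0, 0, 0), 0) - u ≤ 46 * ε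
  osc : Osc 0 ε fun p => x (cl B p) - y (p, 0)

variable {x : Sq → ℝ} {B : Sq} {y : Ix → ℝ}

theorem in_zero (m : ℕ) : In m 0 0 := ⟨le_rfl, p2pos _, le_rfl, p2pos _⟩

theorem Inv.lm (h : Inv Q ε u x B y) (hε : 0 < ε) {m : ℕ} {a b : ℤ} (hin : In m a b) :
    |lm Q x (sub B m a b) - (lm Q x B - y ((0, 0, 0), 0)) -
      (y ((m, a, b), 0) - Q * (m * log 2))| ≤ 4 * ε := by
  have h1 := h.osc.tot hin
  have h2 : 0 ≤ 4 * ε * (3 / 4) ^ m := by positivity
  simp only [hin.cl, (in_zero 0).cl, sub_zero'] at h1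
  rw [lm_sub]
  rw [abs_le] at *
  constructor <;> linarith [h1.1, h1.2]

theorem Inv.top (h : Inv Q ε u x B y) (hε : 0 < ε) (hQ : 0 < Q) (hQε : Q * (2 * log 2) ≤ ε) {J : ℕ}
    (hw : W1 (2 + J) ε y) {m : ℕ} (hm : m ≤ 2) {a b : ℤ} (hin : In m a b) (k : ℕ) :
    u < MP_d1f1b2_pr.lm Q x (anc (sub B m a b) k) := by
  rcases le_or_gt k m with hk | hk
  · have h1 := abs_le.1 (h.lm hε (hin.div hk))
    obtain ⟨h2, h3⟩ := hw (m - k) (by omega) _ _ (hin.div hk)
    rw [max_eq_right (by omega), abs_le] at h3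
    rw [abs_le] at h2
    have h4 : ((m - k : ℕ) : ℝ) ≤ 2 := by exact_mod_cast (Nat.sub_le _ _).trans hm
    have h5 := mul_le_mul_of_nonneg_left h4 (mul_pos hQ log2pos).le
    rw [anc_sub _ hk]
    linarith [h.lo, h1.1, h2.1, h3.1]
  · obtain ⟨d, rfl⟩ := Nat.exists_eq_add_of_lt hk
    rw [add_assoc, ← anc_anc, anc_sub_self _ hin]
    exact h.up d

theorem Inv.step (h : Inv Q ε u x B y) (hε : 0 < ε) (hQ : 0 < Q) (hQε : Q * (2 * log 2) ≤ ε)
    (hδ : 0 < δ) {m : ℕ} (hm1 : 1 ≤ m) (hm : δ * (m * log 2) = 2 * ε) (hw : WW Q (2 + m) e ε y)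
    {c : ℝ} (hc : c ≤ ε) {α : Bool} {s t a b : ℤ} (hs : In 2 s t) (hin : In m a b)
    (hα : if α then 28 * ε ≤ MP_d1f1b2_pr.lm Q x B - y ((0, 0, 0), 0) - u
      else MP_d1f1b2_pr.lm Q x B - y ((0, 0, 0), 0) - u ≤ 28 * ε)
    (hG : (xl m fun k => y (ch (2, s, t) k)) ∈ Cone (slo Q δ α) (slo Q δ α + δ + δ) c m a b) :
    Inv Q ε u x (sub (sub B 2 s t) m a b) fun k => y (ch (2, s, t) (ch (m, a, b) k)) := by
  have hL := log2pos
  have l1 := h.lo
  have l2 := h.hi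
  have hQ0 : 0 < Q * (2 * log 2) := by positivity
  have key := fun k (hk : k ≤ m) => And.intro (hG k hk) (And.intro
    (hw.1 (2 + (m - k)) (by omega) _ _ (hs.cat (hin.div hk))) (h.lm hε (hs.cat (hin.div hk))))
  have e0 : ch (2, s, t) (ch (m, a, b) ((0, 0, 0), 0)) =
      ((2 + m, s * 2 ^ m + a, t * 2 ^ m + b), 2 + m) := by
    rw [(in_zero 0).ch]; simp [hin.ch]
  have k0 := key 0 (Nat.zero_le _)
  simp only [xl, hin.ch, Nat.sub_zero, pow_zero, Int.ediv_one, min_self, add_zero, abs_le,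
    Nat.cast_add, Nat.cast_ofNat] at k0
  obtain ⟨⟨k1, k2⟩, ⟨⟨k3, k4⟩, -⟩, k5, k6⟩ := k0
  refine ⟨fun k => ?_, ?_, ?_, fun d a' b' hin' => ?_⟩
  · rcases le_or_gt (k + 1) m with hk | hk
    · have := key _ hk
      simp only [xl, (hin.div hk).ch, min_eq_left (Nat.sub_le m _), add_zero, abs_le,
        max_eq_left (Nat.le_add_right 2 _), Nat.cast_add, Nat.cast_ofNat] at this
      obtain ⟨⟨j1, -⟩, ⟨⟨j3, -⟩, j4, -⟩, j5, -⟩ := this
      rw [anc_sub _ hk, sub_sub']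
      have h4 : ((m - (k + 1) : ℕ) : ℝ) ≤ m := by exact_mod_cast Nat.sub_le _ _
      have h5 := mul_le_mul_of_nonneg_left h4 (mul_pos hδ hL).le
      have h6 := mul_nonneg hδ.le (nat_log_nonneg (m - (k + 1)))
      cases α <;> simp only [slo, Bool.false_eq_true, if_true, if_false] at hα j1 <;> linarith
    · obtain ⟨d, hd⟩ := Nat.exists_eq_add_of_le hk.le
      rw [hd, ← anc_anc, anc_sub_self _ hin]
      exact h.top hε hQ hQε hw.1 le_rfl hs d
  · rw [e0, sub_sub']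
    cases α <;> simp only [slo, Bool.false_eq_true, if_true, if_false] at hα k1 <;> linarith
  · rw [e0, sub_sub']
    cases α <;> simp only [slo, Bool.false_eq_true, if_true, if_false] at hα k2 <;> linarith
  · rw [zero_add] at hin' ⊢
    have hc := (hs.cat hin).cat hin'
    have h1 := h.osc.at' (n := 2 + m + d) (zero_add _).symm hc
    have h2 := hw.2.1.at' (n := 2 + m + d) rfl hc
    have e1 : ∀ r r' : ℤ, (r * 2 ^ (d + 1) + r') / 2 = r * 2 ^ d + r' / 2 := fun r r' => by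
      rw [pow_succ, ← mul_assoc]; omega
    have h3 : ε * (3 / 4) ^ (2 + m + d) ≤ ε / 2 * (3 / 4) ^ d := by
      have : (3 / 4 : ℝ) ^ (2 + m) ≤ (3 / 4) ^ 3 :=
        pow_le_pow_of_le_one (by norm_num) (by norm_num) (by omega)
      rw [pow_add, ← mul_assoc]
      gcongr
      nlinarith
    simp only [ch_ch hin]
    simp only [sub_sub' B 2, ← cl_ch (hs.cat hin) B (_, 0), hin'.ch, hin'.par.ch, add_zero]
    simp only [e1, add_assoc (2 + m)] at h1 h2
    rw [abs_le] at *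
    constructor <;> linarith [h1.1, h1.2, h2.1, h2.2]

theorem Inv.tr (hε : 0 < ε) (hQ : 0 < Q) (hQε : Q * (2 * log 2) ≤ ε) (hδ : 0 < δ)
    (hm : δ * ((i + 2 : ℕ) * log 2) = 2 * ε) (hC : ∀ α, C α ≤ ε) {n : ℕ} (h : Inv Q ε u x B y)
    (hE : En Q δ ε C i e n y) : Tr (2 + (i + 2)) e (DD Q x u) n B := by
  have base : ∀ {n B y}, Inv Q ε u x B y → En Q δ ε C i e n y →
      alive (DD Q x u) B ∧ Cor (2 + (i + 2)) e (DD Q x u) B := fun {n B y} h hE => by
    refine ⟨fun k => not_le.2 ?_, fun a b hin hab hal => hal 0 ?_⟩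
    · simpa using h.top hε hQ hQε hE.ww.1 (Nat.zero_le _) (in_zero 0) k
    · have h1 := hE.ww.2.2 a b hin hab
      have h2 := (abs_le.1 (h.lm hε hin)).2
      rw [anc_zero, DD]
      linarith [h.hi]
  induction n generalizing B y with
  | zero => exact base h hE
  | succ n ih =>
    obtain ⟨α, hα⟩ : ∃ α : Bool, if α then 28 * ε ≤ MP_d1f1b2_pr.lm Q x B - y ((0, 0, 0), 0) - u
        else MP_d1f1b2_pr.lm Q x B - y ((0, 0, 0), 0) - u ≤ 28 * ε := by
      rcases le_total (28 * ε) (MP_d1f1b2_pr.lm Q x B - y ((0, 0, 0), 0) - u) with h | h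
      exacts [⟨true, h⟩, ⟨false, h⟩]
    obtain ⟨a, b, h1, h2, h3⟩ := hE.2 (α, false)
    obtain ⟨a', b', h1', h2', h3'⟩ := hE.2 (α, true)
    have t1 := ih (h.step hε hQ hQε hδ (by omega) hm hE.1 (hC α) (in_cor _ _ _) h1.four hα h2) h3
    have t2 := ih (h.step hε hQ hQε hδ (by omega) hm hE.1 (hC α) (in_cor _ _ _) h1'.four hα h2') h3'
    rw [sub_sub'] at t1 t2
    refine ⟨base h hE, _, _, _, _, (in_cor _ _ _).cat h1.four, (in_cor _ _ _).cat h1'.four, ?_,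
      t1, t2⟩
    have g1 := h1.four.2.2.2
    have g2 := h1'.four.2.2.1
    have g3 := p2pos (i + 2)
    simp only [cor, Bool.false_eq_true, if_true, if_false]
    intro g4
    linarith

end Pool.Agent.Lib.MP_d1f1b2_pr
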