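import Mathlib

/-! The renewal density of a Gaussian random walk with negative drift. -/

open Set Filter MeasureTheory ProbabilityTheory Real
open scoped ENNReal Topology NNReal

namespace Pool.Agent.Lib.MP_d1f1b2_pr

/-- density at `y` of the renewal measure of the walk with steps of mean `-m` and variance `v` -/
noncomputable def RN (v m y : ℝ) : ℝ≥0∞ :=
  ∑' k : ℕ, gaussianPDF 0 ((k + 1) * v).toNNReal (y + (k + 1) * m)

namespace Ren

variable {v m a : ℝ}

noncomputable def ff (v m a t : ℝ) : ℝ := (√(2 * π * (t * v)))⁻¹ * exp (-(t * m - a) ^ 2 / (2 * (t * v)))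

theorem ff_nonneg (t : ℝ) : 0 ≤ ff v m a t := by unfold ff; positivity

theorem meas_ff : Measurable fun t => ENNReal.ofReal (ff v m a t) := by unfold ff; fun_prop

theorem RN_eq (hv : 0 < v) : RN v m (-a) = ∑' k : ℕ, ENNReal.ofReal (ff v m a (k + 1)) := by
  refine tsum_congr fun k => ?_
  rw [gaussianPDF, gaussianPDFReal, ff, Real.coe_toNNReal _ (by positivity), sub_zero,
    neg_add_eq_sub]

theorem schlo (hm : 0 < m) (ha : 0 < a) {g : ℝ → ℝ≥0∞} (hg : Measurable g) (he : ∀ x, g (-x) = g x) :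
    ∫⁻ x, g x = ENNReal.ofReal (2 * m) * ∫⁻ r in Ioi 0, g (m * r - a / r) := by
  have i1 : (fun r => m * r - a / r) '' Ioi 0 = univ := by
    refine eq_univ_of_forall fun w => ?_
    have h1 : |w| < √(w ^ 2 + 4 * m * a) := lt_sqrt_of_sq_lt (by rw [sq_abs]; nlinarith [mul_pos hm ha])
    have h2 := sq_sqrt (show 0 ≤ w ^ 2 + 4 * m * a by positivity)
    have h3 : 0 < w + √(w ^ 2 + 4 * m * a) := by linarith [neg_abs_le w]
    refine ⟨(w + √(w ^ 2 + 4 * m * a)) / (2 * m), div_pos h3 (by linarith), ?_⟩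
    generalize √(w ^ 2 + 4 * m * a) = s at *
    field_simp
    nlinarith
  have i2 : (fun r => a / m * r⁻¹) '' Ioi 0 = Ioi 0 := by
    ext w
    refine ⟨fun ⟨r, h1, h2⟩ => h2 ▸ mul_pos (div_pos ha hm) (inv_pos.2 h1), fun h =>
      ⟨a / m * w⁻¹, mul_pos (div_pos ha hm) (inv_pos.2 h), ?_⟩⟩
    have : w ≠ 0 := ne_of_gt h
    field_simp
  have e1 := lintegral_image_eq_lintegral_abs_deriv_mul (s := Ioi (0 : ℝ)) measurableSet_Ioi
    (f := fun r => m * r - a / r) (f' := fun r => m + a / r ^ 2) (fun r hr => by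
      have := ((hasDerivAt_id r).const_mul m).sub ((hasDerivAt_inv (ne_of_gt hr)).const_mul a)
      refine (this.congr_deriv (by ring)).hasDerivWithinAt.congr (fun x _ => ?_) ?_ <;>
        simp [div_eq_mul_inv])
    (StrictMonoOn.injOn fun r hr s hs hrs => by
      have := div_lt_div_of_pos_left ha hr hrs
      have := mul_lt_mul_of_pos_left hrs hm
      linarith) g
  have e2 := lintegral_image_eq_lintegral_abs_deriv_mul (s := Ioi (0 : ℝ)) measurableSet_Ioi
    (f := fun r => a / m * r⁻¹) (f' := fun r => a / m * -(r ^ 2)⁻¹) (fun r hr =>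
      ((hasDerivAt_inv (ne_of_gt hr)).const_mul _).hasDerivWithinAt)
    (fun r _ s _ h => inv_injective (mul_left_cancel₀ (div_pos ha hm).ne' h))
    fun r => g (m * r - a / r)
  rw [i1, Measure.restrict_univ] at e1
  rw [i2] at e2
  have hmeas : Measurable fun r => g (m * r - a / r) := hg.comp (by fun_prop)
  rw [e1, two_mul, ENNReal.ofReal_add hm.le hm.le, add_mul]
  nth_rw 2 [e2]
  rw [← lintegral_const_mul _ hmeas, ← lintegral_const_mul' _ _ ENNReal.ofReal_ne_top,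
    ← lintegral_add_left (hmeas.const_mul _)]
  refine setLIntegral_congr_fun measurableSet_Ioi fun r hr => ?_
  have hr' : 0 < r := hr
  have : m * (a / m * r⁻¹) - a / (a / m * r⁻¹) = -(m * r - a / r) := by field_simp; ring
  rw [this, he, ← mul_assoc, ← ENNReal.ofReal_mul hm.le, ← add_mul,
    ← ENNReal.ofReal_add hm.le (by positivity), abs_of_pos (by positivity), mul_neg, abs_neg,
    abs_of_pos (by positivity)]
  congr 2
  field_simp

theorem int_ff (hv : 0 < v) (hm : 0 < m) (ha : 0 < a) :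
    ∫⁻ t in Ioi 0, ENNReal.ofReal (ff v m a t) = ENNReal.ofReal (1 / m) := by
  have i1 : (fun r : ℝ => r ^ 2) '' Ioi 0 = Ioi 0 := by
    ext w
    exact ⟨fun ⟨r, h1, h2⟩ => h2 ▸ pow_pos (show 0 < r from h1) 2, fun h => ⟨√w, sqrt_pos.2 h, sq_sqrt (le_of_lt h)⟩⟩
  have e1 := lintegral_image_eq_lintegral_abs_deriv_mul (s := Ioi (0 : ℝ)) measurableSet_Ioi
    (f := fun r : ℝ => r ^ 2) (f' := fun r => 2 * r) (fun r _ => by
      simpa using (hasDerivAt_pow 2 r).hasDerivWithinAt)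
    (fun r hr s hs h => (pow_left_inj₀ (le_of_lt hr) (le_of_lt hs) two_ne_zero).1 h)
    fun t => ENNReal.ofReal (ff v m a t)
  have e2 := schlo hm ha (measurable_gaussianPDF 0 v.toNNReal) fun x => by
    simp [gaussianPDF, gaussianPDFReal]
  rw [lintegral_gaussianPDF_eq_one _ (by simpa using hv)] at e2
  rw [i1] at e1
  have e3 : ∫⁻ t in Ioi 0, ENNReal.ofReal (ff v m a t) =
      2 * ∫⁻ r in Ioi 0, gaussianPDF 0 v.toNNReal (m * r - a / r) := by
    rw [e1, ← lintegral_const_mul' _ _ (by simp)]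
    refine setLIntegral_congr_fun measurableSet_Ioi fun r hr => ?_
    have hr' : 0 < r := hr
    rw [gaussianPDF, gaussianPDFReal, Real.coe_toNNReal _ hv.le, ← ENNReal.ofReal_mul (abs_nonneg _),
      ← ENNReal.ofReal_ofNat, ← ENNReal.ofReal_mul zero_le_two, abs_of_pos (by positivity), ff,
      show 2 * π * (r ^ 2 * v) = r ^ 2 * (2 * π * v) by ring, sqrt_mul (sq_nonneg r),
      sqrt_sq hr'.le, show -(r ^ 2 * m - a) ^ 2 / (2 * (r ^ 2 * v)) =
        -(m * r - a / r - 0) ^ 2 / (2 * v) by field_simp; ring]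
    congr 1
    field_simp
  rw [ENNReal.ofReal_mul zero_le_two, ENNReal.ofReal_ofNat, mul_comm 2, mul_assoc, ← e3] at e2
  rw [one_div, ENNReal.ofReal_inv_of_pos hm]
  exact ENNReal.eq_inv_of_mul_eq_one_left (by rw [mul_comm]; exact e2.symm)

theorem ff_exp (hv : 0 < v) {t : ℝ} (ht : 0 < t) : ff v m a t =
    (√(2 * π * v))⁻¹ * exp (-log t / 2 - (t * m - a) ^ 2 / (2 * (t * v))) := by
  rw [ff, show 2 * π * (t * v) = 2 * π * v * t by ring, sqrt_mul (by positivity), mul_inv,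
    mul_assoc, sub_eq_add_neg (-log t / 2), Real.exp_add, neg_div, neg_div, Real.exp_neg (log t / 2),
    Real.exp_half, Real.exp_log ht]

theorem ff_up (hv : 0 < v) {τ s t : ℝ} (hτ : m ^ 2 * τ ^ 2 + v * τ = a ^ 2) (hs : 0 < s) (h : s ≤ t)
    (h' : t ≤ τ) : ff v m a s ≤ ff v m a t := by
  have ht := hs.trans_le h
  rw [ff_exp hv hs, ff_exp hv ht]
  refine mul_le_mul_of_nonneg_left (exp_le_exp.2 ?_) (by positivity)
  have h1 := log_le_sub_one_of_pos (div_pos ht hs)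
  rw [log_div ht.ne' hs.ne'] at h1
  have h2 : (s * m - a) ^ 2 / (2 * (s * v)) - (t * m - a) ^ 2 / (2 * (t * v)) - (t / s - 1) / 2 =
      (t - s) * (a ^ 2 - m ^ 2 * (s * t) - v * t) / (2 * v * s * t) := by field_simp; ring
  have h3 : s * t ≤ τ ^ 2 := by nlinarith
  have h4 : 0 ≤ (t - s) * (a ^ 2 - m ^ 2 * (s * t) - v * t) / (2 * v * s * t) :=
    div_nonneg (mul_nonneg (by linarith) (by nlinarith [sq_nonneg m])) (by positivity)
  linarith

theorem ff_down (hv : 0 < v) {τ s t : ℝ} (hτ : m ^ 2 * τ ^ 2 + v * τ = a ^ 2) (h0 : 0 < τ)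
    (hs : τ ≤ s) (h : s ≤ t) : ff v m a t ≤ ff v m a s := by
  have hs' := h0.trans_le hs
  have ht := hs'.trans_le h
  rw [ff_exp hv hs', ff_exp hv ht]
  refine mul_le_mul_of_nonneg_left (exp_le_exp.2 ?_) (by positivity)
  have h1 := log_le_sub_one_of_pos (div_pos hs' ht)
  rw [log_div hs'.ne' ht.ne'] at h1
  have h2 : (t * m - a) ^ 2 / (2 * (t * v)) - (s * m - a) ^ 2 / (2 * (s * v)) - (s / t - 1) / 2 =
      (t - s) * (m ^ 2 * (s * t) + v * s - a ^ 2) / (2 * v * s * t) := by field_simp; ring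
  have h3 : τ ^ 2 ≤ s * t := by nlinarith
  have h4 : 0 ≤ (t - s) * (m ^ 2 * (s * t) + v * s - a ^ 2) / (2 * v * s * t) :=
    div_nonneg (mul_nonneg (by linarith) (by nlinarith [sq_nonneg m])) (by positivity)
  linarith

theorem ff_le (t : ℝ) (hv : 0 < v) (ht : 0 < t) : ff v m a t ≤ (√(2 * π * (t * v)))⁻¹ :=
  mul_le_of_le_one_right (by positivity) (exp_le_one_iff.2 (div_nonpos_of_nonpos_of_nonneg
    (neg_nonpos.2 (sq_nonneg _)) (by positivity)))

theorem exists_mode (hv : 0 < v) (hm : 0 < m) (ha : 0 < a) :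
    ∃ τ, 0 < τ ∧ m ^ 2 * τ ^ 2 + v * τ = a ^ 2 := by
  have h1 : v < √(v ^ 2 + 4 * m ^ 2 * a ^ 2) :=
    lt_sqrt_of_sq_lt (lt_add_of_pos_right _ (by positivity))
  have h2 := sq_sqrt (show 0 ≤ v ^ 2 + 4 * m ^ 2 * a ^ 2 by positivity)
  refine ⟨(√(v ^ 2 + 4 * m ^ 2 * a ^ 2) - v) / (2 * m ^ 2), div_pos (by linarith) (by positivity), ?_⟩
  generalize √(v ^ 2 + 4 * m ^ 2 * a ^ 2) = s at *
  field_simp
  nlinarith

theorem sum_ceil (F : ℝ → ℝ≥0∞) : ∑' k : ℕ, F (k + 1) = ∫⁻ t in Ioi (0 : ℝ), F ⌈t⌉₊ := by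
  have : Ioi (0 : ℝ) = ⋃ k : ℕ, Ioc (k : ℝ) (k + 1) := by
    ext t
    refine ⟨fun h => mem_iUnion.2 ⟨⌈t⌉₊ - 1, ?_⟩, fun h => ?_⟩
    · have h1 : 1 ≤ ⌈t⌉₊ := Nat.ceil_pos.2 h
      rw [Nat.cast_sub h1]
      exact ⟨by linarith [Nat.ceil_lt_add_one (show 0 ≤ t from le_of_lt h), Nat.cast_one (R := ℝ)],
        by simpa using Nat.le_ceil t⟩
    · obtain ⟨k, hk⟩ := mem_iUnion.1 h
      exact k.cast_nonneg.trans_lt hk.1
  rw [this, lintegral_iUnion (fun _ => measurableSet_Ioc) fun i j hij => ?_]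
  · refine tsum_congr fun k => ?_
    rw [setLIntegral_congr_fun (g := fun _ => F (k + 1)) measurableSet_Ioc fun t ht => ?_]
    · simp
    · have : ⌈t⌉₊ = k + 1 := (Nat.ceil_eq_iff (by omega)).2 (by simpa using ht)
      simp [this]
  · refine Ioc_disjoint_Ioc.2 ?_
    rcases hij.lt_or_gt with h | h
    · exact (min_le_left _ _).trans (le_max_of_le_right (by exact_mod_cast h))
    · exact (min_le_right _ _).trans (le_max_of_le_left (by exact_mod_cast h))

theorem shift (F : ℝ → ℝ≥0∞) (s : Set ℝ) :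
    ∫⁻ t in (fun t => t + 1) ⁻¹' s, F (t + 1) = ∫⁻ t in s, F t :=
  (measurePreserving_add_right volume (1 : ℝ)).setLIntegral_comp_preimage_emb
    (measurableEmbedding_addRight 1) F s

theorem sum_int {f : ℝ → ℝ} {τ B : ℝ} (h0 : 0 < τ)
    (up : ∀ s t, 0 < s → s ≤ t → t ≤ τ → f s ≤ f t) (down : ∀ s t, τ ≤ s → s ≤ t → f t ≤ f s) :
    ((∀ t, 1 ≤ t → f t ≤ B) → ∑' k : ℕ, ENNReal.ofReal (f (k + 1)) ≤
      (∫⁻ t in Ioi 0, ENNReal.ofReal (f t)) + ENNReal.ofReal B) ∧
    ((∀ t, 0 < t → f t ≤ B) → ∫⁻ t in Ioi 0, ENNReal.ofReal (f t) ≤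
      ∑' k : ℕ, ENNReal.ofReal (f (k + 1)) + ENNReal.ofReal B * 2) := by
  have c1 : ∀ t : ℝ, t ≤ ⌈t⌉₊ := Nat.le_ceil
  have c2 : ∀ t : ℝ, 0 < t → (⌈t⌉₊ : ℝ) ≤ t + 1 := fun t h => (Nat.ceil_lt_add_one h.le).le
  rw [sum_ceil fun t => ENNReal.ofReal (f t)]
  refine ⟨fun hB => ?_, fun hB => ?_⟩
  · have s1 : Ioi (0 : ℝ) ⊆ ((fun t => t + 1) ⁻¹' Ioc 1 τ ∪ Ioi τ) ∪ (Ioi 0 ∩ Ioc (τ - 1) τ) :=
      fun t ht => by
      simp only [mem_union, mem_preimage, mem_Ioc, mem_Ioi, mem_inter_iff] at ht ⊢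
      by_cases a1 : t + 1 ≤ τ
      · exact .inl (.inl ⟨by linarith, a1⟩)
      by_cases a2 : τ < t
      · exact .inl (.inr a2)
      · exact .inr ⟨ht, by linarith, by linarith⟩
    refine (lintegral_mono_set s1).trans ((lintegral_union_le _ _ _).trans (add_le_add
      ((lintegral_union_le _ _ _).trans ?_) ?_))
    · rw [← Ioc_union_Ioi_eq_Ioi h0.le, lintegral_union measurableSet_Ioi Ioc_disjoint_Ioi_same]
      refine add_le_add (le_trans ?_ ((shift (fun t => ENNReal.ofReal (f t)) (Ioc 1 τ)).trans_le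
        (lintegral_mono_set (Ioc_subset_Ioc_left zero_le_one)))) ?_
      · refine setLIntegral_mono' (measurableSet_Ioc.preimage (by fun_prop)) fun t ht => ?_
        have : 0 < t := by linarith [ht.1]
        exact ENNReal.ofReal_le_ofReal (up _ _ (this.trans_le (c1 t)) (c2 t this) ht.2)
      · exact setLIntegral_mono' measurableSet_Ioi fun t ht =>
          ENNReal.ofReal_le_ofReal (down _ _ (le_of_lt ht) (c1 t))
    · refine (setLIntegral_mono' (g := fun _ => ENNReal.ofReal B)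
        (measurableSet_Ioi.inter measurableSet_Ioc) fun t ht => ENNReal.ofReal_le_ofReal
          (hB _ (by exact_mod_cast Nat.ceil_pos.2 ht.1))).trans
        ((lintegral_mono_set inter_subset_right).trans (by simp))
  · have s1 : Ioi (0 : ℝ) ⊆ (Ioc 0 (τ - 1) ∪ Ioi (τ + 1)) ∪ (Ioi 0 ∩ Ioc (τ - 1) (τ + 1)) :=
      fun t ht => by
      simp only [mem_union, mem_Ioc, mem_Ioi, mem_inter_iff] at ht ⊢
      by_cases a1 : t ≤ τ - 1
      · exact .inl (.inl ⟨ht, a1⟩)
      by_cases a2 : τ + 1 < t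
      · exact .inl (.inr a2)
      · exact .inr ⟨ht, by linarith, by linarith⟩
    refine (lintegral_mono_set s1).trans ((lintegral_union_le _ _ _).trans (add_le_add
      ((lintegral_union_le _ _ _).trans ?_) ?_))
    · rw [← Ioc_union_Ioi_eq_Ioi h0.le, lintegral_union measurableSet_Ioi Ioc_disjoint_Ioi_same]
      refine add_le_add ((setLIntegral_mono' measurableSet_Ioc fun t ht => ENNReal.ofReal_le_ofReal
        (up _ _ ht.1 (c1 t) (by linarith [c2 t ht.1, ht.2]))).trans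
        (lintegral_mono_set (Ioc_subset_Ioc_right (by linarith)))) ?_
      rw [← shift, show (fun t => t + 1) ⁻¹' Ioi (τ + 1) = Ioi τ by ext; simp]
      exact setLIntegral_mono' measurableSet_Ioi fun t ht => ENNReal.ofReal_le_ofReal
        (down _ _ ((le_of_lt ht).trans (c1 t)) (c2 t (h0.trans ht)))
    · refine (setLIntegral_mono' (g := fun _ => ENNReal.ofReal B)
        (measurableSet_Ioi.inter measurableSet_Ioc) fun t ht => ENNReal.ofReal_le_ofReal
          (hB _ ht.1)).trans ((lintegral_mono_set inter_subset_right).trans ?_)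
      rw [setLIntegral_const, Real.volume_Ioc, show τ + 1 - (τ - 1) = 2 by ring]
      simp

end Ren

open Ren

variable {v m : ℝ}

theorem RN_bdd (hv : 0 < v) (hm : 0 < m) : ∃ C : ℝ≥0∞, C ≠ ∞ ∧ ∀ y, RN v m y ≤ C := by
  have key : ∀ a, 0 < a → RN v m (-a) ≤ ENNReal.ofReal (1 / m) + ENNReal.ofReal (√(2 * π * v))⁻¹ :=
    fun a ha => by
    obtain ⟨τ, h0, hτ⟩ := exists_mode hv hm ha
    rw [RN_eq hv, ← int_ff hv hm ha]
    refine (sum_int h0 (fun s t => ff_up hv hτ) (fun s t => ff_down hv hτ h0)).1 fun t ht =>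
      (ff_le t hv (by linarith)).trans ?_
    gcongr
    nlinarith
  refine ⟨ENNReal.ofReal (1 / m) + ENNReal.ofReal (√(2 * π * v))⁻¹, by finiteness, fun y => ?_⟩
  rcases lt_or_ge y 0 with h | h
  · simpa only [neg_neg] using key (-y) (by linarith)
  refine le_trans (ENNReal.tsum_le_tsum fun k => ENNReal.ofReal_le_ofReal ?_) (key m hm)
  unfold gaussianPDFReal
  have := k.cast_nonneg (α := ℝ)
  gcongr <;> nlinarith [mul_nonneg this hm.le]

theorem RN_lim (hv : 0 < v) (hm : 0 < m) :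
    Tendsto (RN v m) atBot (𝓝 (ENNReal.ofReal (1 / m))) := by
  refine ENNReal.tendsto_nhds ENNReal.ofReal_ne_top |>.2 fun ε hε => ?_
  have t1 : Tendsto (fun T : ℝ => ENNReal.ofReal (√(2 * π * (T * v)))⁻¹ * 2) atTop (𝓝 0) := by
    have := ENNReal.tendsto_ofReal (tendsto_inv_atTop_zero.comp (tendsto_sqrt_atTop.comp
      ((tendsto_id.atTop_mul_const hv).const_mul_atTop (show 0 < 2 * π by positivity))))
    simpa using ENNReal.Tendsto.mul_const this (Or.inr (show (2 : ℝ≥0∞) ≠ ∞ by simp))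
  obtain ⟨T, hT, hT0⟩ := ((t1.eventually (ge_mem_nhds hε)).and (eventually_gt_atTop 0)).exists
  filter_upwards [eventually_lt_atBot (-(m ^ 2 * T ^ 2 + v * T + 1))] with y hy
  have p : 0 < m ^ 2 * T ^ 2 + v * T := by positivity
  obtain ⟨a, rfl⟩ : ∃ a, y = -a := ⟨-y, by simp⟩
  have ha : 0 < a := by linarith
  obtain ⟨τ, h0, hτ⟩ := exists_mode hv hm ha
  have h1 : T ≤ τ := by
    by_contra hc
    have : τ ^ 2 ≤ T ^ 2 := by nlinarith
    nlinarith [sq_nonneg m, mul_le_mul_of_nonneg_left this (sq_nonneg m)]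
  have hB : ∀ t, 0 < t → ff v m a t ≤ (√(2 * π * (T * v)))⁻¹ := fun t ht => by
    refine le_trans ?_ ((ff_le (m := m) (a := a) τ hv h0).trans (by gcongr))
    rcases le_total t τ with h | h
    · exact ff_up hv hτ ht h le_rfl
    · exact ff_down hv hτ h0 le_rfl h
  obtain ⟨s1, s2⟩ := sum_int (B := (√(2 * π * (T * v)))⁻¹) h0 (fun s t => ff_up hv hτ)
    fun s t => ff_down hv hτ h0
  rw [int_ff hv hm ha, ← RN_eq hv] at s1 s2
  exact ⟨tsub_le_iff_right.2 ((s2 hB).trans (add_le_add le_rfl hT)),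
    (s1 fun t ht => hB t (by linarith)).trans (add_le_add le_rfl
      (le_trans (le_mul_of_one_le_right zero_le one_le_two) hT))⟩

theorem meas_RN (v m : ℝ) : Measurable (RN v m) :=
  Measurable.tsum fun _ => (measurable_gaussianPDF _ _).comp (measurable_add_const _)

end Pool.Agent.Lib.MP_d1f1b2_pr
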