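import Pool.Agent.Lib.D1W.Lay
import Pool.Agent.Lib.MP_d1f1b2_pr.Avg

/-! The second moment method with an independent mark. -/

open Set Filter MeasureTheory ProbabilityTheory Real
open scoped ENNReal Topology

namespace Pool.Agent.Lib.MP_d1f1b2_pr

variable {Ω : Type*} {mΩ : MeasurableSpace Ω} {P : Measure Ω}

/-- The covariance of the layers down to depth `m`. -/
noncomputable def cm (m : ℕ) := cL fun p => min p.1 m

theorem cm_le (m : ℕ) (p q : ℕ × ℤ × ℤ) : cm m p q ≤ q.1 * log 2 := by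
  refine (ik_le _ _ (nat_log_nonneg _)).trans ?_
  have := log2pos.le
  gcongr
  exact (min_le_right _ _).trans (min_le_left _ _)

/-- The layers down to depth `m`. -/
def xl (m : ℕ) (y : Ix → ℝ) (p : ℕ × ℤ × ℤ) : ℝ := y (p, 0) - y (p, min p.1 m)

/-- The values along the ancestors of a square stay in a cone. -/
def Cone (lo hi C : ℝ) (m : ℕ) (a b : ℤ) : Set (ℕ × ℤ × ℤ → ℝ) :=
  Good (fun p x => x p) lo hi C m a b

/-- The exponential weight restricted to the cone. -/
noncomputable def Phi (lo q δ C : ℝ) (m : ℕ) (a b : ℤ) : (ℕ × ℤ × ℤ → ℝ) → ℝ≥0∞ :=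
  (Cone lo (q + δ) C m a b).indicator
    fun x => ee (q * x (m, a, b) - q ^ 2 * cm m (m, a, b) (m, a, b) / 2)

theorem meas_Cone (lo hi C : ℝ) (m : ℕ) (a b : ℤ) : MeasurableSet (Cone lo hi C m a b) := by
  refine measurableSet_setOfPred.2 (Measurable.forall fun k => measurable_const.imp (Measurable.and
    ?_ ?_))
  · exact measurableSet_setOfPred.1 (measurableSet_le measurable_const (measurable_pi_apply _))
  · exact measurableSet_setOfPred.1 (measurableSet_le (measurable_pi_apply _) measurable_const)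

theorem meas_Phi (lo q δ C : ℝ) (m : ℕ) (a b : ℤ) : Measurable (Phi lo q δ C m a b) :=
  Measurable.indicator (by fun_prop) (meas_Cone _ _ _ _ _ _)

theorem fm {Q δ : ℝ} (hQ : 0 < Q) (hδ : 0 < δ) :
    ∃ C, ∀ (m : ℕ) (X : ℕ × ℤ × ℤ → Ω → ℝ), CG X P (cm m) → ∀ a b, In m a b →
      1 ≤ 2 * ∫⁻ ω, Phi Q (Q + δ) δ C m a b (fun p => X p ω) ∂P := by
  have hL := log2pos
  obtain ⟨G, hG, hGm⟩ := geo (η := δ ^ 2 * log 2 / 2) (by positivity)
  set q := Q + δ with hq
  set A := 10 * (q * δ) with hA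
  have hC : ∃ C, 2 * ee (A - δ * C) * G ≤ 2⁻¹ := by
    have t1 : Tendsto (fun C : ℝ => ee (A - δ * C)) atTop (𝓝 0) := by
      have : Tendsto (fun C : ℝ => Real.exp (A - δ * C)) atTop (𝓝 0) :=
        Real.tendsto_exp_atBot.comp (tendsto_atBot_add_const_left _ _
          (tendsto_neg_atTop_atBot.comp (tendsto_id.const_mul_atTop hδ)))
      simpa [ee] using ENNReal.tendsto_ofReal this
    have t2 := ENNReal.Tendsto.mul_const (b := G) (ENNReal.Tendsto.const_mul (a := 2) t1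
      (Or.inr (by simp))) (Or.inr hG)
    simp only [mul_zero, zero_mul] at t2
    exact (t2.eventually (ge_mem_nhds (by simp))).exists
  obtain ⟨C, hC⟩ := hC
  refine ⟨C, fun m X h a b hin => ?_⟩
  have hm := h.meas
  have e1 : ∫⁻ ω, ee (q * X (m, a, b) ω - q ^ 2 * cm m (m, a, b) (m, a, b) / 2) ∂P = 1 := by
    have := h.mgf1' (m, a, b) q (-(q ^ 2 * cm m (m, a, b) (m, a, b) / 2))
    simpa [sub_eq_add_neg] using this
  have e2 : ∀ ω, ee (q * X (m, a, b) ω - q ^ 2 * cm m (m, a, b) (m, a, b) / 2) ≤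
      Phi Q q δ C m a b (fun p => X p ω) + ∑ k ∈ Finset.range (m + 1),
        (ee (q * X (m, a, b) ω + -δ * X (m - k, a / 2 ^ k, b / 2 ^ k) ω + 0 * X (m, a, b) ω +
          (-(q ^ 2 * cm m (m, a, b) (m, a, b) / 2) + δ * (Q * ((m - k : ℕ) * log 2) - C))) +
        ee (q * X (m, a, b) ω + δ * X (m - k, a / 2 ^ k, b / 2 ^ k) ω + 0 * X (m, a, b) ω +
          (-(q ^ 2 * cm m (m, a, b) (m, a, b) / 2) -
            δ * ((q + δ) * ((m - k : ℕ) * log 2) + C)))) := fun ω => by
    by_cases hω : (fun p => X p ω) ∈ Cone Q (q + δ) C m a b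
    · rw [Phi, indicator_of_mem hω]; exact le_self_add
    · simp only [Cone, Good, mem_ofPred_eq, not_forall, not_and_or, not_le] at hω
      obtain ⟨k, hk, hω⟩ := hω
      refine le_add_left (le_trans ?_ (Finset.single_le_sum (fun _ _ => zero_le)
        (Finset.mem_range.2 (Nat.lt_succ_of_le hk))))
      rcases hω with hω | hω
      · exact le_add_right (ee_mono (by nlinarith))
      · exact le_add_left (ee_mono (by nlinarith))
  have e3 := lintegral_mono (μ := P) e2
  have mP : Measurable fun ω => Phi Q q δ C m a b fun p => X p ω :=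
    (meas_Phi _ _ _ _ _ _ _).comp h.measPi
  rw [e1, lintegral_add_left mP,
    lintegral_finsetSum _ (fun k _ => by fun_prop)] at e3
  have e4 : ∀ k ∈ Finset.range (m + 1), ∫⁻ ω,
      (ee (q * X (m, a, b) ω + -δ * X (m - k, a / 2 ^ k, b / 2 ^ k) ω + 0 * X (m, a, b) ω +
          (-(q ^ 2 * cm m (m, a, b) (m, a, b) / 2) + δ * (Q * ((m - k : ℕ) * log 2) - C))) +
        ee (q * X (m, a, b) ω + δ * X (m - k, a / 2 ^ k, b / 2 ^ k) ω + 0 * X (m, a, b) ω +
          (-(q ^ 2 * cm m (m, a, b) (m, a, b) / 2) -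
            δ * ((q + δ) * ((m - k : ℕ) * log 2) + C)))) ∂P ≤
      2 * ee (A - δ * C) * ee (-(δ ^ 2 * log 2 / 2) * (m - k : ℕ)) := fun k hk => by
    have hk' : k ≤ m := Nat.le_of_lt_succ (Finset.mem_range.1 hk)
    rw [lintegral_add_left (by fun_prop), h.mgf3, h.mgf3, mul_assoc (2 : ℝ≥0∞), ← ee_add, two_mul]
    have b0 : _ ≤ cm m _ _ := L3 hin hin hk' (by simp) (by simp)
    rw [h.symm] at b0
    have b1 := cm_le m (m, a, b) (m - k, a / 2 ^ k, b / 2 ^ k)
    have b2 := cm_le m (m - k, a / 2 ^ k, b / 2 ^ k) (m - k, a / 2 ^ k, b / 2 ^ k)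
    have hqδ : 0 < q * δ := by positivity
    have c1 := mul_le_mul_of_nonneg_left b0 hqδ.le
    have c2 := mul_le_mul_of_nonneg_left b1 hqδ.le
    have c3 := mul_le_mul_of_nonneg_left b2 (sq_nonneg δ)
    refine add_le_add (ee_mono ?_) (ee_mono ?_)
    · rw [hA, hq] at *; nlinarith
    · rw [hA, hq] at *; nlinarith
  have e5 := (Finset.sum_le_sum e4).trans (show _ ≤ 2⁻¹ by
    rw [← Finset.mul_sum]; exact (mul_le_mul_right (hGm m) _).trans hC)
  have e6 := e3.trans (add_le_add_right e5 _)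
  rw [← ENNReal.inv_two_add_inv_two] at e6
  have e7 := ENNReal.le_of_add_le_add_right (by simp) e6
  calc (1 : ℝ≥0∞) = 2 * 2⁻¹ := (ENNReal.mul_inv_cancel (by simp) (by simp)).symm
    _ ≤ _ := mul_le_mul_right e7 _

theorem pm {X : ℕ × ℤ × ℤ → Ω → ℝ} {m : ℕ} (h : CG X P (cm m)) {lo q δ C : ℝ} (hq : 0 < q)
    {a b a' b' : ℤ} (hin : In m a b) (hin' : In m a' b') :
    ∃ k ≤ m, (|a - a'| ≤ 2 ^ k ∧ |b - b'| ≤ 2 ^ k) ∧
      ∫⁻ ω, Phi lo q δ C m a b (fun p => X p ω) * Phi lo q δ C m a' b' (fun p => X p ω) ∂P ≤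
      ee ((q ^ 2 / 2 + q * δ) * ((m - k : ℕ) * log 2) + (30 * q ^ 2 + q * C)) := by
  classical
  have hm : |a - a'| ≤ 2 ^ m ∧ |b - b'| ≤ 2 ^ m := by
    obtain ⟨_, _, _, _⟩ := hin
    obtain ⟨_, _, _, _⟩ := hin'
    constructor <;> rw [abs_le] <;> constructor <;> omega
  have hex : ∃ k, |a - a'| ≤ 2 ^ k ∧ |b - b'| ≤ 2 ^ k := ⟨m, hm⟩
  have hk : Nat.find hex ≤ m := Nat.find_min' hex hm
  have hs := Nat.find_spec hex
  have hsep : Nat.find hex = 0 ∨ 2 ^ Nat.find hex ≤ 2 * |a - a'| ∨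
      2 ^ Nat.find hex ≤ 2 * |b - b'| := by
    rcases hf : Nat.find hex with _ | k
    · exact Or.inl rfl
    · have := Nat.find_min hex (show k < Nat.find hex by omega)
      rw [not_and_or, not_le, not_le] at this
      rw [pow_succ]
      omega
  set k := Nat.find hex
  refine ⟨k, hk, hs, ?_⟩
  have e2 : ∀ ω, Phi lo q δ C m a b (fun p => X p ω) * Phi lo q δ C m a' b' (fun p => X p ω) ≤
      ee (q * X (m, a, b) ω + q * X (m, a', b') ω + -q * X (m - k, a / 2 ^ k, b / 2 ^ k) ω +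
        (-(q ^ 2 * cm m (m, a, b) (m, a, b) / 2) - q ^ 2 * cm m (m, a', b') (m, a', b') / 2 +
          q * ((q + δ) * ((m - k : ℕ) * log 2) + C))) := fun ω => by
    by_cases hω : (fun p => X p ω) ∈ Cone lo (q + δ) C m a b
    · rw [Phi, indicator_of_mem hω]
      refine (mul_le_mul_right (indicator_le_self _ _ _) _).trans ?_
      rw [← ee_add]
      have := mul_le_mul_of_nonneg_left (hω k hk).2 hq.le
      exact ee_mono (by linarith)
    · rw [Phi, indicator_of_notMem hω, zero_mul]; exact zero_le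
  refine (lintegral_mono e2).trans ?_
  rw [h.mgf3]
  have b1 : _ ≤ cm m _ _ := L3 hin hin hk (by simp) (by simp)
  have b2 := cm_le m (m - k, a / 2 ^ k, b / 2 ^ k) (m - k, a / 2 ^ k, b / 2 ^ k)
  have b3 : cm m _ _ ≤ _ := L2 hin hin' hk hsep
  have b4 : _ ≤ cm m _ _ := L3 hin hin' hk hs.1 hs.2
  rw [h.symm] at b1 b4
  have hq2 := sq_nonneg q
  have c1 := mul_le_mul_of_nonneg_left b1 hq2
  have c2 := mul_le_mul_of_nonneg_left b2 hq2
  have c3 := mul_le_mul_of_nonneg_left b3 hq2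
  have c4 := mul_le_mul_of_nonneg_left b4 hq2
  exact ee_mono (by nlinarith)

/-- Some marked square of a sparse lattice is reached inside the cone. -/
def Fc (lo hi C : ℝ) (i : ℕ) (E : (Ix → ℝ) → Prop) (y : Ix → ℝ) : Prop :=
  ∃ a b, In i a b ∧ xl (i + 2) y ∈ Cone lo hi C (i + 2) (a * 2 ^ 2) (b * 2 ^ 2) ∧
    E fun k => y (ch (i + 2, a * 2 ^ 2, b * 2 ^ 2) k)

theorem meas_xl (m : ℕ) : Measurable (xl m) := by unfold xl; fun_prop

theorem meas_Fc (lo hi C : ℝ) (i : ℕ) {E : (Ix → ℝ) → Prop} (hE : Measurable E) :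
    Measurable (Fc lo hi C i E) :=
  Measurable.exists fun _ => Measurable.exists fun _ => measurable_const.and
    ((measurableSet_setOfPred.1 (meas_xl _ (meas_Cone _ _ _ _ _ _))).and (hE.comp (by fun_prop)))

theorem In.four {i : ℕ} {a b : ℤ} (h : In i a b) : In (i + 2) (a * 2 ^ 2) (b * 2 ^ 2) := by
  simpa using h.cat (k := 2) (a' := 0) (b' := 0) ⟨le_rfl, p2pos _, le_rfl, p2pos _⟩

variable {Z : Ix → Ω → ℝ}

theorem lint_mark (h : CG Z P cZ) {m : ℕ} {F : (ℕ × ℤ × ℤ → ℝ) → ℝ≥0∞} (hF : Measurable F)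
    {κ : Type*} (g : κ → Ix) (hg : ∀ k, m ≤ (g k).2) {G : (κ → ℝ) → ℝ≥0∞} (hG : Measurable G) :
    ∫⁻ ω, F (xl m fun k => Z k ω) * G (fun k => Z (g k) ω) ∂P =
      (∫⁻ ω, F (xl m fun k => Z k ω) ∂P) * ∫⁻ ω, G (fun k => Z (g k) ω) ∂P :=
  lintegral_mul_eq_lintegral_mul_lintegral_of_indepFun''
    (hF.comp ((meas_xl m).comp h.measPi)).aemeasurable (hG.comp (h.comp g).measPi).aemeasurable
    ((indep_lay h (fun p => min p.1 m) g fun _ k => (min_le_right _ _).trans (hg k)).comp hF hG)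

theorem sm {Q δ : ℝ} (hQ : 0 < Q) (hδ : 0 < δ) (hβ : (Q + δ) ^ 2 / 2 + (Q + δ) * δ < 2) :
    ∃ (C : ℝ) (g : ℝ≥0∞), g ≠ 0 ∧ ∀ p0 : ℝ≥0∞, p0 ≠ 0 → ∀ᶠ i in atTop, ∀ Z : Ix → Ω → ℝ,
      CG Z P cZ → ∀ E : (Ix → ℝ) → Prop, Measurable E → p0 ≤ P {ω | E fun k => Z k ω} →
        g ≤ P {ω | Fc Q (Q + δ + δ) C i E fun k => Z k ω} := by
  classical
  have hL := log2pos
  obtain ⟨C, hC⟩ := fm (P := P) hQ hδ
  set q := Q + δ with hq
  have hq0 : 0 < q := by positivity
  set β := q ^ 2 / 2 + q * δ with hβ'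
  have hβ0 : 0 < β := by positivity
  have hη : 0 < (2 - β) * log 2 := mul_pos (by linarith) hL
  obtain ⟨G, hG, hGm⟩ := geo hη
  set B := 30 * q ^ 2 + q * C with hB
  have hG' : ee (8 * log 2 + B) * G + 1 ≠ ∞ :=
    ENNReal.add_ne_top.2 ⟨ENNReal.mul_ne_top (ee_ne_top _) hG, by simp⟩
  refine ⟨C, (2 * (ee (8 * log 2 + B) * G + 1) + 2)⁻¹ / 2,
    (ENNReal.div_pos (ENNReal.inv_ne_zero.2 (by finiteness)) (by simp)).ne', fun p0 hp0 => ?_⟩
  filter_upwards [(tendsto_ee hη (β * (2 * log 2) + B)).eventually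
    (ge_mem_nhds (pos_iff_ne_zero.2 hp0))] with i hi Z h E hE hp
  have := h.prob
  set p := P {ω | E fun k => Z k ω} with hpd
  have hX : CG (fun r ω => xl (i + 2) (fun k => Z k ω) r) P (cm (i + 2)) := CG_lay h _
  have hI : Measurable ({y | E y}.indicator (1 : (Ix → ℝ) → ℝ≥0∞)) :=
    measurable_one.indicator (measurableSet_setOfPred.2 hE)
  set I := {y | E y}.indicator (1 : (Ix → ℝ) → ℝ≥0∞) with hId
  set c : ℤ × ℤ → ℕ × ℤ × ℤ := fun r => (i + 2, r.1 * 2 ^ 2, r.2 * 2 ^ 2) with hc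
  set Φ : ℤ × ℤ → (ℕ × ℤ × ℤ → ℝ) → ℝ≥0∞ :=
    fun r => Phi Q q δ C (i + 2) (r.1 * 2 ^ 2) (r.2 * 2 ^ 2) with hΦ
  have mΦ : ∀ r, Measurable (Φ r) := fun r => meas_Phi _ _ _ _ _ _ _
  have hch : ∀ r k, i + 2 ≤ (ch (c r) k).2 := fun r k => Nat.le_add_right _ _
  have hIp : ∀ r ∈ box i, ∫⁻ ω, I (fun k => Z (ch (c r) k) ω) ∂P = p := fun r hr => by
    have hm : MeasurableSet {ω | E fun k => Z k ω} := measurableSet_setOfPred.2 (hE.comp h.measPi)
    rw [(CG_ch h (mem_box.1 hr).four).lint_eq h hI, hpd, ← lintegral_indicator_one hm]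
    rfl
  have mY : ∀ r, Measurable fun ω =>
      Φ r (xl (i + 2) fun k => Z k ω) * I fun k => Z (ch (c r) k) ω := fun r =>
    ((mΦ r).comp hX.measPi).mul (hI.comp (h.comp _).measPi)
  refine (pz (P := P) (Y := fun ω => ∑ r ∈ box i,
      Φ r (xl (i + 2) fun k => Z k ω) * I fun k => Z (ch (c r) k) ω)
      (Finset.measurable_sum _ fun r _ => mY r) (N := ee (2 * (i * log 2)) * p)
      (mul_ne_zero (by simp [ee, Real.exp_pos]) (ne_bot_of_le_ne_bot hp0 hp))
      (ENNReal.mul_ne_top (ee_ne_top _) (measure_ne_top _ _)) hG' ?_ ?_).trans (measure_mono ?_)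
  · rw [lintegral_finsetSum _ fun r _ => mY r, Finset.mul_sum, ← card_box, ← nsmul_eq_mul,
      ← Finset.sum_const]
    refine Finset.sum_le_sum fun r hr => ?_
    rw [lint_mark h (mΦ r) _ (hch r) hI, hIp r hr, ← mul_assoc]
    exact le_mul_of_one_le_left' (hC _ _ hX _ _ (mem_box.1 hr).four)
  · simp only [pow_two, Finset.sum_mul_sum]
    rw [lintegral_finsetSum _ fun r _ => Finset.measurable_sum _ fun r' _ => (mY r).fun_mul (mY r'),
      mul_assoc, mul_assoc]
    nth_rewrite 1 [← card_box]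
    rw [← nsmul_eq_mul, ← Finset.sum_const]
    refine Finset.sum_le_sum fun r hr => ?_
    rw [lintegral_finsetSum _ fun r' _ => (mY r).fun_mul (mY r')]
    calc _ ≤ ∑ r' ∈ box i, (p * p * ∑ k ∈ Finset.range (i + 2 + 1),
            (if |r.1 - r'.1| ≤ 2 ^ k ∧ |r.2 - r'.2| ≤ 2 ^ k then
              ee (β * ((i + 2 - k : ℕ) * log 2) + B) else 0) +
            if r' = r then p * (ee (2 * (i * log 2)) * p) else 0) := by
          refine Finset.sum_le_sum fun r' hr' => ?_
          obtain ⟨k, hk, h1, h2⟩ := pm hX (lo := Q) (δ := δ) (C := C) hq0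
            (mem_box.1 hr).four (mem_box.1 hr').four
          simp only [mul_mul_mul_comm (Φ r _)]
          split_ifs with hrr
          · subst hrr
            have e : ∀ y, I y * I y = I y := fun y => by
              by_cases hy : y ∈ {y | E y} <;> simp [hId, hy]
            simp only [e]
            rw [lint_mark h (F := fun x => Φ r' x * Φ r' x) ((mΦ _).mul (mΦ _)) _ (hch r') hI,
              hIp r' hr, mul_comm]
            refine le_add_left (mul_le_mul_right (h2.trans (le_trans ?_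
              (mul_le_mul_right (hi.trans hp) _))) _)
            rw [← ee_add]
            refine ee_mono ?_
            have : ((i + 2 - k : ℕ) : ℝ) ≤ i + 2 := by exact_mod_cast Nat.sub_le _ _
            rw [← hβ', ← hB]
            nlinarith [mul_le_mul_of_nonneg_left this (mul_pos hβ0 hL).le]
          · have hs : 3 ≤ |r.1 * 2 ^ 2 - r'.1 * 2 ^ 2| ∨ 3 ≤ |r.2 * 2 ^ 2 - r'.2 * 2 ^ 2| := by
              rw [Prod.ext_iff] at hrr
              rw [le_abs, le_abs]
              omega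
            have e := lint_mark h (F := fun x => Φ r x * Φ r' x) ((mΦ _).mul (mΦ _))
              (Sum.elim (ch (c r)) (ch (c r'))) (fun k => by cases k <;> exact hch _ _)
              (G := fun y => I (fun k => y (.inl k)) * I fun k => y (.inr k))
              ((hI.comp (by fun_prop)).mul (hI.comp (by fun_prop)))
            simp only [Sum.elim_inl, Sum.elim_inr] at e
            have e' : ∫⁻ ω, (I fun k => Z (ch (c r) k) ω) * (I fun k => Z (ch (c r') k) ω) ∂P = _ :=
              lintegral_mul_eq_lintegral_mul_lintegral_of_indepFun''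
              (hI.comp (h.comp _).measPi).aemeasurable (hI.comp (h.comp _).measPi).aemeasurable
              ((h.indep _ _ (cZ_sep (mem_box.1 hr).four (mem_box.1 hr').four hs)).comp hI hI)
            rw [e, e', hIp r hr, hIp r' hr', add_zero, mul_comm]
            refine mul_le_mul_right (h2.trans (le_trans ?_ (Finset.single_le_sum
              (fun _ _ => zero_le) (Finset.mem_range.2 (Nat.lt_succ_of_le hk))))) _
            rw [if_pos]
            simp only [abs_le] at h1 ⊢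
            have := p2pos k
            omega
      _ ≤ p * p * (∑ k ∈ Finset.range (i + 2 + 1), ee (2 * (i * log 2)) * (ee (8 * log 2 + B) *
            ee (-((2 - β) * log 2) * (i + 2 - k : ℕ)))) + p * (ee (2 * (i * log 2)) * p) := by
          rw [Finset.sum_add_distrib, Finset.sum_ite_eq' (box i) r, if_pos hr, ← Finset.mul_sum,
            Finset.sum_comm]
          gcongr with k hk
          have hk' : k ≤ i + 2 := Nat.le_of_lt_succ (Finset.mem_range.1 hk)
          rw [← Finset.sum_filter, Finset.sum_const, nsmul_eq_mul]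
          refine (mul_le_mul_left (card_near _ _ _ _) _).trans ?_
          rw [← ee_add, ← ee_add, ← ee_add]
          refine ee_mono (le_of_eq ?_)
          push_cast [Nat.cast_sub hk']
          ring
      _ ≤ p * p * (ee (2 * (i * log 2)) * (ee (8 * log 2 + B) * G)) +
            p * (ee (2 * (i * log 2)) * p) := by
          rw [← Finset.mul_sum, ← Finset.mul_sum]
          gcongr
          exact hGm _
      _ = _ := by ring
  · intro ω hω
    obtain ⟨r, hr, hp'⟩ := Finset.exists_ne_zero_of_sum_ne_zero hω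
    exact ⟨r.1, r.2, mem_box.1 hr, mem_of_indicator_ne_zero (left_ne_zero_of_mul hp'),
      mem_of_indicator_ne_zero (right_ne_zero_of_mul hp')⟩

end Pool.Agent.Lib.MP_d1f1b2_pr
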