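import Pool.Agent.Lib.D1W.Ov

/-! Averages of indicator functions of discs along curves, and their scalar products. -/

open Set Filter MeasureTheory Real Metric

namespace Pool.Agent.Lib.MP_d1f1b2_pr

/-- The uniform law on one period. -/
noncomputable def Th : Measure ℝ := ENNReal.ofReal (2 * π)⁻¹ • volume.restrict (Ioc 0 (2 * π))

instance Th_prob : IsProbabilityMeasure Th := ⟨by
  have : 0 < 2 * π := by positivity
  rw [Th, Measure.smul_apply, Measure.restrict_apply_univ, Real.volume_Ioc, smul_eq_mul,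
    ← ENNReal.ofReal_mul (by positivity), sub_zero, inv_mul_cancel₀ this.ne', ENNReal.ofReal_one]⟩

theorem avg_eq (f : ℂ → ℝ) (c : ℂ) (R : ℝ) :
    circleAverage f c R = ∫ θ, f (circleMap c R θ) ∂Th := by
  rw [circleAverage_def, intervalIntegral.integral_of_le (by positivity), Th,
    integral_smul_measure, ENNReal.toReal_ofReal (by positivity)]

theorem int_Th {f : ℂ → ℝ} {c : ℂ} {R : ℝ} (h : CircleIntegrable f c R) :
    Integrable (fun θ => f (circleMap c R θ)) Th :=
  Integrable.smul_measure ((intervalIntegrable_iff_integrableOn_Ioc_of_le (by positivity)).1 h)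
    ENNReal.ofReal_ne_top

/-- Normalised indicator function of the disc of radius `exp (-s)` about `z`. -/
noncomputable def gz (z : ℂ) (s : ℝ) (x : ℂ) : ℝ :=
  if dist x z < exp (-s) then exp s / √π else 0

theorem meas_gz {α : Type*} [MeasurableSpace α] {z x : α → ℂ} {s : α → ℝ} (hz : Measurable z)
    (hs : Measurable s) (hx : Measurable x) : Measurable fun a => gz (z a) (s a) (x a) :=
  Measurable.ite (measurableSet_lt (hx.dist hz) (by fun_prop)) (by fun_prop) measurable_const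

theorem gz_nonneg (z : ℂ) (s : ℝ) (x : ℂ) : 0 ≤ gz z s x := by
  unfold gz; split_ifs <;> positivity

theorem gz_le (z : ℂ) (s : ℝ) (x : ℂ) : gz z s x ≤ exp s / √π := by
  unfold gz; split_ifs
  exacts [le_rfl, by positivity]

theorem int_gz (z w : ℂ) (s : ℝ) : ∫ x, gz z s x * gz w s x = ov (‖z - w‖ * exp s) := by
  have e : (fun x => gz z s x * gz w s x) =
      (ball z (exp (-s)) ∩ ball w (exp (-s))).indicator fun _ => exp s ^ 2 / π := by
    funext x
    simp only [gz, indicator, mem_inter_iff, mem_ball]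
    by_cases h1 : dist x z < exp (-s) <;> by_cases h2 : dist x w < exp (-s) <;> simp [h1, h2]
    rw [div_mul_div_comm, mul_self_sqrt pi_pos.le, sq]
  rw [e, integral_indicator_const _ (measurableSet_ball.inter measurableSet_ball),
    vol_inter z w (exp_pos _), smul_eq_mul, exp_neg, div_inv_eq_mul]
  field_simp

/-- A bounded measurable curve. -/
structure Cv where
  p : ℝ → ℂ
  meas : Measurable p
  bd : ∃ R, ∀ θ, ‖p θ‖ ≤ R

/-- The average of the indicator functions along the curve. -/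
noncomputable def Cv.F (a : Cv) (s : ℝ) (x : ℂ) : ℝ := ∫ θ, gz (a.p θ) s x ∂Th

/-- The scalar product at scale `s`. -/
noncomputable def Cv.k (a b : Cv) (s : ℝ) : ℝ :=
  ∫ θ, ∫ θ', ov (‖a.p θ - b.p θ'‖ * exp s) ∂Th ∂Th

theorem Cv.meas_F (a : Cv) : Measurable fun q : ℝ × ℂ => a.F q.1 q.2 :=
  (StronglyMeasurable.integral_prod_right' (ν := Th)
    (f := fun y : (ℝ × ℂ) × ℝ => gz (a.p y.2) y.1.1 y.1.2)
    (meas_gz (a.meas.comp measurable_snd) (by fun_prop) (by fun_prop)).stronglyMeasurable).measurable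

theorem Cv.int_gg (a b : Cv) (s : ℝ) : Integrable (fun y : ℂ × ℝ × ℝ =>
    gz (a.p y.2.1) s y.1 * gz (b.p y.2.2) s y.1) (volume.prod (Th.prod Th)) := by
  obtain ⟨R, hR⟩ := a.bd
  have h1 : Integrable ((ball (0 : ℂ) (R + exp (-s))).indicator fun _ => (exp s / √π) ^ 2) :=
    (integrableOn_const measure_ball_lt_top.ne).integrable_indicator measurableSet_ball
  refine (h1.comp_fst _).mono' ((meas_gz (a.meas.comp (by fun_prop)) measurable_const
    measurable_fst).mul (meas_gz (b.meas.comp (by fun_prop)) measurable_const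
    measurable_fst)).aestronglyMeasurable (Eventually.of_forall fun y => ?_)
  rw [Real.norm_eq_abs, abs_of_nonneg (mul_nonneg (gz_nonneg _ _ _) (gz_nonneg _ _ _))]
  by_cases h : y.1 ∈ ball (0 : ℂ) (R + exp (-s))
  · rw [indicator_of_mem h, sq]
    exact mul_le_mul (gz_le _ _ _) (gz_le _ _ _) (gz_nonneg _ _ _) (by positivity)
  · rw [indicator_of_notMem h, gz, if_neg, zero_mul]
    intro h2
    apply h
    rw [mem_ball_zero_iff]
    have := norm_le_norm_add_norm_sub' y.1 (a.p y.2.1)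
    rw [dist_eq_norm] at h2
    linarith [hR y.2.1]

theorem Cv.FF (a b : Cv) (s : ℝ) (x : ℂ) : a.F s x * b.F s x =
    ∫ y : ℝ × ℝ, gz (a.p y.1) s x * gz (b.p y.2) s x ∂(Th.prod Th) :=
  (integral_prod_mul _ _).symm

theorem Cv.int_FF (a b : Cv) (s : ℝ) : Integrable fun x => a.F s x * b.F s x := by
  simp only [Cv.FF]
  exact (a.int_gg b s).integral_prod_left

theorem Cv.int_ov (a b : Cv) (s : ℝ) :
    Integrable (fun y : ℝ × ℝ => ov (‖a.p y.1 - b.p y.2‖ * exp s)) (Th.prod Th) := by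
  have := a.meas
  have := b.meas
  exact Integrable.of_bound (by fun_prop : Measurable _).aestronglyMeasurable 1
    (Eventually.of_forall fun y => by
      rw [Real.norm_eq_abs, abs_of_nonneg (ov_nonneg _)]; exact ov_le_one _)

theorem Cv.k_eq (a b : Cv) (s : ℝ) :
    a.k b s = ∫ y : ℝ × ℝ, ov (‖a.p y.1 - b.p y.2‖ * exp s) ∂(Th.prod Th) :=
  (integral_prod _ (a.int_ov b s)).symm

theorem Cv.slice (a b : Cv) (s : ℝ) : ∫ x, a.F s x * b.F s x = a.k b s := by
  simp only [Cv.FF]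
  rw [integral_integral_swap (a.int_gg b s), Cv.k_eq]
  simp only [int_gz]

theorem Cv.meas_k (a b : Cv) : Measurable (a.k b) := by
  have := a.meas
  have := b.meas
  have e : a.k b = fun s => ∫ y : ℝ × ℝ, ov (‖a.p y.1 - b.p y.2‖ * exp s) ∂(Th.prod Th) :=
    funext (a.k_eq b)
  rw [e]
  exact (StronglyMeasurable.integral_prod_right' (ν := Th.prod Th)
    (f := fun y : ℝ × ℝ × ℝ => ov (‖a.p y.2.1 - b.p y.2.2‖ * exp y.1))
    (by fun_prop : Measurable _).stronglyMeasurable).measurable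

theorem Cv.k_symm (a b : Cv) (s : ℝ) : a.k b s = b.k a s := by
  simp only [← Cv.slice, mul_comm]

theorem Cv.k_nonneg (a b : Cv) (s : ℝ) : 0 ≤ a.k b s := by
  rw [Cv.k_eq]; exact integral_nonneg fun _ => ov_nonneg _

theorem Cv.k_le_one (a b : Cv) (s : ℝ) : a.k b s ≤ 1 := by
  rw [Cv.k_eq]
  simpa using integral_mono (a.int_ov b s) (integrable_const (1 : ℝ)) fun _ => ov_le_one _

theorem Cv.k_zero (a b : Cv) {s : ℝ} (h : ∀ θ θ', 2 ≤ ‖a.p θ - b.p θ'‖ * exp s) : a.k b s = 0 := by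
  simp [Cv.k, fun θ θ' => ov_zero (h θ θ')]

theorem Cv.one_sub_k (a b : Cv) {D : ℝ} (h : ∀ θ θ', ‖a.p θ - b.p θ'‖ ≤ D) (s : ℝ) :
    1 - a.k b s ≤ 2 * D * exp s := by
  have := integral_mono (integrable_const (1 - 2 * D * exp s)) (a.int_ov b s) fun y => by
    have h1 := one_sub_ov (u := ‖a.p y.1 - b.p y.2‖ * exp s) (by positivity)
    have h2 := mul_le_mul_of_nonneg_right (h y.1 y.2) (exp_pos s).le
    beta_reduce
    linarith
  rw [← Cv.k_eq] at this
  simp only [integral_const, probReal_univ, smul_eq_mul, one_mul] at this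
  linarith

theorem Cv.exists_D (a b : Cv) : ∃ D, 0 < D ∧ ∀ θ θ', ‖a.p θ - b.p θ'‖ ≤ D := by
  obtain ⟨R, hR⟩ := a.bd
  obtain ⟨R', hR'⟩ := b.bd
  exact ⟨max 1 (R + R'), lt_max_of_lt_left one_pos, fun θ θ' =>
    ((norm_sub_le _ _).trans (add_le_add (hR θ) (hR' θ'))).trans (le_max_right _ _)⟩

theorem Cv.intOn_one_sub (a b : Cv) (m : ℝ) : IntegrableOn (fun s => 1 - a.k b s) (Iic m) := by
  obtain ⟨D, -, hD⟩ := a.exists_D b
  refine Integrable.mono' ((integrableOn_exp_Iic m).const_mul (2 * D))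
    (measurable_const.sub (a.meas_k b)).aestronglyMeasurable (Eventually.of_forall fun s => ?_)
  rw [Real.norm_eq_abs, abs_of_nonneg (sub_nonneg.2 (a.k_le_one b s))]
  exact a.one_sub_k b hD s

/-- Finite logarithmic energy. -/
structure Cv.En (a b : Cv) : Prop where
  ne : ∀ᵐ y ∂(Th.prod Th), 0 < ‖a.p y.1 - b.p y.2‖
  int : Integrable (fun y : ℝ × ℝ => log ‖a.p y.1 - b.p y.2‖) (Th.prod Th)

theorem Cv.En.int_prod {a b : Cv} (h : a.En b) (m : ℝ) : Integrable (fun y : ℝ × ℝ × ℝ =>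
    ov (‖a.p y.2.1 - b.p y.2.2‖ * exp y.1)) ((volume.restrict (Ioi m)).prod (Th.prod Th)) := by
  have := a.meas
  have := b.meas
  obtain ⟨D, -, hD⟩ := a.exists_D b
  have hm : Measurable fun y : ℝ × ℝ × ℝ => ov (‖a.p y.2.1 - b.p y.2.2‖ * exp y.1) := by fun_prop
  refine (integrable_prod_iff' hm.aestronglyMeasurable).2 ⟨h.ne.mono fun y hy => intOn_ov hy m, ?_⟩
  refine Integrable.mono' ((integrable_const (log (max (2 * exp (-m)) D))).sub h.int)
    (hm.norm.stronglyMeasurable.integral_prod_left').aestronglyMeasurable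
    (h.ne.mono fun y hy => ?_)
  simp only [Real.norm_eq_abs, abs_of_nonneg (ov_nonneg _)]
  rw [abs_of_nonneg (integral_nonneg fun _ => ov_nonneg _)]
  exact int_ov_le hy (hD _ _) m

theorem Cv.En.intOn {a b : Cv} (h : a.En b) (m : ℝ) : IntegrableOn (a.k b) (Ioi m) := by
  have e : a.k b = fun s => ∫ y : ℝ × ℝ, ov (‖a.p y.1 - b.p y.2‖ * exp s) ∂(Th.prod Th) :=
    funext (a.k_eq b)
  rw [e]
  exact (h.int_prod m).integral_prod_left

theorem Cv.En.swap {a b : Cv} (h : a.En b) (m : ℝ) : ∫ s in Ioi m, a.k b s =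
    ∫ y : ℝ × ℝ, (∫ s in Ioi m, ov (‖a.p y.1 - b.p y.2‖ * exp s)) ∂(Th.prod Th) := by
  simp only [Cv.k_eq]
  exact integral_integral_swap (h.int_prod m)

theorem Cv.En.int_le {a b : Cv} (h : a.En b) {D : ℝ} (hD : ∀ θ θ', ‖a.p θ - b.p θ'‖ ≤ D) (m : ℝ) :
    ∫ s in Ioi m, a.k b s ≤
      log (max (2 * exp (-m)) D) - ∫ y : ℝ × ℝ, log ‖a.p y.1 - b.p y.2‖ ∂(Th.prod Th) := by
  rw [h.swap]
  have := integral_mono_ae (h.int_prod m).integral_prod_right
    ((integrable_const (log (max (2 * exp (-m)) D))).sub h.int)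
    (h.ne.mono fun y hy => int_ov_le hy (hD _ _) m)
  simp only [Pi.sub_apply] at this
  rw [integral_sub (integrable_const _) h.int] at this
  simpa using this

theorem Cv.En.ident {a b : Cv} (h : a.En b) :
    (∫ s in Ioi 0, a.k b s) - ∫ s in Iic 0, (1 - a.k b s) =
      -(∫ y : ℝ × ℝ, log ‖a.p y.1 - b.p y.2‖ ∂(Th.prod Th)) + c0 := by
  have := a.meas
  have := b.meas
  obtain ⟨D, -, hD⟩ := a.exists_D b
  have hi : Integrable (fun y : ℝ × ℝ × ℝ => 1 - ov (‖a.p y.2.1 - b.p y.2.2‖ * exp y.1))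
      ((volume.restrict (Iic 0)).prod (Th.prod Th)) := by
    refine (((integrableOn_exp_Iic 0).const_mul (2 * D)).comp_fst _).mono'
      (by fun_prop : Measurable _).aestronglyMeasurable (Eventually.of_forall fun y => ?_)
    rw [Real.norm_eq_abs, abs_of_nonneg (sub_nonneg.2 (ov_le_one _))]
    have h1 := one_sub_ov (u := ‖a.p y.2.1 - b.p y.2.2‖ * exp y.1) (by positivity)
    have h2 := mul_le_mul_of_nonneg_right (hD y.2.1 y.2.2) (exp_pos y.1).le
    linarith
  have e : ∀ s, 1 - a.k b s =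
      ∫ y : ℝ × ℝ, (1 - ov (‖a.p y.1 - b.p y.2‖ * exp s)) ∂(Th.prod Th) := fun s => by
    rw [integral_sub (integrable_const _) (a.int_ov b s), Cv.k_eq]; simp
  simp only [e]
  have e2 := integral_integral_swap (f := fun (s : ℝ) (y : ℝ × ℝ) =>
    1 - ov (‖a.p y.1 - b.p y.2‖ * exp s)) hi
  rw [h.swap, e2, ← integral_sub (h.int_prod 0).integral_prod_right hi.integral_prod_right,
    integral_congr_ae (h.ne.mono fun y hy => log_eq hy), integral_add h.int.fun_neg (integrable_const _),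
    integral_neg]
  simp

end Pool.Agent.Lib.MP_d1f1b2_pr
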