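import Pool.Agent.Lib.MP_d1f1b2_pr.Avg

/-! Counting the squares that a path of tiles can reach: suffix minima of the depth. -/

open Set Filter Real
open scoped ENNReal Topology

namespace Pool.Agent.Lib.MP_d1f1b2_pr

/-- `T` lies in the sup-norm ball of radius `r` about `p`. -/
def InB (p : ℂ) (r : ℝ) (T : Sq) : Prop :=
  p.re - r ≤ T.i * T.side ∧ (T.i + 1) * T.side ≤ p.re + r ∧
    p.im - r ≤ T.j * T.side ∧ (T.j + 1) * T.side ≤ p.im + r

def OnBd (U : Sq) (p : ℂ) : Prop :=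
  p ∈ U.carrier ∧ (p.re = U.i * U.side ∨ p.re = (U.i + 1) * U.side ∨
    p.im = U.j * U.side ∨ p.im = (U.j + 1) * U.side)

def NearB (g : ℕ) (U T : Sq) : Prop := U.n < T.n ∧ ∃ p, OnBd U p ∧ InB p (g * T.side) T

inductive Ch (b : Sq → Prop) : ℕ → Sq → Prop
  | base {g : ℕ} {T : Sq} : b T → InB 0 (g * T.side) T → Ch b g T
  | step {k g : ℕ} {U T : Sq} : Ch b k U → NearB g U T → Ch b (k + g) T

theorem InB.mono {p : ℂ} {r r' : ℝ} {T : Sq} (h : InB p r T) (hr : r ≤ r') : InB p r' T := by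
  obtain ⟨a, b, c, d⟩ := h
  exact ⟨by linarith, by linarith, by linarith, by linarith⟩

theorem InB.trans {p z : ℂ} {r r' : ℝ} {T T' : Sq} (h : InB p r T) (hz : z ∈ T.carrier)
    (h' : InB z r' T') : InB p (r + r') T' := by
  obtain ⟨a, b, c, d⟩ := h
  obtain ⟨a', b', c', d'⟩ := h'
  obtain ⟨e1, e2, e3, e4⟩ := hz
  exact ⟨by linarith, by linarith, by linarith, by linarith⟩

theorem inB_self {z : ℂ} {T : Sq} (hz : z ∈ T.carrier) : InB z T.side T := by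
  obtain ⟨e1, e2, e3, e4⟩ := hz
  exact ⟨by linarith, by linarith, by linarith, by linarith⟩

theorem side_le_of_n {S T : Sq} (h : T.n ≤ S.n) : S.side ≤ T.side :=
  zpow_le_zpow_right₀ one_le_two (by omega)

theorem NearB.pos {g : ℕ} {U T : Sq} (h : NearB g U T) : 0 < g := by
  obtain ⟨-, p, -, a, b, -⟩ := h
  rcases Nat.eq_zero_or_pos g with rfl | h
  · have := side_pos T
    simp only [Nat.cast_zero, zero_mul, sub_zero, add_zero] at a b
    linarith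
  · exact h

theorem Ch.mono {b : Sq → Prop} {k k' : ℕ} {T : Sq} (h : Ch b k T) (hk : k ≤ k') : Ch b k' T := by
  obtain ⟨a, rfl⟩ := Nat.exists_eq_add_of_le hk
  have hs := side_pos T
  cases h with
  | base h1 h2 => exact .base h1 (h2.mono (by push_cast; nlinarith [a.cast_nonneg (α := ℝ)]))
  | step h1 h2 =>
    obtain ⟨h3, p, h4, h5⟩ := h2
    rw [add_assoc]
    exact .step h1 ⟨h3, p, h4, h5.mono (by push_cast; nlinarith [a.cast_nonneg (α := ℝ)])⟩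

theorem Ch.pop {b : Sq → Prop} {k : ℕ} {T T' : Sq} (h : Ch b k T)
    (hb : ∀ V, b V → T'.n ≤ V.n → b T') (a : ℕ) (hn : T'.n ≤ T.n) {z : ℂ} (hz : z ∈ T.carrier)
    (h' : InB z (a * T'.side) T') : Ch b (k + a) T' := by
  induction h generalizing a z with
  | @base g T h1 h2 =>
    refine .base (hb _ h1 hn) ((h2.trans hz h').mono ?_)
    have := side_le_of_n hn
    push_cast
    nlinarith [g.cast_nonneg (α := ℝ)]
  | @step k g U T h1 h2 ih =>
    obtain ⟨h3, p, h4, h5⟩ := h2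
    have h6 : InB p ((g + a : ℕ) * T'.side) T' := by
      refine (h5.trans hz h').mono ?_
      have := side_le_of_n hn
      push_cast
      nlinarith [g.cast_nonneg (α := ℝ)]
    rw [add_assoc]
    rcases lt_or_ge U.n T'.n with h7 | h7
    · exact .step h1 ⟨h7, p, h4, h6⟩
    · exact ih (g + a) h7 h4.1 h6

theorem near_of_adj {D : Sq → Prop} {U T : Sq} (h : adj D U T) (hn : U.n < T.n) : NearB 1 U T := by
  obtain ⟨z, hz1, hz2⟩ := h.2.2.2.nonempty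
  obtain ⟨k, hk⟩ := Int.le.dest hn.le
  have hk' : U.n = T.n - k := by omega
  have hni := not_ins_of_adj h
  obtain ⟨c1, c2, c3, c4⟩ := inter_int hk' ⟨z, hz2, hz1⟩
  refine ⟨hn, z, ⟨hz1, ?_⟩, by simpa using inB_self hz2⟩
  have hs := side_of_n hk'
  obtain ⟨a1, a2, a3, a4⟩ := hz1
  obtain ⟨b1, b2, b3, b4⟩ := hz2
  by_contra hc
  simp only [not_or] at hc
  obtain ⟨d1, d2, d3, d4⟩ := hc
  have hp := side_pos T
  have e1 : U.i * 2 ^ k ≤ T.i := by
    by_contra e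
    have e' : (T.i : ℝ) + 1 = U.i * 2 ^ k := by exact_mod_cast (by omega : T.i + 1 = U.i * 2 ^ k)
    exact d1 (le_antisymm (by rw [hs, ← mul_assoc, ← e']; exact b2) a1)
  have e2 : T.i < (U.i + 1) * 2 ^ k := by
    by_contra e
    have e' : (T.i : ℝ) = (U.i + 1) * 2 ^ k := by exact_mod_cast (by omega : T.i = (U.i + 1) * 2 ^ k)
    exact d2 (le_antisymm a2 (by rw [hs, ← mul_assoc, ← e']; exact b1))
  have e3 : U.j * 2 ^ k ≤ T.j := by
    by_contra e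
    have e' : (T.j : ℝ) + 1 = U.j * 2 ^ k := by exact_mod_cast (by omega : T.j + 1 = U.j * 2 ^ k)
    exact d3 (le_antisymm (by rw [hs, ← mul_assoc, ← e']; exact b4) a3)
  have e4 : T.j < (U.j + 1) * 2 ^ k := by
    by_contra e
    have e' : (T.j : ℝ) = (U.j + 1) * 2 ^ k := by exact_mod_cast (by omega : T.j = (U.j + 1) * 2 ^ k)
    exact d4 (le_antisymm a4 (by rw [hs, ← mul_assoc, ← e']; exact b3))
  exact hni ⟨k, Sq.ext' hk'.symm (div_eq_iff.2 ⟨e1, e2⟩) (div_eq_iff.2 ⟨e3, e4⟩)⟩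

theorem ch_of_rk {D : Sq → Prop} (hO : tile D O) {k : ℕ} {T : Sq} (h : Rk D k O T) :
    Ch (fun V => D V ∧ V.n ≤ 0) (k + 1) T := by
  induction k generalizing T with
  | zero =>
    cases h
    exact .base ⟨hO.1, le_rfl⟩ (by simp [InB, O, Sq.side])
  | succ k ih =>
    rcases h with h | ⟨U, h1, h2⟩
    · exact (ih h).mono (by omega)
    · rcases lt_or_ge U.n T.n with h3 | h3
      · exact .step (ih h1) (near_of_adj h2 h3)
      · obtain ⟨z, hz1, hz2⟩ := h2.2.2.2.nonempty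
        exact (ih h1).pop (fun V hV hn => ⟨h2.2.2.1.1, hn.trans hV.2⟩) 1 h3 hz1
          (by simpa using inB_self hz2)

theorem Ch.imp {b b' : Sq → Prop} {k : ℕ} {T : Sq} (h : Ch b k T)
    (hb : ∀ V, b V → InB 0 (k * V.side) V → b' V) : Ch b' k T := by
  induction h with
  | base h1 h2 => exact .base (hb _ h1 h2) h2
  | @step k g U T _ h2 ih =>
    refine .step (ih fun V h3 h4 => hb V h3 (h4.mono ?_)) h2
    have := side_pos V
    push_cast
    nlinarith [g.cast_nonneg (α := ℝ)]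

theorem Ch.loc {ρ k : ℕ} {T : Sq} (h : Ch (fun V => -(ρ : ℤ) ≤ V.n ∧ V.n ≤ 0) k T) :
    -(ρ : ℤ) ≤ T.n ∧ InB 0 (k * 2 ^ ρ) T := by
  have key : ∀ V : Sq, -(ρ : ℤ) ≤ V.n → V.side ≤ 2 ^ ρ := fun V hV => by
    have := side_le_of_n (S := V) (T := ⟨-ρ, 0, 0⟩) hV
    simpa [Sq.side] using this
  induction h with
  | @base g T h1 h2 =>
    exact ⟨h1.1, h2.mono (mul_le_mul_of_nonneg_left (key _ h1.1) g.cast_nonneg)⟩
  | @step k g U T _ h2 ih =>
    obtain ⟨h3, p, h4, h5⟩ := h2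
    have h6 : -(ρ : ℤ) ≤ T.n := by omega
    refine ⟨h6, (ih.2.trans h4.1 h5).mono ?_⟩
    have := mul_le_mul_of_nonneg_left (key _ h6) (g.cast_nonneg (α := ℝ))
    push_cast
    linarith

/-- weighted number of squares -/
noncomputable def wm (η : ℝ) (s : Set Sq) : ℝ≥0∞ := ∑' T : s, ee (-η * T.1.n)

theorem wm_mono (η : ℝ) {s t : Set Sq} (h : s ⊆ t) : wm η s ≤ wm η t :=
  ENNReal.tsum_mono_subtype (fun T : Sq => ee (-η * T.n)) h

theorem wm_rect (η : ℝ) (n a a' b b' : ℤ) :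
    wm η {T | T.n = n ∧ a ≤ T.i ∧ T.i < a' ∧ b ≤ T.j ∧ T.j < b'} ≤
      (((a' - a).toNat * (b' - b).toNat : ℕ) : ℝ≥0∞) * ee (-η * n) := by
  set F : Finset Sq := (Finset.Ico a a' ×ˢ Finset.Ico b b').image fun p => ⟨n, p.1, p.2⟩ with hF
  have h1 : {T : Sq | T.n = n ∧ a ≤ T.i ∧ T.i < a' ∧ b ≤ T.j ∧ T.j < b'} ⊆ F := by
    rintro T ⟨h1, h2, h3, h4, h5⟩
    simp only [hF, Finset.coe_image, mem_image, Finset.mem_coe, Finset.mem_product, Finset.mem_Ico]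
    exact ⟨(T.i, T.j), ⟨⟨h2, h3⟩, h4, h5⟩, Sq.ext' h1.symm rfl rfl⟩
  refine (wm_mono η h1).trans ?_
  unfold wm
  rw [Finset.tsum_subtype' F fun T : Sq => ee (-η * T.n)]
  refine (Finset.sum_le_card_nsmul F _ (ee (-η * n)) fun T hT => ?_).trans ?_
  · obtain ⟨p, -, rfl⟩ := Finset.mem_image.1 hT
    exact le_rfl
  · rw [nsmul_eq_mul]
    gcongr
    exact Finset.card_image_le.trans (by simp)

theorem wm_union (η : ℝ) (s t : Set Sq) : wm η (s ∪ t) ≤ wm η s + wm η t :=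
  ENNReal.tsum_union_le (fun T : Sq => ee (-η * T.n)) s t

theorem wm_iUnion (η : ℝ) {ι : Type*} (t : ι → Set Sq) : wm η (⋃ i, t i) ≤ ∑' i, wm η (t i) :=
  ENNReal.tsum_iUnion_le_tsum (fun T : Sq => ee (-η * T.n)) t

theorem wm_biUnion (η : ℝ) {ι : Type*} (s : Finset ι) (t : ι → Set Sq) :
    wm η (⋃ i ∈ s, t i) ≤ ∑ i ∈ s, wm η (t i) :=
  ENNReal.tsum_biUnion_le (fun T : Sq => ee (-η * T.n)) s t

theorem int_le_of {a b : ℤ} {s : ℝ} (hs : 0 < s) (h : (a : ℝ) * s ≤ b * s) : a ≤ b := by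
  exact_mod_cast le_of_mul_le_mul_right h hs

theorem wm_near_d (η : ℝ) (g d : ℕ) (U : Sq) :
    wm η {T | T.n = U.n + d ∧ NearB g U T} ≤
      ((8 * g * (2 ^ d + 2 * g) : ℕ) : ℝ≥0∞) * ee (-η * (U.n + d : ℤ)) := by
  set A := U.i * 2 ^ d with hA
  set B := U.j * 2 ^ d with hB
  set M : ℤ := 2 ^ d with hM
  set R : ℤ → ℤ → ℤ → ℤ → Set Sq := fun a a' b b' =>
    {T | T.n = U.n + d ∧ a ≤ T.i ∧ T.i < a' ∧ b ≤ T.j ∧ T.j < b'} with hR
  have h1 : {T | T.n = U.n + d ∧ NearB g U T} ⊆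
      (R (A - g) (A + g) (B - g) (B + M + g) ∪ R (A + M - g) (A + M + g) (B - g) (B + M + g)) ∪
      (R (A - g) (A + M + g) (B - g) (B + g) ∪ R (A - g) (A + M + g) (B + M - g) (B + M + g)) := by
    rintro T ⟨hn, -, p, ⟨⟨a1, a2, a3, a4⟩, hp⟩, b1, b2, b3, b4⟩
    have hs := side_pos T
    have e : U.side = 2 ^ d * T.side := side_of_n (by omega)
    rw [e] at a1 a2 a3 a4 hp
    have c1 : A - g ≤ T.i := int_le_of hs (by rw [hA, hM]; push_cast; linarith)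
    have c2 : T.i + 1 ≤ A + M + g := int_le_of hs (by rw [hA, hM]; push_cast; linarith)
    have c3 : B - g ≤ T.j := int_le_of hs (by rw [hB, hM]; push_cast; linarith)
    have c4 : T.j + 1 ≤ B + M + g := int_le_of hs (by rw [hB, hM]; push_cast; linarith)
    rcases hp with hp | hp | hp | hp
    · have c : T.i + 1 ≤ A + g := int_le_of hs (by rw [hA, hM]; push_cast; linarith)
      exact .inl (.inl ⟨hn, c1, by omega, c3, by omega⟩)
    · have c : A + M - g ≤ T.i := int_le_of hs (by rw [hA, hM]; push_cast; linarith)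
      exact .inl (.inr ⟨hn, c, by omega, c3, by omega⟩)
    · have c : T.j + 1 ≤ B + g := int_le_of hs (by rw [hB, hM]; push_cast; linarith)
      exact .inr (.inl ⟨hn, c1, by omega, c3, by omega⟩)
    · have c : B + M - g ≤ T.j := int_le_of hs (by rw [hB, hM]; push_cast; linarith)
      exact .inr (.inr ⟨hn, c1, by omega, c, by omega⟩)
  have t1 : ∀ x : ℤ, (x + g - (x - g)).toNat = 2 * g := fun x => by omega
  have t2 : ∀ x : ℤ, (x + M + g - (x - g)).toNat = 2 ^ d + 2 * g := fun x => by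
    have : (M : ℤ) = ((2 ^ d : ℕ) : ℤ) := by rw [hM]; push_cast; rfl
    rw [this]
    generalize 2 ^ d = y
    omega
  refine (wm_mono η h1).trans ((wm_union η _ _).trans ((add_le_add
    ((wm_union η _ _).trans (add_le_add (wm_rect η _ _ _ _ _) (wm_rect η _ _ _ _ _)))
    ((wm_union η _ _).trans (add_le_add (wm_rect η _ _ _ _ _) (wm_rect η _ _ _ _ _)))).trans
      (le_of_eq ?_)))
  rw [t1, t1, t1, t1, t2, t2]
  push_cast
  ring

theorem ee_log2' : ee (log 2) = 2 := ee_log2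

theorem wm_near {η : ℝ} (hη : log 2 < η) : ∃ c : ℝ≥0∞, c ≠ ∞ ∧ ∀ (g : ℕ) (U : Sq),
    wm η {T | NearB g U T} ≤ c * 4 ^ g * ee (-η * U.n) := by
  refine ⟨24 * ∑' d : ℕ, ee (-(η - log 2) * d),
    ENNReal.mul_ne_top (by simp) (tsum_ee (by linarith)), fun g U => ?_⟩
  have h1 : {T | NearB g U T} ⊆ ⋃ d : ℕ, {T | T.n = U.n + d ∧ NearB g U T} := fun T hT => by
    obtain ⟨d, hd⟩ := Int.le.dest hT.1.le
    exact mem_iUnion.2 ⟨d, hd.symm, hT⟩
  refine (wm_mono η h1).trans ((wm_iUnion η _).trans ?_)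
  rw [mul_right_comm (24 : ℝ≥0∞), mul_right_comm, ← ENNReal.tsum_mul_left]
  refine ENNReal.tsum_le_tsum fun d => (wm_near_d η g d U).trans ?_
  have e : ee (-(η - log 2) * d) = 2 ^ d * ee (-η * d) := by
    rw [← ee_log2, ← ee_nat_mul, ← ee_add]; congr 1; ring
  have e' : ee (-η * (U.n + d : ℤ)) = ee (-η * U.n) * ee (-η * d) := by
    rw [← ee_add]; congr 1; push_cast; ring
  have hg : g ≤ 2 ^ g := Nat.lt_two_pow_self.le
  have hd : 1 ≤ 2 ^ d := Nat.one_le_two_pow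
  have hg1 : 1 ≤ 2 ^ g := Nat.one_le_two_pow
  have h2 : 8 * g * (2 ^ d + 2 * g) ≤ 24 * 4 ^ g * 2 ^ d := by
    have : 2 ^ d + 2 * g ≤ 3 * 2 ^ g * 2 ^ d := by nlinarith
    calc _ ≤ 8 * 2 ^ g * (3 * 2 ^ g * 2 ^ d) := by gcongr
      _ = _ := by rw [show (4 : ℕ) = 2 * 2 by rfl, mul_pow]; ring
  rw [e, e']
  calc _ ≤ ((24 * 4 ^ g * 2 ^ d : ℕ) : ℝ≥0∞) * (ee (-η * U.n) * ee (-η * d)) := by gcongr
    _ = _ := by push_cast; ring

theorem gron (c : ℝ≥0∞) (k : ℕ) : 1 + c * ∑ j ∈ Finset.range k, (1 + c) ^ j = (1 + c) ^ k := by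
  induction k with
  | zero => simp
  | succ k ih => rw [Finset.sum_range_succ, mul_add, ← add_assoc, ih]; ring

theorem wm_ch {η : ℝ} {c β : ℝ≥0∞} {b : Sq → Prop} {K : ℕ}
    (hc : ∀ (g : ℕ) (U : Sq), wm η {T | NearB g U T} ≤ c * 4 ^ g * ee (-η * U.n))
    (hβ : ∀ k ≤ K, wm η {T | b T ∧ InB 0 (k * T.side) T} ≤ β) (k : ℕ) (hk : k ≤ K) :
    wm η {T | Ch b k T} ≤ β * (4 ^ k * (1 + c) ^ k) := by
  induction k using Nat.strong_induction_on with
  | _ k ih =>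
  have h1 : {T | Ch b k T} ⊆ {T | b T ∧ InB 0 (k * T.side) T} ∪
      ⋃ j ∈ Finset.range k, ⋃ U : {U | Ch b j U}, {T | NearB (k - j) U T} := fun T hT => by
    cases hT with
    | base h1 h2 => exact .inl ⟨h1, h2⟩
    | @step j g U T h1 h2 =>
      have := h2.pos
      refine .inr (mem_iUnion₂.2 ⟨j, by simp; omega, mem_iUnion.2 ⟨⟨U, h1⟩, ?_⟩⟩)
      simpa using h2
  refine (wm_mono η h1).trans ((wm_union η _ _).trans ((add_le_add (hβ k hk)
    ((wm_biUnion η _ _).trans (Finset.sum_le_sum (g := fun j => β * 4 ^ k * c * (1 + c) ^ j)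
      fun j hj => ?_))).trans ?_))
  · have hj' := Finset.mem_range.1 hj
    refine (wm_iUnion η _).trans ((ENNReal.tsum_le_tsum fun U => hc _ _).trans ?_)
    rw [ENNReal.tsum_mul_left]
    calc _ ≤ c * 4 ^ (k - j) * (β * (4 ^ j * (1 + c) ^ j)) := by
          gcongr
          exact ih j hj' (by omega)
      _ = β * (4 ^ (k - j) * 4 ^ j) * c * (1 + c) ^ j := by ring
      _ = _ := by rw [← pow_add, Nat.sub_add_cancel hj'.le]
  · rw [← Finset.mul_sum, ← gron c k]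
    have : β ≤ β * 4 ^ k := le_mul_of_one_le_right zero_le (one_le_pow₀ (by norm_num))
    calc _ ≤ β * 4 ^ k + β * 4 ^ k * c * ∑ j ∈ Finset.range k, (1 + c) ^ j := by gcongr
      _ = _ := by ring

theorem wm_inB (η : ℝ) (n : ℤ) (k : ℕ) :
    wm η {T | T.n = n ∧ InB 0 (k * T.side) T} ≤ ((2 * k * (2 * k) : ℕ) : ℝ≥0∞) * ee (-η * n) := by
  have t : ((k : ℤ) - -k).toNat = 2 * k := by omega
  refine (wm_mono η ?_).trans ((wm_rect η n (-k) k (-k) k).trans (by rw [t]))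
  rintro T ⟨hn, a1, a2, a3, a4⟩
  have hs := side_pos T
  simp only [Complex.zero_re, Complex.zero_im] at a1 a2 a3 a4
  have c1 : -(k : ℤ) ≤ T.i := int_le_of hs (by push_cast; linarith)
  have c2 : T.i + 1 ≤ k := int_le_of hs (by push_cast; linarith)
  have c3 : -(k : ℤ) ≤ T.j := int_le_of hs (by push_cast; linarith)
  have c4 : T.j + 1 ≤ k := int_le_of hs (by push_cast; linarith)
  exact ⟨hn, c1, by omega, c3, by omega⟩

/-- the weighted number of candidates grows at most exponentially -/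
theorem wm_cand {η : ℝ} (hη : log 2 < η) : ∃ C : ℝ, ∀ ρ : ℕ,
    wm η {T | Ch (fun V => -(ρ : ℤ) ≤ V.n ∧ V.n ≤ 0) (ρ + 1) T} ≤ ee (C * (ρ + 1)) := by
  obtain ⟨c, hc0, hc⟩ := wm_near hη
  have hL := log2pos
  obtain ⟨x, hx⟩ : ∃ x : ℝ, 1 + c ≤ ee x := by
    refine ⟨(1 + c).toReal, ?_⟩
    rw [ee, ← ENNReal.ofReal_toReal (show 1 + c ≠ ∞ by simp [hc0]), ENNReal.toReal_ofReal
      ENNReal.toReal_nonneg]
    exact ENNReal.ofReal_le_ofReal (by linarith [add_one_le_exp (1 + c).toReal])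
  refine ⟨7 * log 2 + η + x, fun ρ => ?_⟩
  have hβ : ∀ k ≤ ρ + 1, wm η {T : Sq | (-(ρ : ℤ) ≤ T.n ∧ T.n ≤ 0) ∧ InB 0 (k * T.side) T} ≤
      ((32 ^ (ρ + 1) : ℕ) : ℝ≥0∞) * ee (η * (ρ + 1)) := fun k hk => by
    have h1 : {T : Sq | (-(ρ : ℤ) ≤ T.n ∧ T.n ≤ 0) ∧ InB 0 (k * T.side) T} ⊆
        ⋃ m ∈ Finset.range (ρ + 1), {T | T.n = -(m : ℤ) ∧ InB 0 (k * T.side) T} := by
      rintro T ⟨⟨h1, h2⟩, h3⟩
      exact mem_iUnion₂.2 ⟨(-T.n).toNat, by simp; omega, by omega, h3⟩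
    refine (wm_mono η h1).trans ((wm_biUnion η _ _).trans ((Finset.sum_le_card_nsmul _ _
      (((2 * k * (2 * k) : ℕ) : ℝ≥0∞) * ee (η * (ρ + 1))) fun m hm => ?_).trans ?_))
    · refine (wm_inB η _ k).trans ?_
      gcongr
      refine ee_mono ?_
      have : (m : ℝ) ≤ ρ + 1 := by exact_mod_cast (Finset.mem_range.1 hm).le
      push_cast
      nlinarith
    · rw [Finset.card_range, nsmul_eq_mul, ← mul_assoc, ← Nat.cast_mul]
      gcongr
      have h2 : ρ + 1 ≤ 2 ^ (ρ + 1) := Nat.lt_two_pow_self.le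
      have h3 : 2 ≤ 2 ^ (ρ + 1) := by rw [pow_succ]; have := Nat.one_le_two_pow (n := ρ); omega
      have h4 : k ≤ 2 ^ (ρ + 1) := hk.trans h2
      calc _ ≤ 2 ^ (ρ + 1) * (2 ^ (ρ + 1) * 2 ^ (ρ + 1) * (2 ^ (ρ + 1) * 2 ^ (ρ + 1))) := by gcongr
        _ = _ := by simp only [← mul_pow]; norm_num
  refine (wm_ch hc hβ _ le_rfl).trans ?_
  have e1 : ((32 ^ (ρ + 1) : ℕ) : ℝ≥0∞) = ee (5 * log 2) ^ (ρ + 1) := by
    rw [show (5 : ℝ) = (5 : ℕ) by simp, ee_nat_mul, ee_log2]; push_cast; norm_num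
  have e2 : (4 : ℝ≥0∞) = ee (2 * log 2) := by
    rw [show (2 : ℝ) * log 2 = (2 : ℕ) * log 2 by simp, ee_nat_mul, ee_log2]; norm_num
  calc _ ≤ ee (5 * log 2) ^ (ρ + 1) * ee (η * (ρ + 1)) *
        (ee (2 * log 2) ^ (ρ + 1) * ee x ^ (ρ + 1)) := by rw [e1, ← e2]; gcongr
    _ = _ := by
      simp only [← ee_nat_mul, ← ee_add]; congr 1; push_cast; ring

end Pool.Agent.Lib.MP_d1f1b2_pr
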