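import Pool.Agent.Lib.D1W.U1

/-! Exponential upper bound for the size of graph balls when `Q ^ 2 > 2`. -/

open Set Filter MeasureTheory ProbabilityTheory Real
open scoped ENNReal Topology

namespace Pool.Agent.Lib.MP_d1f1b2_pr

variable {Ω : Type*} {mΩ : MeasurableSpace Ω} {P : Measure Ω} {h : Sq → Ω → ℝ} {Q : ℝ}

/-- number of squares within `k` steps of `S` -/
noncomputable def NB (D : Sq → Prop) (k : ℕ) (S : Sq) : ℝ≥0∞ := {T | Rk D k S T}.encard

theorem encard_eq_tsum (s : Set Sq) : (s.encard : ℝ≥0∞) = ∑' T, s.indicator 1 T := by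
  rw [← ENNReal.tsum_set_one, ← tsum_subtype]; rfl

theorem meas_encard {α : Type*} [MeasurableSpace α] {p : α → Sq → Prop}
    (hp : ∀ T, Measurable fun a => p a T) : Measurable fun a => ({T | p a T}.encard : ℝ≥0∞) := by
  simp only [encard_eq_tsum]
  refine Measurable.tsum fun T => ?_
  exact measurable_one.indicator (s := {a | p a T}) (measurableSet_setOfPred.2 (hp T))

theorem meas_NB (k : ℕ) (S : Sq) : Measurable fun D => NB D k S :=
  meas_encard fun T => meas_Rk k S T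

theorem NB_sc (m : ℤ) (D : Sq → Prop) (k : ℕ) (S : Sq) : NB (D ∘ sc m) k S = NB D k (sc m S) := by
  unfold NB
  rw [← (show Function.Injective (sc m) from fun _ _ => sc_inj m).encard_image]
  congr 2
  ext T
  exact ⟨fun ⟨U, h1, h2⟩ => h2 ▸ Rk_sc.1 h1, fun h1 => ⟨sc (-m) T, Rk_sc.2 (by
    simpa [sc_sc] using h1), by simp [sc_sc]⟩⟩

theorem NB_mono (D : Sq → Prop) {k l : ℕ} (hk : k ≤ l) (S : Sq) : NB D k S ≤ NB D l S :=
  ENat.toENNReal_le.2 (encard_le_encard fun _ h => Rk.mono h hk)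

theorem Rk.tile {D : Sq → Prop} {k : ℕ} {S T : Sq} (h : Rk D k S T) (hS : tile D S) :
    tile D T := by
  induction k with
  | zero => cases h; exact hS
  | succ k ih =>
    rcases h with h | ⟨U, -, h⟩
    · exact ih h
    · exact h.2.2.1

theorem cnt_tail {s : Set Sq} {A : Sq → Set Ω} (hA : ∀ T, MeasurableSet (A T)) {η B : ℝ}
    (hP : ∀ T ∈ s, P (A T) ≤ ee (-η * T.n + B)) (y : ℝ) :
    P {ω | ee y ≤ ({T | T ∈ s ∧ ω ∈ A T}.encard : ℝ≥0∞)} ≤ wm η s * ee (B - y) := by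
  have hm : Measurable fun ω => ({T | T ∈ s ∧ ω ∈ A T}.encard : ℝ≥0∞) :=
    meas_encard fun T => measurable_const.and (measurableSet_setOfPred.1 (hA T))
  have h1 : ∫⁻ ω, ({T | T ∈ s ∧ ω ∈ A T}.encard : ℝ≥0∞) ∂P ≤ wm η s * ee B := by
    have e : ∀ ω, ({T | T ∈ s ∧ ω ∈ A T}.encard : ℝ≥0∞) = ∑' T : s, (A T).indicator 1 ω := fun ω => by
      rw [encard_eq_tsum, tsum_subtype s fun T => (A T).indicator (1 : Ω → ℝ≥0∞) ω]
      refine tsum_congr fun T => ?_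
      by_cases h1 : T ∈ s <;> by_cases h2 : ω ∈ A T <;> simp [h1, h2]
    simp only [e]
    rw [lintegral_tsum fun T => (measurable_one.indicator (hA _)).aemeasurable, wm,
      ← ENNReal.tsum_mul_right]
    refine ENNReal.tsum_le_tsum fun T => ?_
    rw [lintegral_indicator_one (hA _), ← ee_add]
    exact hP _ T.2
  calc _ = ee (-y) * (ee y * P {ω | ee y ≤ ({T | T ∈ s ∧ ω ∈ A T}.encard : ℝ≥0∞)}) := by
        rw [← mul_assoc, ← ee_add]; simp
    _ ≤ ee (-y) * (wm η s * ee B) :=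
        mul_le_mul_right ((mul_meas_ge_le_lintegral₀ hm.aemeasurable _).trans h1) _
    _ = _ := by rw [mul_left_comm, ← ee_add]; congr 2; ring

theorem exists_ee {c : ℝ≥0∞} (hc : c ≠ ∞) : ∃ x, c ≤ ee x :=
  ⟨1 * c.toReal - log 1, (ENNReal.ofReal_toReal hc).ge.trans (ofReal_le_ee one_pos)⟩

theorem log_le_lin {x δ : ℝ} (hx : 0 < x) (hδ : 0 < δ) : log x ≤ δ * x - log δ := by
  have := log_le_sub_one_of_pos (mul_pos hδ hx)
  rw [log_mul hδ.ne' hx.ne'] at this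
  linarith

theorem top_ok (hh : CG h P gffCov) (hQ : 0 < Q) (l : ℝ) : ∀ᵐ ω ∂P, ∀ᶠ ρ : ℕ in atTop,
    ∀ V : Sq, V.n < -(ρ : ℤ) → InB 0 ((ρ + 1 : ℕ) * V.side) V → ¬ DD Q (fun S => h S ω) l V := by
  have hL := log2pos
  set η := Q ^ 2 * log 2 / 2 with hη
  have hη0 : 0 < η := by positivity
  obtain ⟨x, hx⟩ := exists_ee (tsum_ee hη0)
  set δ := η / (4 * (Q ^ 2 + 2)) with hδ
  have hδ0 : 0 < δ := by positivity
  have hδ1 : (Q ^ 2 + 2) * δ = η / 4 := by rw [hδ]; field_simp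
  set s : ℕ → Set Sq := fun ρ => {V | V.n < -(ρ : ℤ) ∧ InB 0 ((ρ + 1 : ℕ) * V.side) V} with hs
  set A : Sq → Set Ω := fun V => {ω | h V ω ≤ l + Q * (V.n * log 2)} with hA
  have hw : ∀ ρ : ℕ, wm (-η) (s ρ) ≤ ee (2 * log (2 * ρ + 4) - η * (ρ + 1) + x) := fun ρ => by
    have h1 : s ρ ⊆ ⋃ m : ℕ, {T | T.n = -(ρ + 1 + m : ℕ) ∧ InB 0 ((ρ + 1 : ℕ) * T.side) T} :=
      fun V hV => mem_iUnion.2 ⟨(-V.n - ρ - 1).toNat, by have := hV.1; omega, hV.2⟩
    refine (wm_mono _ h1).trans ((wm_iUnion _ _).trans ?_)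
    rw [ee_add]
    refine le_trans ?_ (mul_le_mul_right hx _)
    rw [← ENNReal.tsum_mul_left]
    refine ENNReal.tsum_le_tsum fun m => (wm_inB _ _ _).trans ?_
    have e : ((2 * (ρ + 1) * (2 * (ρ + 1)) : ℕ) : ℝ≥0∞) ≤ ee (2 * log (2 * ρ + 4)) := by
      rw [ee, two_mul (log _), Real.exp_add, Real.exp_log (by positivity), ← ENNReal.ofReal_natCast]
      refine ENNReal.ofReal_le_ofReal ?_
      push_cast
      nlinarith [ρ.cast_nonneg (α := ℝ)]
    refine (mul_le_mul_left e _).trans (le_of_eq ?_)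
    rw [← ee_add, ← ee_add]; congr 1; push_cast; ring
  have hP : ∀ ρ : ℕ, ∀ V ∈ s ρ, P (A V) ≤ ee (-(-η) * V.n + (Q ^ 2 * log (2 * ρ + 4) + η + Q * l)) := by
    rintro ρ V ⟨hn, a1, a2, a3, a4⟩
    have hp := side_pos V
    simp only [Complex.zero_re, Complex.zero_im] at a1 a2 a3 a4
    have c1 : |(V.i : ℝ)| ≤ ρ + 1 := abs_le.2 ⟨by push_cast at a1; nlinarith, by push_cast at a2; nlinarith⟩
    have c2 : |(V.j : ℝ)| ≤ ρ + 1 := abs_le.2 ⟨by push_cast at a3; nlinarith, by push_cast at a4; nlinarith⟩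
    obtain ⟨k, hk⟩ : ∃ k : ℕ, V.n = 0 - k := ⟨(-V.n).toNat, by omega⟩
    have hv := var_up (I := 2 * ρ + 2) hk (by linarith)
    rw [show (2 * ρ + 2 + 2 : ℝ) * 2 ^ (-(0 : ℤ)) = 2 * ρ + 4 by simp; ring,
      max_eq_left (by linarith [ρ.cast_nonneg (α := ℝ)])] at hv
    refine (hh.tail_le _ hQ.le _).trans (ee_mono ?_)
    have := mul_le_mul_of_nonneg_left hv (sq_nonneg Q)
    rw [hk, hη]; push_cast at this ⊢
    nlinarith
  have := summ (P := P) (s := fun ρ => {ω | ee 0 ≤ ({T | T ∈ s ρ ∧ ω ∈ A T}.encard : ℝ≥0∞)})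
    (η := η / 2) (B := η - (Q ^ 2 + 2) * log δ + x + Q * l) (by positivity) fun ρ => by
      refine (cnt_tail (fun V => measurableSet_le (hh.meas _) measurable_const) (hP ρ) 0).trans
        ((mul_le_mul_left (hw ρ) _).trans ?_)
      rw [← ee_add]
      refine ee_mono ?_
      have := mul_le_mul_of_nonneg_left (log_le_lin (x := 2 * ρ + 4) (by positivity) hδ0)
        (show 0 ≤ Q ^ 2 + 2 by positivity)
      rw [mul_sub, ← mul_assoc, hδ1] at this
      linarith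
  filter_upwards [this] with ω hω
  filter_upwards [hω] with ρ hρ V h1 h2 h3
  refine hρ ?_
  have : 1 ≤ {T | T ∈ s ρ ∧ ω ∈ A T}.encard := one_le_encard_iff_nonempty.2
    ⟨V, ⟨h1, h2⟩, by simpa [hA, DD, lm, add_comm] using h3⟩
  rw [ee_zero]
  exact_mod_cast this

theorem par_prob (hh : CG h P gffCov) (hQ : 0 < Q) (l : ℝ) {ρ : ℕ} {T : Sq}
    (hT : Ch (fun V => -(ρ : ℤ) ≤ V.n ∧ V.n ≤ 0) (ρ + 1) T) :
    P {ω | l + Q * ((anc T 1).n * log 2) ≤ h (anc T 1) ω} ≤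
      ee (-(Q ^ 2 * log 2 / 2) * T.n + (Q ^ 2 * log 2 / 2 * (8 + 4 * ρ) - Q * l)) := by
  obtain ⟨hn, a1, a2, a3, a4⟩ := hT.loc
  have hp := side_pos T
  have hs : T.side ≤ 2 ^ ρ := by
    simpa [Sq.side] using side_le_of_n (S := T) (T := ⟨-ρ, 0, 0⟩) hn
  simp only [Complex.zero_re, Complex.zero_im] at a1 a2 a3 a4
  obtain ⟨b1, b2, b3, b4⟩ := center_mem T
  have c1 := Complex.norm_le_abs_re_add_abs_im T.center
  have c2 : |T.center.re| ≤ (ρ + 1 : ℕ) * 2 ^ ρ := abs_le.2 ⟨by linarith, by linarith⟩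
  have c3 : |T.center.im| ≤ (ρ + 1 : ℕ) * 2 ^ ρ := abs_le.2 ⟨by linarith, by linarith⟩
  have c4 := norm_center_anc T 1
  have c5 := side_anc T 1
  have c6 := norm_le_norm_add_norm_sub T.center (anc T 1).center
  have c7 : ((ρ + 1 : ℕ) : ℝ) ≤ 2 ^ ρ := by exact_mod_cast Nat.lt_two_pow_self
  have c8 : (1 : ℝ) ≤ 2 ^ ρ := one_le_pow₀ one_le_two
  have hv := var_le (S := anc T 1) (y := 2 ^ (3 + 2 * ρ)) (one_le_pow₀ one_le_two) (by
    rw [pow_add, two_mul, pow_add]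
    unfold rad
    nlinarith)
  rw [log_pow] at hv
  refine (hh.tail_ge _ hQ.le _).trans (ee_mono ?_)
  have := mul_le_mul_of_nonneg_left hv (sq_nonneg Q)
  rw [anc_n] at this ⊢
  push_cast at this ⊢
  nlinarith

/-- (U): almost surely the graph balls about the root grow at most exponentially. -/
theorem upper_growth (hQ : 0 < Q) (hQ2 : 2 < Q ^ 2) : ∃ C : ℝ, ∀ {Ω : Type*} {_ : MeasurableSpace Ω}
    {P : Measure Ω} {h : Sq → Ω → ℝ}, CG h P gffCov → ∀ l : ℝ, ∀ᵐ ω ∂P, ∀ᶠ ρ : ℕ in atTop,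
      tile (DD Q (fun S => h S ω) l) O → NB (DD Q (fun S => h S ω) l) ρ O ≤ ee (C * ρ) := by
  have hL := log2pos
  set η := Q ^ 2 * log 2 / 2 with hη
  obtain ⟨C, hC⟩ := wm_cand (η := η) (by rw [hη]; nlinarith)
  refine ⟨C + 4 * η + 1, fun {Ω _ P h} hh l => ?_⟩
  have := summ (P := P) (s := fun ρ => {ω | ee ((C + 4 * η + 1) * ρ) ≤
      ({T | T ∈ {T | Ch (fun V => -(ρ : ℤ) ≤ V.n ∧ V.n ≤ 0) (ρ + 1) T} ∧
        ω ∈ {ω | l + Q * ((anc T 1).n * log 2) ≤ h (anc T 1) ω}}.encard : ℝ≥0∞)})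
    (η := 1) (B := C + 8 * η - Q * l) one_pos fun ρ => by
      refine (cnt_tail (fun V => measurableSet_le measurable_const (hh.meas _))
        (fun T hT => par_prob hh hQ l hT) _).trans ((mul_le_mul_left (hC ρ) _).trans ?_)
      rw [← ee_add]
      exact ee_mono (le_of_eq (by rw [← hη]; ring))
  filter_upwards [this, top_ok hh hQ l] with ω h1 h2
  filter_upwards [h1, h2] with ρ h3 h4 hO
  refine le_trans (ENat.toENNReal_le.2 (encard_le_encard fun T hT => ?_)) (not_le.1 h3).le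
  refine ⟨?_, ?_⟩
  · exact (ch_of_rk hO hT).imp fun V hV hB => ⟨not_lt.1 fun hn => h4 V hn hB hV.1, hV.2⟩
  · have := (Rk.tile hT hO).2 0
    simp only [DD, lm, not_le, zero_add] at this
    show l + Q * ((anc T 1).n * log 2) ≤ h (anc T 1) ω
    linarith

/-- the upper growth bound holds from radius `r` on -/
def UB (C : ℝ) (r : ℕ) (D : Sq → Prop) (S : Sq) : Prop := ∀ ρ, r ≤ ρ → NB D ρ S ≤ ee (C * ρ)

theorem meas_UB (C : ℝ) (r : ℕ) (S : Sq) : Measurable fun D => UB C r D S :=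
  Measurable.forall fun ρ => measurable_const.imp
    (measurableSet_setOfPred.1 (measurableSet_le (meas_NB ρ S) measurable_const))

theorem UB_sc (C : ℝ) (r : ℕ) (m : ℤ) (D : Sq → Prop) (S : Sq) :
    UB C r (D ∘ sc m) S ↔ UB C r D (sc m S) := by simp only [UB, NB_sc]

theorem EV_upper (hh : CG h P gffCov) (hQ : 0 < Q) (hQ2 : 2 < Q ^ 2) :
    ∃ C : ℝ, P.prod volume (EV Q h fun D => tile D O ∧ ¬ ∃ r, UB C r D O) = 0 := by
  have := hh.prob
  obtain ⟨C, hC⟩ := upper_growth hQ hQ2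
  have hm := meas_EV (Q := Q) hh ((meas_tile O).and (Measurable.exists fun r => meas_UB C r O).not)
  refine ⟨C, ?_⟩
  rw [Measure.prod_apply_symm hm, lintegral_eq_zero_iff (measurable_measure_prodMk_right hm)]
  refine .of_forall fun l => measure_eq_zero_iff_ae_notMem.2 ?_
  filter_upwards [hC hh l] with ω hω hE
  obtain ⟨r, hr⟩ := eventually_atTop.1 hω
  exact hE.2 ⟨r, fun ρ hρ => hr ρ hρ hE.1⟩

end Pool.Agent.Lib.MP_d1f1b2_pr
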