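import Pool.Agent.Lib.D1W.AC

/-! The unscaled rooted graph as a boundedly compact space: definitions. -/

open Set Filter MeasureTheory Metric
open scoped ENNReal Topology

namespace Pool.Agent.Lib.MP_d1f1b2_pr

/-- the adjacency graph of the tiles -/
def gr (D : Sq → Prop) : SimpleGraph Sq where
  Adj := adj D
  symm := ⟨fun _ _ h => h.symm⟩
  loopless := ⟨fun _ h => h.1 rfl⟩

/-- all balls about `S` are finite -/
def FinB (D : Sq → Prop) (S : Sq) : Prop := ∀ k, {T | Rk D k S T}.Finite

/-- the edges that start in the ball of radius `r` about `O` -/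
def ed (r : ℕ) (D : Sq → Prop) : Set (Sq × Sq) := {p | Rk D r O p.1 ∧ adj D p.1 p.2}

/-- the square meets the disc of radius `R` -/
def Touch (R : ℕ) (V : Sq) : Prop := ∃ z ∈ V.carrier, ‖z‖ ≤ R

/-- the event depends only on the squares that meet the disc of radius `R` -/
def LocR (R : ℕ) (B : (Sq → Prop) → Prop) : Prop :=
  ∀ D D', (∀ V, Touch R V → (D V ↔ D' V)) → B D → B D'

theorem ball_fin {D : Sq → Prop} {S : Sq} (h : FinB D S) (x : (rescaled (gr D) S 1 1 one_pos).X)
    (r : ℝ) : (closedBall x r).Finite := by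
  obtain ⟨k, hk⟩ := exists_nat_ge (r + (gr D).dist S x.1)
  refine ((h k).preimage Subtype.val_injective.injOn).subset fun y hy => ?_
  have h1 : 1 * ((gr D).dist y.1 x.1 : ℝ) ≤ r := hy
  have h2 : (gr D).dist S y.1 ≤ (gr D).dist S x.1 + (gr D).dist x.1 y.1 :=
    x.2.dist_triangle_left y.1
  rw [SimpleGraph.dist_comm (u := x.1)] at h2
  have h3 : ((gr D).dist S y.1 : ℝ) ≤ (gr D).dist S x.1 + (gr D).dist y.1 x.1 := by
    exact_mod_cast h2
  exact (rk_of_reach (fun _ _ => Iff.rfl) y.2).mono (by exact_mod_cast (by linarith :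
    ((gr D).dist S y.1 : ℝ) ≤ k))

/-- the component of `S` when it is locally finite -/
noncomputable def spF (D : Sq → Prop) (S : Sq) (h : FinB D S) : BCMM where
  toPMM := rescaled (gr D) S 1 1 one_pos
  proper := ⟨fun x r => (ball_fin h x r).isCompact⟩
  locFin := ⟨fun x => ⟨closedBall x 1, closedBall_mem_nhds x one_pos, by
    have e : (rescaled (gr D) S 1 1 one_pos).μ =
      ENNReal.ofReal 1 • (Measure.count : Measure (rescaled (gr D) S 1 1 one_pos).X) := rfl
    rw [e, Measure.smul_apply, smul_eq_mul]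
    exact ENNReal.mul_lt_top ENNReal.ofReal_lt_top
      (Measure.count_apply_lt_top.2 (ball_fin h x 1))⟩⟩

theorem finB_false (S : Sq) : FinB (fun _ => False) S := fun k => by
  refine (finite_singleton S).subset fun T hT => ?_
  induction k with
  | zero => exact hT.symm
  | succ k ih =>
    rcases hT with hT | ⟨U, -, hT⟩
    · exact ih hT
    · exact hT.2.1.1.elim

open Classical in
/-- the component of `S`, or a point when it is not locally finite -/
noncomputable def sp (D : Sq → Prop) (S : Sq) : BCMM :=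
  if h : FinB D S then spF D S h else spF _ O (finB_false O)

open Classical in
/-- the component of the tile with lower left corner at the origin -/
noncomputable def spR (D : Sq → Prop) : BCMM :=
  if h : ∃ N, tile D ⟨N, 0, 0⟩ then sp D ⟨h.choose, 0, 0⟩ else sp D O

theorem sp_eq {D : Sq → Prop} {S : Sq} (h : FinB D S) :
    (sp D S).toPMM = rescaled (gr D) S 1 1 one_pos := by
  rw [sp, dif_pos h]; rfl

theorem spR_eq {D : Sq → Prop} {N : ℤ} (h : tile D ⟨N, 0, 0⟩) : spR D = sp D ⟨N, 0, 0⟩ := by
  have h1 : ∃ N, tile D ⟨N, 0, 0⟩ := ⟨N, h⟩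
  rw [spR, dif_pos h1, tile_corner h1.choose_spec h]

theorem meas_FinB (S : Sq) : Measurable fun D => FinB D S := by
  refine Measurable.forall fun k => measurableSet_setOfPred.1 ?_
  have : {D | {T | Rk D k S T}.Finite} = {D | NB D k S < ∞} := by
    ext D; simp [NB, lt_top_iff_ne_top]
  rw [this]
  exact measurableSet_lt (meas_NB k S) measurable_const

end Pool.Agent.Lib.MP_d1f1b2_pr
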