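import Pool.Agent.Lib.D1W.UDefs

/-! The unscaled rooted graph is determined, up to small error, by finitely many squares. -/

open Set Filter MeasureTheory Metric
open scoped ENNReal Topology

namespace Pool.Agent.Lib.MP_d1f1b2_pr

theorem close_glue {A B : PMM} {W : Type} (Φ : W → A.X) (Ψ : W → B.X) (w : W)
    (hd : ∀ p q, dist (Φ p) (Φ q) = dist (Ψ p) (Ψ q)) (h1 : Φ w = A.root) (h2 : Ψ w = B.root)
    {η : ℝ} (h0 : 0 < η) (hA : closedBall A.root η⁻¹ ⊆ range Φ)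
    (hB : closedBall B.root η⁻¹ ⊆ range Ψ) (hm : ∀ s, A.μ (Φ '' s) = B.μ (Ψ '' s)) :
    Close η A B := by
  haveI : Nonempty W := ⟨w⟩
  letI := glueMetricApprox Φ Ψ η h0 fun p q => by rw [hd, sub_self, abs_zero]; positivity
  have e : ∀ p, dist (Sum.inl (Φ p) : A.X ⊕ B.X) (Sum.inr (Ψ p)) ≤ η := fun p =>
    (glueDist_glued_points Φ Ψ η p).le
  refine ⟨A.X ⊕ B.X, inferInstance, Sum.inl, Sum.inr, Isometry.of_dist_eq fun _ _ => rfl,
    Isometry.of_dist_eq fun _ _ => rfl, h1 ▸ h2 ▸ e w, fun x hx => ?_, fun x hx => ?_,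
    fun s hs _ => le_add_right ?_, fun s hs _ => le_add_right ?_⟩
  · obtain ⟨p, rfl⟩ := hA hx
    exact ⟨_, e p⟩
  · obtain ⟨p, rfl⟩ := hB hx
    exact ⟨_, e p⟩
  · rw [← image_preimage_eq_of_subset (hs.trans hA), hm]
    refine measure_mono ?_
    rintro _ ⟨p, hp, rfl⟩
    exact mem_cthickening_of_dist_le _ _ _ _ ⟨_, ⟨p, hp, rfl⟩, rfl⟩ ((dist_comm _ _).trans_le (e p))
  · rw [← image_preimage_eq_of_subset (hs.trans hB), ← hm]
    refine measure_mono ?_
    rintro _ ⟨p, hp, rfl⟩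
    exact mem_cthickening_of_dist_le _ _ _ _ ⟨_, ⟨p, hp, rfl⟩, rfl⟩ (e p)

variable {D D' : Sq → Prop}

theorem gr_adj (D : Sq → Prop) (S T : Sq) : (gr D).Adj S T ↔ adj D S T := Iff.rfl

theorem mu_rescaled (S : Sq) (s : Set (rescaled (gr D) S 1 1 one_pos).X) :
    (rescaled (gr D) S 1 1 one_pos).μ s = s.encard := by
  have e : (rescaled (gr D) S 1 1 one_pos).μ =
      ENNReal.ofReal 1 • (Measure.count : Measure (rescaled (gr D) S 1 1 one_pos).X) := rfl
  haveI : Countable (rescaled (gr D) S 1 1 one_pos).X := Subtype.countable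
  rw [e, Measure.smul_apply, Measure.count_apply s.to_countable.measurableSet]
  simp

theorem close_graph {S : Sq} {σ : Sq → Sq} (hσ : Function.Bijective σ) {k : ℕ}
    (H : ∀ j ≤ 2 * k, ∀ T U, Rk D k S T → (Rk D j T U ↔ Rk D' j (σ T) (σ U))) {η : ℝ} (h0 : 0 < η)
    (hk : η⁻¹ < k + 1) :
    Close η (rescaled (gr D) S 1 1 one_pos) (rescaled (gr D') (σ S) 1 1 one_pos) := by
  have H0 := fun U => H k (by omega) S U (Rk.refl _ _)
  have hb : ∀ {D : Sq → Prop} {S : Sq} (x : (rescaled (gr D) S 1 1 one_pos).X),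
      x ∈ closedBall (rescaled (gr D) S 1 1 one_pos).root η⁻¹ → Rk D k S x.1 := fun {D S} x hx => by
    have h1 : 1 * ((gr D).dist x.1 S : ℝ) ≤ η⁻¹ := hx
    rw [one_mul, SimpleGraph.dist_comm] at h1
    exact (rk_of_reach (gr_adj D) x.2).mono (Nat.le_of_lt_succ (by exact_mod_cast h1.trans_lt hk))
  refine close_glue (A := rescaled (gr D) S 1 1 one_pos) (B := rescaled (gr D') (σ S) 1 1 one_pos)
    (W := {T // Rk D k S T}) (fun p => ⟨p.1, (p.2.dist_le (gr_adj D)).1⟩)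
    (fun p => ⟨σ p.1, (((H0 _).1 p.2).dist_le (gr_adj D')).1⟩) ⟨S, Rk.refl _ _⟩ (fun p q => ?_)
    rfl rfl h0 (fun x hx => ⟨⟨x.1, hb x hx⟩, rfl⟩) (fun x hx => ?_) fun s => ?_
  · have h1 := (p.2.symm.trans q.2).dist_le (gr_adj D)
    have h2 := (((H0 _).1 p.2).symm.trans ((H0 _).1 q.2)).dist_le (gr_adj D')
    have h3 := ((H _ (by omega) _ _ p.2).1 (rk_of_reach (gr_adj D) h1.1)).dist_le (gr_adj D')
    have h4 := ((H _ (by omega) _ _ p.2).2 (rk_of_reach (gr_adj D') h2.1)).dist_le (gr_adj D)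
    exact congrArg (fun n : ℕ => 1 * (n : ℝ)) (le_antisymm h4.2 h3.2)
  · obtain ⟨T, hT⟩ := hσ.2 x.1
    exact ⟨⟨T, (H0 T).2 (hT ▸ hb x hx)⟩, Subtype.ext hT⟩
  · rw [mu_rescaled, mu_rescaled, Function.Injective.encard_image, Function.Injective.encard_image]
    exacts [fun p q h => Subtype.ext (hσ.1 (congrArg Subtype.val h)),
      fun p q h => Subtype.ext (congrArg Subtype.val h :)]

theorem rk_ed {r a j : ℕ} (e : ed r D ⊆ ed r D') {T U : Sq} (hT : Rk D a O T) (h : Rk D j T U)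
    (hj : a + j ≤ r + 1) : Rk D' j T U := by
  induction j generalizing U with
  | zero => exact h
  | succ j ih =>
    rcases h with h | ⟨V, h1, h2⟩
    · exact Or.inl (ih h (by omega))
    · exact Or.inr ⟨V, ih h1 (by omega), (@e (V, U) ⟨(hT.trans h1).mono (by omega), h2⟩).2⟩

theorem close_of_ed (h : FinB D O) (h' : FinB D' O) {r : ℕ} (e : ed r D = ed r D') {η : ℝ}
    (h0 : 0 < η) (hr : 3 / η ≤ r) : Close η (sp D O).toPMM (sp D' O).toPMM := by
  rw [sp_eq h, sp_eq h']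
  have h1 : 3 * ⌊η⁻¹⌋₊ ≤ r := by
    have := Nat.floor_le (inv_pos.2 h0).le
    rw [div_eq_mul_inv] at hr
    exact_mod_cast (by linarith : 3 * (⌊η⁻¹⌋₊ : ℝ) ≤ r)
  exact close_graph (σ := id) Function.bijective_id (fun j hj T U hT =>
    ⟨fun h => rk_ed e.le hT h (by omega), fun h =>
      rk_ed e.ge (rk_ed e.le (Rk.refl 0 O) hT (by omega)) h (by omega)⟩) h0 (Nat.lt_floor_add_one _)

theorem sc_bij (N : ℤ) : Function.Bijective (sc N) :=
  ⟨fun _ _ => sc_inj N, fun T => ⟨sc (-N) T, by rw [sc_sc, neg_add_cancel, sc_zero]⟩⟩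

theorem finB_sc (D : Sq → Prop) (N : ℤ) : FinB (D ∘ sc N) O ↔ FinB D ⟨N, 0, 0⟩ := by
  rw [← sc_O]
  refine forall_congr' fun k => ?_
  simp only [Rk_sc]
  exact ⟨fun h => h.of_preimage (s := {T | Rk D k (sc N O) T}) (sc_bij N).2,
    fun h => h.preimage (sc_bij N).1.injOn⟩

theorem sp_sc (D : Sq → Prop) (N : ℤ) {U : Set BCMM} (hU : IsOpen U) :
    sp (D ∘ sc N) O ∈ U ↔ sp D ⟨N, 0, 0⟩ ∈ U := by
  by_cases h : FinB D ⟨N, 0, 0⟩
  · have key : ∀ η > 0, Close η (sp (D ∘ sc N) O).toPMM (sp D ⟨N, 0, 0⟩).toPMM := fun η h0 => by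
      rw [sp_eq h, sp_eq ((finB_sc D N).2 h), ← sc_O]
      exact close_graph (sc_bij N) (fun _ _ _ _ _ => Rk_sc) h0 (Nat.lt_floor_add_one _)
    constructor <;> intro h1 <;> obtain ⟨η, h0, h2⟩ := hU _ h1
    exacts [h2 _ (key η h0), h2 _ (key η h0).symm]
  · rw [sp, sp, dif_neg h, dif_neg (mt (finB_sc D N).1 h)]

/-- A finite pattern around `O` inside the disc of radius `R` forces the space into `U`. -/
def BU (U : Set BCMM) (R : ℕ) (D : Sq → Prop) : Prop :=
  tile D O ∧ ∃ (r : ℕ) (s : Finset (Sq × Sq)), (∀ D', FinB D' O → ed r D' = s → sp D' O ∈ U) ∧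
    (∀ p ∈ s, p.1.carrier ⊆ closedBall 0 R ∧ p.2.carrier ⊆ closedBall 0 R) ∧ 2 ≤ R ∧ ed r D = s

variable {U : Set BCMM} {R : ℕ}

theorem meas_ed (r : ℕ) (s : Set (Sq × Sq)) : Measurable fun D => ed r D = s := by
  simp only [Set.ext_iff]
  exact Measurable.forall fun p => ((meas_Rk _ _ _).and (meas_adj _ _)).iff measurable_const

theorem meas_BU (U : Set BCMM) (R : ℕ) : Measurable (BU U R) :=
  (meas_tile O).and (Measurable.exists fun _ => Measurable.exists fun _ => measurable_const.and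
    (measurable_const.and (measurable_const.and (meas_ed _ _))))

theorem BU_mono {R' : ℕ} (h : R ≤ R') : BU U R D → BU U R' D := by
  rintro ⟨h1, r, s, h2, h3, h4, h5⟩
  have := closedBall_subset_closedBall (x := (0 : ℂ)) (Nat.cast_le.2 h : (R : ℝ) ≤ R')
  exact ⟨h1, r, s, h2, fun p hp => ⟨(h3 p hp).1.trans this, (h3 p hp).2.trans this⟩, h4.trans h, h5⟩

theorem BU_mem : BU U R D → FinB D O → sp D O ∈ U :=
  fun ⟨_, _, _, h2, _, _, h5⟩ h => h2 D h h5

theorem carrier_ball (S : Sq) : S.carrier ⊆ closedBall 0 (‖S.center‖ + S.side) := fun z hz => by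
  rw [mem_closedBall_zero_iff]
  linarith [norm_sub_center hz, norm_le_norm_add_norm_sub' z S.center]

theorem exists_pat (hU : IsOpen U) (h : FinB D O) (hm : sp D O ∈ U) :
    ∃ (r : ℕ) (s : Finset (Sq × Sq)), (∀ D', FinB D' O → ed r D' = s → sp D' O ∈ U) ∧ ed r D = s := by
  obtain ⟨η, h0, h1⟩ := hU _ hm
  obtain ⟨r, hr⟩ := exists_nat_ge (3 / η)
  have hf : (ed r D).Finite := ((h r).prod (h (r + 1))).subset fun p hp =>
    ⟨hp.1, Or.inr ⟨_, hp.1, hp.2⟩⟩
  exact ⟨r, hf.toFinset, fun D' h' e => h1 _ (close_of_ed h h' (by simp [e]) h0 hr), by simp⟩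

theorem BU_of (hU : IsOpen U) (ht : tile D O) (h : FinB D O) (hm : sp D O ∈ U) :
    ∃ R, BU U R D := by
  obtain ⟨r, s, h1, h2⟩ := exists_pat hU h hm
  have h3 : ∀ S : Sq, ∀ᶠ R : ℕ in atTop, S.carrier ⊆ closedBall 0 R := fun S =>
    (tendsto_natCast_atTop_atTop.eventually_ge_atTop _).mono fun R hR =>
      (carrier_ball S).trans (closedBall_subset_closedBall hR)
  obtain ⟨R, h4, h5⟩ := (((Finset.eventually_all s).2 fun p _ => (h3 p.1).and (h3 p.2)).and
    (eventually_ge_atTop 2)).exists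
  exact ⟨R, ht, r, s, h1, h4, h5, h2⟩

theorem tile_loc (h : ∀ V, Touch R V → (D V ↔ D' V)) {T : Sq} {z : ℂ} (hz : z ∈ T.carrier)
    (hR : z ∈ closedBall (0 : ℂ) R) : tile D T ↔ tile D' T :=
  and_congr (h _ ⟨z, hz, mem_closedBall_zero_iff.1 hR⟩) (forall_congr' fun _ =>
    not_congr (h _ ⟨z, carrier_sub_anc _ _ hz, mem_closedBall_zero_iff.1 hR⟩))

theorem adj_loc (h : ∀ V, Touch R V → (D V ↔ D' V)) {T : Sq} (hT : T.carrier ⊆ closedBall 0 R)
    (V : Sq) : adj D T V ↔ adj D' T V := by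
  refine and_congr_right fun _ => ?_
  rw [← and_assoc, ← and_assoc]
  refine and_congr_left fun hs => ?_
  obtain ⟨z, h1, h2⟩ := hs.nonempty
  exact and_congr (tile_loc h h1 (hT h1)) (tile_loc h h2 (hT h1))

theorem rk_last {j : ℕ} {S T : Sq} (h : Rk D j S T) : S = T ∨ ∃ V, Rk D j S V ∧ adj D V T := by
  induction j with
  | zero => exact Or.inl h
  | succ j ih =>
    rcases h with h | ⟨V, h1, h2⟩
    · exact (ih h).imp_right fun ⟨V, h1, h2⟩ => ⟨V, Or.inl h1, h2⟩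
    · exact Or.inr ⟨V, Or.inl h1, h2⟩

theorem BU_loc : LocR R (BU U R) := by
  rintro D D' h ⟨h1, r, s, h2, h3, h4, h5⟩
  have hO : O.carrier ⊆ closedBall 0 R := fun z ⟨a1, a2, a3, a4⟩ => by
    have := Complex.norm_le_abs_re_add_abs_im z
    have h6 : (2 : ℝ) ≤ R := by exact_mod_cast h4
    simp only [side_O] at a1 a2 a3 a4
    simp only [O, Int.cast_zero, zero_mul, zero_add, one_mul] at a1 a2 a3 a4
    rw [abs_of_nonneg a1, abs_of_nonneg a3] at this
    rw [mem_closedBall_zero_iff]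
    linarith
  have hin : ∀ T, Rk D r O T → T.carrier ⊆ closedBall 0 R := fun T hT => by
    rcases rk_last hT with rfl | ⟨V, a1, a2⟩
    · exact hO
    · exact (h3 (V, T) (Finset.mem_coe.1 (h5 ▸ ⟨a1, a2⟩))).2
  have hr : ∀ j ≤ r, ∀ T, Rk D j O T ↔ Rk D' j O T := fun j hj => by
    induction j with
    | zero => exact fun _ => Iff.rfl
    | succ j ih =>
      refine fun T => or_congr (ih (by omega) T) (exists_congr fun V => ?_)
      rw [← ih (by omega) V]
      exact and_congr_right fun hV => adj_loc h (hin V (hV.mono (by omega))) T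
  refine ⟨(tile_loc h (center_mem O) (hO (center_mem O))).1 h1, r, s, h2, h3, h4, ?_⟩
  rw [← h5]
  ext p
  simp only [ed, mem_ofPred_eq]
  rw [← hr r le_rfl]
  exact and_congr_right fun hp => (adj_loc h (hin _ hp) _).symm

theorem meas_sp : Measurable fun D => sp D O := by
  refine measurable_of_isOpen fun U hU => ?_
  have : (fun D => sp D O) ⁻¹' U = {D | (FinB D O ∧ ∃ (r : ℕ) (s : Finset (Sq × Sq)),
      (∀ D', FinB D' O → ed r D' = s → sp D' O ∈ U) ∧ ed r D = s) ∨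
      (¬ FinB D O ∧ spF _ O (finB_false O) ∈ U)} := by
    ext D
    by_cases h : FinB D O
    · simp only [mem_preimage, mem_ofPred_eq, h, true_and, not_true, false_and, or_false]
      exact ⟨exists_pat hU h, fun ⟨_, _, h1, h2⟩ => h1 D h h2⟩
    · simp [sp, h]
  rw [this]
  exact measurableSet_setOfPred.2 (((meas_FinB O).and (Measurable.exists fun _ =>
    Measurable.exists fun _ => measurable_const.and (meas_ed _ _))).or
    ((meas_FinB O).not.and measurable_const))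

theorem meas_spR : Measurable spR := by
  refine measurable_of_isOpen fun U hU => ?_
  have : spR ⁻¹' U = {D | (∃ N, tile D ⟨N, 0, 0⟩ ∧ sp (D ∘ sc N) O ∈ U) ∨
      ((¬ ∃ N, tile D ⟨N, 0, 0⟩) ∧ sp D O ∈ U)} := by
    ext D
    simp only [mem_preimage, mem_ofPred_eq, sp_sc D _ hU]
    by_cases h : ∃ N, tile D ⟨N, 0, 0⟩
    · obtain ⟨N, hN⟩ := h
      exact ⟨fun h1 => Or.inl ⟨N, hN, spR_eq hN ▸ h1⟩, fun h1 => h1.elim
        (fun ⟨_, h2, h3⟩ => spR_eq h2 ▸ h3) fun h2 => (h2.1 ⟨N, hN⟩).elim⟩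
    · rw [spR, dif_neg h]
      exact ⟨fun h1 => Or.inr ⟨h, h1⟩, fun h1 => h1.elim (fun ⟨N, h2, _⟩ => (h ⟨N, h2⟩).elim) And.right⟩
  have hm := measurableSet_setOfPred.1 (meas_sp hU.measurableSet)
  rw [this]
  exact measurableSet_setOfPred.2 ((Measurable.exists fun N => (meas_tile _).and
    (hm.comp (f := fun D : Sq → Prop => D ∘ sc N) (measurable_pi_lambda _ fun _ => meas_apply _))).or
    ((Measurable.exists fun _ => meas_tile _).not.and hm))

end Pool.Agent.Lib.MP_d1f1b2_pr
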