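import Pool.Agent.Lib.D1W.SM
import Pool.Agent.Lib.D1W.Gir

/-! The regularity events that hold with high probability. -/

open Set Filter MeasureTheory ProbabilityTheory Real
open scoped ENNReal Topology

namespace Pool.Agent.Lib.MP_d1f1b2_pr

variable {Ω : Type*} {mΩ : MeasurableSpace Ω} {P : Measure Ω} {Z : Ix → Ω → ℝ}

theorem CG.tail_abs {T : Type*} {X : T → Ω → ℝ} {c : T → T → ℝ} (h : CG X P c) (s : T) {v x : ℝ}
    (hv : 0 < v) (hc : c s s ≤ v) (hx : 0 ≤ x) :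
    P {ω | ¬ |X s ω| ≤ x} ≤ 2 * ee (-(x ^ 2 / (2 * v))) := by
  have hθ : 0 ≤ x / v := by positivity
  have h1 := mul_le_mul_of_nonneg_left hc (sq_nonneg (x / v))
  have e : (x / v) ^ 2 * v / 2 - x / v * x = -(x ^ 2 / (2 * v)) := by field_simp; ring
  calc _ ≤ P ({ω | x ≤ X s ω} ∪ {ω | X s ω ≤ -x}) := measure_mono fun ω hω => by
        simp only [mem_ofPred_eq, abs_le, not_and_or, not_le, mem_union] at hω ⊢
        rcases hω with hω | hω
        exacts [Or.inr hω.le, Or.inl hω.le]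
    _ ≤ _ := by
        rw [two_mul]
        refine (measure_union_le _ _).trans (add_le_add ((h.tail_ge s hθ x).trans (ee_mono ?_))
          ((h.tail_le s hθ (-x)).trans (ee_mono ?_))) <;> linarith

theorem box_union {m : ℕ} {A : ℤ → ℤ → Ω → Prop} {B : ℝ≥0∞}
    (h : ∀ a b, In m a b → P {ω | ¬ A a b ω} ≤ B) :
    P {ω | ¬ ∀ a b, In m a b → A a b ω} ≤ ee (2 * (m * log 2)) * B := by
  calc _ ≤ P (⋃ r ∈ box m, {ω | ¬ A r.1 r.2 ω}) := measure_mono fun ω hω => by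
        simp only [mem_ofPred_eq, not_forall] at hω
        obtain ⟨a, b, h1, h2⟩ := hω
        exact mem_iUnion₂.2 ⟨(a, b), mem_box.2 h1, h2⟩
    _ ≤ ∑ r ∈ box m, B := (measure_biUnion_finset_le _ _).trans
        (Finset.sum_le_sum fun r hr => h _ _ (mem_box.1 hr))
    _ = _ := by rw [Finset.sum_const, nsmul_eq_mul, card_box]

/-- Geometric modulus of continuity below depth `J`. -/
def Osc (J : ℕ) (ε : ℝ) (v : ℕ × ℤ × ℤ → ℝ) : Prop :=
  ∀ d a b, In (J + d + 1) a b → |v (J + d + 1, a, b) - v (J + d, a / 2, b / 2)| ≤ ε * (3 / 4) ^ d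

theorem meas_abs_le {α : Type*} [MeasurableSpace α] {f : α → ℝ} (hf : Measurable f) (x : ℝ) :
    Measurable fun a => |f a| ≤ x :=
  measurableSet_setOfPred.1 (measurableSet_le (by fun_prop) measurable_const)

theorem meas_Osc (J : ℕ) (ε : ℝ) : Measurable (Osc J ε) :=
  Measurable.forall fun _ => Measurable.forall fun _ => Measurable.forall fun _ =>
    measurable_const.imp (meas_abs_le (by fun_prop) _)

theorem log2_le_one : log 2 ≤ 1 := by linarith [Real.log_two_lt_d9]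

theorem osc_prob {V : ℕ × ℤ × ℤ → Ω → ℝ} {c : ℕ × ℤ × ℤ → ℕ × ℤ × ℤ → ℝ} (h : CG V P c) (J : ℕ)
    (hc : ∀ d a b, In (J + d + 1) a b → c (J + d + 1, a, b) (J + d + 1, a, b) -
      c (J + d + 1, a, b) (J + d, a / 2, b / 2) - c (J + d, a / 2, b / 2) (J + d + 1, a, b) +
      c (J + d, a / 2, b / 2) (J + d, a / 2, b / 2) ≤ 8 * (1 / 2) ^ d) {ε : ℝ} (hε : 20 ≤ ε) :
    P {ω | ¬ Osc J ε fun p => V p ω} ≤
      2 * (∑' d : ℕ, ee (-1 * d)) * ee (2 * J + 2 - ε ^ 2 / 16) := by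
  have e : {ω | ¬ Osc J ε fun p => V p ω} = ⋃ d : ℕ, {ω | ¬ ∀ a b, In (J + d + 1) a b →
      |V (J + d + 1, a, b) ω - V (J + d, a / 2, b / 2) ω| ≤ ε * (3 / 4) ^ d} := by
    ext ω; simp only [Osc, mem_iUnion, mem_ofPred_eq, ← not_forall]
  rw [e, mul_assoc, ← ENNReal.tsum_mul_right, ← ENNReal.tsum_mul_left]
  refine (measure_iUnion_le _).trans (ENNReal.tsum_le_tsum fun d => ?_)
  refine (box_union fun a b hin => (h.dif (ι := Unit) (fun _ => (J + d + 1, a, b))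
    fun _ => (J + d, a / 2, b / 2)).tail_abs () (by positivity) (hc d a b hin)
    (by positivity)).trans ?_
  rw [mul_left_comm, ← ee_add, ← ee_add]
  refine mul_le_mul_right (ee_mono ?_) _
  have e2 : (ε * (3 / 4) ^ d) ^ 2 / (2 * (8 * (1 / 2) ^ d)) = ε ^ 2 / 16 * (1 + 1 / 8) ^ d := by
    rw [mul_pow, ← pow_mul, mul_comm d, pow_mul, show (1 + 1 / 8 : ℝ) = (3 / 4) ^ 2 / (1 / 2) by
      norm_num, div_pow ((3 / 4 : ℝ) ^ 2)]
    field_simp; norm_num
  have h1 := one_add_mul_le_pow (show (-2 : ℝ) ≤ 1 / 8 by norm_num) d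
  have h2 := mul_le_mul_of_nonneg_left h1 (show 0 ≤ ε ^ 2 / 16 by positivity)
  have h3 := mul_le_mul_of_nonneg_left log2_le_one (Nat.cast_nonneg (α := ℝ) (J + d + 1))
  have h4 : 400 * (d : ℝ) ≤ ε ^ 2 * d := mul_le_mul_of_nonneg_right (by nlinarith) d.cast_nonneg
  rw [e2]
  push_cast at h3 ⊢
  nlinarith [d.cast_nonneg (α := ℝ)]

/-- The coarsest and the finest layers are small. -/
def W1 (J : ℕ) (ε : ℝ) (y : Ix → ℝ) : Prop :=
  ∀ m ≤ J, ∀ a b, In m a b → |y ((m, a, b), 0) - y ((m, a, b), 2)| ≤ ε ∧ |y ((m, a, b), max m 2)| ≤ ε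

theorem W1_prob (h : CG Z P cZ) (J : ℕ) {ε : ℝ} (hε : 0 ≤ ε) :
    P {ω | ¬ W1 J ε fun k => Z k ω} ≤ 4 * ee (3 * J - ε ^ 2 / 4) := by
  have hL := log2_le_one
  calc _ ≤ P (⋃ m ∈ Finset.range (J + 1), {ω | ¬ ∀ a b, In m a b →
        |Z ((m, a, b), 0) ω - Z ((m, a, b), 2) ω| ≤ ε ∧ |Z ((m, a, b), max m 2) ω| ≤ ε}) :=
        measure_mono fun ω hω => by
          simp only [W1, mem_ofPred_eq] at hω
          rw [not_forall] at hω
          obtain ⟨m, hm⟩ := hω
          rw [Classical.not_imp] at hm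
          exact mem_iUnion₂.2 ⟨m, Finset.mem_range.2 (Nat.lt_succ_of_le hm.1), hm.2⟩
    _ ≤ ∑ m ∈ Finset.range (J + 1), 4 * ee (2 * J - ε ^ 2 / 4) := by
        refine (measure_biUnion_finset_le _ _).trans (Finset.sum_le_sum fun m hm => ?_)
        have hm' : (m : ℝ) ≤ J := by exact_mod_cast Nat.le_of_lt_succ (Finset.mem_range.1 hm)
        refine (box_union (B := 2 * ee (-(ε ^ 2 / (2 * 2))) + 2 * ee (-(ε ^ 2 / (2 * 2))))
          fun a b _ => ?_).trans ?_
        · simp only [not_and_or, ofPred_or]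
          refine (measure_union_le _ _).trans (add_le_add
            ((CG_lay h fun _ => 2).tail_abs _ two_pos ((var_lay _ _).trans ?_) hε)
            (h.tail_abs _ two_pos ((var_fine (le_max_left _ _)).trans ?_) hε))
          · push_cast; linarith
          · linarith
        · rw [← add_mul, mul_left_comm, ← ee_add, show (2 + 2 : ℝ≥0∞) = 4 by norm_num]
          refine mul_le_mul_right (ee_mono ?_) _
          nlinarith [m.cast_nonneg (α := ℝ)]
    _ ≤ _ := by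
        rw [Finset.sum_const, Finset.card_range, nsmul_eq_mul, mul_left_comm,
          show 3 * J - ε ^ 2 / 4 = J + (2 * J - ε ^ 2 / 4) by ring, ee_add J]
        gcongr
        rw [← ENNReal.ofReal_natCast]
        exact ENNReal.ofReal_le_ofReal (by push_cast; exact add_one_le_exp _)

/-- The field is low along the corridors. -/
def W3 (Q : ℝ) (J e : ℕ) (ε : ℝ) (y : Ix → ℝ) : Prop :=
  ∀ a b, In (J + e) a b → (b = 0 ∨ 2 ^ e ∣ a) →
    y ((J + e, a, b), 0) ≤ Q * ((J + e : ℕ) * log 2) - 50 * ε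

theorem card_Ico2 (m : ℕ) : ((Finset.Ico (0 : ℤ) (2 ^ m)).card : ℝ≥0∞) = ee (m * log 2) := by
  have : (Finset.Ico (0 : ℤ) (2 ^ m)).card = 2 ^ m := by
    rw [Int.card_Ico, sub_zero]
    exact_mod_cast Int.toNat_natCast (2 ^ m)
  rw [this, ee_nat_mul, ee_log2]
  push_cast; rfl

theorem tendsto_ee_bot : Tendsto ee atBot (𝓝 0) := by
  have := ENNReal.tendsto_ofReal Real.tendsto_exp_atBot
  rwa [ENNReal.ofReal_zero] at this

theorem var_all_ge (p : ℕ × ℤ × ℤ) : p.1 * log 2 - 4 ≤ cZ (p, 0) (p, 0) := by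
  have h1 := le_ik (fun θ θ' => dist_in (cv_mem (cl O p) θ) (cv_mem (cl O p) θ')) (nat_log_nonneg p.1)
  have h2 := kap_nonneg (cl O p) (cl O p) (p.1 * log 2)
  have h3 : (cl O p).side * exp (p.1 * log 2) = 1 := side_exp' _ _ _
  simp only [cZ, ik, max_self, Nat.cast_zero, zero_mul] at *
  linarith

theorem W3_prob {Q : ℝ} (hQ : 0 < Q) (hQ2 : 2 ≤ Q ^ 2) (J : ℕ) (ε : ℝ) {η : ℝ≥0∞} (hη : η ≠ 0) :
    ∃ e, ∀ Z : Ix → Ω → ℝ, CG Z P cZ → P {ω | ¬ W3 Q J e ε fun k => Z k ω} ≤ η := by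
  have hL := log2pos
  have t1 : Tendsto (fun e : ℕ => ((J + e : ℕ) : ℝ) * log 2 - 4) atTop atTop :=
    tendsto_atTop_add_const_right _ _ ((tendsto_natCast_atTop_atTop.comp
      (tendsto_atTop_mono (fun e => Nat.le_add_left e J) tendsto_id)).atTop_mul_const hL)
  obtain ⟨e, he, he0⟩ := (((tendsto_ee_bot.comp (tendsto_atBot_add_const_left _
    (log 2 + J * log 2 + Q ^ 2 * log 2 + Q * (50 * ε) - log Q) (tendsto_neg_atTop_atBot.comp
    ((tendsto_log_atTop.comp t1).atTop_div_const two_pos)))).eventually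
    (ge_mem_nhds (pos_iff_ne_zero.2 hη))).and (t1.eventually_gt_atTop 0)).exists
  refine ⟨e, fun Z h => le_trans ?_ he⟩
  set x := Q * ((J + e : ℕ) * log 2) - 50 * ε with hx
  have hb : ∀ a b, P {ω | x ≤ Z ((J + e, a, b), 0) ω} ≤
      ee (Q ^ 2 * ((J + e : ℕ) * log 2 + 2 * log 2) / 2 - Q * x - log Q -
        log ((J + e : ℕ) * log 2 - 4) / 2) := fun a b =>
    (h.mills _ he0 (var_all_ge (J + e, a, b)) hQ x).trans (ee_mono (by
      linarith [mul_le_mul_of_nonneg_left (var_all (J + e, a, b)) (sq_nonneg Q)]))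
  calc _ ≤ P (⋃ r ∈ Finset.Ico (0 : ℤ) (2 ^ J) ×ˢ Finset.Ico (0 : ℤ) (2 ^ (J + e)),
        ({ω | x ≤ Z ((J + e, r.2, 0), 0) ω} ∪ {ω | x ≤ Z ((J + e, 2 ^ e * r.1, r.2), 0) ω})) :=
        measure_mono fun ω hω => by
          simp only [W3, mem_ofPred_eq, not_forall, not_le] at hω
          obtain ⟨a, b, ⟨a1, a2, a3, a4⟩, rfl | ⟨r, rfl⟩, h2⟩ := hω
          · exact mem_iUnion₂.2 ⟨(0, a), by simp [a1, a2], Or.inl h2.le⟩
          · refine mem_iUnion₂.2 ⟨(r, b), ?_, Or.inr h2.le⟩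
            rw [pow_add, mul_comm (2 ^ J)] at a2
            simp [a3, a4, nonneg_of_mul_nonneg_right a1 (p2pos e), lt_of_mul_lt_mul_left a2 (p2pos e).le]
    _ ≤ _ := by
        refine (measure_biUnion_finset_le _ _).trans ((Finset.sum_le_sum fun r _ =>
          (measure_union_le _ _).trans (add_le_add (hb _ _) (hb _ _))).trans ?_)
        rw [Finset.sum_const, nsmul_eq_mul, Finset.card_product, Nat.cast_mul, card_Ico2, card_Ico2,
          ← two_mul, ← ee_log2, ← ee_add, ← ee_add, ← ee_add]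
        refine ee_mono ?_
        have := mul_nonneg (show 0 ≤ Q ^ 2 / 2 - 1 by linarith) (nat_log_nonneg (J + e))
        simp only [hx, Function.comp]
        linarith

/-- All the regularity conditions. -/
def WW (Q : ℝ) (J e : ℕ) (ε : ℝ) (y : Ix → ℝ) : Prop :=
  W1 J ε y ∧ Osc J (ε / 2) (fun p => y (p, 0) - y (p, J)) ∧ W3 Q J e ε y

theorem meas_WW (Q : ℝ) (J e : ℕ) (ε : ℝ) : Measurable (WW Q J e ε) :=
  (Measurable.forall fun _ => measurable_const.imp (Measurable.forall fun _ =>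
    Measurable.forall fun _ => measurable_const.imp ((meas_abs_le (by fun_prop) _).and
      (meas_abs_le (by fun_prop) _)))).and (((meas_Osc _ _).comp (by fun_prop)).and
    (Measurable.forall fun _ => Measurable.forall fun _ => measurable_const.imp
      (measurable_const.imp (measurableSet_setOfPred.1
        (measurableSet_le (measurable_pi_apply _) measurable_const)))))

theorem ev_small {κ : ℝ} (hκ : 0 < κ) (A B : ℝ) {G η : ℝ≥0∞} (hG : G ≠ ∞) (hη : η ≠ 0) :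
    ∀ᶠ j : ℕ in atTop, G * ee (A * j + B - κ * j ^ 2) ≤ η := by
  have t := ENNReal.Tendsto.const_mul (a := G) (tendsto_ee one_pos B) (Or.inr hG)
  rw [mul_zero] at t
  filter_upwards [t.eventually (ge_mem_nhds (pos_iff_ne_zero.2 hη)),
    tendsto_natCast_atTop_atTop.eventually_ge_atTop ((A + 1) / κ)] with j h1 h2
  refine (mul_le_mul_right (ee_mono ?_) _).trans h1
  rw [div_le_iff₀ hκ] at h2
  nlinarith [mul_le_mul_of_nonneg_right h2 (j.cast_nonneg (α := ℝ))]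

theorem WW_prob {Q κ : ℝ} (hQ : 0 < Q) (hQ2 : 2 ≤ Q ^ 2) (hκ : 0 < κ) {η : ℝ≥0∞} (hη : η ≠ 0) :
    ∀ᶠ j : ℕ in atTop, ∃ e, ∀ Z : Ix → Ω → ℝ, CG Z P cZ →
      P {ω | ¬ WW Q (2 + j) e (κ * j) fun k => Z k ω} ≤ η + η + η := by
  filter_upwards [ev_small (κ := κ ^ 2 / 4) (by positivity) 3 6 (G := 4) (by simp) hη,
    ev_small (κ := κ ^ 2 / 64) (by positivity) 2 6 (G := 2 * ∑' d : ℕ, ee (-1 * d))
      (ENNReal.mul_ne_top (by simp) (tsum_ee one_pos)) hη,
    tendsto_natCast_atTop_atTop.eventually_ge_atTop (40 / κ)] with j h1 h2 h3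
  obtain ⟨e, he⟩ := W3_prob (P := P) hQ hQ2 (2 + j) (κ * j) hη
  refine ⟨e, fun Z h => ?_⟩
  rw [div_le_iff₀ hκ] at h3
  simp only [WW, not_and_or, ofPred_or]
  rw [add_assoc]
  refine (measure_union_le _ _).trans (add_le_add ((W1_prob h _ (by positivity)).trans
    (le_of_eq_of_le ?_ h1)) ((measure_union_le _ _).trans (add_le_add ((osc_prob (CG_lay h _) _
      (fun _ _ _ => var_osc _) (by linarith)).trans (le_of_eq_of_le ?_ h2)) (he Z h))))
  all_goals
    congr 2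
    push_cast
    ring

end Pool.Agent.Lib.MP_d1f1b2_pr
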