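import Pool.Agent.Lib.D1W.Win
import Pool.Agent.Lib.D1W.F1
import Pool.Agent.Lib.D1W.Whp

/-! The mass of the event that the unit square is a tile: lower bound. -/

open Set Filter MeasureTheory ProbabilityTheory Real
open scoped ENNReal Topology

namespace Pool.Agent.Lib.MP_d1f1b2_pr

variable {Ω : Type*} {mΩ : MeasurableSpace Ω} {P : Measure Ω} {h : Sq → Ω → ℝ} {Q : ℝ}

theorem ev_InW (S : Sq) : ∀ᶠ k : ℕ in atTop, InW k S := by
  filter_upwards [(tendsto_pow_atTop_atTop_of_one_lt (one_lt_two (α := ℝ))).eventually_ge_atTop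
    (‖S.center‖ + rad S)] with k hk
  unfold InW rad at *
  rw [(center_sc _ _).1, side_sc, norm_mul, Complex.norm_real, Real.norm_eq_abs,
    abs_of_pos (by positivity), mul_div_assoc, ← mul_add, zpow_neg, zpow_natCast]
  exact inv_mul_le_one_of_le₀ hk (by positivity)

theorem dead_lim (hh : CG h P gffCov) (hQ : 0 < Q) (S : Sq) :
    Tendsto (fun l => P {ω | DD Q (fun S => h S ω) l S}) atBot (𝓝 0) := by
  refine tendsto_of_tendsto_of_tendsto_of_le_of_le tendsto_const_nhds (tendsto_ee_bot.comp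
    (tendsto_atBot_add_const_left _ (Q ^ 2 * gffCov S S / 2) ((tendsto_atBot_add_const_right _
    (Q * (S.n * log 2)) tendsto_id).const_mul_atBot hQ))) (fun _ => zero_le) fun l => ?_
  refine le_trans (measure_mono fun ω hω => ?_) (hh.tail_le S hQ.le (l + Q * (S.n * log 2)))
  exact (sub_le_iff_le_add (a := h S ω)).1 hω

theorem small_lev (hh : CG h P gffCov) (hQ : 0 < Q) (k : ℕ) : Tendsto (fun l =>
    P {ω | ∃ N : ℤ, N ≤ k ∧ DD Q (fun S => h S ω) l ⟨N, 0, 0⟩}) atBot (𝓝 0) := by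
  induction k with
  | zero =>
    obtain ⟨c, hc⟩ := tail_neg hh hQ
    refine tendsto_of_tendsto_of_tendsto_of_le_of_le tendsto_const_nhds (tendsto_ee_bot.comp
      (tendsto_atBot_add_const_right _ c (tendsto_id.const_mul_atBot hQ))) (fun _ => zero_le)
      fun l => le_trans (measure_mono fun ω ⟨N, h1, h2⟩ => ?_) (hc l)
    exact ⟨(-N).toNat, by rwa [show -(((-N).toNat : ℕ) : ℤ) = N by omega]⟩
  | succ k ih =>
    refine tendsto_of_tendsto_of_tendsto_of_le_of_le tendsto_const_nhds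
      (add_zero (0 : ℝ≥0∞) ▸ ih.add (dead_lim hh hQ ⟨(k + 1 : ℕ), 0, 0⟩)) (fun _ => zero_le)
      fun l => le_trans (measure_mono fun ω ⟨N, h1, h2⟩ => ?_) (measure_union_le _ _)
    rcases h1.eq_or_lt with rfl | h3
    · exact .inr h2
    · exact .inl ⟨N, by omega, h2⟩

theorem two_fin (hh : CG h P gffCov) :
    P.prod volume (EV Q h fun D => D O ∧ ¬ D (anc O 1)) ≠ ∞ := by
  have := hh.prob
  rw [Measure.prod_apply (meas_EV hh ((meas_apply _).and (meas_apply _).not))]
  refine ne_top_of_le_ne_top (b := ∫⁻ ω, (ee (1 * h (anc O 1) ω + Q * log 2) +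
    ee (-1 * h O ω + 0)) ∂P) ?_ (lintegral_mono fun ω => ?_)
  · have := hh.meas
    rw [lintegral_add_left (by fun_prop), hh.mgf1', hh.mgf1']
    exact ENNReal.add_ne_top.2 ⟨ee_ne_top _, ee_ne_top _⟩
  · refine (measure_mono (t := Ico (h O ω) (h (anc O 1) ω + Q * log 2)) fun l hl => ?_).trans ?_
    · have h1 := hl.1
      have h2 := hl.2
      simp only [DD, lm, not_le, anc_n, O] at h1 h2
      push_cast at h1 h2
      exact ⟨by simp only [O]; linarith, by simp only [O]; linarith⟩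
    · rw [Real.volume_Ico, sub_eq_add_neg]
      refine ENNReal.ofReal_add_le.trans (add_le_add ((ofReal_le_ee one_pos).trans ?_)
        ((ofReal_le_ee one_pos).trans ?_)) <;> simp

theorem mu_tile_ge (hh : CG h P gffCov) (hQ : 0 < Q) :
    ENNReal.ofReal (Q * log 2) ≤ P.prod volume (EV Q h fun D => tile D O) := by
  have := hh.prob
  set E : ℕ → Set (Ω × ℝ) := fun k => EV Q h fun D =>
    D O ∧ ∀ j, InW k (anc O (j + 1)) → ¬ D (anc O (j + 1)) with hE
  have hA : Antitone E := fun k k' hk p hp => ⟨hp.1, fun j hj => hp.2 j (by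
    obtain ⟨m, rfl⟩ := Nat.exists_eq_add_of_le hk
    exact Win.mono hj m)⟩
  have h1 : ∀ k, InW k O → ENNReal.ofReal (Q * log 2) ≤ P.prod volume (E k) := fun k hk => by
    refine le_trans ?_ (measure_mono (s := EV Q h fun D => tile (cut k D) O)
      fun p hp => ⟨hp.1.1, fun j hj hD => hp.2 j ⟨hD, hj⟩⟩)
    by_cases hf : P.prod volume (EV Q h fun D => tile (cut k D) O) = ∞
    · exact hf ▸ le_top
    have h2 := ge_of_tendsto' (b := 1) ((small_lev hh hQ k).add
      (win_lim hh hQ k (meas_tile O) hf)) fun l => by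
      refine (measure_univ (μ := P)).ge.trans ((measure_mono_ae ?_).trans
        ((measure_union_le _ _).trans (add_le_add le_rfl (measure_iUnion_le _))))
      filter_upwards [ae_Gd hh hQ] with ω hω _
      obtain ⟨N, hN⟩ := root_exists (hω.top' l) (hω.down l)
      rcases le_or_gt N k with h3 | h3
      · exact .inl ⟨N, h3, hN.1⟩
      · obtain ⟨m, rfl⟩ : ∃ m : ℕ, N = k + m + 1 := ⟨(N - k - 1).toNat, by omega⟩
        rw [← sc_O, ← tile_sc] at hN
        exact .inr (mem_iUnion.2 ⟨m, ⟨hN.1, hk⟩, fun j hj => hN.2 j hj.1⟩)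
    rwa [zero_add, ENNReal.le_div_iff_mul_le (.inl (ENNReal.ofReal_pos.2
      (mul_pos hQ log2pos)).ne') (.inl ENNReal.ofReal_ne_top), one_mul] at h2
  obtain ⟨k, h2, h3⟩ := ((ev_InW O).and (ev_InW (anc O 1))).exists
  refine le_trans ?_ (measure_mono (s := ⋂ k, E k) fun p hp => ⟨(mem_iInter.1 hp 0).1,
    fun j => (ev_InW (anc O (j + 1))).exists.elim fun k hk => (mem_iInter.1 hp k).2 j hk⟩)
  rw [hA.measure_iInter (fun k => (meas_EV hh ((meas_apply _).and (Measurable.forall fun j =>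
    measurable_const.imp (meas_apply _).not))).nullMeasurableSet) ⟨k, ne_top_of_le_ne_top
    (two_fin hh) (measure_mono fun p hp => ⟨hp.1, hp.2 0 h3⟩)⟩]
  exact le_iInf fun m => (h1 _ (Win.mono h2 m)).trans (measure_mono (hA (by omega)))

end Pool.Agent.Lib.MP_d1f1b2_pr
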