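import Pool.Agent.Lib.D1W.UDefs
import Pool.Agent.Lib.D1W.F3

/-! The unscaled rooted graph is unbounded and has an atom at the root. -/

open Set Filter MeasureTheory Metric
open scoped ENNReal Topology

namespace Pool.Agent.Lib.MP_d1f1b2_pr

theorem open_far (R : ℝ) : IsOpen {A : BCMM | ∃ x, R < dist A.root x} := by
  rintro A ⟨x, hx⟩
  obtain ⟨η, h0, h1, h2⟩ := exists_eta (dist A.root x) (show 0 < (dist A.root x - R) / 3 by linarith)
  refine ⟨η, h0, ?_⟩
  rintro B ⟨Z, _, f, g, hf, hg, h3, h4, -⟩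
  obtain ⟨y, hy⟩ := h4 x (by rwa [mem_closedBall, dist_comm])
  have := dist_triangle4 (f A.root) (g B.root) (g y) (f x)
  rw [hg.dist_eq, hf.dist_eq, dist_comm (g y)] at this
  exact ⟨y, by linarith⟩

theorem open_atom : IsOpen {A : BCMM | ∃ r < 1, 1 / 2 < A.μ (closedBall A.root r)} := by
  rintro A ⟨r, hr, hA⟩
  obtain ⟨t, -, t1, t2⟩ := ENNReal.lt_iff_exists_real_btwn.1 hA
  have e : (1 / 2 : ℝ≥0∞) = ENNReal.ofReal (1 / 2) := by
    rw [ENNReal.ofReal_div_of_pos two_pos]; simp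
  rw [e, ENNReal.ofReal_lt_ofReal_iff'] at t1
  obtain ⟨η, h0, h1, h2⟩ := exists_eta r (show 0 < min (1 - r) (t - 1 / 2) / 5 from
    div_pos (lt_min (by linarith) (by linarith [t1.1])) (by norm_num))
  have m1 := min_le_left (1 - r) (t - 1 / 2)
  have m2 := min_le_right (1 - r) (t - 1 / 2)
  refine ⟨η, h0, ?_⟩
  rintro B ⟨Z, _, f, g, hf, hg, h3, -, -, h4, -⟩
  refine ⟨r + 4 * η, by linarith, lt_of_lt_of_le ?_ ((ofReal_step h0 t2.le (h4 _
    (closedBall_subset_closedBall h2) isClosed_closedBall)).trans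
    (measure_mono (thick_sub hf hg h0 h3 subset_rfl)))⟩
  rw [e]
  exact ENNReal.ofReal_lt_ofReal_iff'.2 ⟨by linarith, by linarith⟩

theorem meas_nt : MeasurableSet {A : BCMM | (∀ R : ℝ, ∃ x, R < dist A.root x) ∧
    ∃ r < 1, 1 / 2 < A.μ (closedBall A.root r)} := by
  refine MeasurableSet.inter (s₁ := {A : BCMM | ∀ R : ℝ, ∃ x, R < dist A.root x}) ?_
    open_atom.measurableSet
  have : {A : BCMM | ∀ R : ℝ, ∃ x, R < dist A.root x} =
      ⋂ n : ℕ, {A : BCMM | ∃ x, (n : ℝ) < dist A.root x} := by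
    ext A
    refine ⟨fun h => mem_iInter.2 fun n => h n, fun h R => ?_⟩
    obtain ⟨n, hn⟩ := exists_nat_ge R
    exact (mem_iInter.1 h n).imp fun x hx => hn.trans_lt hx
  rw [this]
  exact MeasurableSet.iInter fun n => (open_far n).measurableSet

theorem tiles_infinite {D : Sq → Prop} (hT : Top D) (hD : Down D) : {T | tile D T}.Infinite := by
  intro hf
  obtain ⟨B, hB⟩ := (hf.image fun T : Sq => (T.i + 1) * T.side).bddAbove
  obtain ⟨i, hi⟩ := exists_nat_gt B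
  obtain ⟨m, hm⟩ := (hD.ev ⟨0, i, 0⟩ false false).exists
  obtain ⟨k, hk⟩ := exists_tile hT hm
  have h1 := (carrier_sub_anc _ k (center_mem _)).2.1.trans (hB ⟨_, hk, rfl⟩)
  have h2 := (center_mem (sub ⟨0, i, 0⟩ m (cor false m) (cor false m))).1
  have h3 := side_sub ⟨0, i, 0⟩ m (cor false m) (cor false m)
  have h4 : (⟨0, i, 0⟩ : Sq).side = 1 := by simp [Sq.side]
  have h5 : ((sub ⟨0, i, 0⟩ m (cor false m) (cor false m)).i : ℝ) = i * 2 ^ m := by simp [sub, cor]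
  rw [h5, mul_assoc, ← h3, h4] at h2
  linarith

theorem nt_of {D : Sq → Prop} (hT : Top D) (hD : Down D) (hL : LF D) (hO : tile D O) :
    FinB D O ∧ sp D O ∈ {A : BCMM | (∀ R : ℝ, ∃ x, R < dist A.root x) ∧
      ∃ r < 1, 1 / 2 < A.μ (closedBall A.root r)} := by
  have hF : FinB D O := ball_finite hT hL O
  refine ⟨hF, ?_⟩
  change (fun A : PMM => (∀ R : ℝ, ∃ x, R < dist A.root x) ∧ ∃ r < 1, 1 / 2 < A.ballMass r)
    (sp D O).toPMM
  rw [sp_eq hF]
  refine ⟨fun R => ?_, 0, one_pos, ?_⟩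
  · by_contra hc
    simp only [not_exists, not_lt] at hc
    obtain ⟨k, hk⟩ := exists_nat_ge R
    refine tiles_infinite hT hD ((hF k).subset fun T hT' => ?_)
    obtain ⟨t, ht⟩ := conn hT hL (N := 0) hO hT'
    have h1 := (ht.dist_le (G := gr D) fun _ _ => Iff.rfl).1
    have h2 : 1 * ((gr D).dist O T : ℝ) ≤ R := hc ⟨T, h1⟩
    exact (rk_of_reach (G := gr D) (fun _ _ => Iff.rfl) h1).mono (by exact_mod_cast (by linarith :
      ((gr D).dist O T : ℝ) ≤ k))
  · rw [mass_eq, ENNReal.ofReal_one, one_mul]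
    refine lt_of_lt_of_le (by simp : (1 / 2 : ℝ≥0∞) < 1) ?_
    have : 1 ≤ {T | (gr D).Reachable O T ∧ 1 * ((gr D).dist T O : ℝ) ≤ 0}.encard :=
      one_le_encard_iff_nonempty.2 ⟨O, .refl O, by simp⟩
    exact_mod_cast this

end Pool.Agent.Lib.MP_d1f1b2_pr
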