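import Pool.Agent.Lib.D1W.UL
import Pool.Agent.Lib.D1W.UG
import Pool.Agent.Lib.D1W.UN
import Pool.Agent.Lib.D1W.UM

/-! Convergence in law of the unscaled rooted graph. -/

open Set Filter MeasureTheory ProbabilityTheory Metric
open scoped ENNReal Topology BoundedContinuousFunction

namespace Pool.Agent.Lib.MP_d1f1b2_pr

variable {Ω : Type*} {mΩ : MeasurableSpace Ω} {P : Measure Ω} {h : Sq → Ω → ℝ} {Q : ℝ}

theorem meas_LF' : Measurable LF :=
  Measurable.forall fun _ => Measurable.forall fun _ => Measurable.exists fun _ =>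
    Measurable.forall fun _ => Measurable.forall fun _ => measurable_const.imp
      (measurable_const.imp (meas_alive _).not)

theorem unscaled (hh : CG h P gffCov) (hQ : 0 < Q) (hQ2 : 2 ≤ Q ^ 2) :
    ∃ ν : Measure BCMM, IsProbabilityMeasure ν ∧ (∀ F : BCMM →ᵇ ℝ,
      Tendsto (fun l => ∫ ω, F (spR (DD Q (fun S => h S ω) l)) ∂P) atBot (𝓝 (∫ A, F A ∂ν))) ∧
      ∀ᵐ A ∂ν, (∀ R : ℝ, ∃ x, R < dist A.root x) ∧ A.μ ≠ 0 := by
  have := hh.prob
  set c := ENNReal.ofReal (Q * Real.log 2) with hc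
  have hc0 : c ≠ 0 := by have := mul_pos hQ log2pos; simpa [hc] using this
  have hct : c ≠ ∞ := ENNReal.ofReal_ne_top
  have hD : Measurable fun p : Ω × ℝ => DD Q (fun S => h S p.1) p.2 :=
    (meas_DD Q).comp ((hh.measPi.comp measurable_fst).prodMk measurable_snd)
  have hDl : ∀ l, Measurable fun ω => spR (DD Q (fun S => h S ω) l) := fun l =>
    meas_spR.comp ((meas_DD Q).comp (hh.measPi.prodMk measurable_const))
  have hs : Measurable fun p : Ω × ℝ => sp (DD Q (fun S => h S p.1) p.2) O := meas_sp.comp hD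
  have hE := meas_EV (Q := Q) hh (meas_tile O)
  have good : ∀ᵐ p ∂P.prod volume, Top (DD Q (fun S => h S p.1) p.2) ∧
      Down (DD Q (fun S => h S p.1) p.2) ∧ LF (DD Q (fun S => h S p.1) p.2) := by
    have h1 : ∀ᵐ p ∂P.prod volume, LF (DD Q (fun S => h S p.1) p.2) := by
      have hm := meas_EV (Q := Q) hh meas_LF'.not
      have : P.prod volume (EV Q h fun D => ¬ LF D) = 0 := by
        rw [Measure.prod_apply_symm hm, lintegral_eq_zero_iff (measurable_measure_prodMk_right hm)]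
        exact .of_forall fun l => ae_LF hh hQ hQ2 l
      exact this
    filter_upwards [Measure.quasiMeasurePreserving_fst.ae (ae_Gd hh hQ), h1] with p h2 h3
    exact ⟨h2.top' _, h2.down _, h3⟩
  set ν : Measure BCMM := (c⁻¹ • (P.prod volume).restrict (EV Q h fun D => tile D O)).map
    fun p => sp (DD Q (fun S => h S p.1) p.2) O with hν
  have hν1 : ∀ U, MeasurableSet U → ν U = P.prod volume
      ({p | sp (DD Q (fun S => h S p.1) p.2) O ∈ U} ∩ EV Q h fun D => tile D O) / c := fun U hU => by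
    rw [hν, Measure.map_apply hs hU, Measure.smul_apply, Measure.restrict_apply (hs hU), smul_eq_mul,
      ENNReal.div_eq_inv_mul]
    rfl
  have hp : IsProbabilityMeasure ν := ⟨by
    rw [hν1 _ .univ]
    simp only [mem_univ, ofPred_true, univ_inter]
    rw [le_antisymm (mu_tile_le hh hQ) (mu_tile_ge hh hQ), ENNReal.div_self hc0 hct]⟩
  refine ⟨ν, hp, fun F => ?_, ?_⟩
  · have key := tendsto_of_forall_isOpen_le_liminf' (μ := ⟨ν, hp⟩) (L := atBot)
      (μs := fun l : ℝ => ⟨P.map fun ω => spR (DD Q (fun S => h S ω) l),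
        Measure.isProbabilityMeasure_map (hDl l).aemeasurable⟩) fun U hU => by
      simp only [ProbabilityMeasure.coe_mk, hν1 U hU.measurableSet,
        Measure.map_apply (hDl _) hU.measurableSet]
      calc _ ≤ P.prod volume (⋃ R, EV Q h (BU U R)) / c := by
            refine ENNReal.div_le_div_right (measure_mono_ae ?_) _
            filter_upwards [good] with p hp ⟨h1, h2⟩
            exact mem_iUnion.2 (BU_of hU h2 (ball_finite hp.1 hp.2.2 O) h1)
        _ = ⨆ R, P.prod volume (EV Q h (BU U R)) / c := by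
            rw [Monotone.measure_iUnion (s := fun R => EV Q h (BU U R))
              (fun _ _ hR _ hp => BU_mono hR hp), ENNReal.iSup_div]
        _ ≤ _ := iSup_le fun R => (lb hh hQ (meas_BU U R) BU_loc fun _ h => h.1).trans
            (liminf_le_liminf (.of_forall fun l => measure_mono_ae ?_))
      filter_upwards [ae_Gd hh hQ, ae_LF hh hQ hQ2 l] with ω h1 h2 ⟨N, hN⟩
      have h3 := tile_sc.1 hN.1
      rw [sc_O] at h3
      show spR _ ∈ U
      rw [spR_eq h3, ← sp_sc _ N hU]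
      exact BU_mem hN ((finB_sc _ N).2 (ball_finite (h1.top' l) h2 _))
    have := ProbabilityMeasure.tendsto_iff_forall_integral_tendsto.1 key F
    simp only [ProbabilityMeasure.coe_mk] at this
    refine this.congr fun l => ?_
    exact integral_map (hDl l).aemeasurable F.continuous.measurable.aestronglyMeasurable
  · have h1 : ν {A : BCMM | (∀ R : ℝ, ∃ x, R < dist A.root x) ∧
        ∃ r < 1, 1 / 2 < A.μ (closedBall A.root r)}ᶜ = 0 := by
      rw [hν1 _ meas_nt.compl, ENNReal.div_eq_zero_iff]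
      refine .inl (measure_eq_zero_iff_ae_notMem.2 ?_)
      filter_upwards [good] with p hp ⟨h1, h2⟩
      exact h1 (nt_of hp.1 hp.2.1 hp.2.2 h2).2
    filter_upwards [mem_ae_iff.2 h1] with A hA
    refine ⟨hA.1, fun h0 => ?_⟩
    obtain ⟨r, -, hr⟩ := hA.2
    simp [h0] at hr

theorem tiling_eq {Q ε : ℝ} (hε : 0 < ε) (x : Sq → ℝ) :
    tiling Q ε x = gr (DD Q x (Real.log ε)) := by
  ext S T
  exact tiling_adj hε x S T

theorem final_unscaled [IsProbabilityMeasure P] (hQ : 0 < Q) (hQ2 : 2 ≤ Q ^ 2)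
    (hG : IsGaussianProcess h P) (hmean : ∀ S, ∫ ω, h S ω ∂P = 0)
    (hcov : ∀ S T, cov[h S, h T; P] = gffCov S T) :
    ∃ (N : ℝ → Ω → ℤ) (Y : ℝ → Ω → BCMM) (ν : Measure BCMM), IsProbabilityMeasure ν ∧
      (∀ ε, Measurable (Y ε)) ∧
      (∀ ε > 0, ∀ᵐ ω ∂P, IsTile Q ε (fun S => h S ω) ⟨N ε ω, 0, 0⟩ ∧ (Y ε ω).toPMM =
        rescaled (tiling Q ε fun S => h S ω) ⟨N ε ω, 0, 0⟩ 1 1 one_pos) ∧
      (∀ F : BCMM →ᵇ ℝ, Tendsto (fun ε => ∫ ω, F (Y ε ω) ∂P) (𝓝[>] 0) (𝓝 (∫ A, F A ∂ν))) ∧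
      ∀ᵐ A ∂ν, (∀ R : ℝ, ∃ x, R < dist A.root x) ∧ A.μ ≠ 0 := by
  classical
  obtain ⟨h', hh, he⟩ := exists_CG_mk hG hmean hcov
  obtain ⟨ν, hp, h1, h2⟩ := unscaled hh hQ hQ2
  refine ⟨fun ε ω => if H : ∃ N, tile (DD Q (fun S => h' S ω) (Real.log ε)) ⟨N, 0, 0⟩ then H.choose
    else 0, fun ε ω => spR (DD Q (fun S => h' S ω) (Real.log ε)), ν, hp, fun ε => meas_spR.comp
      ((meas_DD Q).comp (hh.measPi.prodMk measurable_const)), fun ε hε => ?_,
    fun F => (h1 F).comp Real.tendsto_log_nhdsGT_zero, h2⟩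
  filter_upwards [he, ae_Gd hh hQ, ae_LF hh hQ hQ2 (Real.log ε)] with ω e h3 h4
  have H := root_exists (h3.top' (Real.log ε)) (h3.down _)
  rw [e, dif_pos H, isTile_iff hε, tiling_eq hε, spR_eq H.choose_spec]
  exact ⟨H.choose_spec, sp_eq (ball_finite (h3.top' _) h4 _)⟩

end Pool.Agent.Lib.MP_d1f1b2_pr
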