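import Pool.Agent.Lib.D1W.PC2
import Pool.Agent.Lib.D1W.Ren

/-! Events in a window, summed over the scales. -/

open Set Filter MeasureTheory ProbabilityTheory Real
open scoped ENNReal NNReal Topology

namespace Pool.Agent.Lib.MP_d1f1b2_pr

variable {Ω : Type*} {mΩ : MeasurableSpace Ω} {P : Measure Ω} {h : Sq → Ω → ℝ} {Q : ℝ}

/-- the circle of `S` seen at scale `k` lies in the unit disc -/
def InW (k : ℕ) (S : Sq) : Prop := ‖(sc k S).center‖ + rad (sc k S) ≤ 1

/-- only the squares of the window can be dead -/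
def cut (k : ℕ) (D : Sq → Prop) : Sq → Prop := fun S => D S ∧ InW k S

theorem meas_cut (k : ℕ) : Measurable (cut k) :=
  measurable_pi_lambda _ fun S => (meas_apply S).and measurable_const

/-- the sum over the scales of the probability of a window event -/
noncomputable def WS (Q : ℝ) (h : Sq → Ω → ℝ) (P : Measure Ω) (k : ℕ) (B : (Sq → Prop) → Prop)
    (l : ℝ) : ℝ≥0∞ :=
  ∑' m : ℕ, P {ω | B (cut k (DD Q (fun S => h S ω) l ∘ sc (k + m + 1)))}

namespace Win

theorem add_gauss {T : Type*} {X : T → Ω → ℝ} {c : T → T → ℝ} (h : CG X P c) (v : ℝ≥0) :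
    CG (fun t (p : Ω × ℝ) => X t p.1 + p.2) (P.prod (gaussianReal 0 v)) fun s t => c s t + v := by
  have := h.prob
  have hm := h.meas
  have l1 := fun t => (h.l2 t).comp_fst (gaussianReal 0 v)
  have l0 : MemLp (fun x : ℝ => x) 2 (gaussianReal 0 v) := memLp_id_gaussianReal 2
  have l2 := l0.comp_snd P
  refine ⟨⟨fun I => ?_⟩, fun t => by fun_prop, fun t => ?_, fun s t => ?_⟩
  · have m1 : Measurable fun ω => I.restrict (X · ω) := measurable_pi_lambda _ fun t => hm _
    have h1 : HasGaussianLaw (fun p : Ω × ℝ => I.restrict (X · p.1))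
        (P.prod (gaussianReal 0 v)) := ⟨by
      rw [← Function.comp_def (fun ω => I.restrict (X · ω)), ← Measure.map_map m1 measurable_fst,
        Measure.map_fst_prod, measure_univ, one_smul]
      exact (h.gauss.hasGaussianLaw I).isGaussian_map⟩
    have h2 : HasGaussianLaw (fun p : Ω × ℝ => p.2) (P.prod (gaussianReal 0 v)) := ⟨by
      rw [show (fun p : Ω × ℝ => p.2) = Prod.snd from rfl, Measure.map_snd_prod, measure_univ,
        one_smul]
      infer_instance⟩
    exact (IndepFun.hasGaussianLaw h1 h2 (indepFun_prod m1 measurable_id)).map_fun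
      (ContinuousLinearMap.fst ℝ (I → ℝ) ℝ +
        ContinuousLinearMap.pi fun _ => ContinuousLinearMap.snd ℝ (I → ℝ) ℝ)
  · rw [integral_add ((l1 t).integrable one_le_two) (l2.integrable one_le_two),
      integral_fun_fst (X t), integral_fun_snd fun x : ℝ => x]
    simp [h.mean]
  · have e1 := covariance_map_fun (μ := P.prod (gaussianReal 0 v)) (Z := Prod.fst) (X := X s)
      (Y := X t) (hm s).aestronglyMeasurable (hm t).aestronglyMeasurable measurable_fst.aemeasurable
    have e2 := variance_map (μ := P.prod (gaussianReal 0 v)) (Y := Prod.snd) (X := fun x : ℝ => x)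
      (by fun_prop) measurable_snd.aemeasurable
    rw [Measure.map_fst_prod, measure_univ, one_smul, h.cov] at e1
    rw [Measure.map_snd_prod, measure_univ, one_smul, variance_fun_id_gaussianReal,
      ← covariance_self (by fun_prop)] at e2
    have e3 := covariance_fst_snd_prod (h.l2 s) l0
    have e4 := (covariance_comm _ _).trans (covariance_fst_snd_prod (h.l2 t) l0)
    refine (covariance_add_left (l1 s) l2 ((l1 t).add l2)).trans ?_
    rw [covariance_add_right (l1 s) (l1 t) l2, covariance_add_right l2 (l1 t) l2, e3, e4, ← e1,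
      e2]
    simp [Function.comp_def]

theorem cov {k : ℕ} {S T : Sq} (h : InW k S) (h' : InW k T) :
    gffCov (sc k S) (sc k T) = kk (sc k S) (sc k T) := by
  have h1 := cc_le le_rfl h
  have h2 := cc_le le_rfl h'
  rw [log_one] at h1 h2
  rw [gffCov_eq]
  linarith [cc_nonneg (sc k S), cc_nonneg (sc k T)]

theorem mono {k : ℕ} {S : Sq} (h : InW k S) (m : ℕ) : InW (k + m) S := by
  have e : (2 : ℝ) ^ (-(m : ℤ)) ≤ 1 := zpow_le_one_of_nonpos₀ one_le_two (by omega)
  have e0 : (0 : ℝ) < 2 ^ (-(m : ℤ)) := by positivity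
  unfold InW rad at *
  rw [Nat.cast_add, ← sc_sc, (center_sc _ _).1, side_sc, norm_mul, Complex.norm_real,
    Real.norm_eq_abs, abs_of_pos e0]
  nlinarith

theorem one (hh : CG h P gffCov) (k : ℕ) {B : (Sq → Prop) → Prop} (hB : Measurable B)
    (m : ℕ) (l : ℝ) : P {ω | B (cut k (DD Q (fun S => h S ω) l ∘ sc (k + m + 1)))} =
      ∫⁻ p in EV Q h fun D => B (cut k (D ∘ sc k)), gaussianPDF 0 ((m + 1) * log 2).toNNReal
        (l - p.2 + (m + 1) * (Q * log 2)) ∂P.prod volume := by
  have := hh.prob
  have hL := log2pos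
  set a := l + (m + 1) * (Q * log 2) with ha
  set ex : ({S // InW k S} → ℝ) → Sq → Prop := fun x S =>
    ∃ hS : InW k S, x ⟨S, hS⟩ - Q * ((S.n + k) * log 2) ≤ a with hex
  have hm : Measurable ex := measurable_pi_lambda _ fun S => Measurable.exists fun hS =>
    measurableSet_setOfPred.1 (measurableSet_le (by fun_prop) measurable_const)
  have h1 := hh.comp fun S : {S // InW k S} => sc (k + (m + 1) : ℕ) S
  have h2 := add_gauss (hh.comp fun S : {S // InW k S} => sc k S) ((m + 1) * log 2).toNNReal
  have h3 := (h1.congr fun S T => by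
    rw [cov (mono S.2 _) (mono T.2 _), Nat.cast_add, ← sc_sc, ← sc_sc, kk_sc, ← cov S.2 T.2,
      log_zpow]).prob_eq' (h2.congr fun S T => by
    rw [Real.coe_toNNReal _ (by positivity)]; push_cast; ring) (hB.comp hm)
  have hE := meas_EV (Q := Q) hh (B := fun D => B (cut k (D ∘ sc k))) (hB.comp
    ((meas_cut k).comp (measurable_pi_lambda _ fun S => meas_apply _)))
  have hv : ((m + 1) * log 2 : ℝ).toNNReal ≠ 0 := (Real.toNNReal_pos.2 (by positivity)).ne'
  calc _ = P.prod (gaussianReal 0 _) ((fun p : Ω × ℝ => (p.1, a - p.2)) ⁻¹'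
        EV Q h fun D => B (cut k (D ∘ sc k))) := by
        refine (congrArg P (Set.ext fun ω => iff_of_eq (congrArg B (funext fun S => ?_)))).trans
          (h3.trans (congrArg _ (Set.ext fun p => iff_of_eq (congrArg B (funext fun S => ?_)))))
        · simp only [hex, ha, cut, DD, lm, sc, Function.comp, exists_prop, and_comm, add_assoc]
          push_cast
          refine propext (and_congr_right' ?_)
          constructor <;> intro <;> linarith
        · simp only [hex, cut, DD, lm, sc, Function.comp, exists_prop, and_comm]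
          push_cast
          refine propext (and_congr_right' ?_)
          constructor <;> intro <;> linarith
    _ = _ := by
        rw [Measure.prod_apply (hE.preimage (by fun_prop)), ← lintegral_indicator hE,
          lintegral_prod _ (Measurable.indicator (by unfold gaussianPDF gaussianPDFReal; fun_prop)
            hE).aemeasurable]
        refine lintegral_congr fun ω => ?_
        rw [gaussianReal_apply _ hv, ← lintegral_indicator ((hE.preimage (by fun_prop)).preimage
          measurable_prodMk_left), ← lintegral_sub_left_eq_self _ a]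
        refine lintegral_congr fun u => ?_
        by_cases hu : (ω, u) ∈ EV Q h fun D => B (cut k (D ∘ sc k))
        · rw [indicator_of_mem hu, indicator_of_mem (by simpa using hu)]
          congr 1; rw [ha]; ring
        · rw [indicator_of_notMem hu, indicator_of_notMem (by simpa using hu)]

theorem all (hh : CG h P gffCov) (k : ℕ) {B : (Sq → Prop) → Prop} (hB : Measurable B) (l : ℝ) :
    WS Q h P k B l = ∫⁻ p in EV Q h fun D => B (cut k (D ∘ sc k)),
      RN (log 2) (Q * log 2) (l - p.2) ∂P.prod volume := by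
  simp only [WS, one hh k hB, RN]
  exact (lintegral_tsum fun m => Measurable.aemeasurable
    (by unfold gaussianPDF gaussianPDFReal; fun_prop)).symm

theorem mass_sc (hh : CG h P gffCov) (k : ℕ) {B : (Sq → Prop) → Prop} (hB : Measurable B) :
    P.prod volume (EV Q h fun D => B (cut k (D ∘ sc k))) =
      P.prod volume (EV Q h fun D => B (cut k D)) :=
  EV_sc hh (B := fun D => B (cut k D)) (hB.comp (meas_cut k)) k

theorem lim (hQ : 0 < Q) (u : ℝ) : Tendsto (fun l => RN (log 2) (Q * log 2) (l - u)) atBot
    (𝓝 (ENNReal.ofReal (Q * log 2))⁻¹) := by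
  have h1 := mul_pos hQ log2pos
  rw [← ENNReal.ofReal_inv_of_pos h1, ← one_div]
  exact (RN_lim log2pos h1).comp (tendsto_atBot_add_const_right atBot (-u) tendsto_id)

end Win

open Win

theorem win_le (hQ : 0 < Q) : ∃ C : ℝ≥0∞, C ≠ ∞ ∧ ∀ {Ω : Type*} {_ : MeasurableSpace Ω}
    {P : Measure Ω} {h : Sq → Ω → ℝ}, CG h P gffCov → ∀ (k : ℕ) {B : (Sq → Prop) → Prop},
    Measurable B → ∀ l, WS Q h P k B l ≤ C * P.prod volume (EV Q h fun D => B (cut k D)) := by
  obtain ⟨C, hC0, hC⟩ := RN_bdd log2pos (mul_pos hQ log2pos)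
  refine ⟨C, hC0, fun hh k B hB l => ?_⟩
  rw [all hh k hB, ← mass_sc hh k hB, ← setLIntegral_const]
  exact lintegral_mono fun p => hC _

theorem win_liminf (hh : CG h P gffCov) (hQ : 0 < Q) (k : ℕ) {B : (Sq → Prop) → Prop}
    (hB : Measurable B) : P.prod volume (EV Q h fun D => B (cut k D)) / ENNReal.ofReal (Q * log 2) ≤
      liminf (WS Q h P k B) atBot := by
  rw [funext (all hh k hB), ← mass_sc hh k hB, ENNReal.div_eq_inv_mul, ← setLIntegral_const]
  refine le_trans (lintegral_mono fun p => (lim hQ p.2).liminf_eq.ge) (lintegral_liminf_le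
    fun l => (meas_RN _ _).comp (by fun_prop))

theorem win_lim (hh : CG h P gffCov) (hQ : 0 < Q) (k : ℕ) {B : (Sq → Prop) → Prop}
    (hB : Measurable B) (hf : P.prod volume (EV Q h fun D => B (cut k D)) ≠ ∞) :
    Tendsto (WS Q h P k B) atBot
      (𝓝 (P.prod volume (EV Q h fun D => B (cut k D)) / ENNReal.ofReal (Q * log 2))) := by
  obtain ⟨C, hC0, hC⟩ := RN_bdd log2pos (mul_pos hQ log2pos)
  rw [← mass_sc hh k hB] at hf
  rw [funext (all hh k hB), ← mass_sc hh k hB, ENNReal.div_eq_inv_mul, ← setLIntegral_const]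
  refine tendsto_lintegral_filter_of_dominated_convergence (fun _ => C)
    (.of_forall fun l => (meas_RN _ _).comp (by fun_prop))
    (.of_forall fun l => .of_forall fun p => hC _) ?_ (.of_forall fun p => lim hQ p.2)
  rw [setLIntegral_const]
  exact ENNReal.mul_ne_top hC0 hf

end Pool.Agent.Lib.MP_d1f1b2_pr
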