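import Pool.Agent.Lib.D1W.UDefs
import Pool.Agent.Lib.D1W.Win

/-! The lower bound for local events seen from the root tile. -/

open Set Filter MeasureTheory ProbabilityTheory Real
open scoped ENNReal Topology

namespace Pool.Agent.Lib.MP_d1f1b2_pr

namespace UL

variable {Ω : Type*} {mΩ : MeasurableSpace Ω} {P : Measure Ω} {h : Sq → Ω → ℝ} {Q : ℝ}

/-- a large square near the origin -/
def big (j : ℕ) (p : Fin 4 × Fin 4) : Sq := ⟨-j, p.1 - 2, p.2 - 2⟩

/-- the square is dead and the parent of the unit square is alive -/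
def Eb (V : Sq) (D : Sq → Prop) : Prop := D V ∧ ¬ D (anc O 1)

theorem meas_Eb (V : Sq) : Measurable (Eb V) := (meas_apply _).and (meas_apply _).not

theorem big_abs (j : ℕ) (p : Fin 4 × Fin 4) : |((big j p).i : ℝ)| + |((big j p).j : ℝ)| ≤ 4 := by
  have key : ∀ a : Fin 4, |((((a : ℕ) : ℤ) - 2 : ℤ) : ℝ)| ≤ 2 := fun a => by
    have h1 : |((a : ℕ) : ℤ) - 2| ≤ 2 := by have := a.2; rw [abs_le]; omega
    exact_mod_cast h1
  have h1 := key p.1
  have h2 := key p.2
  simp only [big]; linarith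

theorem inW_of {k : ℕ} {S : Sq} (h : (|(S.i : ℝ)| + |(S.j : ℝ)| + 2) * (sc k S).side ≤ 1) :
    InW k S := (norm_center_le (sc k S)).trans h

theorem inW_big (j : ℕ) (p : Fin 4 × Fin 4) : InW (j + 3) (big j p) := by
  refine inW_of ?_
  have : (sc (j + 3 : ℕ) (big j p)).side = (1 / 2) ^ 3 := side_nat (by simp [sc, big])
  rw [this]
  linarith [big_abs j p]

theorem inW_par (k : ℕ) : InW (k + 2) (anc O 1) := by
  have : InW 2 (anc O 1) := inW_of (by
    have : (sc (2 : ℕ) (anc O 1)).side = (1 / 2) ^ 1 := side_nat (by simp [sc, anc, O])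
    rw [this]; simp [anc, O])
  simpa [add_comm] using Win.mono this k

theorem touch_big {R k : ℕ} (hR : R ≤ 2 ^ k) {V : Sq} (h1 : Touch R V) (h2 : ¬ InW (k + 2) V) :
    ∃ i p, V = big (k + i) p := by
  obtain ⟨z, hz, hzR⟩ := h1
  have hs := side_pos V
  have hR' : (R : ℝ) ≤ 2 ^ k := by exact_mod_cast hR
  have e : (2 : ℝ) ^ (-((k + 2 : ℕ) : ℤ)) * (4 * 2 ^ k) = 1 := by
    rw [zpow_neg, zpow_natCast, pow_add]; field_simp; norm_num
  have e0 : (0 : ℝ) < 2 ^ (-((k + 2 : ℕ) : ℤ)) := by positivity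
  have h3 : 2 ^ k ≤ V.side := by
    by_contra hc
    refine h2 ?_
    unfold InW rad
    rw [(center_sc _ _).1, side_sc, norm_mul, Complex.norm_real, Real.norm_eq_abs, abs_of_pos e0,
      ← e, mul_div_assoc, ← mul_add]
    have a1 := norm_sub_center hz
    have a2 := norm_le_norm_add_norm_sub z V.center
    have a3 : (0 : ℝ) < 2 ^ k := by positivity
    exact mul_le_mul_of_nonneg_left (by linarith [not_le.1 hc]) e0.le
  have h4 : V.n ≤ -k := n_le_of_side_le (S := ⟨-k, 0, 0⟩) (by simpa [Sq.side] using h3)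
  obtain ⟨a1, a2, a3, a4⟩ := hz
  have b1 := abs_le.1 ((Complex.abs_re_le_norm z).trans hzR)
  have b2 := abs_le.1 ((Complex.abs_im_le_norm z).trans hzR)
  have c1 : V.i ≤ 1 := int_le_of hs (by push_cast; linarith)
  have c2 : -1 ≤ V.i + 1 := int_le_of hs (by push_cast; linarith)
  have c3 : V.j ≤ 1 := int_le_of hs (by push_cast; linarith)
  have c4 : -1 ≤ V.j + 1 := int_le_of hs (by push_cast; linarith)
  exact ⟨(-V.n - k).toNat, (⟨(V.i + 2).toNat, by omega⟩, ⟨(V.j + 2).toNat, by omega⟩),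
    Sq.ext' (by simp only [big]; omega) (by simp only [big]; omega) (by simp only [big]; omega)⟩

theorem mu_Eb (hh : CG h P gffCov) (hQ : 0 < Q) (j : ℕ) (p : Fin 4 × Fin 4) :
    P.prod volume (EV Q h (Eb (big j p))) ≤
      ee (-(Q ^ 2 * log 2 / 2) * j + (6 * Q ^ 2 * log 2 - log Q)) := by
  have hL := log2pos
  set V := big j p with hV
  set A := anc O 1 with hA
  have hVn : (V.n : ℝ) = -j := by simp [hV, big]
  have hAn : (A.n : ℝ) = -1 := by simp [hA, anc, O]
  have h1 := (hh.incr (fun _ : Unit => A) V).mgf1' () Q (Q * (Q * ((1 - j) * log 2)) - log Q)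
  rw [Measure.prod_apply (meas_EV hh (meas_Eb V))]
  refine (lintegral_mono fun ω => ?_).trans (h1.le.trans (ee_mono ?_))
  · refine (measure_mono (t := Ico (lm Q (fun S => h S ω) V) (lm Q (fun S => h S ω) A))
      fun u hu => ⟨hu.1, not_le.1 hu.2⟩).trans ?_
    rw [Real.volume_Ico]
    refine (ofReal_le_ee hQ).trans (ee_mono (le_of_eq ?_))
    simp only [lm, hVn, hAn]; ring
  · have hs := side_pos V
    have hVs : V.side = 2 ^ j := by simp [hV, big, Sq.side]
    have hAs : A.side = 2 := by simp [hA, anc, O, Sq.side]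
    have h2 : (1 : ℝ) ≤ 2 ^ j := one_le_pow₀ one_le_two
    have a1 := norm_center_le V
    have a2 := norm_center_le A
    have a3 := mul_le_mul_of_nonneg_right (big_abs j p) hs.le
    have a4 : |(A.i : ℝ)| + |(A.j : ℝ)| = 0 := by simp [hA, anc, O]
    have a5 := norm_sub_le A.center V.center
    have a6 := norm_nonneg V.center
    have a7 := norm_nonneg A.center
    have a8 := rad_pos V
    have a9 := rad_pos A
    rw [a4, hAs] at a2
    have b1 := kk_le (S := A) (T := A) (rad_pos A) (Or.inl le_rfl)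
    have b2 := kk_le (S := V) (T := V) (rad_pos V) (Or.inl le_rfl)
    have b3 := le_kk (S := A) (T := V) (y := 2 ^ (j + 4)) (by rw [pow_add]; linarith)
      (by rw [pow_add]; linarith)
    have b4 := le_kk (S := V) (T := A) (y := 2 ^ (j + 4)) (by rw [pow_add]; linarith)
      (by rw [pow_add, norm_sub_rev]; linarith)
    rw [log_rad] at b1 b2
    rw [log_pow] at b3 b4
    simp only [gffCov_eq]
    rw [hAn] at b1
    rw [hVn] at b2
    push_cast at b3 b4
    have := mul_le_mul_of_nonneg_left (show kk A A - kk A V - kk V A + kk V V ≤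
      j * log 2 + 10 * log 2 by linarith) (sq_nonneg Q)
    nlinarith

theorem abs_Eb (hh : CG h P gffCov) (hQ : 0 < Q) : ∃ B, ∀ (l : ℝ) (j N : ℕ) (p : Fin 4 × Fin 4),
    N < j + 3 → P {ω | Eb (big j p) (DD Q (fun S => h S ω) l ∘ sc (N + 1 : ℕ))} ≤
      ee (5 / 8 * Q * l + (-(3 / 32 * Q ^ 2 * log 2) * j + B)) := by
  have hL := log2pos
  refine ⟨Q ^ 2 * (log 6 + 6 * log 2), fun l j N p hN => ?_⟩
  obtain ⟨k, hk⟩ : ∃ k, j + 2 = N + k := ⟨j + 2 - N, by omega⟩
  have hk' : (j : ℝ) + 2 = N + k := by exact_mod_cast hk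
  set W := sc (N + 1 : ℕ) (big j p) with hW
  have hWn : W.n = 3 - k := by simp only [hW, sc, big]; omega
  have hA : sc (N + 1 : ℕ) (anc O 1) = ⟨N, 0, 0⟩ := by apply Sq.ext' <;> simp [sc, anc, O]
  have v1 := var_up (U := W) hWn (big_abs j p)
  have v2 := var_corner N
  have v3 : log (max ((4 + 2) * 2 ^ (-(3 : ℤ))) 1) ≤ log 6 :=
    log_le_log (by positivity) (by norm_num)
  have v4 : 0 ≤ log 6 := log_nonneg (by norm_num)
  have e1 := (measure_mono (s := {ω | Eb (big j p) (DD Q (fun S => h S ω) l ∘ sc (N + 1 : ℕ))})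
    fun ω hω => by
      have := hω.1
      simp only [Function.comp, DD, lm, ← hW, hWn] at this
      show h W ω ≤ l + Q * ((3 - k) * log 2)
      push_cast at this; linarith).trans (hh.tail_le W hQ.le _)
  have e2 := (measure_mono (s := {ω | Eb (big j p) (DD Q (fun S => h S ω) l ∘ sc (N + 1 : ℕ))})
    fun ω hω => by
      have := hω.2
      simp only [Function.comp, DD, lm, hA, not_le] at this
      show l + Q * (N * log 2) ≤ h ⟨N, 0, 0⟩ ω
      push_cast at this; linarith).trans (hh.tail_ge ⟨N, 0, 0⟩ (half_pos hQ).le _)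
  refine (ee_mix e1 e2).trans (ee_mono ?_)
  have q := sq_nonneg Q
  have w1 := mul_le_mul_of_nonneg_left (show gffCov W W ≤ k * log 2 + 2 * log 6 + 4 * log 2 by
    push_cast at v1; linarith) q
  have w2 := mul_le_mul_of_nonneg_left v2 q
  have w3 : 0 ≤ Q ^ 2 * (k * log 2) := by positivity
  have w4 : 0 ≤ Q ^ 2 * log 2 := by positivity
  have w5 : 0 ≤ Q ^ 2 * log 6 := by positivity
  have w6 : Q ^ 2 * log 2 * j = Q ^ 2 * (N * log 2) + Q ^ 2 * (k * log 2) - 2 * (Q ^ 2 * log 2) := by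
    linear_combination Q ^ 2 * log 2 * hk'
  nlinarith

/-- the total measure of the bad large squares -/
noncomputable def er (Q : ℝ) (h : Sq → Ω → ℝ) (P : Measure Ω) (k : ℕ) : ℝ≥0∞ :=
  ∑' q : ℕ × Fin 4 × Fin 4, P.prod volume (EV Q h (Eb (big (k + q.1) q.2)))

theorem er_lim (hh : CG h P gffCov) (hQ : 0 < Q) : Tendsto (er Q h P) atTop (𝓝 0) := by
  have hη : 0 < Q ^ 2 * log 2 / 2 := by have := log2pos; positivity
  have h1 := ENNReal.Tendsto.const_mul (a := 16 * ∑' i : ℕ, ee (-(Q ^ 2 * log 2 / 2) * i))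
    (tendsto_ee hη (6 * Q ^ 2 * log 2 - log Q))
    (Or.inr (ENNReal.mul_ne_top (by simp) (tsum_ee hη)))
  rw [mul_zero] at h1
  refine tendsto_of_tendsto_of_tendsto_of_le_of_le tendsto_const_nhds h1 (fun _ => zero_le)
    fun k => (ENNReal.tsum_le_tsum fun q => mu_Eb hh hQ _ _).trans (le_of_eq ?_)
  rw [ENNReal.tsum_prod', mul_assoc (16 : ℝ≥0∞), ← ENNReal.tsum_mul_right, ← ENNReal.tsum_mul_left]
  refine tsum_congr fun i => ?_
  rw [tsum_fintype, ← ee_add]
  simp only [Finset.sum_const, Finset.card_univ, Fintype.card_prod, Fintype.card_fin, nsmul_eq_mul]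
  push_cast
  congr 2
  ring

theorem split {R k : ℕ} (hR : R ≤ 2 ^ k) {B : (Sq → Prop) → Prop} (hl : LocR R B)
    (D : Sq → Prop) (hD : ¬ D (anc O 1)) :
    (∃ q : ℕ × Fin 4 × Fin 4, Eb (big (k + q.1) q.2) D) ∨ (B D ↔ B (cut (k + 2) D)) := by
  refine or_iff_not_imp_left.2 fun hn => ?_
  have key : ∀ V, Touch R V → (D V ↔ cut (k + 2) D V) := fun V hV => by
    refine ⟨fun h1 => ⟨h1, by_contra fun h2 => ?_⟩, fun h1 => h1.1⟩
    obtain ⟨i, p, rfl⟩ := touch_big hR hV h2
    exact hn ⟨(i, p), h1, hD⟩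
  exact ⟨hl _ _ key, hl _ _ fun V hV => (key V hV).symm⟩

theorem err_sum (hh : CG h P gffCov) (hQ : 0 < Q) : ∃ C G : ℝ≥0∞, C ≠ ∞ ∧ G ≠ ∞ ∧ ∀ (k : ℕ) (l : ℝ),
    ∑' m : ℕ, ∑' q : ℕ × Fin 4 × Fin 4, P {ω | Eb (big (k + q.1) q.2)
      (DD Q (fun S => h S ω) l ∘ sc (k + 2 + m + 1 : ℕ))} ≤ C * er Q h P k + G * ee (5 / 8 * Q * l) := by
  obtain ⟨C, hC0, hC⟩ := win_le hQ
  obtain ⟨B, hB⟩ := abs_Eb hh hQ
  set a := 3 / 32 * Q ^ 2 * log 2 with ha
  have ha0 : 0 < a / 2 := by have := log2pos; positivity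
  refine ⟨C, 16 * (∑' i : ℕ, ee (-(a / 2) * i)) * ee (a / 2 * 3 - log (a / 2) + B), hC0,
    ENNReal.mul_ne_top (ENNReal.mul_ne_top (by simp) (tsum_ee ha0)) (ee_ne_top _), fun k l => ?_⟩
  have key : ∀ (j : ℕ) (p : Fin 4 × Fin 4), ∑' N : ℕ, P {ω | Eb (big j p)
      (DD Q (fun S => h S ω) l ∘ sc (N + 1 : ℕ))} ≤ C * P.prod volume (EV Q h (Eb (big j p))) +
      ee (-(a / 2) * j) * ee (a / 2 * 3 - log (a / 2) + B) * ee (5 / 8 * Q * l) := fun j p => by
    have e : ∀ D, Eb (big j p) (cut (j + 3) D) ↔ Eb (big j p) D := fun D => by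
      simp only [Eb, cut, inW_big, inW_par (j + 1), and_true]
    have h1 := hC hh (j + 3) (meas_Eb (big j p)) l
    simp only [WS, e] at h1
    rw [← (ENNReal.summable.sum_add_tsum_nat_add' (k := j + 3)), add_comm]
    refine add_le_add (le_of_eq_of_le (tsum_congr fun m => ?_) h1) ?_
    · congr 5; push_cast; ring_nf
    · refine (Finset.sum_le_card_nsmul _ _ _ fun N hN => hB l j N p (Finset.mem_range.1 hN)).trans ?_
      rw [Finset.card_range, nsmul_eq_mul, ← ENNReal.ofReal_natCast]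
      refine (mul_le_mul_left (ofReal_le_ee ha0) _).trans ?_
      simp only [← ee_add]
      exact ee_mono (le_of_eq (by push_cast; ring))
  rw [ENNReal.tsum_comm]
  calc _ ≤ ∑' q : ℕ × Fin 4 × Fin 4, (C * P.prod volume (EV Q h (Eb (big (k + q.1) q.2))) +
        ee (-(a / 2) * q.1) * ee (a / 2 * 3 - log (a / 2) + B) * ee (5 / 8 * Q * l)) := by
        refine ENNReal.tsum_le_tsum fun q => le_trans ?_ ((key (k + q.1) q.2).trans ?_)
        · exact ENNReal.tsum_comp_le_tsum_of_injective (f := fun m : ℕ => k + 2 + m)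
            (add_right_injective _) fun N => P {ω | Eb (big (k + q.1) q.2)
              (DD Q (fun S => h S ω) l ∘ sc (N + 1 : ℕ))}
        · gcongr
          exact ee_mono (by push_cast; nlinarith [k.cast_nonneg (α := ℝ)])
    _ = _ := by
        rw [ENNReal.tsum_add, ENNReal.tsum_mul_left, ENNReal.tsum_mul_right, ENNReal.tsum_mul_right,
          ENNReal.tsum_prod' (f := fun q : ℕ × Fin 4 × Fin 4 => ee (-(a / 2) * q.1)),
          ← ENNReal.tsum_mul_left (a := 16)]
        congr 3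
        refine tsum_congr fun i => ?_
        rw [tsum_fintype]
        simp

end UL

open UL

variable {Ω : Type*} {mΩ : MeasurableSpace Ω} {P : Measure Ω} {h : Sq → Ω → ℝ} {Q : ℝ}

theorem lb (hh : CG h P gffCov) (hQ : 0 < Q) {R : ℕ} {B : (Sq → Prop) → Prop} (hB : Measurable B)
    (hl : LocR R B) (ht : ∀ D, B D → tile D O) :
    P.prod volume (EV Q h B) / ENNReal.ofReal (Q * log 2) ≤
      liminf (fun l => P {ω | ∃ N, B (DD Q (fun S => h S ω) l ∘ sc N)}) atBot := by
  have := hh.prob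
  obtain ⟨C, G, hC, hG, he⟩ := err_sum hh hQ
  set c := ENNReal.ofReal (Q * log 2) with hc
  have hc0 : c ≠ 0 := by have := mul_pos hQ log2pos; simpa [hc] using this
  have hm : ∀ (l : ℝ) (N : ℤ) {B : (Sq → Prop) → Prop}, Measurable B →
      MeasurableSet {ω | B (DD Q (fun S => h S ω) l ∘ sc N)} := fun l N B hB =>
    measurableSet_setOfPred.2 (hB.comp ((measurable_pi_lambda _ fun S => meas_apply _).comp
      ((meas_DD Q).comp (hh.measPi.prodMk measurable_const))))
  have t0 : Tendsto (fun l => G * ee (5 / 8 * Q * l)) atBot (𝓝 0) := by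
    have h1 : Tendsto (fun l => ee (5 / 8 * Q * l)) atBot (𝓝 0) := by
      simpa [ee] using ENNReal.tendsto_ofReal (Real.tendsto_exp_atBot.comp
        (tendsto_id.const_mul_atBot (show 0 < 5 / 8 * Q by positivity)))
    simpa using ENNReal.Tendsto.const_mul h1 (Or.inr hG)
  have t1 : Tendsto (fun k => liminf (fun l => P {ω | ∃ N, B (DD Q (fun S => h S ω) l ∘ sc N)})
      atBot + C * er Q h P k + er Q h P k / c) atTop (𝓝 (_ + C * 0 + 0 / c)) :=
    (tendsto_const_nhds.add (ENNReal.Tendsto.const_mul (er_lim hh hQ) (Or.inr hC))).add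
      (ENNReal.Tendsto.div_const (er_lim hh hQ) (Or.inr hc0))
  simp only [mul_zero, add_zero, ENNReal.zero_div] at t1
  refine ge_of_tendsto t1 ?_
  filter_upwards [eventually_ge_atTop R] with k hk
  have hR : R ≤ 2 ^ k := hk.trans Nat.lt_two_pow_self.le
  have s1 : P.prod volume (EV Q h B) ≤
      P.prod volume (EV Q h fun D => B (cut (k + 2) D)) + er Q h P k := by
    refine le_trans (measure_mono fun p hp => ?_) ((measure_union_le _ _).trans
      (add_le_add le_rfl (measure_iUnion_le _)))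
    rcases split hR hl _ ((ht _ hp).2 0) with h1 | h1
    · exact .inr (mem_iUnion.2 h1)
    · exact .inl (h1.1 hp)
  have s2 : ∀ l, WS Q h P (k + 2) B l ≤ P {ω | ∃ N, B (DD Q (fun S => h S ω) l ∘ sc N)} +
      C * er Q h P k + G * ee (5 / 8 * Q * l) := fun l => by
    rw [add_assoc]
    refine le_trans ?_ (add_le_add (?_ : ∑' m : ℕ, P {ω | B (DD Q (fun S => h S ω) l ∘
      sc (k + 2 + m + 1 : ℕ))} ≤ _) (he k l))
    · rw [← ENNReal.tsum_add]
      refine ENNReal.tsum_le_tsum fun m => le_trans (measure_mono fun ω hω => ?_)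
        ((measure_union_le _ _).trans (add_le_add le_rfl (measure_iUnion_le _)))
      have e : ((k + 2 : ℕ) : ℤ) + m + 1 = (k + 2 + m + 1 : ℕ) := by push_cast; ring
      rw [mem_ofPred_eq, e] at hω
      rcases split hR hl _ (fun h1 => (ht _ hω).2 0 ⟨h1, inW_par k⟩) with h1 | h1
      · exact .inr (mem_iUnion.2 h1)
      · exact .inl (h1.2 hω)
    · rw [← measure_iUnion (fun m m' hne => disjoint_left.2 fun ω h1 h2 => hne ?_)
        fun m => hm l _ hB]
      · exact measure_mono (iUnion_subset fun m ω hω => ⟨_, hω⟩)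
      · have a1 := tile_sc.1 (ht _ h1)
        have a2 := tile_sc.1 (ht _ h2)
        rw [sc_O] at a1 a2
        have := tile_corner a1 a2
        omega
  calc _ ≤ P.prod volume (EV Q h fun D => B (cut (k + 2) D)) / c + er Q h P k / c := by
        rw [← ENNReal.add_div]; gcongr
    _ ≤ _ := by
        refine add_le_add ((win_liminf hh hQ _ hB).trans ((liminf_le_liminf (.of_forall s2)).trans
          (le_of_eq ?_))) le_rfl
        exact (ENNReal.liminf_add_of_right_tendsto_zero t0 _).trans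
          (liminf_add_const atBot _ _ (by isBoundedDefault) (by isBoundedDefault))

theorem loc_tile : LocR 0 fun D => tile D O := fun D D' e hD => by
  have h0 : ∀ k, Touch 0 (anc O k) := fun k =>
    ⟨0, carrier_sub_anc O k (by simp [Sq.carrier, O, Sq.side]), by simp⟩
  exact ⟨(e O (by simpa using h0 0)).1 hD.1, fun k h1 => hD.2 k ((e _ (h0 _)).2 h1)⟩

theorem mu_tile_le (hh : CG h P gffCov) (hQ : 0 < Q) :
    P.prod volume (EV Q h fun D => tile D O) ≤ ENNReal.ofReal (Q * log 2) := by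
  have := hh.prob
  have h1 := (lb hh hQ (meas_tile O) loc_tile fun _ => id).trans
    (liminf_le_of_frequently_le' (.of_forall fun _ => prob_le_one))
  rwa [ENNReal.div_le_iff (by have := mul_pos hQ log2pos; simpa using this) ENNReal.ofReal_ne_top,
    one_mul] at h1

end Pool.Agent.Lib.MP_d1f1b2_pr
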