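import Pool.Agent.Lib.D1W.Slice
import Pool.Agent.Lib.D1W.Iso
import Pool.Agent.Lib.MP_d1f1b2_pr.Cov

/-! Decomposition of the circle averages of the free field into independent scales. -/

open Set Filter MeasureTheory ProbabilityTheory Real Metric
open scoped RealInnerProductSpace

namespace Pool.Agent.Lib.MP_d1f1b2_pr

theorem memLp_slice {f : ℝ × ℂ → ℝ} (hf : Measurable f)
    (h1 : ∀ s, Integrable fun x => f (s, x) * f (s, x))
    (h2 : Integrable fun s => ∫ x, f (s, x) * f (s, x)) : MemLp f 2 (volume.prod volume) := by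
  rw [memLp_two_iff_integrable_sq hf.aestronglyMeasurable]
  simp only [sq]
  refine (integrable_prod_iff (hf.mul hf).aestronglyMeasurable).2 ⟨Eventually.of_forall h1, ?_⟩
  simpa only [Pi.mul_apply, Real.norm_eq_abs, abs_mul_self] using h2

theorem inner_slice {f g : ℝ × ℂ → ℝ} (hf : MemLp f 2 (volume.prod volume))
    (hg : MemLp g 2 (volume.prod volume)) :
    ⟪hf.toLp f, hg.toLp g⟫ = ∫ s, ∫ x, f (s, x) * g (s, x) := by
  rw [← integral_prod (fun y => f y * g y) (hf.integrable_mul hg), L2.inner_def]
  refine integral_congr_ae ?_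
  filter_upwards [hf.coeFn_toLp, hg.coeFn_toLp] with y h1 h2
  rw [h1, h2]
  simp [mul_comm]

/-- The part of the vector of a curve on the scales above `m`. -/
noncomputable def Cv.e (a : Cv) (m : ℝ) (q : ℝ × ℂ) : ℝ := if m < q.1 then a.F q.1 q.2 else 0

/-- The part of the difference of the vectors of two curves on the scales below zero. -/
noncomputable def Cv.u (a o : Cv) (q : ℝ × ℂ) : ℝ :=
  if q.1 ≤ 0 then a.F q.1 q.2 - o.F q.1 q.2 else 0

theorem Cv.ee_eq (a b : Cv) (m m' s : ℝ) : (fun x => a.e m (s, x) * b.e m' (s, x)) =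
    fun x => (Ioi (max m m')).indicator 1 s * (a.F s x * b.F s x) := by
  funext x
  by_cases h1 : m < s <;> by_cases h2 : m' < s <;> simp [Cv.e, indicator, h1, h2]

theorem Cv.int_ee (a b : Cv) (m m' s : ℝ) : ∫ x, a.e m (s, x) * b.e m' (s, x) =
    (Ioi (max m m')).indicator (a.k b) s := by
  rw [Cv.ee_eq, integral_const_mul, Cv.slice]
  by_cases h : s ∈ Ioi (max m m') <;> simp [h]

theorem Cv.uu_eq (a b o : Cv) (s : ℝ) : (fun x => a.u o (s, x) * b.u o (s, x)) =
    fun x => (Iic 0).indicator 1 s *
      (a.F s x * b.F s x - a.F s x * o.F s x - o.F s x * b.F s x + o.F s x * o.F s x) := by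
  funext x
  by_cases h1 : s ≤ 0 <;> simp [Cv.u, indicator, h1]
  ring

theorem Cv.int4 (a b o : Cv) (s : ℝ) : Integrable fun x =>
    a.F s x * b.F s x - a.F s x * o.F s x - o.F s x * b.F s x + o.F s x * o.F s x :=
  (((a.int_FF b s).sub (a.int_FF o s)).sub (o.int_FF b s)).add (o.int_FF o s)

theorem Cv.int_uu (a b o : Cv) (s : ℝ) : ∫ x, a.u o (s, x) * b.u o (s, x) = (Iic 0).indicator
    (fun s => -(1 - a.k b s) + (1 - a.k o s) + (1 - o.k b s) - (1 - o.k o s)) s := by
  have i1 : Integrable fun x => a.F s x * b.F s x - a.F s x * o.F s x :=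
    (a.int_FF b s).sub (a.int_FF o s)
  have i2 : Integrable fun x => a.F s x * b.F s x - a.F s x * o.F s x - o.F s x * b.F s x :=
    i1.sub (o.int_FF b s)
  rw [Cv.uu_eq, integral_const_mul, integral_add i2 (o.int_FF o s), integral_sub i1 (o.int_FF b s),
    integral_sub (a.int_FF b s) (a.int_FF o s)]
  simp only [Cv.slice]
  by_cases h : s ∈ Iic (0 : ℝ) <;> simp [h]
  ring

theorem Cv.intOn4 (a b o : Cv) : IntegrableOn
    (fun s => -(1 - a.k b s) + (1 - a.k o s) + (1 - o.k b s) - (1 - o.k o s)) (Iic 0) :=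
  (((a.intOn_one_sub b 0).neg.add (a.intOn_one_sub o 0)).add (o.intOn_one_sub b 0)).sub
    (o.intOn_one_sub o 0)

theorem Cv.mem_e {a : Cv} (h : a.En a) (m : ℝ) : MemLp (a.e m) 2 (volume.prod volume) := by
  refine memLp_slice (Measurable.ite (measurableSet_lt measurable_const measurable_fst) a.meas_F
    measurable_const) (fun s => ?_) ?_
  · rw [Cv.ee_eq]; exact (a.int_FF a s).const_mul _
  · simp only [Cv.int_ee]
    exact (h.intOn _).integrable_indicator measurableSet_Ioi

theorem Cv.mem_u (a o : Cv) : MemLp (a.u o) 2 (volume.prod volume) := by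
  refine memLp_slice (Measurable.ite (measurableSet_le measurable_fst measurable_const)
    (a.meas_F.sub o.meas_F) measurable_const) (fun s => ?_) ?_
  · rw [Cv.uu_eq]; exact (a.int4 a o s).const_mul _
  · simp only [Cv.int_uu]
    exact (a.intOn4 a o).integrable_indicator measurableSet_Iic

/-- The circle inscribed in a square. -/
noncomputable def cv (S : Sq) : Cv where
  p := circleMap S.center (rad S)
  meas := (continuous_circleMap _ _).measurable
  bd := ⟨‖S.center‖ + rad S, fun θ => by
    have := norm_le_norm_add_norm_sub' (circleMap S.center (rad S) θ) S.center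
    rwa [circleMap_sub_center, norm_circleMap_zero, abs_of_pos (rad_pos S)] at this⟩

theorem cv_dist (S : Sq) (θ : ℝ) : ‖(cv S).p θ - S.center‖ = rad S := by
  rw [cv, circleMap_sub_center, norm_circleMap_zero, abs_of_pos (rad_pos S)]

theorem inner_log (T : Sq) (z : ℂ) :
    ∫ θ, log ‖z - (cv T).p θ‖ ∂Th = log (max (rad T) ‖z - T.center‖) := by
  simp only [norm_sub_rev z]
  rw [← avg_log (rad_pos T), avg_eq]
  rfl

theorem int_log (T : Sq) (z : ℂ) : Integrable (fun θ => log ‖z - (cv T).p θ‖) Th := by
  simp only [norm_sub_rev z]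
  exact int_Th (circleIntegrable_log_norm_sub_const _)

theorem cv_En (S T : Sq) : (cv S).En (cv T) := by
  have h1 := (cv S).meas
  have h2 := (cv T).meas
  have hm : Measurable fun y : ℝ × ℝ => log ‖(cv S).p y.1 - (cv T).p y.2‖ := by fun_prop
  constructor
  · refine (Measure.ae_prod_iff_ae_ae (measurableSet_lt measurable_const (by fun_prop))).2
      (Eventually.of_forall fun θ => ?_)
    have hc := ((countable_singleton ((cv S).p θ)).preimage_circleMap T.center
      (rad_pos T).ne').measure_zero (volume.restrict (Ioc 0 (2 * π)))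
    refine Measure.ae_smul_measure (measure_mono_null (fun θ' h => ?_) hc) _
    have h3 : ¬ 0 < ‖(cv S).p θ - (cv T).p θ'‖ := h
    rw [norm_pos_iff, not_not, sub_eq_zero] at h3
    exact h3.symm
  · obtain ⟨D, hD0, hD⟩ := (cv S).exists_D (cv T)
    refine (integrable_prod_iff hm.aestronglyMeasurable).2
      ⟨Eventually.of_forall fun θ => int_log T ((cv S).p θ), Integrable.of_bound
        hm.norm.stronglyMeasurable.integral_prod_right'.aestronglyMeasurable
        (2 * |log D| - log (rad T)) (Eventually.of_forall fun θ => ?_)⟩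
    rw [Real.norm_eq_abs, abs_of_nonneg (integral_nonneg fun _ => norm_nonneg _)]
    have h3 := integral_mono (int_log T ((cv S).p θ)).norm
      ((integrable_const (2 * |log D|)).sub (int_log T ((cv S).p θ))) fun θ' => by
        have h4 : log ‖(cv S).p θ - (cv T).p θ'‖ ≤ |log D| := by
          rcases (norm_nonneg ((cv S).p θ - (cv T).p θ')).eq_or_lt with h | h
          · rw [← h, log_zero]; exact abs_nonneg _
          · exact (log_le_log h (hD _ _)).trans (le_abs_self _)
        simp only [Pi.sub_apply, Real.norm_eq_abs]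
        exact abs_le.2 ⟨by linarith [abs_nonneg (log D)], by linarith⟩
    simp only [Pi.sub_apply] at h3
    rw [integral_sub (integrable_const _) (int_log T _), inner_log] at h3
    have h5 := log_le_log (rad_pos T) (le_max_left _ ‖(cv S).p θ - T.center‖)
    simp only [integral_const, probReal_univ, smul_eq_mul, one_mul] at h3
    linarith

theorem energy_eq (S T : Sq) :
    ∫ y : ℝ × ℝ, log ‖(cv S).p y.1 - (cv T).p y.2‖ ∂(Th.prod Th) = -kk S T := by
  rw [integral_prod _ (cv_En S T).int]
  simp only [inner_log]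
  rw [kk, kc, neg_neg, avg_eq]
  rfl

/-- The covariance density at scale `s`. -/
noncomputable def kS (S T : Sq) (s : ℝ) : ℝ := (cv S).k (cv T) s

/-- The covariance carried by the scales above `m`. -/
noncomputable def kap (S T : Sq) (m : ℝ) : ℝ := ∫ s in Ioi m, kS S T s

/-- The defect carried by the scales below zero. -/
noncomputable def tau (S T : Sq) : ℝ := ∫ s in Iic 0, (1 - kS S T s)

theorem kap_sub_tau (S T : Sq) : kap S T 0 - tau S T = kk S T + c0 := by
  have := (cv_En S T).ident
  rwa [energy_eq, neg_neg] at this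

/-- The covariance of the decomposed field: `inl (S, m)` is the part of the average over the circle
of `S` carried by discs of radius less than `2 ^ (-m)`, and `inr S` is the part of the increment
from `O` to `S` carried by discs of radius at least one. -/
noncomputable def cW : (Sq × ℕ) ⊕ Sq → (Sq × ℕ) ⊕ Sq → ℝ
  | .inl p, .inl q => kap p.1 q.1 ((max p.2 q.2 : ℕ) * log 2)
  | .inr S, .inr T => -tau S T + tau S O + tau O T - tau O O
  | _, _ => 0

theorem exists_W : ∃ X : (Sq × ℕ) ⊕ Sq → (ℕ → ℝ) → ℝ, CG X PW cW := by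
  have : Countable Sq := Function.Injective.countable (f := fun S : Sq => (S.n, S.i, S.j))
    fun S T h => by
      simp only [Prod.mk.injEq] at h
      exact Sq.ext' h.1 h.2.1 h.2.2
  obtain ⟨X, hX⟩ := exists_CG_gram (T := (Sq × ℕ) ⊕ Sq)
    (Sum.elim (fun p => (Cv.mem_e (cv_En p.1 p.1) (p.2 * log 2)).toLp _)
      fun S => ((cv S).mem_u (cv O)).toLp _)
  have hz : ∀ (S T : Sq) (m : ℕ) (s : ℝ) (x : ℂ),
      (cv S).e (m * log 2) (s, x) * (cv T).u (cv O) (s, x) = 0 := fun S T m s x => by
    have : 0 ≤ m * log 2 := mul_nonneg m.cast_nonneg (log_nonneg one_le_two)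
    by_cases h : s ≤ 0
    · simp [Cv.e, not_lt.2 (h.trans this)]
    · simp [Cv.u, h]
  refine ⟨X, hX.congr ?_⟩
  rintro (p | S) (q | T) <;> simp only [Sum.elim_inl, Sum.elim_inr, inner_slice, cW]
  · simp only [Cv.int_ee]
    rw [integral_indicator measurableSet_Ioi, Nat.cast_max,
      max_mul_of_nonneg _ _ (log_nonneg one_le_two)]
    rfl
  · simp [hz]
  · simp [mul_comm ((cv S).u _ _), hz]
  · have i1 := (cv S).intOn_one_sub (cv T) 0
    have i2 := (cv S).intOn_one_sub (cv O) 0
    have i3 := (cv O).intOn_one_sub (cv T) 0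
    have j1 : IntegrableOn (fun s => -(1 - (cv S).k (cv T) s)) (Iic 0) := i1.neg
    have j2 : IntegrableOn (fun s => -(1 - (cv S).k (cv T) s) + (1 - (cv S).k (cv O) s)) (Iic 0) :=
      j1.add i2
    have j3 : IntegrableOn (fun s => -(1 - (cv S).k (cv T) s) + (1 - (cv S).k (cv O) s) +
      (1 - (cv O).k (cv T) s)) (Iic 0) := j2.add i3
    simp only [Cv.int_uu]
    rw [integral_indicator measurableSet_Iic, integral_sub j3 ((cv O).intOn_one_sub (cv O) 0),
      integral_add j2 i3, integral_add j1 i2, integral_neg]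
    rfl

/-- The sum of the parts has the law of the increments of the field. -/
theorem CG_sum {Ω : Type*} {mΩ : MeasurableSpace Ω} {P : Measure Ω}
    {X : (Sq × ℕ) ⊕ Sq → Ω → ℝ} (h : CG X P cW) :
    CG (fun S ω => X (.inr S) ω + X (.inl (S, 0)) ω - X (.inl (O, 0)) ω) P
      fun S T => kk S T - kk S O - kk O T + kk O O := by
  have h1 := h.lin (fun S : Sq => ![.inr S, .inl (S, 0), .inl (O, 0)]) fun _ => ![1, 1, -1]
  simp only [Fin.sum_univ_three, Matrix.cons_val_zero, Matrix.cons_val_one, Matrix.cons_val_two,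
    Matrix.head_cons, Matrix.tail_cons, one_mul, neg_mul, ← sub_eq_add_neg] at h1
  refine h1.congr fun S T => ?_
  have e1 := kap_sub_tau S T
  have e2 := kap_sub_tau S O
  have e3 := kap_sub_tau O T
  have e4 := kap_sub_tau O O
  simp only [cW, max_self, Nat.cast_zero, zero_mul]
  linarith

end Pool.Agent.Lib.MP_d1f1b2_pr
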